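import Pool.Agent.Lib.MP_ad30dc_co.D

namespace MP_ad30dc_co

/-- ROW A1a (a minimal set with small boundary). The set `univ` has empty boundary. Take a nonempty
`T` with `|bdry G T| ≤ m` of minimal cardinality. -/
theorem minimal_set {V : Type*} [Fintype V] [DecidableEq V] [Nonempty V] (G : V → V → Prop)
    (m : ℕ) :
    ∃ T : Finset V, T.Nonempty ∧ (bdry G T).card ≤ m ∧
      ∀ T' : Finset V, T' ⊂ T → T'.Nonempty → m < (bdry G T').card := by
  classical
  have hex : ∃ c : ℕ, ∃ T : Finset V, T.Nonempty ∧ (bdry G T).card ≤ m ∧ T.card = c := by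
    refine ⟨_, Finset.univ, Finset.univ_nonempty, ?_, rfl⟩
    have h0 : bdry G (Finset.univ : Finset V) = ∅ := by
      ext w
      simp
    rw [h0]
    simp
  obtain ⟨T, hT, hb, hc⟩ := Nat.find_spec hex
  refine ⟨T, hT, hb, fun T' hT' hne => ?_⟩
  by_contra hcon
  have h1 : T'.card < T.card := Finset.card_lt_card hT'
  rw [hc] at h1
  exact Nat.find_min hex h1 ⟨T', hne, by omega, rfl⟩

/-- ROW A1b. `out G univ v ⊆ out G T v ∪ bdry G T` for `v ∈ T`. -/
theorem deg_in {V : Type*} [Fintype V] [DecidableEq V] (G : V → V → Prop) (m d : ℕ)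
    (T : Finset V) (hT : (bdry G T).card ≤ m) (v : V) (hv : v ∈ T)
    (hd : d ≤ (out G Finset.univ v).card) : d - m ≤ (out G T v).card := by
  classical
  have h1 : out G Finset.univ v ⊆ out G T v ∪ bdry G T := by
    intro w hw
    rw [mem_out] at hw
    rw [Finset.mem_union, mem_out, mem_bdry]
    by_cases hwT : w ∈ T
    · exact Or.inl ⟨hwT, hw.2⟩
    · exact Or.inr ⟨hwT, v, hv, hw.2⟩
  have h2 := (Finset.card_le_card h1).trans (Finset.card_union_le _ _)
  omega

private theorem A1_one {V : Type*} [Fintype V] [DecidableEq V] (G : V → V → Prop) (m : ℕ)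
    (T : Finset V)
    (hmin : ∀ T' : Finset V, T' ⊂ T → T'.Nonempty → m < (bdry G T').card)
    (F : Finset V) (hF : F.Nonempty) (hFT : F ⊆ T) (p : V) (hp : p ∈ T) (hpF : p ∉ F)
    (B : Finset V)
    (hB : ∀ w, w ∈ B ↔ w ∈ bdry G T ∧ Relation.ReflTransGen (fun a b => G a b ∧ b ∉ F) p w) :
    m < F.card + B.card := by
  classical
  have hR : ∀ w, Relation.ReflTransGen (fun a b => G a b ∧ b ∉ F) p w → w ∉ F := by
    intro w hw
    cases hw with
    | refl => exact hpF
    | tail _ h => exact h.2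
  set T' : Finset V := T.filter
    (fun w => Relation.ReflTransGen (fun a b => G a b ∧ b ∉ F) p w) with hT'
  have hne : T'.Nonempty := ⟨p, by
    rw [hT', Finset.mem_filter]
    exact ⟨hp, Relation.ReflTransGen.refl⟩⟩
  have hss : T' ⊂ T := by
    refine ⟨Finset.filter_subset _ _, fun hsub => ?_⟩
    obtain ⟨f, hf⟩ := hF
    have h1 := hsub (hFT hf)
    rw [hT', Finset.mem_filter] at h1
    exact hR f h1.2 hf
  have hsub : bdry G T' ⊆ F ∪ B := by
    intro y hy
    rw [mem_bdry] at hy
    obtain ⟨hyT', x, hx, hxy⟩ := hy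
    rw [hT', Finset.mem_filter] at hx
    rw [Finset.mem_union]
    by_cases hyF : y ∈ F
    · exact Or.inl hyF
    · right
      have hpy := hx.2.tail ⟨hxy, hyF⟩
      rw [hB, mem_bdry]
      refine ⟨⟨fun hyT => hyT' ?_, x, hx.1, hxy⟩, hpy⟩
      rw [hT', Finset.mem_filter]
      exact ⟨hyT, hpy⟩
  have h3 := hmin T' hss hne
  have h4 := (Finset.card_le_card hsub).trans (Finset.card_union_le _ _)
  omega

/-- ROW A1c (two reachable sets meet). `F ⊆ T` is nonempty with `2 |F| ≤ m`, and `p, q ∈ T \ F`.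
Let `Rp = {v | Relation.ReflTransGen (fun a b => G a b ∧ b ∉ F) p v}` (all vertices reachable from
`p` without entering `F`), `Rq` in the same way. Claim: `Rp ∩ Rq ≠ ∅`.
Proof: otherwise one of the disjoint sets `bdry G T ∩ Rp`, `bdry G T ∩ Rq` has at most `m / 2`
elements, say the first (the other case is symmetric: prove a lemma for one `p` first, namely
`m < 2 * |bdry G T ∩ Rp|`). Put `T' = T ∩ Rp`. It contains `p`, so it is nonempty. `F` is nonempty,
`F ⊆ T` and `F ∩ Rp = ∅` (elements of `Rp` other than `p` are not in `F`, and `p ∉ F`), so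
`T' ⊂ T`. Every element `y` of `bdry G T'` is an out-neighbour of some `x ∈ T ∩ Rp`; if `y ∉ F`
then `y ∈ Rp`, and `y ∉ T'`, so `y ∉ T`, so `y ∈ bdry G T ∩ Rp`. Hence
`|bdry G T'| ≤ |F| + |bdry G T ∩ Rp| ≤ m / 2 + m / 2 ≤ m`, which contradicts the minimality. -/
theorem reach_meet {V : Type*} [Fintype V] [DecidableEq V] (G : V → V → Prop) (m : ℕ)
    (T : Finset V) (hT : (bdry G T).card ≤ m)
    (hmin : ∀ T' : Finset V, T' ⊂ T → T'.Nonempty → m < (bdry G T').card)
    (F : Finset V) (hF : F.Nonempty) (hFT : F ⊆ T) (hFm : 2 * F.card ≤ m)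
    (p q : V) (hp : p ∈ T) (hpF : p ∉ F) (hq : q ∈ T) (hqF : q ∉ F) :
    ∃ w, Relation.ReflTransGen (fun a b => G a b ∧ b ∉ F) p w ∧
      Relation.ReflTransGen (fun a b => G a b ∧ b ∉ F) q w := by
  classical
  by_contra hcon
  push Not at hcon
  set Bp : Finset V := (bdry G T).filter
    (fun w => Relation.ReflTransGen (fun a b => G a b ∧ b ∉ F) p w) with hBp
  set Bq : Finset V := (bdry G T).filter
    (fun w => Relation.ReflTransGen (fun a b => G a b ∧ b ∉ F) q w) with hBq
  have h1 := A1_one G m T hmin F hF hFT p hp hpF Bp (fun w => by rw [hBp, Finset.mem_filter])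
  have h2 := A1_one G m T hmin F hF hFT q hq hqF Bq (fun w => by rw [hBq, Finset.mem_filter])
  have hdisj : Disjoint Bp Bq := by
    rw [Finset.disjoint_left]
    intro w hw hw'
    rw [hBp, Finset.mem_filter] at hw
    rw [hBq, Finset.mem_filter] at hw'
    exact hcon w hw.2 hw'.2
  have h3 : (Bp ∪ Bq).card = Bp.card + Bq.card := Finset.card_union_of_disjoint hdisj
  have h4 : Bp ∪ Bq ⊆ bdry G T :=
    Finset.union_subset (Finset.filter_subset _ _) (Finset.filter_subset _ _)
  have h5 := Finset.card_le_card h4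
  omega

end MP_ad30dc_co
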