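import Pool.Agent.Lib.MP_ad30dc_co.A1

namespace MP_ad30dc_co

/-- auxiliary: a simple path from a reachability. -/
theorem A2_simple {V : Type*} [DecidableEq V] (R : V → V → Prop) (w : V) {a : V}
    (h : Relation.ReflTransGen R a w) :
    ∃ l : List V, List.IsChain R (a :: l) ∧ (a :: l).getLast? = some w ∧ (a :: l).Nodup := by
  induction h using Relation.ReflTransGen.head_induction_on with
  | refl => exact ⟨[], by simp, by simp, by simp⟩
  | @head a b hab _ ih =>
    obtain ⟨l, hc, hl, hn⟩ := ih
    by_cases ha : a ∈ b :: l
    · obtain ⟨s, t, hst⟩ := List.append_of_mem ha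
      refine ⟨t, ?_, ?_, ?_⟩
      · rw [hst] at hc
        exact (List.isChain_append.1 hc).2.1
      · rw [hst] at hl
        rw [List.getLast?_append] at hl
        cases h : (a :: t).getLast? with
        | none => simp at h
        | some x => rw [h] at hl; simpa using hl
      · rw [hst] at hn
        exact (List.nodup_append.1 hn).2.1
    · refine ⟨b :: l, ?_, ?_, ?_⟩
      · exact List.isChain_cons_cons.2 ⟨hab, hc⟩
      · rw [List.getLast?_cons_cons]; exact hl
      · exact List.nodup_cons.2 ⟨ha, hn⟩

theorem A2_reach {V : Type*} (R : V → V → Prop) (l : List V) : ∀ a : V,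
    List.IsChain R (a :: l) → ∀ v ∈ a :: l, Relation.ReflTransGen R a v := by
  induction l with
  | nil => intro a _ v hv; simp at hv; subst hv; exact Relation.ReflTransGen.refl
  | cons b l ih =>
    intro a hc v hv
    rw [List.isChain_cons_cons] at hc
    rcases List.mem_cons.1 hv with h | h
    · subst h; exact Relation.ReflTransGen.refl
    · exact Relation.ReflTransGen.head hc.1 (ih b hc.2 v h)

/-- ROW A2 (two paths that meet only in their last vertex). `PA ++ [w]` is a directed path from `p`
to `w`, `QA ++ [w]` is a directed path from `q` to `w`, they are disjoint except for `w` and avoid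
`F`. Proof: let `R a b := G a b ∧ b ∉ F`. By `hmeet` there is a vertex reachable from `p` and from
`q` under `R`. Choose such a pair (path from `p` to a vertex `w` which is reachable from `q`) with
the shortest possible length of the path from `p` (as a list; take an `R`-chain `PA ++ [w]` of
minimal length whose first element is `p`, with `w` reachable from `q`). By minimality it has no
repeated vertex and no vertex of `PA` is reachable from `q` (every prefix ends in a vertex reachable
from `p`). Take a shortest `R`-path `QA ++ [w]` from `q` to `w`; it has no repeated vertices, and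
all its vertices are reachable from `q`, so it does not meet `PA`. All vertices of both paths are
outside `F` (`p, q ∉ F`, and `R a b` contains `b ∉ F`). Note that `PA = []` if `p = w`. -/
theorem two_paths {V : Type*} [Fintype V] [DecidableEq V] (G : V → V → Prop) (F : Finset V)
    (p q : V) (hpF : p ∉ F) (hqF : q ∉ F)
    (hmeet : ∃ w, Relation.ReflTransGen (fun a b => G a b ∧ b ∉ F) p w ∧
      Relation.ReflTransGen (fun a b => G a b ∧ b ∉ F) q w) :
    ∃ (w : V) (PA QA : List V), List.IsChain G (PA ++ [w]) ∧ List.IsChain G (QA ++ [w]) ∧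
      (PA ++ [w]).head? = some p ∧ (QA ++ [w]).head? = some q ∧
      (PA ++ QA ++ [w]).Nodup ∧ ∀ v ∈ PA ++ QA ++ [w], v ∉ F := by
  classical
  obtain ⟨w0, hp, hq⟩ := hmeet
  set R : V → V → Prop := fun a b => G a b ∧ b ∉ F with hR
  have hout : ∀ a v, a ∉ F → Relation.ReflTransGen R a v → v ∉ F := by
    intro a v ha h
    cases h with
    | refl => exact ha
    | tail _ h2 => exact h2.2
  have hRG : ∀ l : List V, List.IsChain R l → List.IsChain G l :=
    fun l h => h.imp (fun a b hab => hab.1)
  obtain ⟨l, hc, hl, hn⟩ := A2_simple R w0 hp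
  let Q : V → Bool := fun v => decide (¬ Relation.ReflTransGen R q v)
  have hsplit : (p :: l).takeWhile Q ++ (p :: l).dropWhile Q = p :: l :=
    List.takeWhile_append_dropWhile
  have hne : (p :: l).dropWhile Q ≠ [] := by
    intro h
    rw [List.dropWhile_eq_nil_iff] at h
    have hw : w0 ∈ p :: l := List.mem_of_getLast? hl
    have := h w0 hw
    simp [Q] at this
    exact this hq
  obtain ⟨w, rest, hwr⟩ := List.exists_cons_of_ne_nil hne
  have hwq : Relation.ReflTransGen R q w := by
    have h := List.head_dropWhile_not Q (l := p :: l) hne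
    have h2 : ((p :: l).dropWhile Q).head hne = w := by simp [hwr]
    rw [h2] at h
    simpa [Q] using h
  obtain ⟨m, hmc, hml, hmn⟩ := A2_simple R w hwq
  set PA := (p :: l).takeWhile Q with hPA
  rw [hwr] at hsplit
  have hsplit' : (PA ++ [w]) ++ rest = p :: l := by simpa using hsplit
  have hQA : (q :: m).dropLast ++ [w] = q :: m := by
    have h2 := List.dropLast_append_getLast? (l := q :: m) w hml
    exact h2
  have hPc : List.IsChain R (PA ++ [w]) := by
    rw [← hsplit'] at hc
    exact (List.isChain_append.1 hc).1
  have hPn : (PA ++ [w]).Nodup := by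
    rw [← hsplit'] at hn
    exact (List.nodup_append.1 hn).1
  have hPF : ∀ v ∈ PA ++ [w], v ∉ F := by
    intro v hv
    have hv' : v ∈ p :: l := by rw [← hsplit']; exact List.mem_append_left _ hv
    exact hout p v hpF (A2_reach R l p hc v hv')
  have hQr : ∀ v ∈ q :: m, Relation.ReflTransGen R q v := A2_reach R m q hmc
  have hdisj : ∀ v ∈ PA, ¬ Relation.ReflTransGen R q v := by
    intro v hv
    have := List.mem_takeWhile_imp hv
    simpa [Q] using this
  refine ⟨w, PA, (q :: m).dropLast, hRG _ hPc, ?_, ?_, ?_, ?_, ?_⟩
  · rw [hQA]; exact hRG _ hmc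
  · have : ((PA ++ [w]) ++ rest).head? = some p := by rw [hsplit']; rfl
    cases hPA2 : PA with
    | nil => rw [hPA2] at this; simpa using this
    | cons x xs => rw [hPA2] at this; simpa using this
  · rw [hQA]; rfl
  · have h1 : ((q :: m).dropLast ++ [w]).Nodup := by rw [hQA]; exact hmn
    rw [List.append_assoc]
    rw [List.nodup_append]
    refine ⟨(List.nodup_append.1 hPn).1, h1, ?_⟩
    intro a ha b hb hab
    rw [hQA] at hb
    subst hab
    exact hdisj a ha (hQr a hb)
  · intro v hv
    rw [List.append_assoc, List.mem_append, hQA] at hv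
    rcases hv with hv | hv
    · exact hPF v (List.mem_append_left _ hv)
    · exact hout q v hqF (hQr v hv)

end MP_ad30dc_co
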