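import Pool.Agent.Lib.MP_ad30dc_co.D

namespace MP_ad30dc_co

/-- ROW B0 (greedy path). Induction on `l`. `l = 0`: first alternative with `P = []`.
Step: if the second alternative holds for `l`, keep it. If `P` is a path with `l` arcs: let `z` be
its last vertex; if all out-neighbours of `z` in `T` are in `X` or on `x :: P`: second alternative
(`P.length = l < l + 1`); otherwise take `w ∈ T`, `w ∉ X`, `w ∉ x :: P`, `G z w`, and append it
(`List.isChain_append` or `List.isChain_cons_append_...`; look at the API of `List.IsChain`). -/
theorem greedy {V : Type*} [DecidableEq V] (G : V → V → Prop) (T X : Finset V) (x : V) (l : ℕ) :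
    (∃ P : List V, P.length = l ∧ List.IsChain G (x :: P) ∧ (x :: P).Nodup ∧
      ∀ v ∈ P, v ∈ T ∧ v ∉ X) ∨
    (∃ P : List V, P.length < l ∧ List.IsChain G (x :: P) ∧ (x :: P).Nodup ∧
      (∀ v ∈ P, v ∈ T ∧ v ∉ X) ∧
      ∀ w ∈ out G T ((x :: P).getLast (by simp)), w ∈ X ∨ w ∈ x :: P) := by
  induction l with
  | zero => exact Or.inl ⟨[], rfl, List.isChain_singleton x, by simp, by simp⟩
  | succ l ih =>
    rcases ih with ⟨P, h1, h2, h3, h4⟩ | ⟨P, h1, h2, h3, h4, h5⟩
    · by_cases h : ∀ w ∈ out G T ((x :: P).getLast (by simp)), w ∈ X ∨ w ∈ x :: P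
      · exact Or.inr ⟨P, by omega, h2, h3, h4, h⟩
      · push Not at h
        obtain ⟨w, hw, hwX, hwP⟩ := h
        rw [mem_out] at hw
        refine Or.inl ⟨P ++ [w], by simp [h1], ?_, ?_, ?_⟩
        · rw [← List.cons_append, List.isChain_append]
          refine ⟨h2, List.isChain_singleton w, ?_⟩
          intro y hy z hz
          rw [List.getLast?_eq_some_getLast (by simp)] at hy
          simp only [Option.mem_def, Option.some.injEq] at hy
          simp only [List.head?_cons, Option.mem_def, Option.some.injEq] at hz
          subst hz
          rw [← hy]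
          exact hw.2
        · rw [← List.cons_append, List.nodup_append]
          refine ⟨h3, by simp, ?_⟩
          intro y hy z hz hyz
          rw [List.mem_singleton] at hz
          subst hz
          subst hyz
          exact hwP hy
        · intro v hv
          rw [List.mem_append, List.mem_singleton] at hv
          rcases hv with hv | rfl
          · exact h4 v hv
          · exact ⟨hw.1, hwX⟩
    · exact Or.inr ⟨P, by omega, h2, h3, h4, h5⟩

/-- ROW B0, second part: if all degrees in `T` are at least `h ≥ |X| + l`, then there is a path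
with exactly `l` arcs. Proof: otherwise `greedy` gives a stuck path `P`, `P.length < l`, with last
vertex `z`. The out-neighbours of `z` in `T` lie in `X` or in `x :: P`, and `z` itself is not an
out-neighbour (`hG`), so `h ≤ |X| + ((x :: P).length - 1) = |X| + P.length < |X| + l`. -/
theorem greedy_path {V : Type*} [DecidableEq V] (G : V → V → Prop) (hG : ∀ v, ¬ G v v)
    (T X : Finset V) (x : V) (hx : x ∈ T) (l h : ℕ) (hX : X.card + l ≤ h)
    (hdeg : ∀ v ∈ T, h ≤ (out G T v).card) :
    ∃ P : List V, P.length = l ∧ List.IsChain G (x :: P) ∧ (x :: P).Nodup ∧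
      ∀ v ∈ P, v ∈ T ∧ v ∉ X := by
  rcases greedy G T X x l with h | ⟨P, h1, h2, h3, h4, h5⟩
  · exact h
  · exfalso
    have hz : (x :: P).getLast (by simp) ∈ x :: P := List.getLast_mem _
    have hzT : (x :: P).getLast (by simp) ∈ T := by
      rcases List.mem_cons.1 hz with h | h
      · rw [h]; exact hx
      · exact (h4 _ h).1
    have hd := hdeg _ hzT
    have hsub : out G T ((x :: P).getLast (by simp)) ⊆
        X ∪ ((x :: P).toFinset.erase ((x :: P).getLast (by simp))) := by
      intro w hw
      rw [Finset.mem_union, Finset.mem_erase, List.mem_toFinset]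
      rcases h5 w hw with h | h
      · exact Or.inl h
      · refine Or.inr ⟨?_, h⟩
        intro he
        rw [mem_out] at hw
        exact hG w (by
          have := hw.2
          rwa [← he] at this)
    have hc := Finset.card_le_card hsub
    have hc2 := Finset.card_union_le X ((x :: P).toFinset.erase ((x :: P).getLast (by simp)))
    have hc3 : ((x :: P).toFinset.erase ((x :: P).getLast (by simp))).card = P.length := by
      rw [Finset.card_erase_of_mem (List.mem_toFinset.2 hz), List.toFinset_card_of_nodup h3]
      simp
    omega

end MP_ad30dc_co
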