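import Pool.Agent.Lib.MP_ad30dc_co.B0

namespace MP_ad30dc_co

/-- ROW B1a (existence of a spider). `greedy_path` with `X = ∅` gives a path `P1` with `l` arcs
from `x`; `greedy_path` with `X = P1.toFinset` (`|X| ≤ l`) gives a path `P2` with `l` arcs from
`x` which avoids `P1`. The spider has the legs `P1` (`true`) and `P2` (`false`). -/
theorem exists_spider {V : Type*} [DecidableEq V] (G : V → V → Prop) (hG : ∀ v, ¬ G v v)
    (T : Finset V) (x : V) (hx : x ∈ T) (l h : ℕ) (hl : 2 * l ≤ h)
    (hdeg : ∀ v ∈ T, h ≤ (out G T v).card) :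
    ∃ S : Spider G l l, S.verts ⊆ T := by
  obtain ⟨P1, h1l, h1c, h1n, h1m⟩ := greedy_path G hG T ∅ x hx l h
    (by rw [Finset.card_empty]; omega) hdeg
  have hcard : P1.toFinset.card ≤ l := by
    have := List.toFinset_card_le P1
    omega
  obtain ⟨P2, h2l, h2c, h2n, h2m⟩ := greedy_path G hG T P1.toFinset x hx l h (by omega) hdeg
  have hnd : (x :: (P1 ++ P2)).Nodup := by
    rw [List.nodup_cons] at h1n h2n ⊢
    refine ⟨?_, ?_⟩
    · rw [List.mem_append]
      rintro (h3 | h3)
      · exact h1n.1 h3
      · exact h2n.1 h3
    · rw [List.nodup_append]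
      refine ⟨h1n.2, h2n.2, ?_⟩
      intro u hu v hv huv
      rw [huv] at hu
      exact (h2m v hv).2 (List.mem_toFinset.2 hu)
  refine ⟨⟨x, fun s => cond s P1 P2, ?_, hnd, ?_, ?_⟩, ?_⟩
  · intro s
    cases s
    · exact h2c
    · exact h1c
  · intro s
    cases s
    · exact h2l.ge
    · exact h1l.ge
  · intro s
    cases s
    · exact h2l.le
    · exact h1l.le
  · intro v hv
    rw [Spider.mem_verts] at hv
    rcases hv with hv | ⟨s, hv⟩
    · rw [hv]
      exact hx
    · cases s
      · exact (h2m v hv).1
      · exact (h1m v hv).1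

/-- ROW B1b (a maximal family of disjoint spiders). Assume not. Then one shows by induction that
for every `N` there is a family `S : Fin N → Spider G l l` of pairwise disjoint spiders in `T`
(step: by assumption the family with `N` members is not maximal, so there is a spider `S'` in `T`
disjoint from all of them; add it with `Fin.cons` or `Fin.snoc`). For `N = T.card + 1` this is a
contradiction: the centres `(S i).c ∈ T` are pairwise distinct. -/
theorem max_family {V : Type*} [DecidableEq V] (G : V → V → Prop) (T : Finset V) (l : ℕ) :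
    ∃ (N : ℕ) (S : Fin N → Spider G l l), (∀ i, (S i).verts ⊆ T) ∧
      (∀ i j, i ≠ j → Disjoint (S i).verts (S j).verts) ∧
      ∀ S' : Spider G l l, S'.verts ⊆ T → ∃ i, ¬ Disjoint (S i).verts S'.verts := by
  by_contra hcon
  have key : ∀ N : ℕ, ∃ S : Fin N → Spider G l l, (∀ i, (S i).verts ⊆ T) ∧
      (∀ i j, i ≠ j → Disjoint (S i).verts (S j).verts) := by
    intro N
    induction N with
    | zero => exact ⟨fun i => i.elim0, fun i => i.elim0, fun i => i.elim0⟩
    | succ N ih =>
      obtain ⟨S, h1, h2⟩ := ih
      have h3 : ∃ S' : Spider G l l, S'.verts ⊆ T ∧ ∀ i, Disjoint (S i).verts S'.verts := by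
        by_contra h4
        apply hcon
        refine ⟨N, S, h1, h2, ?_⟩
        intro S' hS'
        by_contra h5
        apply h4
        refine ⟨S', hS', fun i => ?_⟩
        by_contra h6
        exact h5 ⟨i, h6⟩
      obtain ⟨S', h4, h5⟩ := h3
      refine ⟨Fin.cons S' S, ?_, ?_⟩
      · intro i
        refine Fin.cases ?_ (fun i => ?_) i
        · rw [Fin.cons_zero]; exact h4
        · rw [Fin.cons_succ]; exact h1 i
      · intro i j
        refine Fin.cases ?_ (fun i => ?_) i
        · refine Fin.cases ?_ (fun j => ?_) j
          · intro h; exact absurd rfl h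
          · intro _
            rw [Fin.cons_zero, Fin.cons_succ]
            exact (h5 j).symm
        · refine Fin.cases ?_ (fun j => ?_) j
          · intro _
            rw [Fin.cons_zero, Fin.cons_succ]
            exact h5 i
          · intro h
            rw [Fin.cons_succ, Fin.cons_succ]
            exact h2 i j (fun h6 => h (by rw [h6]))
  obtain ⟨S, h1, h2⟩ := key (T.card + 1)
  have h3 : (Finset.univ : Finset (Fin (T.card + 1))).card ≤ T.card := by
    refine Finset.card_le_card_of_injOn (fun i => (S i).c) ?_ ?_
    · intro i _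
      exact h1 i (S i).c_mem_verts
    · intro i _ j _ hij
      by_contra h4
      have h5 := h2 i j h4
      rw [Finset.disjoint_left] at h5
      have h6 : (S i).c = (S j).c := hij
      exact h5 (S i).c_mem_verts (by rw [h6]; exact (S j).c_mem_verts)
  rw [Finset.card_univ, Fintype.card_fin] at h3
  omega

end MP_ad30dc_co
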