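import Pool.Agent.Lib.MP_ad30dc_co.B0

namespace MP_ad30dc_co

/-- ROW B3a (blocker). `hmax` says that no spider with legs of exactly `l` arcs lies in `T \ U`.
Then for `x ∈ T \ U` at most `l` vertices block all paths with `l` arcs from `x` in `T \ U`.
Proof: if there is no path `P` with `P.length = l`, `IsChain G (x :: P)`, `(x :: P).Nodup` and
`∀ v ∈ P, v ∈ T ∧ v ∉ U`, take `Z = ∅`. Otherwise let `Z = P.toFinset` for one such path `P`. A
path `P'` with `l` arcs that avoids `Z` would give the spider with centre `x` and legs `P`, `P'`,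
whose vertices are in `T` and not in `U`: contradiction to `hmax`. -/
theorem blocker {V : Type*} [DecidableEq V] (G : V → V → Prop) (T U : Finset V) (l : ℕ)
    (hmax : ∀ S' : Spider G l l, S'.verts ⊆ T → ¬ Disjoint U S'.verts)
    (x : V) (hx : x ∈ T) (hxU : x ∉ U) :
    ∃ Z : Finset V, Z.card ≤ l ∧ ∀ P : List V, P.length = l → List.IsChain G (x :: P) →
      (x :: P).Nodup → (∀ v ∈ P, v ∈ T ∧ v ∉ U ∧ v ∉ Z) → False := by
  by_cases hex : ∃ P : List V, P.length = l ∧ List.IsChain G (x :: P) ∧ (x :: P).Nodup ∧
      ∀ v ∈ P, v ∈ T ∧ v ∉ U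
  · obtain ⟨P, hPl, hPc, hPn, hPv⟩ := hex
    refine ⟨P.toFinset, by rw [← hPl]; exact List.toFinset_card_le P, ?_⟩
    intro P' hl' hc' hn' hv'
    have hnd : (x :: (P ++ P')).Nodup := by
      rw [List.nodup_cons] at hPn hn' ⊢
      refine ⟨?_, ?_⟩
      · rw [List.mem_append]
        rintro (h | h)
        · exact hPn.1 h
        · exact hn'.1 h
      · rw [List.nodup_append']
        refine ⟨hPn.2, hn'.2, ?_⟩
        intro v hv hv2
        exact (hv' v hv2).2.2 (List.mem_toFinset.mpr hv)
    let S' : Spider G l l :=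
      { c := x
        leg := fun s => if s then P else P'
        chain := by
          intro s
          cases s
          · exact hc'
          · exact hPc
        nodup := hnd
        len_ge := by
          intro s
          cases s
          · exact hl'.ge
          · exact hPl.ge
        len_le := by
          intro s
          cases s
          · exact hl'.le
          · exact hPl.le }
    have hmem : ∀ v ∈ S'.verts, v ∈ T ∧ v ∉ U := by
      intro v hv
      rw [Spider.mem_verts] at hv
      rcases hv with h | ⟨s, h⟩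
      · have h2 : v = x := h
        rw [h2]; exact ⟨hx, hxU⟩
      · cases s
        · have h2 : v ∈ P' := h
          exact ⟨(hv' v h2).1, (hv' v h2).2.1⟩
        · have h2 : v ∈ P := h
          exact hPv v h2
    apply hmax S' (fun v hv => (hmem v hv).1)
    rw [Finset.disjoint_left]
    intro v hvU hvS
    exact (hmem v hvS).2 hvU
  · refine ⟨∅, by simp, ?_⟩
    intro P hl hc hn hv
    exact hex ⟨P, hl, hc, hn, fun v hvP => ⟨(hv v hvP).1, (hv v hvP).2.1⟩⟩

/-- ROW B3b (stuck path). Let `U ⊆ W` and `x ∈ T \ W`. Take `Z` from `blocker` and apply `greedy`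
with `X = W ∪ Z`. The first alternative contradicts `blocker`. In the second alternative
`P.length < l`, and all out-neighbours in `T` of the last vertex `z` of `x :: P` lie in
`W ∪ Z ∪ (x :: P)`, and `z` is not one of them. Hence
`h ≤ |out G T z| ≤ |out G W z| + |Z| + P.length ≤ |out G W z| + 2 * l`. -/
theorem stuck_path {V : Type*} [DecidableEq V] (G : V → V → Prop) (hG : ∀ v, ¬ G v v)
    (T U W : Finset V) (l h : ℕ) (hUW : U ⊆ W)
    (hdeg : ∀ v ∈ T, h ≤ (out G T v).card)
    (hmax : ∀ S' : Spider G l l, S'.verts ⊆ T → ¬ Disjoint U S'.verts)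
    (x : V) (hx : x ∈ T) (hxW : x ∉ W) :
    ∃ P : List V, P.length + 1 ≤ l ∧ List.IsChain G (x :: P) ∧ (x :: P).Nodup ∧
      (∀ v ∈ x :: P, v ∈ T ∧ v ∉ W) ∧
      h - 2 * l ≤ (out G W ((x :: P).getLast (by simp))).card := by
  obtain ⟨Z, hZ, hZP⟩ := blocker G T U l hmax x hx (fun h => hxW (hUW h))
  rcases greedy G T (W ∪ Z) x l with ⟨P, hl, hc, hn, hv⟩ | ⟨P, hl, hc, hn, hv, hz⟩
  · exfalso
    refine hZP P hl hc hn ?_
    intro v hvP
    obtain ⟨h1, h2⟩ := hv v hvP
    rw [Finset.mem_union, not_or] at h2
    exact ⟨h1, fun h => h2.1 (hUW h), h2.2⟩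
  · have hvT : ∀ v ∈ x :: P, v ∈ T ∧ v ∉ W := by
      intro v hvP
      rcases List.mem_cons.mp hvP with h | h
      · rw [h]; exact ⟨hx, hxW⟩
      · obtain ⟨h1, h2⟩ := hv v h
        rw [Finset.mem_union, not_or] at h2
        exact ⟨h1, h2.1⟩
    refine ⟨P, hl, hc, hn, hvT, ?_⟩
    generalize hzz : (x :: P).getLast (by simp) = z at *
    have hzm : z ∈ x :: P := by rw [← hzz]; exact List.getLast_mem _
    have hsub : out G T z ⊆ (out G W z ∪ Z) ∪ (x :: P).toFinset.erase z := by
      intro w hw
      have hGw := (mem_out.1 hw).2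
      have hwz : w ≠ z := by
        intro h
        rw [h] at hGw
        exact hG z hGw
      rcases hz w hw with h | h
      · rcases Finset.mem_union.mp h with h | h
        · exact Finset.mem_union_left _ (Finset.mem_union_left _ (mem_out.2 ⟨h, hGw⟩))
        · exact Finset.mem_union_left _ (Finset.mem_union_right _ h)
      · exact Finset.mem_union_right _
          (Finset.mem_erase.mpr ⟨hwz, List.mem_toFinset.mpr h⟩)
    have h1 := hdeg z (hvT z hzm).1
    have h2 := Finset.card_le_card hsub
    have h3 := Finset.card_union_le (out G W z ∪ Z) ((x :: P).toFinset.erase z)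
    have h4 := Finset.card_union_le (out G W z) Z
    have h5 : ((x :: P).toFinset.erase z).card = P.length := by
      rw [Finset.card_erase_of_mem (List.mem_toFinset.mpr hzm), List.toFinset_card_of_nodup hn]
      simp
    omega

end MP_ad30dc_co
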