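import Pool.Agent.Lib.MP_ad30dc_co.B3

namespace MP_ad30dc_co

/-- ROW B4a (extend one leg of one spider). The new spider has centre `S.c`, the leg `s` is
`S.leg s ++ Q`, the other leg is unchanged. -/
theorem spider_extend {V : Type*} [DecidableEq V] {G : V → V → Prop} {l : ℕ}
    (S : Spider G l (2 * l)) (s : Bool) (hlen : (S.leg s).length = l) (Q : List V)
    (hQ : Q.length ≤ l) (hc : List.IsChain G (S.tip s :: Q)) (hnd : Q.Nodup)
    (hdis : ∀ v ∈ Q, v ∉ S.verts) :
    ∃ S' : Spider G l (2 * l), S'.c = S.c ∧ S'.leg s = S.leg s ++ Q ∧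
      S'.leg (!s) = S.leg (!s) := by
  have hch : List.IsChain G (S.c :: (S.leg s ++ Q)) := by
    rw [← List.cons_append, List.isChain_append]
    refine ⟨S.chain s, ?_, ?_⟩
    · exact (List.isChain_cons.1 hc).2
    · intro x hx y hy
      have h1 := (List.isChain_cons.1 hc).1 y hy
      have h2 : x = S.tip s := by
        rw [List.getLast?_eq_getLast_of_ne_nil (by simp)] at hx
        exact (Option.some.inj hx).symm
      rw [h2]; exact h1
  have hdis' : List.Disjoint (S.c :: (S.leg true ++ S.leg false)) Q := by
    intro v hv hvQ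
    refine hdis v hvQ ?_
    simpa [Spider.verts] using hv
  have hnd' : ((S.c :: (S.leg true ++ S.leg false)) ++ Q).Nodup :=
    List.nodup_append'.2 ⟨S.nodup, hnd, hdis'⟩
  refine ⟨{ c := S.c
            leg := fun t => if t = s then S.leg s ++ Q else S.leg t
            chain := ?_
            nodup := ?_
            len_ge := ?_
            len_le := ?_ }, rfl, ?_, ?_⟩
  · intro t
    by_cases h : t = s
    · simp only [h, if_true]; exact hch
    · simp only [h, if_false]; exact S.chain t
  · cases s
    · simp only [Bool.true_eq_false, if_false, if_true]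
      simpa [List.append_assoc] using hnd'
    · simp only [Bool.false_eq_true, if_false, if_true]
      refine (List.Perm.nodup_iff ?_).1 hnd'
      simp only [List.cons_append, List.append_assoc]
      refine List.Perm.cons _ ?_
      refine List.Perm.append_left _ ?_
      exact List.perm_append_comm
  · intro t
    by_cases h : t = s
    · simp only [h, if_true, List.length_append]; omega
    · simp only [h, if_false]; exact S.len_ge t
  · intro t
    by_cases h : t = s
    · simp only [h, if_true, List.length_append]; omega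
    · simp only [h, if_false]; exact S.len_le t
  · simp
  · cases s <;> simp

/-- ROW B4b (extend one leg in a family). `W` is the union of all `(S i).verts`, and `U ⊆ W`.
Let `z = (S i0).tip s0 ∈ T`. Case 1: `out G T z ⊆ W`. Then `S' = S` works since
`out G T z ⊆ out G W z`, so `h ≤ |out G W z|`. Case 2: there is `x ∈ T`, `x ∉ W`, `G z x`. Take
`P` from `stuck_path` and put `Q = x :: P` (`Q.length ≤ l`); replace `S i0` by the spider of
`spider_extend` (`Function.update`). The new union is `W' = W ∪ Q.toFinset ⊇ W`; the new tip is the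
last vertex of `x :: P`, and `|out G W' _| ≥ |out G W _| ≥ h - 2 * l`. -/
theorem extend_family {V : Type*} [DecidableEq V] (G : V → V → Prop) (hG : ∀ v, ¬ G v v)
    (T U : Finset V) (l h : ℕ)
    (hdeg : ∀ v ∈ T, h ≤ (out G T v).card)
    (hmax : ∀ S' : Spider G l l, S'.verts ⊆ T → ¬ Disjoint U S'.verts)
    {ι : Type*} [Fintype ι] [DecidableEq ι] (S : ι → Spider G l (2 * l))
    (hST : ∀ i, (S i).verts ⊆ T)
    (hdis : ∀ i j, i ≠ j → Disjoint (S i).verts (S j).verts)
    (hU : U ⊆ Finset.univ.biUnion (fun i => (S i).verts))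
    (i0 : ι) (s0 : Bool) (hlen : ((S i0).leg s0).length = l) :
    ∃ S' : ι → Spider G l (2 * l), (∀ i, (S' i).verts ⊆ T) ∧
      (∀ i j, i ≠ j → Disjoint (S' i).verts (S' j).verts) ∧
      Finset.univ.biUnion (fun i => (S i).verts) ⊆ Finset.univ.biUnion (fun i => (S' i).verts) ∧
      (∀ i, (S' i).c = (S i).c) ∧
      (∀ i s, (i, s) ≠ (i0, s0) → (S' i).leg s = (S i).leg s) ∧
      h - 2 * l ≤
        (out G (Finset.univ.biUnion (fun i => (S' i).verts)) ((S' i0).tip s0)).card := by
  set W : Finset V := Finset.univ.biUnion (fun i => (S i).verts) with hW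
  have hmemW : ∀ {v : V}, v ∈ W ↔ ∃ i, v ∈ (S i).verts := by
    intro v; rw [hW, Finset.mem_biUnion]; simp
  have htipT : (S i0).tip s0 ∈ T := hST i0 ((S i0).tip_mem_verts s0)
  by_cases hcase : out G T ((S i0).tip s0) ⊆ W
  · refine ⟨S, hST, hdis, subset_rfl, fun _ => rfl, fun _ _ _ => rfl, ?_⟩
    have h1 : out G T ((S i0).tip s0) ⊆ out G W ((S i0).tip s0) := by
      intro w hw
      exact mem_out.2 ⟨hcase hw, (mem_out.1 hw).2⟩
    have h2 := Finset.card_le_card h1
    have h3 := hdeg _ htipT
    change h - 2 * l ≤ (out G W ((S i0).tip s0)).card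
    omega
  · obtain ⟨x, hxo, hxW⟩ := Finset.not_subset.1 hcase
    obtain ⟨hxT, hGx⟩ := mem_out.1 hxo
    obtain ⟨P, hPl, hPc, hPn, hPv, hPd⟩ := stuck_path G hG T U W l h hU hdeg hmax x hxT hxW
    obtain ⟨S1, hc1, hl1, hl2⟩ := spider_extend (S i0) s0 hlen (x :: P)
      (by simpa using hPl) (by rw [List.isChain_cons_cons]; exact ⟨hGx, hPc⟩) hPn
      (fun v hv hv' => (hPv v hv).2 (hmemW.2 ⟨i0, hv'⟩))
    have hv1 : ∀ v, v ∈ S1.verts ↔ v ∈ (S i0).verts ∨ v ∈ x :: P := by
      intro v
      rw [Spider.mem_verts, Spider.mem_verts, hc1]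
      constructor
      · rintro (h | ⟨t, h⟩)
        · exact Or.inl (Or.inl h)
        · by_cases ht : t = s0
          · rw [ht, hl1, List.mem_append] at h
            rcases h with h | h
            · exact Or.inl (Or.inr ⟨s0, h⟩)
            · exact Or.inr h
          · have ht' : t = !s0 := by cases t <;> cases s0 <;> simp_all
            rw [ht', hl2] at h
            exact Or.inl (Or.inr ⟨_, h⟩)
      · rintro ((h | ⟨t, h⟩) | h)
        · exact Or.inl h
        · by_cases ht : t = s0
          · refine Or.inr ⟨s0, ?_⟩
            rw [hl1, List.mem_append]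
            exact Or.inl (ht ▸ h)
          · have ht' : t = !s0 := by cases t <;> cases s0 <;> simp_all
            refine Or.inr ⟨!s0, ?_⟩
            rw [hl2]
            exact ht' ▸ h
        · refine Or.inr ⟨s0, ?_⟩
          rw [hl1, List.mem_append]
          exact Or.inr h
    have hup : ∀ i, i ≠ i0 → Function.update S i0 S1 i = S i := fun i hi =>
      Function.update_of_ne hi _ _
    have hup0 : Function.update S i0 S1 i0 = S1 := Function.update_self _ _ _
    have hnewW : W ⊆ Finset.univ.biUnion (fun i => (Function.update S i0 S1 i).verts) := by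
      intro v hv
      obtain ⟨i, hi⟩ := hmemW.1 hv
      rw [Finset.mem_biUnion]
      refine ⟨i, Finset.mem_univ _, ?_⟩
      by_cases h : i = i0
      · rw [h, hup0]
        exact (hv1 v).2 (Or.inl (h ▸ hi))
      · rw [hup i h]; exact hi
    refine ⟨Function.update S i0 S1, ?_, ?_, hnewW, ?_, ?_, ?_⟩
    · intro i
      by_cases h : i = i0
      · rw [h, hup0]
        intro v hv
        rcases (hv1 v).1 hv with h | h
        · exact hST i0 h
        · exact (hPv v h).1
      · rw [hup i h]; exact hST i
    · have key : ∀ i, i ≠ i0 → Disjoint S1.verts (S i).verts := by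
        intro i hi
        rw [Finset.disjoint_left]
        intro v hv hv'
        rcases (hv1 v).1 hv with h | h
        · exact Finset.disjoint_left.1 (hdis i0 i (Ne.symm hi)) h hv'
        · exact (hPv v h).2 (hmemW.2 ⟨i, hv'⟩)
      intro i j hij
      by_cases hi : i = i0
      · have hj : j ≠ i0 := fun h => hij (hi.trans h.symm)
        rw [hi, hup0, hup j hj]; exact key j hj
      · by_cases hj : j = i0
        · rw [hj, hup0, hup i hi]; exact (key i hi).symm
        · rw [hup i hi, hup j hj]; exact hdis i j hij
    · intro i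
      by_cases h : i = i0
      · rw [h, hup0]; exact hc1
      · rw [hup i h]
    · intro i t hit
      by_cases h : i = i0
      · have ht : t ≠ s0 := fun ht => hit (by rw [h, ht])
        have ht' : t = !s0 := by cases t <;> cases s0 <;> simp_all
        rw [h, hup0, ht', hl2]
      · rw [hup i h]
    · have htip : (Function.update S i0 S1 i0).tip s0 = (x :: P).getLast (by simp) := by
        rw [hup0, Spider.tip]
        have h9 : S1.c :: S1.leg s0 = (S1.c :: (S i0).leg s0) ++ (x :: P) := by
          rw [hl1]; rfl
        simp only [h9]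
        exact List.getLast_append_of_ne_nil _ (by simp)
      rw [htip]
      refine hPd.trans (Finset.card_le_card (out_mono hnewW _))

end MP_ad30dc_co
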