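import Pool.Agent.Lib.MP_ad30dc_co.B1
import Pool.Agent.Lib.MP_ad30dc_co.B4

namespace MP_ad30dc_co

/-- ROW B5a (extend the legs in a finite set `E` of legs one after the other). Induction on `E`
(`Finset.induction_on`): for `E = ∅` take `S' = S`. Step `insert (i0, s0) E`: take the family `S1`
for `E`; the leg `(i0, s0)` is not in `E`, so it still has `l` arcs; apply `extend_family` to `S1`.
For `(i, s) ∈ E` the tip is unchanged (centre and leg are unchanged; unfold `Spider.tip`) and the
union of the vertex sets has grown (`out_mono`). -/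
theorem extend_all {V : Type*} [DecidableEq V] (G : V → V → Prop) (hG : ∀ v, ¬ G v v)
    (T U : Finset V) (l h : ℕ)
    (hdeg : ∀ v ∈ T, h ≤ (out G T v).card)
    (hmax : ∀ S' : Spider G l l, S'.verts ⊆ T → ¬ Disjoint U S'.verts)
    {ι : Type*} [Fintype ι] [DecidableEq ι] (S : ι → Spider G l (2 * l))
    (hST : ∀ i, (S i).verts ⊆ T)
    (hdis : ∀ i j, i ≠ j → Disjoint (S i).verts (S j).verts)
    (hU : U ⊆ Finset.univ.biUnion (fun i => (S i).verts))
    (hlen : ∀ i s, ((S i).leg s).length = l) (E : Finset (ι × Bool)) :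
    ∃ S' : ι → Spider G l (2 * l), (∀ i, (S' i).verts ⊆ T) ∧
      (∀ i j, i ≠ j → Disjoint (S' i).verts (S' j).verts) ∧
      U ⊆ Finset.univ.biUnion (fun i => (S' i).verts) ∧
      (∀ i s, (i, s) ∉ E → ((S' i).leg s).length = l) ∧
      ∀ i s, (i, s) ∈ E → h - 2 * l ≤
        (out G (Finset.univ.biUnion (fun i => (S' i).verts)) ((S' i).tip s)).card := by
  induction E using Finset.induction_on with
  | empty =>
    refine ⟨S, hST, hdis, hU, fun i s _ => hlen i s, ?_⟩
    intro i s h
    exact absurd h (Finset.notMem_empty _)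
  | insert p E hp ih =>
    obtain ⟨S1, h1, h2, h3, h4, h5⟩ := ih
    obtain ⟨i0, s0⟩ := p
    obtain ⟨S2, k1, k2, k3, k4, k5, k6⟩ :=
      extend_family G hG T U l h hdeg hmax S1 h1 h2 h3 i0 s0 (h4 i0 s0 hp)
    refine ⟨S2, k1, k2, h3.trans k3, ?_, ?_⟩
    · intro i s his
      have e1 : (i, s) ≠ (i0, s0) := by
        intro h6
        exact his (by rw [h6]; exact Finset.mem_insert_self _ _)
      have e2 : (i, s) ∉ E := fun h6 => his (Finset.mem_insert_of_mem h6)
      rw [k5 i s e1]
      exact h4 i s e2
    · intro i s his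
      by_cases e1 : (i, s) = (i0, s0)
      · obtain ⟨rfl, rfl⟩ := Prod.mk.inj e1
        exact k6
      · have e2 : (i, s) ∈ E := (Finset.mem_insert.mp his).resolve_left e1
        have e3 : (S2 i).tip s = (S1 i).tip s := by
          unfold Spider.tip
          simp only [k4 i, k5 i s e1]
        rw [e3]
        exact (h5 i s e2).trans (Finset.card_le_card (out_mono k3 _))

/-- ROW B5b (the family of extended spiders). Take the maximal family `S : Fin N → Spider G l l`
of `max_family`, `U` = union of the vertex sets; `hmax` for `U` follows from the maximality. `N > 0`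
since otherwise `exists_spider` (with any `x ∈ T`) contradicts the maximality. Regard every
`S i : Spider G l l` as a `Spider G l (2 * l)` and apply `extend_all` with `E = Finset.univ`. -/
theorem spider_family {V : Type*} [DecidableEq V] (G : V → V → Prop) (hG : ∀ v, ¬ G v v)
    (T : Finset V) (hT : T.Nonempty) (l h : ℕ) (hl : 2 * l ≤ h)
    (hdeg : ∀ v ∈ T, h ≤ (out G T v).card) :
    ∃ (N : ℕ) (S : Fin N → Spider G l (2 * l)), 0 < N ∧ (∀ i, (S i).verts ⊆ T) ∧
      (∀ i j, i ≠ j → Disjoint (S i).verts (S j).verts) ∧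
      ∀ i s, h - 2 * l ≤
        (out G (Finset.univ.biUnion (fun i => (S i).verts)) ((S i).tip s)).card := by
  obtain ⟨N, S0, h1, h2, h3⟩ := max_family G T l
  obtain ⟨x, hx⟩ := hT
  have hN : 0 < N := by
    rcases Nat.eq_zero_or_pos N with h0 | h0
    · exfalso
      obtain ⟨S', hS'⟩ := exists_spider G hG T x hx l h hl hdeg
      obtain ⟨i, -⟩ := h3 S' hS'
      rw [h0] at i
      exact i.elim0
    · exact h0
  let S : Fin N → Spider G l (2 * l) := fun i =>
    { c := (S0 i).c
      leg := (S0 i).leg
      chain := (S0 i).chain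
      nodup := (S0 i).nodup
      len_ge := (S0 i).len_ge
      len_le := fun s => ((S0 i).len_le s).trans (by omega) }
  have hSv : ∀ i, (S i).verts = (S0 i).verts := fun i => rfl
  have hmax : ∀ S' : Spider G l l, S'.verts ⊆ T →
      ¬ Disjoint (Finset.univ.biUnion (fun i => (S i).verts)) S'.verts := by
    intro S' hS' hd
    obtain ⟨i, hi⟩ := h3 S' hS'
    apply hi
    rw [← hSv i]
    exact Finset.disjoint_of_subset_left
      (Finset.subset_biUnion_of_mem (fun i => (S i).verts) (Finset.mem_univ i)) hd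
  obtain ⟨S', k1, k2, -, -, k5⟩ := extend_all G hG T (Finset.univ.biUnion (fun i => (S i).verts))
    l h hdeg hmax S (fun i => by rw [hSv]; exact h1 i)
    (fun i j hij => by rw [hSv, hSv]; exact h2 i j hij) subset_rfl
    (fun i s => le_antisymm ((S0 i).len_le s) ((S0 i).len_ge s)) Finset.univ
  exact ⟨N, S', hN, k1, k2, fun i s => k5 i s (Finset.mem_univ _)⟩

end MP_ad30dc_co
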