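import Mathlib

namespace MP_ad30dc_co

private theorem C1_erase {V : Type*} [DecidableEq V] (M B : Finset V) (t : V) :
    (M ∩ B).card ≤ (M ∩ B.erase t).card + (if t ∈ M then 1 else 0) := by
  by_cases h : t ∈ M
  · rw [if_pos h]
    have h1 : M ∩ B ⊆ insert t (M ∩ B.erase t) := by
      intro v hv
      rw [Finset.mem_inter] at hv
      rw [Finset.mem_insert, Finset.mem_inter, Finset.mem_erase]
      by_cases hvt : v = t
      · exact Or.inl hvt
      · exact Or.inr ⟨hv.1, hvt, hv.2⟩
    exact (Finset.card_le_card h1).trans (Finset.card_insert_le _ _)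
  · rw [if_neg h, add_zero]
    apply Finset.card_le_card
    intro v hv
    rw [Finset.mem_inter] at hv
    rw [Finset.mem_inter, Finset.mem_erase]
    exact ⟨hv.1, fun h2 => h (h2 ▸ hv.1), hv.2⟩

/-- ROW C1 (cleaning). For `A : Finset ι` and `B : Finset V`, `B ⊆ U`, let
`Ψ(A, B) = ∑ i ∈ A, (|N i true ∩ B| + |N i false ∩ B|) - (q + g) * |A| - (2 * s - 1) * |B|`
(an integer). Choose `(A, B)` with `Ψ` maximal (`Finset.exists_max_image` over
`univ ×ˢ U.powerset`). Then `Ψ(A, B) ≥ Ψ(univ, U) = (2 g - q - g) * n - (2 s - 1) * |U| ≥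
n * (g - q - (2 s - 1) * K) > 0` with `n = |ι| > 0`, so `A ≠ ∅` (`Ψ(∅, B) ≤ 0`).
If `i ∈ A` and `|N i b ∩ B| < q` for some `b`, then removing `i` from `A` changes `Ψ` by
`(q + g) - |N i true ∩ B| - |N i false ∩ B| ≥ (q + g) - (q - 1) - g > 0`: contradiction.
If `t ∈ B` and fewer than `s` elements `i ∈ A` have `t ∈ N i true ∨ t ∈ N i false`, then removing
`t` from `B` changes `Ψ` by `(2 s - 1) - #{(i, b) : i ∈ A, t ∈ N i b} ≥ (2 s - 1) - 2 (s - 1) > 0`:
contradiction. -/
theorem cleaning {ι V : Type*} [Fintype ι] [DecidableEq ι] [DecidableEq V] [Nonempty ι]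
    (U : Finset V) (N : ι → Bool → Finset V) (g q s K : ℕ)
    (hN : ∀ i b, N i b ⊆ U) (hg : ∀ i b, (N i b).card = g)
    (hU : U.card ≤ K * Fintype.card ι) (hs : 1 ≤ s)
    (hgq : q + (2 * s - 1) * K < g) :
    ∃ (A : Finset ι) (B : Finset V), A.Nonempty ∧ B ⊆ U ∧
      (∀ i ∈ A, ∀ b, q ≤ (N i b ∩ B).card) ∧
      ∀ t ∈ B, s ≤ (A.filter (fun i => t ∈ N i true ∨ t ∈ N i false)).card := by
  classical
  obtain ⟨s, rfl⟩ : ∃ s', s = s' + 1 := ⟨s - 1, by omega⟩
  have h2s : 2 * (s + 1) - 1 = 2 * s + 1 := by omega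
  rw [h2s] at hgq
  let Ψ : Finset ι × Finset V → ℤ := fun p =>
    ∑ i ∈ p.1, (((N i true ∩ p.2).card : ℤ) + ((N i false ∩ p.2).card : ℤ)) -
      ((q : ℤ) + g) * p.1.card - (2 * (s : ℤ) + 1) * p.2.card
  have hΨ : ∀ A B, Ψ (A, B) =
      ∑ i ∈ A, (((N i true ∩ B).card : ℤ) + ((N i false ∩ B).card : ℤ)) -
      ((q : ℤ) + g) * A.card - (2 * (s : ℤ) + 1) * B.card := fun A B => rfl
  obtain ⟨⟨A, B⟩, hmem, hmax⟩ := Finset.exists_max_image
    ((Finset.univ : Finset (Finset ι)) ×ˢ U.powerset) Ψ
    ⟨(Finset.univ, U), by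
      rw [Finset.mem_product]
      exact ⟨Finset.mem_univ _, Finset.mem_powerset_self U⟩⟩
  have hBU : B ⊆ U := by
    rw [Finset.mem_product, Finset.mem_powerset] at hmem
    exact hmem.2
  have hmax' : ∀ A' B', B' ⊆ U → Ψ (A', B') ≤ Ψ (A, B) := by
    intro A' B' hB'
    apply hmax
    rw [Finset.mem_product, Finset.mem_powerset]
    exact ⟨Finset.mem_univ _, hB'⟩
  have hle : ∀ i b, (N i b ∩ B).card ≤ g := by
    intro i b
    rw [← hg i b]
    exact Finset.card_le_card Finset.inter_subset_left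
  have hpos : 0 < Ψ (A, B) := by
    have h1 := hmax' Finset.univ U (Finset.Subset.refl U)
    have h2 : 0 < Ψ (Finset.univ, U) := by
      rw [hΨ]
      have h3 : ∑ i : ι, (((N i true ∩ U).card : ℤ) + ((N i false ∩ U).card : ℤ)) =
          (Fintype.card ι : ℤ) * (2 * g) := by
        have h4 : ∀ i : ι, (((N i true ∩ U).card : ℤ) + ((N i false ∩ U).card : ℤ)) = 2 * g := by
          intro i
          rw [Finset.inter_eq_left.2 (hN i true), Finset.inter_eq_left.2 (hN i false), hg, hg]
          ring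
        rw [Finset.sum_congr rfl (fun i _ => h4 i), Finset.sum_const, Finset.card_univ,
          nsmul_eq_mul]
      rw [h3, Finset.card_univ]
      have hn : (0 : ℤ) < Fintype.card ι := by exact_mod_cast Fintype.card_pos
      have hU' : (U.card : ℤ) ≤ K * Fintype.card ι := by exact_mod_cast hU
      have hgq' : (q : ℤ) + (2 * s + 1) * K < g := by exact_mod_cast hgq
      have h5 : (2 * (s : ℤ) + 1) * U.card ≤ (2 * (s : ℤ) + 1) * (K * Fintype.card ι) :=
        mul_le_mul_of_nonneg_left hU' (by positivity)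
      have h6 : 0 < (Fintype.card ι : ℤ) * (g - q - (2 * s + 1) * K) :=
        mul_pos hn (by linarith)
      nlinarith
    linarith
  refine ⟨A, B, ?_, hBU, ?_, ?_⟩
  · rw [Finset.nonempty_iff_ne_empty]
    rintro rfl
    rw [hΨ, Finset.sum_empty, Finset.card_empty] at hpos
    have h1 : (0 : ℤ) ≤ (2 * (s : ℤ) + 1) * B.card := by positivity
    simp only [Nat.cast_zero, mul_zero, sub_zero, zero_sub] at hpos
    linarith
  · intro i hi b
    by_contra hlt
    push Not at hlt
    have h1 := hmax' (A.erase i) B hBU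
    rw [hΨ, hΨ] at h1
    have h2 := Finset.add_sum_erase A
      (fun i => (((N i true ∩ B).card : ℤ) + ((N i false ∩ B).card : ℤ))) hi
    have h3 : ((A.erase i).card : ℤ) = A.card - 1 := by
      have h4 := Finset.card_erase_of_mem hi
      have h5 : 0 < A.card := Finset.card_pos.2 ⟨i, hi⟩
      omega
    have h6 : (N i true ∩ B).card + (N i false ∩ B).card < q + g := by
      have h7 := hle i true
      have h8 := hle i false
      cases b
      · omega
      · omega
    have h9 : ((N i true ∩ B).card : ℤ) + ((N i false ∩ B).card : ℤ) < q + g := by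
      exact_mod_cast h6
    rw [h3] at h1
    nlinarith
  · intro t ht
    by_contra hlt
    push Not at hlt
    have h1 := hmax' A (B.erase t) ((Finset.erase_subset t B).trans hBU)
    rw [hΨ, hΨ] at h1
    have h3 : ((B.erase t).card : ℤ) = B.card - 1 := by
      have h4 := Finset.card_erase_of_mem ht
      have h5 : 0 < B.card := Finset.card_pos.2 ⟨t, ht⟩
      omega
    have h4 : ∑ i ∈ A, (((N i true ∩ B).card : ℤ) + ((N i false ∩ B).card : ℤ)) ≤
        ∑ i ∈ A, ((((N i true ∩ B.erase t).card : ℤ) + ((N i false ∩ B.erase t).card : ℤ)) +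
          2 * (if (t ∈ N i true ∨ t ∈ N i false) then 1 else 0)) := by
      apply Finset.sum_le_sum
      intro i _
      have h5 := C1_erase (N i true) B t
      have h6 := C1_erase (N i false) B t
      by_cases h7 : t ∈ N i true
      · rw [if_pos (Or.inl h7)]
        rw [if_pos h7] at h5
        have h8 : (if t ∈ N i false then 1 else 0) ≤ 1 := by split_ifs <;> omega
        have h9 : (N i true ∩ B).card + (N i false ∩ B).card ≤
            (N i true ∩ B.erase t).card + (N i false ∩ B.erase t).card + 2 * 1 := by omega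
        exact_mod_cast h9
      · by_cases h8 : t ∈ N i false
        · rw [if_pos (Or.inr h8)]
          rw [if_pos h8] at h6
          rw [if_neg h7] at h5
          have h9 : (N i true ∩ B).card + (N i false ∩ B).card ≤
              (N i true ∩ B.erase t).card + (N i false ∩ B.erase t).card + 2 * 1 := by omega
          exact_mod_cast h9
        · rw [if_neg (not_or.2 ⟨h7, h8⟩)]
          rw [if_neg h8] at h6
          rw [if_neg h7] at h5
          have h9 : (N i true ∩ B).card + (N i false ∩ B).card ≤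
              (N i true ∩ B.erase t).card + (N i false ∩ B.erase t).card + 2 * 0 := by omega
          exact_mod_cast h9
    have h5 : ∑ i ∈ A, (2 : ℤ) * (if (t ∈ N i true ∨ t ∈ N i false) then 1 else 0) =
        2 * ((A.filter (fun i => t ∈ N i true ∨ t ∈ N i false)).card : ℤ) := by
      rw [← Finset.mul_sum, Finset.card_filter]
      push_cast
      rfl
    have h7 := h4.trans_eq (Finset.sum_add_distrib (s := A)
      (f := fun i => ((N i true ∩ B.erase t).card : ℤ) + ((N i false ∩ B.erase t).card : ℤ))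
      (g := fun i => (2 : ℤ) * (if (t ∈ N i true ∨ t ∈ N i false) then 1 else 0)))
    rw [h5] at h7
    have h6 : ((A.filter (fun i => t ∈ N i true ∨ t ∈ N i false)).card : ℤ) ≤ s := by
      exact_mod_cast Nat.lt_succ_iff.1 hlt
    rw [h3] at h1
    nlinarith

end MP_ad30dc_co
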