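import Mathlib

namespace MP_ad30dc_co

/-- the number of indices `i` whose set `vs i` meets `W` is at most `|W|` -/
private theorem C2_count {ι V : Type*} [DecidableEq ι] [DecidableEq V]
    (vs : ι → Finset V) (hvs : ∀ i j, i ≠ j → Disjoint (vs i) (vs j)) (A : Finset ι)
    (W : Finset V) : (A.filter (fun i => ∃ w ∈ W, w ∈ vs i)).card ≤ W.card := by
  have h1 : A.filter (fun i => ∃ w ∈ W, w ∈ vs i) ⊆ W.biUnion (fun w => A.filter (fun i => w ∈ vs i)) := by
    intro i hi
    rw [Finset.mem_filter] at hi
    obtain ⟨hiA, w, hw, hwi⟩ := hi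
    rw [Finset.mem_biUnion]
    exact ⟨w, hw, Finset.mem_filter.mpr ⟨hiA, hwi⟩⟩
  refine (Finset.card_le_card h1).trans ?_
  refine (Finset.card_biUnion_le).trans ?_
  have h2 : ∀ w ∈ W, (A.filter (fun i => w ∈ vs i)).card ≤ 1 := by
    intro w _
    rw [Finset.card_le_one]
    intro i hi j hj
    rw [Finset.mem_filter] at hi hj
    by_contra hij
    exact Finset.disjoint_left.mp (hvs i j hij) hi.2 hj.2
  calc ∑ w ∈ W, (A.filter (fun i => w ∈ vs i)).card ≤ ∑ w ∈ W, 1 := Finset.sum_le_sum h2
    _ = W.card := by simp

/-- ROW C2 (greedy chain). Induction: for every `k` with `1 ≤ k ≤ r` there are `x`, `side`, `t`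
with all the properties for `k` instead of `r`, and `∀ i < k, x i ∈ A` (the induction statement
needs this) and `∀ i, i + 1 < k → t i ∈ B`.
`k = 1`: any `x 0 ∈ A`, `side 0 = true`, `t` arbitrary (a value of type `V` exists because
`vs`/`N`... if `V` is empty use `q ≤ ...`; simplest: do the case `r = 1` with
`t = fun _ => ` any element, e.g. from `[Nonempty V]`).
Step `k → k + 1 ≤ r`: the set `N (x (k-1)) (side (k-1)) ∩ B` has at least `q ≥ (r - 1) * (K + 1) ≥
k * (K + 1)` elements, hence contains some `u` that lies in none of the `k` sets `vs (x j)`, `j < k`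
(each has at most `K` elements) and is none of the `k - 1` elements `t j`, `j + 1 < k`. At least
`s ≥ 2 * r - 1 ≥ 2 * k + 1` elements `i ∈ A` satisfy `u ∈ N i true ∨ u ∈ N i false`; at most `k` of
them are one of the `x j`, `j < k`, and at most `k` of them satisfy `u ∈ vs i` or `t j ∈ vs i` for
some `j + 1 < k` (every vertex is in at most one set `vs i`, since they are disjoint). So some `i`
remains; let `b` be such that `u ∈ N i b`. Put `x k := i`, `side k := !b`, `t (k - 1) := u`
(`Function.update`). -/
theorem chain {ι V : Type*} [DecidableEq ι] [DecidableEq V] [Nonempty V]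
    (vs : ι → Finset V) (hvs : ∀ i j, i ≠ j → Disjoint (vs i) (vs j)) (K : ℕ)
    (hK : ∀ i, (vs i).card ≤ K) (A : Finset ι) (B : Finset V) (N : ι → Bool → Finset V)
    (q s : ℕ) (hA : A.Nonempty) (hq : ∀ i ∈ A, ∀ b, q ≤ (N i b ∩ B).card)
    (hs : ∀ t ∈ B, s ≤ (A.filter (fun i => t ∈ N i true ∨ t ∈ N i false)).card)
    (r : ℕ) (hr : 1 ≤ r) (hqr : (r - 1) * (K + 1) ≤ q) (hsr : 2 * r - 1 ≤ s) :
    ∃ (x : ℕ → ι) (side : ℕ → Bool) (t : ℕ → V),
      (∀ i < r, ∀ j < r, x i = x j → i = j) ∧
      (∀ i, i + 1 < r → t i ∈ N (x i) (side i)) ∧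
      (∀ i, i + 1 < r → t i ∈ N (x (i + 1)) (!(side (i + 1)))) ∧
      (∀ i j, i + 1 < r → j + 1 < r → t i = t j → i = j) ∧
      (∀ i j, i + 1 < r → j < r → t i ∉ vs (x j)) := by
  have key : ∀ m : ℕ, m + 1 ≤ r → ∃ (x : ℕ → ι) (side : ℕ → Bool) (t : ℕ → V),
      (∀ i < m + 1, x i ∈ A) ∧ (∀ i < m, t i ∈ B) ∧
      (∀ i < m + 1, ∀ j < m + 1, x i = x j → i = j) ∧
      (∀ i < m, t i ∈ N (x i) (side i)) ∧
      (∀ i < m, t i ∈ N (x (i + 1)) (!(side (i + 1)))) ∧
      (∀ i j, i < m → j < m → t i = t j → i = j) ∧
      (∀ i j, i < m → j < m + 1 → t i ∉ vs (x j)) := by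
    intro m
    induction m with
    | zero =>
      intro _
      obtain ⟨x0, hx0⟩ := hA
      obtain ⟨v0⟩ := ‹Nonempty V›
      refine ⟨fun _ => x0, fun _ => true, fun _ => v0, fun _ _ => hx0, ?_, ?_, ?_, ?_, ?_, ?_⟩
      · intro i hi; omega
      · intro i hi j hj _; omega
      · intro i hi; omega
      · intro i hi; omega
      · intro i j hi; omega
      · intro i j hi; omega
    | succ m ih =>
      intro hm
      obtain ⟨x, side, t, hxA, htB, hxinj, h1, h2, htinj, htv⟩ := ih (by omega)
      -- choice of the new sink
      obtain ⟨u, hu, huv, hut⟩ : ∃ u ∈ N (x m) (side m) ∩ B, (∀ j < m + 1, u ∉ vs (x j)) ∧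
          ∀ j < m, u ≠ t j := by
        have hcard := hq (x m) (hxA m (by omega)) (side m)
        set Fb : Finset V := (Finset.range (m + 1)).biUnion (fun j => vs (x j)) ∪
          (Finset.range m).image t with hFb
        have hFc : Fb.card ≤ (m + 1) * K + m := by
          refine (Finset.card_union_le _ _).trans ?_
          refine Nat.add_le_add ?_ ?_
          · refine (Finset.card_biUnion_le).trans ?_
            calc ∑ j ∈ Finset.range (m + 1), (vs (x j)).card ≤ ∑ j ∈ Finset.range (m + 1), K :=
                  Finset.sum_le_sum (fun j _ => hK _)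
              _ = (m + 1) * K := by simp
          · refine Finset.card_image_le.trans ?_
            simp
        have h3 : (m + 1) * (K + 1) ≤ q := by
          refine le_trans ?_ hqr
          exact Nat.mul_le_mul_right _ (by omega)
        have h4 : Fb.card < (N (x m) (side m) ∩ B).card := by
          have : (m + 1) * (K + 1) = (m + 1) * K + m + 1 := by ring
          omega
        obtain ⟨u, hu, huF⟩ := Finset.exists_mem_notMem_of_card_lt_card h4
        refine ⟨u, hu, fun j hj hmem => huF ?_, fun j hj hut => huF ?_⟩
        · rw [hFb, Finset.mem_union, Finset.mem_biUnion]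
          exact Or.inl ⟨j, Finset.mem_range.mpr hj, hmem⟩
        · rw [hFb, Finset.mem_union, Finset.mem_image]
          exact Or.inr ⟨j, Finset.mem_range.mpr hj, hut.symm⟩
      rw [Finset.mem_inter] at hu
      -- choice of the new spider
      obtain ⟨i, hiA, hiN, hix, hiu, hit⟩ : ∃ i ∈ A, (u ∈ N i true ∨ u ∈ N i false) ∧
          (∀ j < m + 1, i ≠ x j) ∧ u ∉ vs i ∧ ∀ j < m, t j ∉ vs i := by
        have hcard := hs u hu.2
        set W : Finset V := insert u ((Finset.range m).image t) with hW
        set Fx : Finset ι := (Finset.range (m + 1)).image x ∪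
          A.filter (fun i => ∃ w ∈ W, w ∈ vs i) with hFx
        have hWc : W.card ≤ m + 1 := by
          refine (Finset.card_insert_le _ _).trans ?_
          have : ((Finset.range m).image t).card ≤ m := by
            refine Finset.card_image_le.trans ?_
            simp
          omega
        have hFc : Fx.card ≤ (m + 1) + (m + 1) := by
          refine (Finset.card_union_le _ _).trans ?_
          refine Nat.add_le_add ?_ ?_
          · refine Finset.card_image_le.trans ?_
            simp
          · exact (C2_count vs hvs A W).trans hWc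
        have h4 : Fx.card < (A.filter (fun i => u ∈ N i true ∨ u ∈ N i false)).card := by
          omega
        obtain ⟨i, hi, hiF⟩ := Finset.exists_mem_notMem_of_card_lt_card h4
        rw [Finset.mem_filter] at hi
        rw [hFx, Finset.mem_union, not_or] at hiF
        have h5 : ¬ ∃ w ∈ W, w ∈ vs i := fun h6 => hiF.2 (Finset.mem_filter.mpr ⟨hi.1, h6⟩)
        refine ⟨i, hi.1, hi.2, fun j hj hij => hiF.1 ?_, fun h6 => h5 ⟨u, ?_, h6⟩,
          fun j hj h6 => h5 ⟨t j, ?_, h6⟩⟩
        · exact Finset.mem_image.mpr ⟨j, Finset.mem_range.mpr hj, hij.symm⟩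
        · exact Finset.mem_insert_self _ _
        · exact Finset.mem_insert_of_mem (Finset.mem_image.mpr ⟨j, Finset.mem_range.mpr hj, rfl⟩)
      obtain ⟨b, hb⟩ : ∃ b, u ∈ N i b := by
        rcases hiN with h | h
        · exact ⟨true, h⟩
        · exact ⟨false, h⟩
      have ex : ∀ j, j < m + 1 → Function.update x (m + 1) i j = x j := fun j hj =>
        Function.update_of_ne (by omega) _ _
      have es : ∀ j, j < m + 1 → Function.update side (m + 1) (!b) j = side j := fun j hj =>
        Function.update_of_ne (by omega) _ _
      have et : ∀ j, j < m → Function.update t m u j = t j := fun j hj =>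
        Function.update_of_ne (by omega) _ _
      refine ⟨Function.update x (m + 1) i, Function.update side (m + 1) (!b),
        Function.update t m u, ?_, ?_, ?_, ?_, ?_, ?_, ?_⟩
      · intro j hj
        rcases Nat.lt_succ_iff_lt_or_eq.mp hj with h | h
        · rw [ex j h]; exact hxA j h
        · rw [h, Function.update_self]; exact hiA
      · intro j hj
        rcases Nat.lt_succ_iff_lt_or_eq.mp hj with h | h
        · rw [et j h]; exact htB j h
        · rw [h, Function.update_self]; exact hu.2
      · intro j hj l hl hjl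
        rcases Nat.lt_succ_iff_lt_or_eq.mp hj with h | h
        · rcases Nat.lt_succ_iff_lt_or_eq.mp hl with h' | h'
          · rw [ex j h, ex l h'] at hjl; exact hxinj j h l h' hjl
          · rw [ex j h, h', Function.update_self] at hjl
            exact absurd hjl.symm (hix j h)
        · rcases Nat.lt_succ_iff_lt_or_eq.mp hl with h' | h'
          · rw [ex l h', h, Function.update_self] at hjl
            exact absurd hjl (hix l h')
          · rw [h, h']
      · intro j hj
        rw [ex j hj, es j hj]
        rcases Nat.lt_succ_iff_lt_or_eq.mp hj with h | h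
        · rw [et j h]; exact h1 j h
        · rw [h, Function.update_self]; exact hu.1
      · intro j hj
        rcases Nat.lt_succ_iff_lt_or_eq.mp hj with h | h
        · rw [ex (j + 1) (by omega), es (j + 1) (by omega), et j h]; exact h2 j h
        · rw [h, Function.update_self, Function.update_self, Function.update_self, Bool.not_not]
          exact hb
      · intro j l hj hl hjl
        rcases Nat.lt_succ_iff_lt_or_eq.mp hj with h | h
        · rcases Nat.lt_succ_iff_lt_or_eq.mp hl with h' | h'
          · rw [et j h, et l h'] at hjl; exact htinj j l h h' hjl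
          · rw [et j h, h', Function.update_self] at hjl
            exact absurd hjl.symm (hut j h)
        · rcases Nat.lt_succ_iff_lt_or_eq.mp hl with h' | h'
          · rw [et l h', h, Function.update_self] at hjl
            exact absurd hjl (hut l h')
          · rw [h, h']
      · intro j l hj hl
        rcases Nat.lt_succ_iff_lt_or_eq.mp hj with h | h
        · rw [et j h]
          rcases Nat.lt_succ_iff_lt_or_eq.mp hl with h' | h'
          · rw [ex l h']; exact htv j l h h'
          · rw [h', Function.update_self]; exact hit j h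
        · rw [h, Function.update_self]
          rcases Nat.lt_succ_iff_lt_or_eq.mp hl with h' | h'
          · rw [ex l h']; exact huv l h'
          · rw [h', Function.update_self]; exact hiu
  obtain ⟨x, side, t, hxA, htB, hxinj, h1, h2, htinj, htv⟩ := key (r - 1) (by omega)
  have hr1 : r - 1 + 1 = r := by omega
  refine ⟨x, side, t, ?_, ?_, ?_, ?_, ?_⟩
  · intro i hi j hj
    exact hxinj i (by omega) j (by omega)
  · intro i hi
    exact h1 i (by omega)
  · intro i hi
    exact h2 i (by omega)
  · intro i j hi hj
    exact htinj i j (by omega) (by omega)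
  · intro i j hi hj
    exact htv i j (by omega) (by omega)

end MP_ad30dc_co
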