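import Mathlib

/-!
# Subdivisions of oriented cycles: definitions
-/

namespace MP_ad30dc_co

/-- The digraph `D` contains a subdivision of the digraph `F`: there are an injective placement
`φ` of the vertices of `F` in `D` and for every arc `(a, b)` of `F` a list `P a b` of internal
vertices such that `φ a, P a b, φ b` is a directed path of `D`; the internal vertices of one path
are pairwise distinct, they are not branch vertices, and the paths of two different arcs have no
common internal vertex. -/
def ContainsSubdivision {W V : Type*} (F : Digraph W) (D : Digraph V) : Prop :=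
  ∃ (φ : W → V) (P : W → W → List V),
    Function.Injective φ ∧
    (∀ a b, F.Adj a b → List.IsChain D.Adj (φ a :: (P a b ++ [φ b]))) ∧
    (∀ a b, F.Adj a b → (P a b).Nodup) ∧
    (∀ a b, F.Adj a b → ∀ c, φ c ∉ P a b) ∧
    (∀ a b a' b', F.Adj a b → F.Adj a' b' → (a, b) ≠ (a', b') →
      List.Disjoint (P a b) (P a' b'))

/-- The orientation of the cycle with vertices `0, 1, …, n-1` coded by `o`: the edge between `i`
and `i + 1` is the arc `i → i + 1` if `o i = true` and the arc `i + 1 → i` if `o i = false`. -/
def orientedCycle (n : ℕ) (o : ZMod n → Bool) : Digraph (ZMod n) where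
  Adj a b := (b = a + 1 ∧ o a = true) ∨ (a = b + 1 ∧ o b = false)

/-- The number of blocks of an oriented cycle: the number of indices `i` where the direction
changes (the number of sources and sinks); by convention `1` for a directed cycle. -/
noncomputable def numBlocks (n : ℕ) (o : ZMod n → Bool) : ℕ :=
  max 1 ({i : ZMod n | o i ≠ o (i + 1)}.ncard)

section

variable {V : Type*}

open Classical in
/-- The out-neighbours of `v` inside the finite set `T`. -/
noncomputable def out (G : V → V → Prop) (T : Finset V) (v : V) : Finset V :=
  T.filter (fun w => G v w)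

@[simp] theorem mem_out {G : V → V → Prop} {T : Finset V} {v w : V} :
    w ∈ out G T v ↔ w ∈ T ∧ G v w := by
  classical
  simp [out]

theorem out_subset {G : V → V → Prop} {T : Finset V} {v : V} : out G T v ⊆ T := by
  intro w hw
  exact (mem_out.1 hw).1

theorem out_mono {G : V → V → Prop} {T T' : Finset V} (h : T ⊆ T') (v : V) :
    out G T v ⊆ out G T' v := by
  intro w hw
  rw [mem_out] at hw ⊢
  exact ⟨h hw.1, hw.2⟩

open Classical in
/-- The out-boundary of the set `T`. -/
noncomputable def bdry [Fintype V] (G : V → V → Prop) (T : Finset V) : Finset V :=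
  Finset.univ.filter (fun w => w ∉ T ∧ ∃ v ∈ T, G v w)

@[simp] theorem mem_bdry [Fintype V] {G : V → V → Prop} {T : Finset V} {w : V} :
    w ∈ bdry G T ↔ w ∉ T ∧ ∃ v ∈ T, G v w := by
  classical
  simp [bdry]

/-- A spider with two legs: a centre `c` and two directed paths starting in `c`, with at least `a`
and at most `b` arcs, and disjoint except for `c`. `leg s` lists the vertices of the leg `s`
after the centre. -/
structure Spider (G : V → V → Prop) (a b : ℕ) where
  /-- the centre -/
  c : V
  /-- the two legs -/
  leg : Bool → List V
  chain : ∀ s, List.IsChain G (c :: leg s)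
  nodup : (c :: (leg true ++ leg false)).Nodup
  len_ge : ∀ s, a ≤ (leg s).length
  len_le : ∀ s, (leg s).length ≤ b

namespace Spider

variable {G : V → V → Prop} {a b : ℕ}

/-- The last vertex of the leg `s`. -/
def tip (S : Spider G a b) (s : Bool) : V := (S.c :: S.leg s).getLast (by simp)

/-- The set of vertices of the spider. -/
def verts [DecidableEq V] (S : Spider G a b) : Finset V :=
  (S.c :: (S.leg true ++ S.leg false)).toFinset

theorem mem_verts [DecidableEq V] (S : Spider G a b) {v : V} :
    v ∈ S.verts ↔ v = S.c ∨ ∃ s, v ∈ S.leg s := by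
  simp [verts, or_comm]

theorem c_mem_verts [DecidableEq V] (S : Spider G a b) : S.c ∈ S.verts := by
  rw [mem_verts]; exact Or.inl rfl

theorem leg_mem_verts [DecidableEq V] (S : Spider G a b) {s : Bool} {v : V} (h : v ∈ S.leg s) :
    v ∈ S.verts := by
  rw [mem_verts]; exact Or.inr ⟨s, h⟩

theorem tip_mem_verts [DecidableEq V] (S : Spider G a b) (s : Bool) : S.tip s ∈ S.verts := by
  have h : S.tip s ∈ S.c :: S.leg s := List.getLast_mem _
  rw [mem_verts]
  rcases List.mem_cons.1 h with h | h
  · exact Or.inl h
  · exact Or.inr ⟨s, h⟩

theorem card_verts_le [DecidableEq V] (S : Spider G a b) : S.verts.card ≤ 2 * b + 1 := by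
  have h : S.verts.card ≤ (S.c :: (S.leg true ++ S.leg false)).length := List.toFinset_card_le _
  have h1 := S.len_le true
  have h2 := S.len_le false
  simp only [List.length_cons, List.length_append] at h
  omega

end Spider

/-- `Zig G L z0 K W z`: a zigzag from `z0` to `z` which consists of `K` directed paths (blocks)
with at least `L` arcs each; the blocks number `0, 2, 4, …` are traversed forwards, the blocks
number `1, 3, 5, …` backwards. `W` is the list of all vertices in the order of the traversal,
without the last vertex `z`. -/
inductive Zig (G : V → V → Prop) (L : ℕ) (z0 : V) : ℕ → List V → V → Prop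
  | nil : Zig G L z0 0 [] z0
  | fwd {k : ℕ} {W : List V} {z : V} (hk : Even k) (h : Zig G L z0 k W z) (B : List V) (z' : V)
      (hB : L ≤ B.length + 1) (hc : List.IsChain G (z :: (B ++ [z']))) :
      Zig G L z0 (k + 1) (W ++ (z :: B)) z'
  | bwd {k : ℕ} {W : List V} {z : V} (hk : ¬ Even k) (h : Zig G L z0 k W z) (B : List V) (z' : V)
      (hB : L ≤ B.length + 1) (hc : List.IsChain G (z' :: (B ++ [z]))) :
      Zig G L z0 (k + 1) (W ++ (z :: B.reverse)) z'

end

end MP_ad30dc_co
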