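import Pool.Agent.Lib.MP_ad30dc_co.D

namespace MP_ad30dc_co

section

variable {V : Type*}

private theorem E1_snoc {G : V → V → Prop} {a b : ℕ} (S : Spider G a b) (s : Bool) (t : V)
    (h : G (S.tip s) t) : List.IsChain G (S.c :: (S.leg s ++ [t])) := by
  have h1 : List.IsChain G ((S.c :: S.leg s) ++ [t]) := by
    rw [List.isChain_append]
    refine ⟨S.chain s, List.isChain_singleton _, ?_⟩
    intro u hu w hw
    have hu' : u = S.tip s := by
      have h2 : (S.c :: S.leg s).getLast? = some (S.tip s) :=
        List.getLast?_eq_getLast_of_ne_nil (by simp)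
      rw [h2] at hu
      exact (Option.mem_some_iff.1 hu).symm
    have hw' : w = t := by
      have : ([t] : List V).head? = some t := rfl
      rw [this] at hw
      exact (Option.mem_some_iff.1 hw).symm
    rw [hu', hw']
    exact h
  simpa using h1

private theorem E1_c_not {G : V → V → Prop} {a b : ℕ} (S : Spider G a b) (s : Bool) :
    S.c ∉ S.leg s := by
  have h := (List.nodup_cons.1 S.nodup).1
  cases s
  · exact fun h' => h (List.mem_append_right _ h')
  · exact fun h' => h (List.mem_append_left _ h')

private theorem E1_leg_not {G : V → V → Prop} {a b : ℕ} (S : Spider G a b) (s : Bool) (v : V)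
    (h1 : v ∈ S.leg s) (h2 : v ∈ S.leg (!s)) : False := by
  have h := List.disjoint_of_nodup_append (List.nodup_cons.1 S.nodup).2
  cases s
  · exact h h2 h1
  · exact h h1 h2

private theorem E1_leg_nodup {G : V → V → Prop} {a b : ℕ} (S : Spider G a b) (s : Bool) :
    (S.leg s).Nodup := by
  have h := List.nodup_append.1 (List.nodup_cons.1 S.nodup).2
  cases s
  · exact h.2.1
  · exact h.1

/-- the classification of the vertices of the zigzag -/
private def E1_P {ι : Type*} {G : V → V → Prop} {l : ℕ} (S : ι → Spider G l (2 * l))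
    (x : ℕ → ι) (side : ℕ → Bool) (t : ℕ → V) (k : ℕ) (v : V) : Prop :=
  (∃ i, i < k ∧ v = t i) ∨ (∃ i, i < k ∧ (v = (S (x i)).c ∨ v ∈ (S (x i)).leg (side i))) ∨
    (∃ i, i < k ∧ v ∈ (S (x (i + 1))).leg (!(side (i + 1))))

private theorem E1_P_mono {ι : Type*} {G : V → V → Prop} {l : ℕ} {S : ι → Spider G l (2 * l)}
    {x : ℕ → ι} {side : ℕ → Bool} {t : ℕ → V} {k : ℕ} {v : V} (h : E1_P S x side t k v) :
    E1_P S x side t (k + 1) v := by
  rcases h with ⟨i, hi, h⟩ | ⟨i, hi, h⟩ | ⟨i, hi, h⟩
  · exact Or.inl ⟨i, by omega, h⟩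
  · exact Or.inr (Or.inl ⟨i, by omega, h⟩)
  · exact Or.inr (Or.inr ⟨i, by omega, h⟩)

end

/-- ROW E1 (assembling the chain). Given disjoint spiders `S i` and the sequences `x`, `side`, `t`
of ROW C2 (`t i` is an out-neighbour of the tip of the leg `side i` of the spider `S (x i)` and of
the tip of the leg `!side (i+1)` of the spider `S (x (i+1))`), the blocks
`centre(x i), leg (side i), t i` (forwards) and `centre(x (i+1)), leg (!side (i+1)), t i`
(backwards) form a zigzag from `centre(x 0)` to `centre(x (r-1))` with `2 * (r - 1)` blocks, each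
with at least `l + 1` arcs. `La` is the leg `side (r-1)` of the last spider, `Lb` is the leg
`!side 0` of the first spider. Suggested induction statement for `k < r` :
`∃ W, Zig G (l+1) (S (x 0)).c (2*k) W (S (x k)).c ∧ W.Nodup ∧
 (∀ v ∈ W, (∃ i < k, v = t i) ∨ (∃ i < k, v = (S (x i)).c ∨ v ∈ (S (x i)).leg (side i)) ∨
   (∃ i < k, v ∈ (S (x (i+1))).leg (!side (i+1)))) ∧ W.length ≤ 4*l*k + 2*k`.
Everything is disjoint because the spiders are disjoint, the two legs and the centre of a spider are
disjoint, and the `t i` are distinct and not on the spiders `S (x j)`. For the length: every forward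
block contributes `1 + |leg| ≤ 2l + 1`, every backward block `1 + |leg| ≤ 2l + 1`; the end
contributes at most `4l + 1`. So the total is at most `(4l + 2)(r - 1) + 4l + 1 + ... ≤ (4l+2) r`. -/
theorem assemble {V : Type*} [DecidableEq V] (G : V → V → Prop) (l : ℕ)
    {ι : Type*} (S : ι → Spider G l (2 * l)) (T : Finset V)
    (hST : ∀ i, (S i).verts ⊆ T)
    (hdis : ∀ i j, i ≠ j → Disjoint (S i).verts (S j).verts)
    (r : ℕ) (hr : 1 ≤ r) (x : ℕ → ι) (side : ℕ → Bool) (t : ℕ → V)
    (hx : ∀ i < r, ∀ j < r, x i = x j → i = j)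
    (ht1 : ∀ i, i + 1 < r → G ((S (x i)).tip (side i)) (t i))
    (ht2 : ∀ i, i + 1 < r → G ((S (x (i + 1))).tip (!(side (i + 1)))) (t i))
    (htT : ∀ i, i + 1 < r → t i ∈ T)
    (ht : ∀ i j, i + 1 < r → j + 1 < r → t i = t j → i = j)
    (hts : ∀ i j, i + 1 < r → j < r → t i ∉ (S (x j)).verts) :
    ∃ (W La Lb : List V) (z0 z : V), Zig G (l + 1) z0 (2 * (r - 1)) W z ∧
      List.IsChain G (z :: La) ∧ List.IsChain G (z0 :: Lb) ∧ l ≤ La.length ∧ l ≤ Lb.length ∧
      (W ++ (z :: La) ++ Lb).Nodup ∧ z0 ∈ W ++ [z] ∧ (∀ v ∈ W ++ (z :: La) ++ Lb, v ∈ T) ∧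
      (W ++ (z :: La) ++ Lb).length ≤ r * (4 * l + 2) := by
  have hS : ∀ i < r, ∀ j < r, ∀ v, v ∈ (S (x i)).verts → v ∈ (S (x j)).verts → i = j := by
    intro i hi j hj v h1 h2
    by_contra hij
    exact (Finset.disjoint_left.1 (hdis _ _ (fun h => hij (hx i hi j hj h)))) h1 h2
  have hcv : ∀ i, (S (x i)).c ∈ (S (x i)).verts := fun i => (S (x i)).c_mem_verts
  have hlv : ∀ i s v, v ∈ (S (x i)).leg s → v ∈ (S (x i)).verts :=
    fun i s v h => (S (x i)).leg_mem_verts h
  -- the vertices of `W` do not meet the next forward part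
  have hfwd : ∀ k < r, ∀ v, E1_P S x side t k v → v ∉ (S (x k)).c :: (S (x k)).leg (side k) := by
    intro k hk v hv hmem
    have hvk : v ∈ (S (x k)).verts := by
      rcases List.mem_cons.1 hmem with h | h
      · rw [h]; exact hcv k
      · exact hlv k _ v h
    rcases hv with ⟨i, hi, h⟩ | ⟨i, hi, h⟩ | ⟨i, hi, h⟩
    · rw [h] at hvk
      exact hts i k (by omega) hk hvk
    · have hvi : v ∈ (S (x i)).verts := by
        rcases h with h | h
        · rw [h]; exact hcv i
        · exact hlv i _ v h
      have := hS i (by omega) k hk v hvi hvk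
      omega
    · have hvi : v ∈ (S (x (i + 1))).verts := hlv (i + 1) _ v h
      have hik := hS (i + 1) (by omega) k hk v hvi hvk
      rw [hik] at h
      rcases List.mem_cons.1 hmem with h' | h'
      · rw [h'] at h
        exact E1_c_not _ _ h
      · exact E1_leg_not _ _ v h' h
  have hind : ∀ k, k < r → ∃ W : List V,
      Zig G (l + 1) (S (x 0)).c (2 * k) W (S (x k)).c ∧ W.Nodup ∧
      (∀ v ∈ W, E1_P S x side t k v) ∧ W.length ≤ (4 * l + 2) * k ∧
      (S (x 0)).c ∈ W ++ [(S (x k)).c] := by
    intro k
    induction k with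
    | zero =>
      intro _
      refine ⟨[], ?_, List.nodup_nil, ?_, ?_, ?_⟩
      · exact Zig.nil
      · intro v hv
        simp at hv
      · simp
      · simp
    | succ k ih =>
      intro hk
      obtain ⟨W, hW, hWn, hWP, hWl, hW0⟩ := ih (by omega)
      have z1 := Zig.fwd (by simp) hW ((S (x k)).leg (side k)) (t k)
        (by have := (S (x k)).len_ge (side k); omega)
        (E1_snoc _ _ _ (ht1 k hk))
      have z2 := Zig.bwd (by simp) z1 ((S (x (k + 1))).leg (!(side (k + 1)))) (S (x (k + 1))).c
        (by have := (S (x (k + 1))).len_ge (!(side (k + 1))); omega)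
        (E1_snoc _ _ _ (ht2 k hk))
      refine ⟨_, z2, ?_, ?_, ?_, ?_⟩
      · rw [List.nodup_append']
        refine ⟨?_, ?_, ?_⟩
        · rw [List.nodup_append']
          refine ⟨hWn, ?_, ?_⟩
          · exact List.nodup_cons.2 ⟨E1_c_not _ _, E1_leg_nodup _ _⟩
          · intro v hv hv'
            exact hfwd k (by omega) v (hWP v hv) hv'
        · refine List.nodup_cons.2 ⟨?_, List.nodup_reverse.2 (E1_leg_nodup _ _)⟩
          intro h
          rw [List.mem_reverse] at h
          exact hts k (k + 1) hk (by omega) (hlv _ _ _ h)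
        · intro v hv hv'
          have hv2 : E1_P S x side t k v ∨ v ∈ (S (x k)).verts := by
            rcases List.mem_append.1 hv with h | h
            · exact Or.inl (hWP v h)
            · right
              rcases List.mem_cons.1 h with h | h
              · rw [h]; exact hcv k
              · exact hlv k _ v h
          have hv3 : v = t k ∨ v ∈ (S (x (k + 1))).verts := by
            rcases List.mem_cons.1 hv' with h | h
            · exact Or.inl h
            · rw [List.mem_reverse] at h
              exact Or.inr (hlv _ _ _ h)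
          have hv4 : (∃ i, i < k ∧ v = t i) ∨ (∃ i, i ≤ k ∧ v ∈ (S (x i)).verts) := by
            rcases hv2 with (⟨i, hi, h⟩ | ⟨i, hi, h⟩ | ⟨i, hi, h⟩) | h
            · exact Or.inl ⟨i, hi, h⟩
            · right
              refine ⟨i, by omega, ?_⟩
              rcases h with h | h
              · rw [h]; exact hcv i
              · exact hlv i _ v h
            · exact Or.inr ⟨i + 1, by omega, hlv _ _ _ h⟩
            · exact Or.inr ⟨k, le_refl _, h⟩
          rcases hv3 with h3 | h3
          · rcases hv4 with ⟨i, hi, h4⟩ | ⟨i, hi, h4⟩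
            · have := ht i k (by omega) hk (h4.symm.trans h3)
              omega
            · rw [h3] at h4
              exact hts k i hk (by omega) h4
          · rcases hv4 with ⟨i, hi, h4⟩ | ⟨i, hi, h4⟩
            · rw [h4] at h3
              exact hts i (k + 1) (by omega) hk h3
            · have := hS i (by omega) (k + 1) hk v h4 h3
              omega
      · intro v hv
        rcases List.mem_append.1 hv with h | h
        · rcases List.mem_append.1 h with h | h
          · exact E1_P_mono (hWP v h)
          · exact Or.inr (Or.inl ⟨k, by omega, List.mem_cons.1 h⟩)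
        · rcases List.mem_cons.1 h with h | h
          · exact Or.inl ⟨k, by omega, h⟩
          · rw [List.mem_reverse] at h
            exact Or.inr (Or.inr ⟨k, by omega, h⟩)
      · simp only [List.length_append, List.length_cons, List.length_reverse]
        have h1 := (S (x k)).len_le (side k)
        have h2 := (S (x (k + 1))).len_le (!(side (k + 1)))
        have h3 : (4 * l + 2) * (k + 1) = (4 * l + 2) * k + (4 * l + 2) := by ring
        rw [h3]
        omega
      · rcases List.mem_append.1 hW0 with h | h
        · simp only [List.mem_append]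
          exact Or.inl (Or.inl (Or.inl h))
        · rw [List.mem_singleton] at h
          simp only [List.mem_append, List.mem_cons]
          exact Or.inl (Or.inl (Or.inr (Or.inl h)))
  obtain ⟨W, hW, hWn, hWP, hWl, hW0⟩ := hind (r - 1) (by omega)
  refine ⟨W, (S (x (r - 1))).leg (side (r - 1)), (S (x 0)).leg (!(side 0)), (S (x 0)).c,
    (S (x (r - 1))).c, hW, (S (x (r - 1))).chain _, (S (x 0)).chain _, (S (x (r - 1))).len_ge _,
    (S (x 0)).len_ge _, ?_, hW0, ?_, ?_⟩
  · rw [List.nodup_append']
    refine ⟨?_, E1_leg_nodup _ _, ?_⟩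
    · rw [List.nodup_append']
      refine ⟨hWn, List.nodup_cons.2 ⟨E1_c_not _ _, E1_leg_nodup _ _⟩, ?_⟩
      intro v hv hv'
      exact hfwd (r - 1) (by omega) v (hWP v hv) hv'
    · intro v hv hv'
      have hv0 : v ∈ (S (x 0)).verts := hlv 0 _ v hv'
      have key : ∀ i, i < r → (v = (S (x i)).c ∨ v ∈ (S (x i)).leg (side i)) → False := by
        intro i hi h
        have hvi : v ∈ (S (x i)).verts := by
          rcases h with h | h
          · rw [h]; exact hcv i
          · exact hlv i _ v h
        have hi0 := hS i hi 0 (by omega) v hvi hv0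
        rw [hi0] at h
        rcases h with h | h
        · rw [h] at hv'
          exact E1_c_not _ _ hv'
        · exact E1_leg_not _ _ v h hv'
      rcases List.mem_append.1 hv with h | h
      · rcases hWP v h with ⟨i, hi, h⟩ | ⟨i, hi, h⟩ | ⟨i, hi, h⟩
        · rw [h] at hv0
          exact hts i 0 (by omega) (by omega) hv0
        · exact key i (by omega) h
        · have := hS (i + 1) (by omega) 0 (by omega) v (hlv _ _ _ h) hv0
          omega
      · exact key (r - 1) (by omega) (List.mem_cons.1 h)
  · intro v hv
    have hvT : ∀ i, v ∈ (S (x i)).verts → v ∈ T := fun i h => hST _ h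
    rcases List.mem_append.1 hv with h | h
    · rcases List.mem_append.1 h with h | h
      · rcases hWP v h with ⟨i, hi, h⟩ | ⟨i, hi, h⟩ | ⟨i, hi, h⟩
        · rw [h]; exact htT i (by omega)
        · apply hvT i
          rcases h with h | h
          · rw [h]; exact hcv i
          · exact hlv i _ v h
        · exact hvT (i + 1) (hlv _ _ _ h)
      · apply hvT (r - 1)
        rcases List.mem_cons.1 h with h | h
        · rw [h]; exact hcv _
        · exact hlv _ _ v h
    · exact hvT 0 (hlv _ _ _ h)
  · simp only [List.length_append, List.length_cons]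
    have h1 := (S (x (r - 1))).len_le (side (r - 1))
    have h2 := (S (x 0)).len_le (!(side 0))
    obtain ⟨m, rfl⟩ : ∃ m, r = m + 1 := ⟨r - 1, by omega⟩
    have h3 : (m + 1) * (4 * l + 2) = (4 * l + 2) * m + (4 * l + 2) := by ring
    rw [h3]
    simp only [Nat.add_sub_cancel] at hWl h1 ⊢
    omega

end MP_ad30dc_co
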