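import Pool.Agent.Lib.MP_ad30dc_co.A2
import Pool.Agent.Lib.MP_ad30dc_co.B5
import Pool.Agent.Lib.MP_ad30dc_co.C1
import Pool.Agent.Lib.MP_ad30dc_co.C2
import Pool.Agent.Lib.MP_ad30dc_co.E1

namespace MP_ad30dc_co

/-- ROW E2a (an open chain in the minimal set `T`). Apply `spider_family` (`h ≥ 2 l`), let
`U` = union of the vertex sets; `|U| ≤ N * (4 l + 1)` (`Spider.card_verts_le`,
`Finset.card_biUnion_le`). Put `g := h - 2 * l` and choose for every leg `(i, s)` a set
`Nn i s ⊆ out G U (tip)` with exactly `g` elements (`Finset.exists_subset_card_eq`). `cleaning`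
with `K = 4 l + 1`, `q = (r - 1) * (K + 1)`, `s = 2 r - 1` (so `2 s - 1 = 4 r - 3`) gives `A`, `B`;
`chain` gives `x`, `side`, `t`; `assemble` (with `T`; `t i ∈ U ⊆ T`). -/
theorem open_chain {V : Type*} [DecidableEq V] [Nonempty V] (G : V → V → Prop)
    (hG : ∀ v, ¬ G v v) (T : Finset V) (hT : T.Nonempty) (l r h : ℕ) (hr : 1 ≤ r)
    (hh : (r - 1) * (4 * l + 2) + (4 * r - 3) * (4 * l + 1) + 2 * l < h)
    (hdeg : ∀ v ∈ T, h ≤ (out G T v).card) :
    ∃ (W La Lb : List V) (z0 z : V), Zig G (l + 1) z0 (2 * (r - 1)) W z ∧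
      List.IsChain G (z :: La) ∧ List.IsChain G (z0 :: Lb) ∧ l ≤ La.length ∧ l ≤ Lb.length ∧
      (W ++ (z :: La) ++ Lb).Nodup ∧ z0 ∈ W ++ [z] ∧ (∀ v ∈ W ++ (z :: La) ++ Lb, v ∈ T) ∧
      (W ++ (z :: La) ++ Lb).length ≤ r * (4 * l + 2) := by
  classical
  obtain ⟨N, S, hN, hST, hdis, hout⟩ := spider_family G hG T hT l h (by omega) hdeg
  haveI : Nonempty (Fin N) := ⟨⟨0, hN⟩⟩
  set U : Finset V := Finset.univ.biUnion (fun i => (S i).verts) with hUdef
  have hch : ∀ (i : Fin N) (b : Bool), ∃ Q : Finset V, Q ⊆ out G U ((S i).tip b) ∧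
      Q.card = h - 2 * l := fun i b => Finset.exists_subset_card_eq (hout i b)
  choose Nn hNn1 hNn2 using hch
  have hUcard : U.card ≤ (4 * l + 1) * Fintype.card (Fin N) := by
    calc U.card ≤ ∑ i : Fin N, (S i).verts.card := Finset.card_biUnion_le
      _ ≤ ∑ _i : Fin N, (4 * l + 1) := Finset.sum_le_sum (fun i _ => by
          have := (S i).card_verts_le
          omega)
      _ = (4 * l + 1) * Fintype.card (Fin N) := by
          rw [Finset.sum_const, Finset.card_univ, smul_eq_mul, mul_comm]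
  have e1 : 2 * (2 * r - 1) - 1 = 4 * r - 3 := by omega
  obtain ⟨A, B, hA, hBU, hq, hs⟩ := cleaning U Nn (h - 2 * l) ((r - 1) * (4 * l + 2))
    (2 * r - 1) (4 * l + 1) (fun i b => (hNn1 i b).trans out_subset) hNn2 hUcard (by omega)
    (by rw [e1]; omega)
  obtain ⟨x, side, t, hx, ht1, ht2, ht, hts⟩ := chain (fun i => (S i).verts) hdis (4 * l + 1)
    (fun i => by have := (S i).card_verts_le; omega) A B Nn ((r - 1) * (4 * l + 2)) (2 * r - 1)
    hA hq hs r hr (le_refl _) (le_refl _)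
  have hUT : U ⊆ T := Finset.biUnion_subset.2 (fun i _ => hST i)
  refine assemble G l S T hST hdis r hr x side t hx
    (fun i hi => (mem_out.1 (hNn1 _ _ (ht1 i hi))).2)
    (fun i hi => (mem_out.1 (hNn1 _ _ (ht2 i hi))).2)
    (fun i hi => hUT (mem_out.1 (hNn1 _ _ (ht1 i hi))).1) ht hts

/-- ROW E2b (closing the chain). Let `m = 2 * r * (4 l + 2)`, `T` from `minimal_set G m`, `h = d - m`
(`deg_in`). `open_chain` applies (arithmetic: with `L = l + 1`,
`m + (r-1)(4l+2) + (4r-3)(4l+1) + 2l < 28 r (l+1)`). Let `F = (W ++ (z :: La) ++ Lb).toFinset ⊆ T`,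
`2 |F| ≤ m`, `F` nonempty. The last vertex of `z :: La` has at least `h > |F|` out-neighbours in
`T`, so it has an out-neighbour `p ∈ T \ F`; in the same way the last vertex of `z0 :: Lb` has an
out-neighbour `q ∈ T \ F`. (`h > |F|`: since `h > (4r-3)(4l+1) + (r-1)(4l+2) + 2l` and
`|F| ≤ r (4l+2)`; for `r = 1` use the sharper... see the note.) `reach_meet` and `two_paths` give
`w, PA, QA`. New blocks: forwards from `z` to `w` with interior `La ++ PA`
(chain: `z :: La ++ PA ++ [w]`, the junction is the arc from the last vertex of `z :: La` to the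
first vertex `p` of `PA ++ [w]`), `Even (2 * (r - 1))`; backwards: `z0 :: (Lb ++ QA ++ [w])` is a
directed path from `z0` to `w`; so `Zig G (l+1) z0 (2 * (r-1) + 2) (W ++ (z :: (La ++ PA)) ++
(w :: (Lb ++ QA).reverse)) z0`. Nodup: a permutation of a sublist of
`(W ++ (z :: La) ++ Lb) ++ (PA ++ QA ++ [w])`, where the second part avoids `F`.
Note for `|F| < h`: `h ≥ 28 r (l+1) - 2 r (4l+2) = 20 r l + 24 r > r (4l+2) ≥ |F|`. -/
theorem core {V : Type*} [Fintype V] [DecidableEq V] [Nonempty V] (G : V → V → Prop)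
    (hG : ∀ v, ¬ G v v) (l r d : ℕ) (hr : 1 ≤ r) (hd : 28 * r * (l + 1) ≤ d)
    (hdeg : ∀ v, d ≤ (out G Finset.univ v).card) :
    ∃ (W : List V) (z0 : V), Zig G (l + 1) z0 (2 * r) W z0 ∧ W.Nodup := by
  classical
  obtain ⟨T, hT, hTm, hmin⟩ := minimal_set G (2 * r * (4 * l + 2))
  have hdeg' : ∀ v ∈ T, d - 2 * r * (4 * l + 2) ≤ (out G T v).card := fun v hv =>
    deg_in G _ d T hTm v hv (hdeg v)
  have hh : (r - 1) * (4 * l + 2) + (4 * r - 3) * (4 * l + 1) + 2 * l
      < d - 2 * r * (4 * l + 2) := by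
    obtain ⟨r', rfl⟩ : ∃ r', r = r' + 1 := ⟨r - 1, by omega⟩
    have e1 : (r' + 1 - 1) * (4 * l + 2) = 4 * (r' * l) + 2 * r' := by
      rw [Nat.add_sub_cancel]; ring
    have e2 : (4 * (r' + 1) - 3) * (4 * l + 1) = 16 * (r' * l) + 4 * r' + 4 * l + 1 := by
      have : 4 * (r' + 1) - 3 = 4 * r' + 1 := by omega
      rw [this]; ring
    have e3 : 2 * (r' + 1) * (4 * l + 2) = 8 * (r' * l) + 4 * r' + 8 * l + 4 := by ring
    have e4 : 28 * (r' + 1) * (l + 1) = 28 * (r' * l) + 28 * r' + 28 * l + 28 := by ring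
    rw [e1, e2, e3]
    rw [e4] at hd
    omega
  have hbig : r * (4 * l + 2) < d - 2 * r * (4 * l + 2) := by
    obtain ⟨r', rfl⟩ : ∃ r', r = r' + 1 := ⟨r - 1, by omega⟩
    have e1 : (r' + 1) * (4 * l + 2) = 4 * (r' * l) + 2 * r' + 4 * l + 2 := by ring
    have e3 : 2 * (r' + 1) * (4 * l + 2) = 8 * (r' * l) + 4 * r' + 8 * l + 4 := by ring
    have e4 : 28 * (r' + 1) * (l + 1) = 28 * (r' * l) + 28 * r' + 28 * l + 28 := by ring
    rw [e1, e3]
    rw [e4] at hd
    omega
  obtain ⟨W, La, Lb, z0, z, hzig, hLa, hLb, hlLa, hlLb, hnd, hz0, hTmem, hlen⟩ :=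
    open_chain G hG T hT l r _ hr hh hdeg'
  set F : Finset V := (W ++ (z :: La) ++ Lb).toFinset with hFdef
  have hFT : F ⊆ T := by
    intro v hv
    exact hTmem v (List.mem_toFinset.1 hv)
  have hFcard : F.card ≤ r * (4 * l + 2) := (List.toFinset_card_le _).trans hlen
  have hzF : z ∈ F := by
    rw [hFdef, List.mem_toFinset]; simp
  have haF : (z :: La).getLast (by simp) ∈ F := by
    rw [hFdef, List.mem_toFinset]
    have h1 : (z :: La).getLast (by simp) ∈ z :: La := List.getLast_mem _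
    exact List.mem_append_left _ (List.mem_append_right _ h1)
  have hbF : (z0 :: Lb).getLast (by simp) ∈ F := by
    rw [hFdef, List.mem_toFinset]
    have h1 : (z0 :: Lb).getLast (by simp) ∈ z0 :: Lb := List.getLast_mem _
    rcases List.mem_cons.1 h1 with h2 | h2
    · rw [h2]
      rcases List.mem_append.1 hz0 with h3 | h3
      · exact List.mem_append_left _ (List.mem_append_left _ h3)
      · rw [List.mem_singleton.1 h3]
        exact List.mem_append_left _ (List.mem_append_right _ (List.mem_cons_self ..))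
    · exact List.mem_append_right _ h2
  have hnext : ∀ a ∈ F, ∃ p, G a p ∧ p ∈ T ∧ p ∉ F := by
    intro a ha
    have h1 : F.card < (out G T a).card := lt_of_le_of_lt hFcard
      (lt_of_lt_of_le hbig (hdeg' a (hFT ha)))
    obtain ⟨p, hp1, hp2⟩ := Finset.exists_mem_notMem_of_card_lt_card h1
    exact ⟨p, (mem_out.1 hp1).2, (mem_out.1 hp1).1, hp2⟩
  obtain ⟨p, hGp, hpT, hpF⟩ := hnext _ haF
  obtain ⟨q, hGq, hqT, hqF⟩ := hnext _ hbF
  have hFm : 2 * F.card ≤ 2 * r * (4 * l + 2) := by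
    calc 2 * F.card ≤ 2 * (r * (4 * l + 2)) := Nat.mul_le_mul_left 2 hFcard
      _ = 2 * r * (4 * l + 2) := by ring
  obtain ⟨w, PA, QA, hPA, hQA, hPh, hQh, hPQnd, hPQF⟩ := two_paths G F p q hpF hqF
    (reach_meet G _ T hTm hmin F ⟨z, hzF⟩ hFT hFm p q hpT hpF hqT hqF)
  have hc1 : List.IsChain G (z :: ((La ++ PA) ++ [w])) := by
    have h1 : z :: ((La ++ PA) ++ [w]) = (z :: La) ++ (PA ++ [w]) := by simp
    rw [h1, List.isChain_append]
    refine ⟨hLa, hPA, fun a ha b hb => ?_⟩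
    rw [hPh] at hb
    rw [List.getLast?_eq_getLast_of_ne_nil (List.cons_ne_nil z La)] at ha
    rw [Option.mem_def, Option.some.injEq] at ha hb
    rw [← ha, ← hb]
    exact hGp
  have hc2 : List.IsChain G (z0 :: ((Lb ++ QA) ++ [w])) := by
    have h1 : z0 :: ((Lb ++ QA) ++ [w]) = (z0 :: Lb) ++ (QA ++ [w]) := by simp
    rw [h1, List.isChain_append]
    refine ⟨hLb, hQA, fun a ha b hb => ?_⟩
    rw [hQh] at hb
    rw [List.getLast?_eq_getLast_of_ne_nil (List.cons_ne_nil z0 Lb)] at ha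
    rw [Option.mem_def, Option.some.injEq] at ha hb
    rw [← ha, ← hb]
    exact hGq
  have hz1 := Zig.fwd (even_two_mul (r - 1)) hzig (La ++ PA) w
    (by rw [List.length_append]; omega) hc1
  have hodd : ¬ Even (2 * (r - 1) + 1) := by
    rw [Nat.not_even_iff_odd]
    exact ⟨r - 1, rfl⟩
  have hz2 := Zig.bwd hodd hz1 (Lb ++ QA) z0 (by rw [List.length_append]; omega) hc2
  have e5 : 2 * (r - 1) + 1 + 1 = 2 * r := by omega
  rw [e5] at hz2
  refine ⟨_, z0, hz2, ?_⟩
  have hperm : List.Perm (W ++ (z :: (La ++ PA)) ++ (w :: (Lb ++ QA).reverse))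
      ((W ++ (z :: La) ++ Lb) ++ (PA ++ QA ++ [w])) := by
    rw [List.perm_iff_count]
    intro a
    simp only [List.count_append, List.count_cons, List.count_reverse, List.count_nil]
    omega
  rw [hperm.nodup_iff, List.nodup_append]
  refine ⟨hnd, hPQnd, fun a ha b hb hab => ?_⟩
  subst hab
  exact hPQF a hb (List.mem_toFinset.2 ha)

end MP_ad30dc_co
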