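import Pool.Agent.Lib.MP_ad30dc_co.D

namespace MP_ad30dc_co

/-- ROW F1a. A zigzag starts in `z0`. Easy induction (or cases) on `h`. -/
theorem zig_head {V : Type*} {G : V → V → Prop} {L : ℕ} {z0 z : V} {K : ℕ} {W : List V}
    (h : Zig G L z0 K W z) : (W ++ [z]).head? = some z0 := by
  induction h with
  | nil => rfl
  | @fwd k W z hk h B z' hB hc ih =>
    have e : W ++ (z :: B) ++ [z'] = (W ++ [z]) ++ (B ++ [z']) := by simp
    rw [e, List.head?_append, ih]
    rfl
  | @bwd k W z hk h B z' hB hc ih =>
    have e : W ++ (z :: B.reverse) ++ [z'] = (W ++ [z]) ++ (B.reverse ++ [z']) := by simp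
    rw [e, List.head?_append, ih]
    rfl

private theorem F1_left {V : Type*} (W R : List V) (z d : V) (i : ℕ) (hi : i ≤ W.length) :
    (W ++ z :: R).getD i d = (W ++ [z]).getD i d := by
  rcases hi.lt_or_eq with hi | hi
  · rw [List.getD_append _ _ _ _ hi, List.getD_append _ _ _ _ hi]
  · subst hi
    rw [List.getD_append_right _ _ _ _ le_rfl, List.getD_append_right _ _ _ _ le_rfl,
      Nat.sub_self]
    rfl

private theorem F1_right {V : Type*} (W l : List V) (d : V) (j : ℕ) :
    (W ++ l).getD (W.length + j) d = l.getD j d := by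
  rw [List.getD_append_right _ _ _ _ (Nat.le_add_right _ _), Nat.add_sub_cancel_left]

private theorem F1_chain {V : Type*} {R : V → V → Prop} : ∀ (l : List V), l.IsChain R →
    ∀ (d : V) (j : ℕ), j + 1 < l.length → R (l.getD j d) (l.getD (j + 1) d)
  | [], _, _, _, h => absurd h (by simp)
  | [_], _, _, j, h => absurd h (by simp)
  | a :: b :: l, hl, d, 0, _ => (List.isChain_cons_cons.1 hl).1
  | a :: b :: l, hl, d, j + 1, h =>
    F1_chain (b :: l) (List.isChain_cons_cons.1 hl).2 d j (by simpa using h)

private theorem F1_step {V : Type*} {G : V → V → Prop} {L : ℕ} {z0 z z' : V} {K : ℕ}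
    {W B : List V} (hB : L ≤ B.length + 1)
    (he : Even K → List.IsChain G (z :: (B ++ [z'])))
    (ho : ¬ Even K → List.IsChain (fun a b => G b a) (z :: (B ++ [z'])))
    (ih : ∃ A : ℕ → ℕ, A 0 = 0 ∧ A K = W.length ∧ (∀ k < K, A k + L ≤ A (k + 1)) ∧
      ∀ k < K, ∀ i, A k ≤ i → i < A (k + 1) →
        ((Even k → G ((W ++ [z]).getD i z0) ((W ++ [z]).getD (i + 1) z0)) ∧
         (¬ Even k → G ((W ++ [z]).getD (i + 1) z0) ((W ++ [z]).getD i z0)))) :
    ∃ A : ℕ → ℕ, A 0 = 0 ∧ A (K + 1) = (W ++ (z :: B)).length ∧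
      (∀ k < K + 1, A k + L ≤ A (k + 1)) ∧
      ∀ k < K + 1, ∀ i, A k ≤ i → i < A (k + 1) →
        ((Even k → G ((W ++ (z :: B) ++ [z']).getD i z0)
            ((W ++ (z :: B) ++ [z']).getD (i + 1) z0)) ∧
         (¬ Even k → G ((W ++ (z :: B) ++ [z']).getD (i + 1) z0)
            ((W ++ (z :: B) ++ [z']).getD i z0))) := by
  obtain ⟨A, hA0, hAK, hAL, hAG⟩ := ih
  have hlen : (W ++ (z :: B)).length = W.length + (B.length + 1) := by simp
  have hmono : ∀ m, m ≤ K → A (K - m) ≤ A K := by
    intro m
    induction m with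
    | zero => intro _; exact le_rfl
    | succ m ihm =>
      intro hm
      have h1 := ihm (by omega)
      have h2 := hAL (K - (m + 1)) (by omega)
      have e : K - (m + 1) + 1 = K - m := by omega
      rw [e] at h2
      omega
  have hle : ∀ k, k ≤ K → A k ≤ W.length := by
    intro k hk
    have h1 := hmono (K - k) (by omega)
    have e : K - (K - k) = k := by omega
    rw [e, hAK] at h1
    exact h1
  have hassoc : W ++ (z :: B) ++ [z'] = W ++ (z :: (B ++ [z'])) := by simp
  refine ⟨fun k => if k ≤ K then A k else (W ++ (z :: B)).length, ?_, ?_, ?_, ?_⟩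
  · simp [hA0]
  · simp
  · intro k hk
    rcases Nat.lt_or_ge k K with h | h
    · simp only [h.le, Nat.succ_le_of_lt h, if_true]
      exact hAL k h
    · have e : k = K := by omega
      subst e
      simp only [le_refl, if_true, Nat.not_succ_le_self, if_false, hAK, hlen]
      omega
  · intro k hk i hi1 hi2
    rw [hassoc]
    rcases Nat.lt_or_ge k K with h | h
    · simp only [h.le, if_true] at hi1
      simp only [Nat.succ_le_of_lt h, if_true] at hi2
      have hk1 := hle (k + 1) h
      rw [F1_left W (B ++ [z']) z z0 i (by omega), F1_left W (B ++ [z']) z z0 (i + 1) (by omega)]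
      exact hAG k h i hi1 hi2
    · have e : k = K := by omega
      subst e
      simp only [le_refl, if_true, hAK] at hi1
      simp only [Nat.not_succ_le_self, if_false, hlen] at hi2
      obtain ⟨j, rfl⟩ := Nat.exists_eq_add_of_le hi1
      have hj : j + 1 < (z :: (B ++ [z'])).length := by
        simp only [List.length_cons, List.length_append, List.length_nil]
        omega
      rw [F1_right, Nat.add_assoc, F1_right]
      exact ⟨fun hk => F1_chain _ (he hk) z0 j hj, fun hk => F1_chain _ (ho hk) z0 j hj⟩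

/-- ROW F1b (block positions of a zigzag). Induction on `h`. For `nil`: `A = 0`. For the step from
`K` to `K + 1` with new list `W ++ (z :: B')` (`B' = B` or `B.reverse`), put
`A' k = A k` for `k ≤ K` and `A' k = (W ++ (z :: B')).length` for `k > K`. For `k < K` and
`i < A (k+1) ≤ W.length` the entries number `i` and `i + 1` of `W ++ (z :: B') ++ [z']` and of
`W ++ [z]` agree (`A` is monotone on `[0, K]`, so `A (k + 1) ≤ A K = W.length`). For `k = K` and
`W.length ≤ i < W.length + 1 + |B'|` use that `z :: (B ++ [z'])` is a chain (in the backward case: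
`z' :: (B ++ [z])` is a chain, so its reverse `z :: (B.reverse ++ [z'])` is a chain for the reversed
relation). -/
theorem zig_fun {V : Type*} {G : V → V → Prop} {L : ℕ} {z0 z : V} {K : ℕ} {W : List V}
    (h : Zig G L z0 K W z) :
    ∃ A : ℕ → ℕ, A 0 = 0 ∧ A K = W.length ∧ (∀ k < K, A k + L ≤ A (k + 1)) ∧
      ∀ k < K, ∀ i, A k ≤ i → i < A (k + 1) →
        ((Even k → G ((W ++ [z]).getD i z0) ((W ++ [z]).getD (i + 1) z0)) ∧
         (¬ Even k → G ((W ++ [z]).getD (i + 1) z0) ((W ++ [z]).getD i z0))) := by
  induction h with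
  | nil => exact ⟨fun _ => 0, rfl, rfl, fun k hk => absurd hk (Nat.not_lt_zero k),
      fun k hk => absurd hk (Nat.not_lt_zero k)⟩
  | @fwd k W z hk h B z' hB hc ih =>
    exact F1_step hB (fun _ => hc) (fun hn => absurd hk hn) ih
  | @bwd k W z hk h B z' hB hc ih =>
    refine F1_step (by simpa using hB) (fun he => absurd he hk) (fun _ => ?_) ih
    have e : z :: (B.reverse ++ [z']) = (z' :: (B ++ [z])).reverse := by simp
    rw [e, List.isChain_reverse]
    exact hc

end MP_ad30dc_co
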