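import Mathlib

namespace MP_ad30dc_co

/-- ROW G1 (placing the word `c` in the blocks). Let `ρ j = #{i < j | c i ≠ c (i+1)}`
(`ρ j = ((range j).filter ..).card`), for `j ≤ n - 1`; since `c 0 = true`: `Even (ρ j) ↔ c j = true`
(induction on `j`). Let `off 0 = 0` and `off (j+1) = if c (j+1) = c j then off j + 1 else 0`; then
`c (j - off j + i) = c j` for all `i ≤ off j` and `off j ≤ j`, so `hrun` with `i = j - off j` and
`k = off j + 1` gives `off j + 1 ≤ L` for `j < n`.
Put `σ j = A (ρ j) + off j` for `j < n` and `σ j = A (2 r)` for `j ≥ n`. Then `σ 0 = A 0 + 0 = 0`.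
For `j < n` use the index `k = ρ j < 2 r` (note `ρ j ≤ ρ (n-1) = 2 r - 1`). `A (ρ j) ≤ σ j`. If
`j + 1 < n` and `c (j+1) = c j` then `ρ (j+1) = ρ j`, `σ (j+1) = σ j + 1 = A (ρ j) + off (j+1)` and
`off (j+1) < L`, so `σ (j+1) < A (ρ j) + L ≤ A (ρ j + 1)`. If `j + 1 < n` and `c (j+1) ≠ c j` then
`ρ (j+1) = ρ j + 1` and `σ (j+1) = A (ρ j + 1) ≥ A (ρ j) + L > A (ρ j) + off j = σ j`. If
`j + 1 = n`: `ρ j = 2 r - 1`, `σ (j+1) = A (2 r) = A (ρ j + 1)`, the same. -/
theorem stretch (n r L : ℕ) (c : ℕ → Bool) (A : ℕ → ℕ) (hn : 1 ≤ n) (hc0 : c 0 = true)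
    (hrun : ∀ i k, i + k ≤ n → (∀ j < k, c (i + j) = c i) → k ≤ L)
    (hr : ((Finset.range (n - 1)).filter (fun i => c i ≠ c (i + 1))).card + 1 = 2 * r)
    (hA0 : A 0 = 0) (hA : ∀ k < 2 * r, A k + L ≤ A (k + 1)) :
    ∃ σ : ℕ → ℕ, σ 0 = 0 ∧ σ n = A (2 * r) ∧ (∀ j < n, σ j < σ (j + 1)) ∧
      ∀ j < n, ∃ k < 2 * r, (Even k ↔ c j = true) ∧ A k ≤ σ j ∧ σ (j + 1) ≤ A (k + 1) := by
  classical
  obtain ⟨ρ, hρ⟩ : ∃ ρ : ℕ → ℕ, ∀ j, ρ j =
      ((Finset.range j).filter (fun i => c i ≠ c (i + 1))).card := ⟨_, fun _ => rfl⟩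
  have hρ0 : ρ 0 = 0 := by rw [hρ]; rfl
  have hρ1 : ∀ j, c j = c (j + 1) → ρ (j + 1) = ρ j := by
    intro j hj
    rw [hρ, hρ, Finset.range_add_one, Finset.filter_insert, if_neg (by simpa using hj)]
  have hρ2 : ∀ j, c j ≠ c (j + 1) → ρ (j + 1) = ρ j + 1 := by
    intro j hj
    rw [hρ, hρ, Finset.range_add_one, Finset.filter_insert, if_pos hj,
      Finset.card_insert_of_notMem (by simp)]
  have hmono : ∀ i j, i ≤ j → ρ i ≤ ρ j := by
    intro i j hij
    rw [hρ, hρ]
    exact Finset.card_le_card (Finset.filter_subset_filter _ (Finset.range_subset_range.2 hij))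
  have hlast : ρ (n - 1) + 1 = 2 * r := by rw [hρ]; exact hr
  have hpar : ∀ j, Even (ρ j) ↔ c j = true := by
    intro j
    induction j with
    | zero => simp [hρ0, hc0]
    | succ j ih =>
      by_cases hj : c j = c (j + 1)
      · rw [hρ1 j hj, ih, hj]
      · rw [hρ2 j hj, Nat.even_add_one, ih]
        cases h1 : c j <;> cases h2 : c (j + 1) <;> simp_all
  obtain ⟨off, hoff0, hoff1⟩ : ∃ off : ℕ → ℕ, off 0 = 0 ∧
      ∀ j, off (j + 1) = if c (j + 1) = c j then off j + 1 else 0 :=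
    ⟨fun j => Nat.rec 0 (fun i v => if c (i + 1) = c i then v + 1 else 0) j, rfl, fun _ => rfl⟩
  have hoff : ∀ j, off j ≤ j ∧ ∀ i ≤ off j, c (j - off j + i) = c j := by
    intro j
    induction j with
    | zero =>
      refine ⟨by omega, fun i hi => ?_⟩
      have : i = 0 := by omega
      subst this
      rw [hoff0]
    | succ j ih =>
      obtain ⟨ih1, ih2⟩ := ih
      by_cases hj : c (j + 1) = c j
      · have e1 : off (j + 1) = off j + 1 := by rw [hoff1, if_pos hj]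
        refine ⟨by omega, fun i hi => ?_⟩
        have e2 : j + 1 - off (j + 1) = j - off j := by omega
        rw [e2]
        rcases Nat.lt_or_ge (off j) i with hi2 | hi2
        · congr 1
          omega
        · rw [ih2 i hi2, hj]
      · have e1 : off (j + 1) = 0 := by rw [hoff1, if_neg hj]
        refine ⟨by omega, fun i hi => ?_⟩
        congr 1
        omega
  have hoffL : ∀ j < n, off j + 1 ≤ L := by
    intro j hj
    obtain ⟨h1, h2⟩ := hoff j
    refine hrun (j - off j) (off j + 1) (by omega) (fun i hi => ?_)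
    have h3 := h2 0 (by omega)
    rw [Nat.add_zero] at h3
    rw [h2 i (by omega), h3]
  -- the index of the block
  have hidx : ∀ j < n, ρ j < 2 * r := by
    intro j hj
    have := hmono j (n - 1) (by omega)
    omega
  obtain ⟨σ, hσ⟩ : ∃ σ : ℕ → ℕ, ∀ j, σ j = if j < n then A (ρ j) + off j else A (2 * r) :=
    ⟨_, fun _ => rfl⟩
  have hσ1 : ∀ j < n, σ j = A (ρ j) + off j := fun j hj => by rw [hσ, if_pos hj]
  have hσn : σ n = A (2 * r) := by rw [hσ, if_neg (by omega)]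
  -- the step
  have hstep : ∀ j < n, σ j < σ (j + 1) ∧ σ (j + 1) ≤ A (ρ j + 1) := by
    intro j hj
    have hL := hoffL j hj
    have hAj := hA (ρ j) (hidx j hj)
    rw [hσ1 j hj]
    rcases Nat.lt_or_ge (j + 1) n with hj1 | hj1
    · rw [hσ1 (j + 1) hj1]
      have hL1 := hoffL (j + 1) hj1
      by_cases hc : c (j + 1) = c j
      · rw [hρ1 j hc.symm]
        have e1 : off (j + 1) = off j + 1 := by rw [hoff1, if_pos hc]
        omega
      · rw [hρ2 j (fun h => hc h.symm)]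
        have e1 : off (j + 1) = 0 := by rw [hoff1, if_neg hc]
        omega
    · have e1 : j + 1 = n := by omega
      have e2 : ρ j + 1 = 2 * r := by
        have : j = n - 1 := by omega
        rw [this]; exact hlast
      rw [e1, hσn, e2]
      rw [e2] at hAj
      omega
  refine ⟨σ, ?_, hσn, fun j hj => (hstep j hj).1, fun j hj => ?_⟩
  · rw [hσ1 0 (by omega), hρ0, hA0, hoff0]
  · refine ⟨ρ j, hidx j hj, hpar j, ?_, (hstep j hj).2⟩
    rw [hσ1 j hj]
    omega

end MP_ad30dc_co
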