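import Pool.Agent.Lib.MP_ad30dc_co.D

namespace MP_ad30dc_co

private theorem G2_mono (σ : ℕ → ℕ) (n : ℕ) (hσ : ∀ j < n, σ j < σ (j + 1)) :
    ∀ j j', j < j' → j' ≤ n → σ j < σ j' := by
  intro j j' hjj'
  induction j' with
  | zero => omega
  | succ m ih =>
    intro hm
    rcases Nat.lt_or_ge j m with h | h
    · exact (ih h (by omega)).trans (hσ m (by omega))
    · have : j = m := by omega
      subst this
      exact hσ j (by omega)

private theorem G2_mono' (σ : ℕ → ℕ) (n : ℕ) (hσ : ∀ j < n, σ j < σ (j + 1)) :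
    ∀ j j', j ≤ j' → j' ≤ n → σ j ≤ σ j' := by
  intro j j' h h'
  rcases Nat.eq_or_lt_of_le h with h | h
  · rw [h]
  · exact (G2_mono σ n hσ j j' h h').le

private theorem G2_list {V : Type*} (w : ℕ → V) (s t : ℕ) (hst : s < t) :
    w s :: ((List.range (t - s - 1)).map (fun i => w (s + 1 + i)) ++ [w t]) =
      (List.range (t - s + 1)).map (fun i => w (s + i)) := by
  obtain ⟨m, rfl⟩ : ∃ m, t = s + 1 + m := ⟨t - s - 1, by omega⟩
  have e1 : s + 1 + m - s - 1 = m := by omega
  have e2 : s + 1 + m - s + 1 = (m + 1) + 1 := by omega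
  rw [e1, e2, List.range_succ_eq_map, List.map_cons, List.map_map]
  congr 1
  rw [List.range_succ, List.map_append]
  congr 1
  · apply List.map_congr_left
    intro i _
    simp only [Function.comp]
    congr 1
    omega
  · simp only [List.map_cons, List.map_nil, Function.comp]
    congr 2
    omega

private theorem G2_chain {V : Type*} (R : V → V → Prop) (w : ℕ → V) (s : ℕ) (m : ℕ)
    (h : ∀ i, i + 1 < m → R (w (s + i)) (w (s + (i + 1)))) :
    List.IsChain R ((List.range m).map (fun i => w (s + i))) := by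
  rw [List.isChain_iff_getElem]
  intro i hi
  simp only [List.length_map, List.length_range] at hi
  simp only [List.getElem_map, List.getElem_range]
  exact h i hi

/-- ROW G2 (from a closed walk with block structure to the subdivision). Let
`w i = (W ++ [z0]).getD i z0`; by `hhead` `w 0 = z0`, and `w (W.length) = z0`; `w` is injective on
`{i | i < W.length}`. Put `φ a = w (σ a.val)` for `a : ZMod n` (`a.val < n`). For `a : ZMod n` let
`j = a.val` and let `I a` be the list of the `w i` for `σ j < i < σ (j + 1)` (for instance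
`(List.range (σ (j+1) - σ j - 1)).map (fun i => w (σ j + 1 + i))`). For an arc `a → b` of
`orientedCycle n o` with `b = a + 1`, `o a = true` take `P a b = I a`; for an arc with `a = b + 1`,
`o b = false` take `P a b = (I b).reverse` (since `n ≥ 3` at most one of the cases `b = a + 1`,
`a = b + 1` holds: define `P a b := if b = a + 1 then I a else (I b).reverse`). If `j + 1 < n` then
`(a + 1).val = j + 1`; if `j + 1 = n` then `a + 1 = 0` and `φ 0 = w 0 = z0 = w (W.length) =
w (σ n)`. So in both cases `φ (a + 1) = w (σ (j + 1))`, and the chain conditions follow from `hadj`.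
The internal vertices are `w i` with `i < W.length` pairwise different indices, in the open
intervals `(σ j, σ (j+1))` (`σ` is strictly increasing on `[0, n]`), different from all `σ j'`. -/
theorem subdivision_of_fun {V : Type*} (n : ℕ) (hn : 3 ≤ n) (o : ZMod n → Bool) (D : Digraph V)
    (W : List V) (z0 : V) (hW : W.Nodup) (hhead : (W ++ [z0]).head? = some z0)
    (σ : ℕ → ℕ) (hσ0 : σ 0 = 0) (hσn : σ n = W.length) (hσ : ∀ j < n, σ j < σ (j + 1))
    (hadj : ∀ j < n, ∀ i, σ j ≤ i → i < σ (j + 1) →
      ((o (j : ZMod n) = true → D.Adj ((W ++ [z0]).getD i z0) ((W ++ [z0]).getD (i + 1) z0)) ∧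
       (o (j : ZMod n) = false → D.Adj ((W ++ [z0]).getD (i + 1) z0) ((W ++ [z0]).getD i z0)))) :
    ContainsSubdivision (orientedCycle n o) D := by
  classical
  have : NeZero n := ⟨by omega⟩
  have hmono := G2_mono σ n hσ
  have hmono' := G2_mono' σ n hσ
  set w : ℕ → V := fun i => (W ++ [z0]).getD i z0 with hw
  have hadj' : ∀ j < n, ∀ i, σ j ≤ i → i < σ (j + 1) →
      ((o (j : ZMod n) = true → D.Adj (w i) (w (i + 1))) ∧
       (o (j : ZMod n) = false → D.Adj (w (i + 1)) (w i))) := hadj
  have hwlt : ∀ i (hi : i < W.length), w i = W[i] := by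
    intro i hi
    simp only [hw]
    rw [List.getD_eq_getElem _ _ (by simp; omega), List.getElem_append_left hi]
  have hinj : ∀ i j, i < W.length → j < W.length → w i = w j → i = j := by
    intro i j hi hj h
    rw [hwlt i hi, hwlt j hj] at h
    exact (hW.getElem_inj_iff).1 h
  have hwlen : w W.length = z0 := by
    simp only [hw]
    rw [List.getD_eq_getElem _ _ (by simp)]
    simp
  have hpos : 0 < W.length := by
    rw [← hσn, ← hσ0]
    exact hmono 0 n (by omega) le_rfl
  have hw0 : w 0 = z0 := by
    simp only [hw]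
    rw [List.getD_eq_getElem _ _ (by simp)]
    rw [List.head?_eq_getElem?] at hhead
    exact (List.getElem?_eq_some_iff.1 hhead).2
  have hval : ∀ a : ZMod n, a.val < n := fun a => ZMod.val_lt a
  have hcast : ∀ a : ZMod n, ((a.val : ℕ) : ZMod n) = a := fun a => ZMod.natCast_zmod_val a
  set φ : ZMod n → V := fun a => w (σ a.val) with hφ
  have hσlt : ∀ a : ZMod n, σ a.val < W.length := by
    intro a
    rw [← hσn]
    exact hmono _ _ (hval a) le_rfl
  have hφinj : Function.Injective φ := by
    intro a b hab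
    have h := hinj _ _ (hσlt a) (hσlt b) hab
    have h2 : a.val = b.val := by
      rcases Nat.lt_trichotomy a.val b.val with h3 | h3 | h3
      · have := hmono _ _ h3 (hval b).le
        omega
      · exact h3
      · have := hmono _ _ h3 (hval a).le
        omega
    exact ZMod.val_injective n h2
  have hφs : ∀ a : ZMod n, φ (a + 1) = w (σ (a.val + 1)) := by
    intro a
    rcases Nat.lt_or_ge (a.val + 1) n with h | h
    · have h1 : (a + 1).val = a.val + 1 := by
        have : Fact (1 < n) := ⟨by omega⟩
        rw [ZMod.val_add, ZMod.val_one, Nat.mod_eq_of_lt h]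
      simp only [hφ]
      rw [h1]
    · have h1 : a.val + 1 = n := by have := hval a; omega
      have h2 : a + 1 = 0 := by
        have h3 : ((a.val + 1 : ℕ) : ZMod n) = 0 := by rw [h1]; exact ZMod.natCast_self n
        rw [Nat.cast_add, hcast a, Nat.cast_one] at h3
        exact h3
      simp only [hφ]
      rw [h2, ZMod.val_zero, hσ0, h1, hσn, hwlen, hw0]
  set I : ZMod n → List V := fun a =>
    (List.range (σ (a.val + 1) - σ a.val - 1)).map (fun i => w (σ a.val + 1 + i)) with hI
  have hmemI : ∀ (a : ZMod n) (v : V), v ∈ I a → ∃ i, σ a.val < i ∧ i < σ (a.val + 1) ∧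
      v = w i := by
    intro a v hv
    simp only [hI, List.mem_map, List.mem_range] at hv
    obtain ⟨i, hi, rfl⟩ := hv
    exact ⟨σ a.val + 1 + i, by omega, by omega, rfl⟩
  have hIlt : ∀ (a : ZMod n) (i : ℕ), i < σ (a.val + 1) → i < W.length := by
    intro a i hi
    have := hmono' (a.val + 1) n (by have := hval a; omega) le_rfl
    omega
  have htwo : ∀ a b : ZMod n, b = a + 1 → a = b + 1 → False := by
    intro a b h1 h2
    rw [h1] at h2
    have h3 : (0 : ZMod n) = 1 + 1 := by
      have h4 : a + 0 = a + (1 + 1) := by rw [add_zero, ← add_assoc]; exact h2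
      exact add_left_cancel h4
    have h5 : ((2 : ℕ) : ZMod n) = 0 := by
      push_cast
      rw [h3]
      norm_num
    rw [ZMod.natCast_eq_zero_iff] at h5
    have := Nat.le_of_dvd (by norm_num) h5
    omega
  set P : ZMod n → ZMod n → List V := fun a b => if b = a + 1 then I a else (I b).reverse with hP
  have harc : ∀ a b, (orientedCycle n o).Adj a b → ∃ x : ZMod n,
      (a = x ∧ b = x + 1 ∧ o x = true ∧ P a b = I x) ∨
      (b = x ∧ a = x + 1 ∧ o x = false ∧ P a b = (I x).reverse) := by
    intro a b hab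
    rcases hab with ⟨h1, h2⟩ | ⟨h1, h2⟩
    · exact ⟨a, Or.inl ⟨rfl, h1, h2, by simp only [hP]; rw [if_pos h1]⟩⟩
    · refine ⟨b, Or.inr ⟨rfl, h1, h2, ?_⟩⟩
      simp only [hP]
      rw [if_neg]
      intro h3
      exact htwo a b h3 h1
  have hlist : ∀ x : ZMod n, φ x :: (I x ++ [φ (x + 1)]) =
      (List.range (σ (x.val + 1) - σ x.val + 1)).map (fun i => w (σ x.val + i)) := by
    intro x
    rw [hφs]
    exact G2_list w (σ x.val) (σ (x.val + 1)) (hσ _ (hval x))
  refine ⟨φ, P, hφinj, ?_, ?_, ?_, ?_⟩
  · intro a b hab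
    obtain ⟨x, ⟨rfl, rfl, hox, hPx⟩ | ⟨rfl, rfl, hox, hPx⟩⟩ := harc a b hab
    · rw [hPx, hlist]
      apply G2_chain
      intro i hi
      have h := hadj' a.val (hval a) (σ a.val + i) (by omega) (by omega)
      rw [hcast a] at h
      exact h.1 hox
    · rw [hPx]
      have hrev : φ (b + 1) :: ((I b).reverse ++ [φ b]) =
          (φ b :: (I b ++ [φ (b + 1)])).reverse := by
        simp
      rw [hrev, List.isChain_reverse, hlist]
      apply G2_chain
      intro i hi
      have h := hadj' b.val (hval b) (σ b.val + i) (by omega) (by omega)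
      rw [hcast b] at h
      exact h.2 hox
  · intro a b hab
    have hnd : ∀ x : ZMod n, (I x).Nodup := by
      intro x
      simp only [hI]
      apply List.Nodup.map_on _ List.nodup_range
      intro i hi j hj hij
      rw [List.mem_range] at hi hj
      have := hinj _ _ (hIlt x (σ x.val + 1 + i) (by omega))
        (hIlt x (σ x.val + 1 + j) (by omega)) hij
      omega
    obtain ⟨x, ⟨_, _, _, hPx⟩ | ⟨_, _, _, hPx⟩⟩ := harc a b hab
    · rw [hPx]; exact hnd x
    · rw [hPx, List.nodup_reverse]; exact hnd x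
  · intro a b hab c hc
    have key : ∀ x : ZMod n, φ c ∉ I x := by
      intro x hx
      obtain ⟨i, hi1, hi2, hi3⟩ := hmemI x _ hx
      have h := hinj _ _ (hσlt c) (hIlt x i hi2) hi3
      rcases Nat.lt_or_ge x.val c.val with h3 | h3
      · have := hmono' (x.val + 1) c.val h3 (hval c).le
        omega
      · have := hmono' c.val x.val h3 (hval x).le
        omega
    obtain ⟨x, ⟨_, _, _, hPx⟩ | ⟨_, _, _, hPx⟩⟩ := harc a b hab
    · rw [hPx] at hc; exact key x hc
    · rw [hPx, List.mem_reverse] at hc; exact key x hc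
  · intro a b a' b' hab hab' hne
    have key : ∀ x x' : ZMod n, x ≠ x' → ∀ v, v ∈ I x → v ∈ I x' → False := by
      intro x x' hxx v hv hv'
      obtain ⟨i, hi1, hi2, hi3⟩ := hmemI x _ hv
      obtain ⟨i', hi1', hi2', hi3'⟩ := hmemI x' _ hv'
      have h := hinj _ _ (hIlt x i hi2) (hIlt x' i' hi2') (hi3.symm.trans hi3')
      have hvne : x.val ≠ x'.val := fun h => hxx (ZMod.val_injective n h)
      rcases Nat.lt_or_ge x.val x'.val with h3 | h3
      · have := hmono' (x.val + 1) x'.val h3 (hval x').le
        omega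
      · have := hmono' (x'.val + 1) x.val (by omega) (hval x).le
        omega
    obtain ⟨x, hx⟩ := harc a b hab
    obtain ⟨x', hx'⟩ := harc a' b' hab'
    have hmem : ∀ v, v ∈ P a b → v ∈ I x := by
      intro v hv
      rcases hx with ⟨_, _, _, hPx⟩ | ⟨_, _, _, hPx⟩
      · rw [hPx] at hv; exact hv
      · rw [hPx, List.mem_reverse] at hv; exact hv
    have hmem' : ∀ v, v ∈ P a' b' → v ∈ I x' := by
      intro v hv
      rcases hx' with ⟨_, _, _, hPx⟩ | ⟨_, _, _, hPx⟩
      · rw [hPx] at hv; exact hv
      · rw [hPx, List.mem_reverse] at hv; exact hv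
    have hxne : x ≠ x' := by
      intro hxx
      subst hxx
      apply hne
      rcases hx with ⟨h1, h2, h3, _⟩ | ⟨h1, h2, h3, _⟩ <;>
        rcases hx' with ⟨h1', h2', h3', _⟩ | ⟨h1', h2', h3', _⟩
      · rw [h1, h2, h1', h2']
      · rw [h3] at h3'; exact absurd h3' (by decide)
      · rw [h3] at h3'; exact absurd h3' (by decide)
      · rw [h1, h2, h1', h2']
    intro v hv hv'
    exact key x x' hxne v (hmem v hv) (hmem' v hv')

end MP_ad30dc_co
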