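import Pool.Agent.Lib.MP_ad30dc_co.D

namespace MP_ad30dc_co

/-- ROW G3a (rotation). Given `φ`, `P` for the rotated word, take `φ' a = φ (a - s)` and
`P' a b = P (a - s) (b - s)`. -/
theorem rotate {V : Type*} (n : ℕ) (o : ZMod n → Bool) (s : ZMod n) (D : Digraph V)
    (h : ContainsSubdivision (orientedCycle n (fun i => o (i + s))) D) :
    ContainsSubdivision (orientedCycle n o) D := by
  obtain ⟨φ, P, h1, h2, h3, h4, h5⟩ := h
  have key : ∀ a b, (orientedCycle n o).Adj a b →
      (orientedCycle n (fun i => o (i + s))).Adj (a - s) (b - s) := by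
    intro a b hab
    rcases hab with ⟨e, he⟩ | ⟨e, he⟩
    · left
      refine ⟨by rw [e]; ring, ?_⟩
      simpa using he
    · right
      refine ⟨by rw [e]; ring, ?_⟩
      simpa using he
  refine ⟨fun a => φ (a - s), fun a b => P (a - s) (b - s), ?_, ?_, ?_, ?_, ?_⟩
  · intro a b hab
    exact sub_left_injective (h1 hab)
  · exact fun a b hab => h2 _ _ (key a b hab)
  · exact fun a b hab => h3 _ _ (key a b hab)
  · exact fun a b hab c => h4 _ _ (key a b hab) (c - s)
  · intro a b a' b' hab hab' hne
    refine h5 _ _ _ _ (key a b hab) (key a' b' hab') ?_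
    intro he
    apply hne
    rw [Prod.mk.injEq] at he ⊢
    exact ⟨sub_left_injective he.1, sub_left_injective he.2⟩

/-- ROW G3b (parity). Prove by induction on `j`: the number of `i < j` with `c i ≠ c (i+1)` is even
if and only if `c j = c 0`. Here `c 0 = true`, `c (n - 1) = false`. -/
theorem parity (n : ℕ) (c : ℕ → Bool) (hc0 : c 0 = true) (hcn : c (n - 1) = false) :
    ∃ r, 1 ≤ r ∧
      ((Finset.range (n - 1)).filter (fun i => c i ≠ c (i + 1))).card + 1 = 2 * r := by
  have key : ∀ j, (((Finset.range j).filter (fun i => c i ≠ c (i + 1))).card % 2 = 0 ∧ c j = c 0) ∨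
      (((Finset.range j).filter (fun i => c i ≠ c (i + 1))).card % 2 = 1 ∧ c j ≠ c 0) := by
    intro j
    induction j with
    | zero => left; simp
    | succ j ih =>
      rw [Finset.range_add_one, Finset.filter_insert]
      by_cases hj : c j ≠ c (j + 1)
      · rw [if_pos hj, Finset.card_insert_of_notMem (by simp)]
        rcases ih with ⟨i1, i2⟩ | ⟨i1, i2⟩
        · right
          refine ⟨by omega, ?_⟩
          intro hc
          exact hj (by rw [i2, hc])
        · left
          refine ⟨by omega, ?_⟩
          revert hj i2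
          cases c j <;> cases c (j + 1) <;> cases c 0 <;> simp
      · rw [if_neg hj]
        push Not at hj
        rw [← hj]
        exact ih
  rcases key (n - 1) with ⟨h1, h2⟩ | ⟨h1, h2⟩
  · rw [hc0, hcn] at h2
    simp at h2
  · refine ⟨(((Finset.range (n - 1)).filter (fun i => c i ≠ c (i + 1))).card + 1) / 2, ?_, ?_⟩
    · omega
    · omega

/-- ROW G3c (counting the changes of a cyclic word). `o' i = o (i + s)`; the indices `i : ZMod n`
with `o i ≠ o (i+1)` correspond by `i = j + s`, `j = 0, …, n - 1`, to the `j < n - 1` with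
`o' j ≠ o' (j+1)` and `j = n - 1` (where `o' (n-1) = false ≠ true = o' 0`). -/
theorem count_changes (n : ℕ) (hn : 3 ≤ n) (o : ZMod n → Bool) (s : ZMod n)
    (h0 : o s = true) (h1 : o (s - 1) = false) :
    ({i : ZMod n | o i ≠ o (i + 1)}.ncard) =
      ((Finset.range (n - 1)).filter
        (fun i : ℕ => o ((i : ZMod n) + s) ≠ o (((i + 1 : ℕ) : ZMod n) + s))).card + 1 := by
  have : NeZero n := ⟨by omega⟩
  have hrange : Finset.range n = insert (n - 1) (Finset.range (n - 1)) := by
    rw [← Finset.range_add_one]
    congr 1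
    omega
  have hlast : o (((n - 1 : ℕ) : ZMod n) + s) ≠ o (((n - 1 + 1 : ℕ) : ZMod n) + s) := by
    have e1 : ((n - 1 : ℕ) : ZMod n) + s = s - 1 := by
      rw [Nat.cast_sub (by omega), ZMod.natCast_self]
      push_cast
      ring
    have e2 : ((n - 1 + 1 : ℕ) : ZMod n) + s = s := by
      rw [Nat.sub_add_cancel (by omega), ZMod.natCast_self, zero_add]
    rw [e1, e2, h0, h1]
    simp
  have hcard : ((Finset.range n).filter
      (fun i : ℕ => o ((i : ZMod n) + s) ≠ o (((i + 1 : ℕ) : ZMod n) + s))).card =
      ((Finset.range (n - 1)).filter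
        (fun i : ℕ => o ((i : ZMod n) + s) ≠ o (((i + 1 : ℕ) : ZMod n) + s))).card + 1 := by
    rw [hrange, Finset.filter_insert, if_pos hlast, Finset.card_insert_of_notMem (by simp)]
  rw [← hcard]
  have himg : {i : ZMod n | o i ≠ o (i + 1)} =
      ((((Finset.range n).filter
        (fun i : ℕ => o ((i : ZMod n) + s) ≠ o (((i + 1 : ℕ) : ZMod n) + s))).image
          (fun i : ℕ => (i : ZMod n) + s) : Finset (ZMod n)) : Set (ZMod n)) := by
    ext i
    simp only [Set.mem_ofPred_eq, Finset.coe_image, Finset.coe_filter, Finset.mem_range,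
      Set.mem_image]
    constructor
    · intro hi
      refine ⟨(i - s).val, ⟨ZMod.val_lt _, ?_⟩, ?_⟩
      · have e1 : (((i - s).val : ℕ) : ZMod n) + s = i := by
          rw [ZMod.natCast_zmod_val]
          ring
        have e2 : (((i - s).val + 1 : ℕ) : ZMod n) + s = i + 1 := by
          push_cast
          rw [ZMod.natCast_zmod_val]
          ring
        rw [e1, e2]
        exact hi
      · rw [ZMod.natCast_zmod_val]
        ring
    · rintro ⟨j, ⟨hj, hj2⟩, rfl⟩
      have e2 : ((j + 1 : ℕ) : ZMod n) + s = (j : ZMod n) + s + 1 := by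
        push_cast
        ring
      rw [e2] at hj2
      exact hj2
  rw [himg, Set.ncard_coe_finset, Finset.card_image_of_injOn]
  intro i hi j hj hij
  simp only [Finset.coe_filter, Finset.mem_range, Set.mem_ofPred_eq] at hi hj
  have h3 : (i : ZMod n) = (j : ZMod n) := add_right_cancel hij
  have h4 := (ZMod.natCast_eq_natCast_iff' i j n).1 h3
  rwa [Nat.mod_eq_of_lt hi.1, Nat.mod_eq_of_lt hj.1] at h4

/-- ROW G3d. A non-constant cyclic word has a position where it changes from `false` to `true`.
(If not, `o (s - 1) = false → o s = false` for all `s`; starting from a position with value `false`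
and adding `1` repeatedly, everything is `false`.) -/
theorem exists_start (n : ℕ) (hn : 3 ≤ n) (o : ZMod n → Bool) (a b : ZMod n)
    (ha : o a = true) (hb : o b = false) : ∃ s, o s = true ∧ o (s - 1) = false := by
  have : NeZero n := ⟨by omega⟩
  by_contra hcon
  push Not at hcon
  have key : ∀ k : ℕ, o (a - (k : ZMod n)) = true := by
    intro k
    induction k with
    | zero => simpa using ha
    | succ k ih =>
      have h1 := hcon _ ih
      have e : a - ((k + 1 : ℕ) : ZMod n) = a - (k : ZMod n) - 1 := by
        push_cast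
        ring
      rw [e]
      simpa using h1
  have h2 := key (a - b).val
  rw [ZMod.natCast_zmod_val, sub_sub_cancel, hb] at h2
  simp at h2

end MP_ad30dc_co
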