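import Pool.Agent.Lib.MP_ad30dc_co.G2

namespace MP_ad30dc_co

private theorem H1_longest {V : Type*} [Fintype V] [Nonempty V] (G : V → V → Prop) :
    ∃ l : List V, (l ≠ [] ∧ l.Nodup ∧ List.IsChain G l) ∧
      ∀ l' : List V, (l' ≠ [] ∧ l'.Nodup ∧ List.IsChain G l') → l'.length ≤ l.length := by
  classical
  let P : ℕ → Prop := fun m => ∃ l : List V, l.length = m ∧ (l ≠ [] ∧ l.Nodup ∧ List.IsChain G l)
  have hb : ∀ l : List V, l.Nodup → l.length ≤ Fintype.card V := fun l hl =>
    List.Nodup.length_le_card hl
  obtain ⟨v⟩ := ‹Nonempty V›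
  have h1 : P 1 := ⟨[v], rfl, by simp, by simp, by simp⟩
  have hc1 : 1 ≤ Fintype.card V := Fintype.card_pos_iff.mpr ⟨v⟩
  have hs : P (Nat.findGreatest P (Fintype.card V)) := Nat.findGreatest_spec hc1 h1
  obtain ⟨l, hl, hl'⟩ := hs
  refine ⟨l, hl', fun l' h' => ?_⟩
  rw [hl]
  exact Nat.le_findGreatest (hb l' h'.2.1) ⟨l', rfl, h'⟩

/-- ROW H1a (a long directed cycle). Take a longest directed path `x_0, x_1, …, x_k` (as a list,
without repeated vertices; e.g. of maximal length). All out-neighbours of the last vertex `x_k` are
on the path. There are at least `n - 1` of them, all different from `x_k`, so one of them is `x_i`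
with `i ≤ k - (n - 1)`. `W = [x_i, …, x_k]` has at least `n` elements. -/
theorem long_cycle {V : Type*} [Fintype V] [DecidableEq V] [Nonempty V] (G : V → V → Prop)
    (hG : ∀ v, ¬ G v v) (n : ℕ) (hn : 1 ≤ n) (hdeg : ∀ v, n - 1 ≤ (out G Finset.univ v).card)
    (hn2 : 2 ≤ n) :
    ∃ (W : List V) (z0 : V), n ≤ W.length ∧ W.Nodup ∧ (W ++ [z0]).head? = some z0 ∧
      List.IsChain G (W ++ [z0]) := by
  classical
  obtain ⟨l, ⟨hne, hnd, hch⟩, hmax⟩ := H1_longest G
  set z := l.getLast hne with hz
  have hout : ∀ w, G z w → w ∈ l := by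
    intro w hw
    by_contra hwl
    have h1 := hmax (l ++ [w]) ⟨by simp, ?_, ?_⟩
    · rw [List.length_append, List.length_singleton] at h1
      omega
    · rw [List.nodup_append]
      refine ⟨hnd, by simp, ?_⟩
      intro a ha b hb hab
      rw [List.mem_singleton] at hb
      exact hwl (hb ▸ hab ▸ ha)
    · rw [List.isChain_append]
      refine ⟨hch, by simp, ?_⟩
      intro x hx y hy
      rw [List.getLast?_eq_getLast_of_ne_nil hne, Option.mem_some_iff] at hx
      simp only [List.head?_cons, Option.mem_some_iff] at hy
      rw [← hx, ← hy]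
      exact hw
  set W := l.dropWhile (fun v => ! decide (G z v)) with hW
  have hWsuf : W <:+ l := List.dropWhile_suffix _
  have hWmem : ∀ w, G z w → w ∈ W := by
    intro w hw
    have h1 := hout w hw
    rw [← List.takeWhile_append_dropWhile (p := fun v => ! decide (G z v)) (l := l),
      List.mem_append] at h1
    rcases h1 with h1 | h1
    · exfalso
      have h2 := List.mem_takeWhile_imp h1
      simp [hw] at h2
    · exact h1
  have hcard := hdeg z
  have hWne : W ≠ [] := by
    intro h0
    have h1 : (out G Finset.univ z).card = 0 := by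
      rw [Finset.card_eq_zero, Finset.eq_empty_iff_forall_notMem]
      intro w hw
      have h2 := hWmem w (mem_out.mp hw).2
      rw [h0] at h2
      simp at h2
    omega
  have hzW : z ∈ W := by
    obtain ⟨l1, hl1⟩ := hWsuf
    have h1 : z = W.getLast hWne := by
      rw [hz]
      have h2 : l.getLast? = W.getLast? := by
        rw [← hl1, List.getLast?_append_of_ne_nil _ hWne]
      rw [List.getLast?_eq_getLast_of_ne_nil hne, List.getLast?_eq_getLast_of_ne_nil hWne] at h2
      exact Option.some_injective _ h2
    rw [h1]
    exact List.getLast_mem _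
  have hsub : insert z (out G Finset.univ z) ⊆ W.toFinset := by
    intro w hw
    rw [List.mem_toFinset]
    rcases Finset.mem_insert.mp hw with rfl | hw
    · exact hzW
    · exact hWmem w (mem_out.mp hw).2
  have hlen : n ≤ W.length := by
    have h1 := Finset.card_le_card hsub
    rw [Finset.card_insert_of_notMem (fun h => hG z (mem_out.mp h).2)] at h1
    have h2 := List.toFinset_card_le W
    omega
  refine ⟨W, W.head hWne, hlen, hWsuf.sublist.nodup hnd, ?_, ?_⟩
  · rw [List.head?_append_of_ne_nil _ hWne, List.head?_eq_some_head hWne]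
  · rw [List.isChain_append]
    refine ⟨hch.suffix hWsuf, by simp, ?_⟩
    intro x hx y hy
    have hhead : G z (W.head hWne) := by
      have h3 := List.head_dropWhile_not (fun v => ! decide (G z v)) (l := l) (by rw [← hW]; exact hWne)
      simpa using h3
    have h1 : z = x := by
      obtain ⟨l1, hl1⟩ := hWsuf
      have h2 : l.getLast? = W.getLast? := by
        rw [← hl1, List.getLast?_append_of_ne_nil _ hWne]
      rw [List.getLast?_eq_getLast_of_ne_nil hne] at h2
      rw [← h2, Option.mem_some_iff] at hx
      rw [hz]
      exact hx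
    simp only [List.head?_cons, Option.mem_some_iff] at hy
    rw [← h1, ← hy]
    exact hhead

private theorem H1_chain {V : Type*} {G : V → V → Prop} {W : List V} {z0 : V}
    (h : List.IsChain G (W ++ [z0])) (i : ℕ) (hi : i < W.length) :
    G ((W ++ [z0]).getD i z0) ((W ++ [z0]).getD (i + 1) z0) := by
  rw [List.isChain_iff_getElem] at h
  have h1 := h i (by rw [List.length_append, List.length_singleton]; omega)
  rw [List.getD_eq_getElem _ _ (by rw [List.length_append, List.length_singleton]; omega),
    List.getD_eq_getElem _ _ (by rw [List.length_append, List.length_singleton]; omega)]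
  exact h1

/-- ROW H1b (directed cycles). If `b = true` use `subdivision_of_fun` with `W` of `long_cycle` and
`σ j = j` for `j < n`, `σ n = W.length`. If `b = false` use the reversed closed walk: `W ++ [z0]`
reversed is `z0 :: W.reverse = W' ++ [z0]`, where `W' = (z0 :: W.reverse).dropLast` (`W = z0 :: W1`,
so `W' = z0 :: W1.reverse`). -/
theorem directed_case {V : Type*} [Fintype V] [DecidableEq V] [Nonempty V] (D : Digraph V)
    (hD : ∀ v, ¬ D.Adj v v) (n : ℕ) (hn : 3 ≤ n) (b : Bool)
    (hdeg : ∀ v, n - 1 ≤ (out D.Adj Finset.univ v).card) :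
    ContainsSubdivision (orientedCycle n (fun _ => b)) D := by
  obtain ⟨W, z0, hlen, hnd, hhead, hch⟩ := long_cycle D.Adj hD n (by omega) hdeg (by omega)
  cases b with
  | true =>
    refine subdivision_of_fun n hn _ D W z0 hnd hhead (fun j => if j < n then j else W.length)
      ?_ ?_ ?_ ?_
    · rw [if_pos (by omega)]
    · simp
    · intro j hj
      rw [if_pos hj]
      split_ifs <;> omega
    · intro j hj i h1 h2
      refine ⟨fun _ => ?_, fun h => by simp at h⟩
      refine H1_chain hch i ?_
      split_ifs at h2 <;> omega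
  | false =>
    obtain ⟨W1, rfl⟩ : ∃ W1, W = z0 :: W1 := by
      cases W with
      | nil => simp at hlen; omega
      | cons a t =>
        simp only [List.cons_append, List.head?_cons, Option.some.injEq] at hhead
        exact ⟨t, by rw [hhead]⟩
    have hrev : (z0 :: W1.reverse) ++ [z0] = ((z0 :: W1) ++ [z0]).reverse := by simp
    have hch' : List.IsChain (fun a b => D.Adj b a) ((z0 :: W1.reverse) ++ [z0]) := by
      rw [hrev, List.isChain_reverse]
      exact hch
    have hnd' : (z0 :: W1.reverse).Nodup := by
      rw [List.nodup_cons] at hnd ⊢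
      exact ⟨by rw [List.mem_reverse]; exact hnd.1, List.nodup_reverse.mpr hnd.2⟩
    have hlen' : n ≤ (z0 :: W1.reverse).length := by simpa using hlen
    refine subdivision_of_fun n hn _ D (z0 :: W1.reverse) z0 hnd' (by simp)
      (fun j => if j < n then j else (z0 :: W1.reverse).length) ?_ ?_ ?_ ?_
    · rw [if_pos (by omega)]
    · rw [if_neg (by omega)]
    · intro j hj
      rw [if_pos hj]
      split_ifs <;> omega
    · intro j hj i h1 h2
      refine ⟨fun h => by simp at h, fun _ => ?_⟩
      refine H1_chain hch' i ?_
      split_ifs at h2 <;> omega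

end MP_ad30dc_co
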