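import Pool.Agent.Lib.MP_ad30dc_co.L0

namespace MP_ad30dc_co

variable {V : Type*} {G : V → V → Prop} {f : ℕ → ℕ} {W : List V} {a b : V}

private theorem K1_mono {N : ℕ} {A : ℕ → ℕ} (h : ∀ k < N, A k + f k ≤ A (k + 1)) :
    ∀ j ≤ N, ∀ i ≤ j, A i ≤ A j := by
  intro j
  induction j with
  | zero =>
    intro _ i hi
    rw [Nat.le_zero.1 hi]
  | succ j ih =>
    intro hj i hi
    rcases Nat.lt_or_ge i (j + 1) with h1 | h1
    · have h2 := ih (by omega) i (by omega)
      have h3 := h j (by omega)
      omega
    · have : i = j + 1 := by omega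
      rw [this]

/-- ROW K1a (reversal of a chain with an even number `N` of blocks). With
`A' k = A N - A (N - k)` (note that `A` is monotone on `[0, N]`, and `A N = W.length - 1`): the
block `k` of `W.reverse` is the block `N - 1 - k` of `W`, and `Even k ↔ ¬ Even (N - 1 - k)`. The
entries: `W.reverse[i]? = W[W.length - 1 - i]?` for `i < W.length`. For `A' k ≤ i < A' (k + 1)` put
`i' = A N - 1 - i`; then `A (N - 1 - k) ≤ i' < A (N - k)` and the pair `(i, i + 1)` in the reversed
list is the pair `(i' + 1, i')` of `W`. -/
theorem Chn.reverse {N : ℕ} (hN : Even N) (h : Chn G f N W) :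
    Chn G (fun k => f (N - 1 - k)) N W.reverse := by
  obtain ⟨A, h0, hl, hf, he⟩ := h
  have hm := K1_mono hf
  refine ⟨fun k => A N - A (N - k), ?_, ?_, ?_, ?_⟩
  · simp
  · simp only [Nat.sub_self, h0, List.length_reverse]
    omega
  · intro k hk
    have h1 := hf (N - 1 - k) (by omega)
    have e1 : N - 1 - k + 1 = N - k := by omega
    have e2 : N - (k + 1) = N - 1 - k := by omega
    rw [e1] at h1
    simp only [e2]
    have h2 := hm N le_rfl (N - k) (by omega)
    omega
  · intro k hk i hi hi2 u v hu hv
    have e1 : N - 1 - k + 1 = N - k := by omega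
    have e2 : N - (k + 1) = N - 1 - k := by omega
    simp only [e2] at hi hi2
    have h2 := hm N le_rfl (N - k) (by omega)
    have h3 := hm N le_rfl (N - 1 - k) (by omega)
    have hil : i < W.length := by omega
    have hil' : i + 1 < W.length := by omega
    rw [List.getElem?_reverse hil] at hu
    rw [List.getElem?_reverse hil'] at hv
    have h4 := he (N - 1 - k) (by omega) (A N - 1 - i) (by omega) (by rw [e1]; omega) v u
      (by rw [← hv]; congr 1; omega) (by rw [← hu]; congr 1; omega)
    have h5 : Even k ↔ ¬ Even (N - 1 - k) := by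
      rw [Nat.even_iff, Nat.even_iff]
      rw [Nat.even_iff] at hN
      omega
    constructor
    · intro hk2
      exact h4.2 (h5.1 hk2)
    · intro hk2
      exact h4.1 (by
        by_contra h6
        exact hk2 (h5.2 h6))

/-- ROW K1b. `f` is only used below `N`. -/
theorem Chn.congr {N : ℕ} {f' : ℕ → ℕ} (hf : ∀ k < N, f k = f' k) (h : Chn G f N W) :
    Chn G f' N W := by
  obtain ⟨A, h0, hl, hf2, he⟩ := h
  refine ⟨A, h0, hl, fun k hk => ?_, he⟩
  rw [← hf k hk]
  exact hf2 k hk

/-- ROW K1c (extend the last block, which is traversed forwards, by a directed path). `PA` is a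
directed path which starts in the last vertex `a` of `W`. `A'` equals `A`, except
`A' N = A N + PA.tail.length`. -/
theorem Chn.append_path {N : ℕ} (hN : Even N) (hN0 : 0 < N) (h : Chn G f N W)
    (ha : W.getLast? = some a) (PA : List V) (hPA : List.IsChain G PA)
    (hh : PA.head? = some a) : Chn G f N (W ++ PA.tail) := by
  obtain ⟨A, h0, hl, hf, he⟩ := h
  have hm := K1_mono hf
  obtain ⟨P, rfl⟩ : ∃ P, PA = a :: P := by
    cases PA with
    | nil => simp at hh
    | cons c P =>
      simp only [List.head?_cons, Option.some.injEq] at hh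
      exact ⟨P, by rw [hh]⟩
  rw [List.tail_cons]
  refine ⟨fun k => if k = N then A N + P.length else A k, ?_, ?_, ?_, ?_⟩
  · beta_reduce
    rw [if_neg (by omega), h0]
  · beta_reduce
    rw [if_pos rfl, List.length_append]
    omega
  · intro k hk
    have h1 := hf k hk
    beta_reduce
    rw [if_neg (show ¬ k = N by omega)]
    split_ifs with h2
    · rw [h2] at h1
      omega
    · exact h1
  · intro k hk i hi hi2 u v hu hv
    beta_reduce at hi hi2
    rw [if_neg (show ¬ k = N by omega)] at hi
    by_cases h1 : i + 1 < W.length
    · rw [List.getElem?_append_left (by omega)] at hu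
      rw [List.getElem?_append_left h1] at hv
      refine he k hk i hi ?_ u v hu hv
      split_ifs at hi2 with h2
      · rw [h2]
        omega
      · exact hi2
    · have h2 : k + 1 = N := by
        by_contra h3
        rw [if_neg h3] at hi2
        have h4 := hm N le_rfl (k + 1) (by omega)
        omega
      have hodd : ¬ Even k := by
        rw [Nat.even_iff]
        rw [Nat.even_iff] at hN
        omega
      have key : ∀ j, A N ≤ j → (W ++ P)[j]? = (a :: P)[j - A N]? := by
        intro j hj
        rcases Nat.lt_or_ge j W.length with h5 | h5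
        · have h6 : j = W.length - 1 := by omega
          have h7 : j - A N = 0 := by omega
          rw [List.getElem?_append_left h5, h7, h6, ← List.getLast?_eq_getElem?, ha]
          rfl
        · have h7 : j - A N = (j - W.length) + 1 := by omega
          rw [List.getElem?_append_right h5, h7, List.getElem?_cons_succ]
      rw [key i (by omega)] at hu
      rw [key (i + 1) (by omega)] at hv
      have h8 : i + 1 - A N = (i - A N) + 1 := by omega
      rw [h8] at hv
      obtain ⟨h9, h10⟩ := List.getElem?_eq_some_iff.1 hu
      obtain ⟨h11, h12⟩ := List.getElem?_eq_some_iff.1 hv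
      have h13 := (List.isChain_iff_getElem.1 hPA) (i - A N) h11
      rw [h10, h12] at h13
      exact ⟨fun h14 => absurd h14 hodd, fun _ => h13⟩

/-- ROW K1d (extend at both ends). Use `append_path`, `reverse`, `append_path`, `reverse` and
`congr`. -/
theorem Chn.append_both {N : ℕ} (hN : Even N) (hN0 : 0 < N) (h : Chn G f N W)
    (ha : W.getLast? = some a) (hb : W.head? = some b) (PA PB : List V)
    (hPA : List.IsChain G PA) (hA : PA.head? = some a) (hPB : List.IsChain G PB)
    (hB : PB.head? = some b) : Chn G f N (PB.tail.reverse ++ W ++ PA.tail) := by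
  have h1 := h.append_path hN hN0 ha PA hPA hA
  have h2 := h1.reverse hN
  have h3 : (W ++ PA.tail).reverse.getLast? = some b := by
    rw [List.getLast?_reverse, List.head?_append, hb]
    rfl
  have h4 := h2.append_path hN hN0 h3 PB hPB hB
  have h5 := h4.reverse hN
  have h6 : ((W ++ PA.tail).reverse ++ PB.tail).reverse = PB.tail.reverse ++ W ++ PA.tail := by
    rw [List.reverse_append, List.reverse_reverse, List.append_assoc]
  rw [h6] at h5
  refine h5.congr ?_
  intro k hk
  have h7 : N - 1 - (N - 1 - k) = k := by omega
  simp only [h7]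

end MP_ad30dc_co
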