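import Pool.Agent.Lib.MP_ad30dc_co.K1

namespace MP_ad30dc_co

variable {V : Type*} {G : V → V → Prop} {f : ℕ → ℕ} {W : List V} {a x : V}

private theorem K2_chain_get {R : V → V → Prop} {L : List V} (h : List.IsChain R L) {i : ℕ}
    {u v : V} (hu : L[i]? = some u) (hv : L[i + 1]? = some v) : R u v := by
  obtain ⟨hi, rfl⟩ := List.getElem?_eq_some_iff.1 hu
  obtain ⟨hi', rfl⟩ := List.getElem?_eq_some_iff.1 hv
  exact List.isChain_iff_getElem.1 h i hi'

private theorem K2_chain_rev {L : List V} (h : List.IsChain G L) :
    List.IsChain (fun u v => G v u) L.reverse := by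
  rw [List.isChain_reverse]
  exact h

private theorem K2_get_right {L1 L2 : List V} {i : ℕ} (h : L1.length ≤ i) :
    (L1 ++ L2)[i]? = L2[i - L1.length]? := by
  rw [List.getElem?_append_right h]

private theorem K2_mono {A : ℕ → ℕ} {N : ℕ} (h : ∀ k < N, A k + f k ≤ A (k + 1)) {j k : ℕ}
    (hjk : j ≤ k) (hk : k ≤ N) : A j ≤ A k := by
  induction k, hjk using Nat.le_induction with
  | base => exact le_rfl
  | succ m hm ih =>
    have h1 := h m (by omega)
    have h2 := ih (by omega)
    omega

/-- ROW K2a (two new blocks at the right end). `Y ++ [a]` is a directed path from `x` to the last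
vertex `a` of `W`, and `x :: P` is a directed path. The new chain first goes back along `Y` from `a`
to `x` and then forwards along `P`. `A'` equals `A` up to `N`, `A' (N + 1) = A N + Y.length`,
`A' (N + 2) = A N + Y.length + P.length`. -/
theorem Chn.append_step {N : ℕ} (hN : Even N) (h : Chn G f N W)
    (ha : W.getLast? = some a) (Y P : List V) (hY : List.IsChain G (Y ++ [a]))
    (hx : Y.head? = some x) (hP : List.IsChain G (x :: P)) (hf : f N ≤ Y.length)
    (hf1 : f (N + 1) ≤ P.length) : Chn G f (N + 2) (W ++ Y.reverse ++ P) := by
  obtain ⟨A, hA0, hAN, hAf, hAe⟩ := h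
  obtain ⟨W0, rfl⟩ : ∃ W0, W = W0 ++ [a] := by
    rw [List.getLast?_eq_some_iff] at ha
    exact ha
  obtain ⟨Y', rfl⟩ : ∃ Y', Y = x :: Y' := by
    cases Y with
    | nil => simp at hx
    | cons y Y' =>
      simp only [List.head?_cons, Option.some.injEq] at hx
      exact ⟨Y', by rw [hx]⟩
  have hANW : A N = W0.length := by
    simp only [List.length_append, List.length_cons, List.length_nil] at hAN
    omega
  have hY2 := K2_chain_rev hY
  have e1 : (x :: Y' ++ [a]).reverse = a :: (Y'.reverse ++ [x]) := by simp
  rw [e1] at hY2
  have eZ1 : (W0 ++ [a]) ++ (x :: Y').reverse ++ P = W0 ++ ((a :: (Y'.reverse ++ [x])) ++ P) := by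
    simp
  have eZ2 : (W0 ++ [a]) ++ (x :: Y').reverse ++ P =
      (W0 ++ ([a] ++ Y'.reverse)) ++ (x :: P) := by
    simp
  refine ⟨fun k => if k ≤ N then A k else if k = N + 1 then A N + (x :: Y').length
    else A N + (x :: Y').length + P.length, ?_, ?_, ?_, ?_⟩
  · simp [hA0]
  · have h1 : ¬ (N + 2 ≤ N) := by omega
    have h2 : ¬ (N + 2 = N + 1) := by omega
    simp only [h1, h2, if_false]
    simp only [List.length_append, List.length_cons, List.length_nil, List.length_reverse]
    omega
  · intro k hk
    rcases lt_trichotomy k N with hk1 | hk1 | hk1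
    · have h1 : k ≤ N := by omega
      have h2 : k + 1 ≤ N := by omega
      simp only [h1, h2, if_true]
      exact hAf k hk1
    · subst hk1
      have h2 : ¬ (k + 1 ≤ k) := by omega
      simp only [le_refl, h2, if_true, if_false]
      omega
    · have hk2 : k = N + 1 := by omega
      subst hk2
      have h1 : ¬ (N + 1 ≤ N) := by omega
      have h2 : ¬ (N + 1 + 1 ≤ N) := by omega
      have h3 : ¬ (N + 1 + 1 = N + 1) := by omega
      simp only [h1, h2, h3, if_true, if_false]
      omega
  · intro k hk i hi1 hi2 u v hu hv
    rcases lt_trichotomy k N with hk1 | hk1 | hk1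
    · have h1 : k ≤ N := by omega
      have h2 : k + 1 ≤ N := by omega
      simp only [h1, h2, if_true] at hi1 hi2
      have h3 : A (k + 1) ≤ A N := K2_mono hAf h2 le_rfl
      have h4 : i + 1 < (W0 ++ [a]).length := by
        simp only [List.length_append, List.length_cons, List.length_nil]
        omega
      rw [List.append_assoc, List.getElem?_append_left (by omega)] at hu hv
      exact hAe k hk1 i hi1 hi2 u v hu hv
    · subst hk1
      have h2 : ¬ (k + 1 ≤ k) := by omega
      simp only [le_refl, h2, if_true, if_false] at hi1 hi2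
      simp only [List.length_cons] at hi2
      rw [eZ1, K2_get_right (by omega), List.getElem?_append_left (by
        simp only [List.length_cons, List.length_append, List.length_reverse, List.length_nil]
        omega)] at hu hv
      have e3 : i + 1 - W0.length = (i - W0.length) + 1 := by omega
      rw [e3] at hv
      have := K2_chain_get hY2 hu hv
      exact ⟨fun _ => this, fun hne => absurd hN hne⟩
    · have hk2 : k = N + 1 := by omega
      subst hk2
      have h1 : ¬ (N + 1 ≤ N) := by omega
      have h2 : ¬ (N + 1 + 1 ≤ N) := by omega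
      have h3 : ¬ (N + 1 + 1 = N + 1) := by omega
      simp only [h1, h2, h3, if_true, if_false] at hi1 hi2
      simp only [List.length_cons] at hi1 hi2
      have h5 : (W0 ++ ([a] ++ Y'.reverse)).length = A N + (Y'.length + 1) := by
        simp only [List.length_append, List.length_cons, List.length_nil, List.length_reverse]
        omega
      rw [eZ2, K2_get_right (by omega)] at hu hv
      have e3 : i + 1 - (W0 ++ ([a] ++ Y'.reverse)).length =
        (i - (W0 ++ ([a] ++ Y'.reverse)).length) + 1 := by omega
      rw [e3] at hv
      have h6 := K2_chain_get hP hu hv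
      have hodd : ¬ Even (N + 1) := by
        rw [Nat.even_add_one]
        exact not_not.2 hN
      exact ⟨fun he => absurd he hodd, fun _ => h6⟩

/-- ROW K2b (two new blocks at the left end): reverse the chain, use `append_step` for the function
`f'' k = f (N + 1 - k)` (so `f'' (k) = f (N + 1 - k)`, `f'' N = f 1`, `f'' (N + 1) = f 0`) and
reverse again. The given chain has the block bounds `f (k + 2)`. `Y ++ [b]` is a directed path from
`x` to the first vertex `b` of `W`. -/
theorem Chn.prepend_step {N : ℕ} {b : V} (hN : Even N) (h : Chn G (fun k => f (k + 2)) N W)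
    (hb : W.head? = some b) (Y P : List V) (hY : List.IsChain G (Y ++ [b]))
    (hx : Y.head? = some x) (hP : List.IsChain G (x :: P)) (hf : f 1 ≤ Y.length)
    (hf1 : f 0 ≤ P.length) : Chn G f (N + 2) (P.reverse ++ Y ++ W) := by
  have h1 := h.reverse hN
  have h2 : Chn G (fun k => f (N + 1 - k)) N W.reverse := by
    refine Chn.congr ?_ h1
    intro k hk
    show f (N - 1 - k + 2) = f (N + 1 - k)
    congr 1
    omega
  have h3 := Chn.append_step (x := x) hN h2 (a := b) (by rw [List.getLast?_reverse]; exact hb) Y P
    hY hx hP (by
      show f (N + 1 - N) ≤ Y.length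
      rw [Nat.add_sub_cancel_left]
      exact hf) (by
      show f (N + 1 - (N + 1)) ≤ P.length
      rw [Nat.sub_self]
      exact hf1)
  have h4 := h3.reverse (by
    rw [Nat.even_add]
    exact ⟨fun _ => even_two, fun _ => hN⟩)
  have h5 : (W.reverse ++ Y.reverse ++ P).reverse = P.reverse ++ Y ++ W := by simp
  rw [h5] at h4
  refine Chn.congr ?_ h4
  intro k hk
  show f (N + 1 - (N + 2 - 1 - k)) = f k
  congr 1
  omega

/-- ROW K2c (the first two blocks). -/
theorem chn_base (P Q : List V) (hP : List.IsChain G (x :: P)) (hQ : List.IsChain G (x :: Q))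
    (h0 : f 0 ≤ Q.length) (h1 : f 1 ≤ P.length) : Chn G f 2 (Q.reverse ++ [x] ++ P) := by
  have hQ2 := K2_chain_rev hQ
  have e1 : (x :: Q).reverse = Q.reverse ++ [x] := by simp
  rw [e1] at hQ2
  have eZ2 : Q.reverse ++ [x] ++ P = Q.reverse ++ (x :: P) := by simp
  refine ⟨fun k => if k = 0 then 0 else if k = 1 then Q.length else Q.length + P.length,
    by simp, ?_, ?_, ?_⟩
  · simp only [List.length_append, List.length_cons, List.length_nil, List.length_reverse]
    simp
    omega
  · intro k hk
    have hk2 : k = 0 ∨ k = 1 := by omega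
    rcases hk2 with rfl | rfl
    · simpa using h0
    · simpa using h1
  · intro k hk i hi1 hi2 u v hu hv
    have hk2 : k = 0 ∨ k = 1 := by omega
    rcases hk2 with rfl | rfl
    · simp only [if_true, zero_add, one_ne_zero, if_false] at hi1 hi2
      rw [List.getElem?_append_left (by
        simp only [List.length_append, List.length_cons, List.length_nil, List.length_reverse]
        omega)] at hu hv
      have := K2_chain_get hQ2 hu hv
      exact ⟨fun _ => this, fun hne => absurd (by simp) hne⟩
    · have e2 : (1 + 1 : ℕ) = 2 := rfl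
      simp only [e2, if_true, one_ne_zero, if_false, OfNat.ofNat_ne_zero,
        OfNat.ofNat_ne_one] at hi1 hi2
      have h5 : (Q.reverse).length = Q.length := by simp
      rw [eZ2, K2_get_right (by omega)] at hu hv
      have e3 : i + 1 - Q.reverse.length = (i - Q.reverse.length) + 1 := by omega
      rw [e3] at hv
      have h6 := K2_chain_get hP hu hv
      exact ⟨fun he => absurd he (by decide), fun _ => h6⟩

/-- ROW K2d (closing a chain). `PA` is a path from `a` to `w`, `PB` a path from `b` to `w`, which
have only `w` in common, and which meet `W` only in `a` and `b`. The list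
`PB.tail.reverse ++ W ++ PA.tail` (a chain by `append_both`) starts and ends with `w`: if
`PB = [b]` then `w = b`, otherwise `PB.tail` ends with `w`; in the same way for `PA`. Not both
`PA = [a]` and `PB = [b]`, since `a ≠ b`. Remove the last entry (`List.dropLast`) to get the list
`W'` of `Clo` (`z = w`); it has no repetitions: the three parts are disjoint except for the first
and the last entry `w`. Cases `w = a` (then `PA = [a]`, and `PB` ends in `a`), `w = b`, and
`w ∉ {a, b}` (then `w ∉ W`). -/
theorem close_chain {N : ℕ} {b w : V} (hN : Even N) (hN0 : 0 < N) (h : Chn G f N W)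
    (hW : W.Nodup) (ha : W.getLast? = some a) (hb : W.head? = some b) (hab : a ≠ b)
    (PA PB : List V)
    (hPA : List.IsChain G PA) (hPAn : PA.Nodup) (hA : PA.head? = some a)
    (hAw : PA.getLast? = some w)
    (hPB : List.IsChain G PB) (hPBn : PB.Nodup) (hB : PB.head? = some b)
    (hBw : PB.getLast? = some w)
    (hdis : ∀ y ∈ PA, y ∈ PB → y = w) (hWP : ∀ y ∈ W, (y ∈ PA ∨ y ∈ PB) → y = a ∨ y = b) :
    Clo G f N := by
  have hZ := h.append_both hN hN0 ha hb PA PB hPA hA hPB hB
  obtain ⟨PA', rfl⟩ : ∃ PA', PA = a :: PA' := by
    cases PA with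
    | nil => simp at hA
    | cons y Y' =>
      simp only [List.head?_cons, Option.some.injEq] at hA
      exact ⟨Y', by rw [hA]⟩
  obtain ⟨PB', rfl⟩ : ∃ PB', PB = b :: PB' := by
    cases PB with
    | nil => simp at hB
    | cons y Y' =>
      simp only [List.head?_cons, Option.some.injEq] at hB
      exact ⟨Y', by rw [hB]⟩
  simp only [List.tail_cons] at hZ
  have haPA : a ∉ PA' := (List.nodup_cons.1 hPAn).1
  have hPA'n : PA'.Nodup := (List.nodup_cons.1 hPAn).2
  have hbPB : b ∉ PB' := (List.nodup_cons.1 hPBn).1
  have hPB'n : PB'.Nodup := (List.nodup_cons.1 hPBn).2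
  -- head of the long list
  have hhead : (PB'.reverse ++ W).head? = some w := by
    cases PB' with
    | nil =>
      simp only [List.getLast?_singleton, Option.some.injEq] at hBw
      simpa [hb] using hBw
    | cons y Y' =>
      have h1 : (b :: y :: Y').getLast? = (y :: Y').getLast? := by
        simp
      rw [h1] at hBw
      rw [List.head?_append, List.head?_reverse, hBw]
      rfl
  cases hPA' : PA' with
  | nil =>
    subst hPA'
    have hwa : a = w := by simpa using hAw
    subst hwa
    obtain ⟨W0, rfl⟩ : ∃ W0, W = W0 ++ [a] := by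
      rw [List.getLast?_eq_some_iff] at ha
      exact ha
    have haW0 : a ∉ W0 := by
      have := List.nodup_append.1 hW
      intro hmem
      exact (this.2.2 a hmem a (by simp)) rfl
    refine ⟨PB'.reverse ++ W0, a, ?_, ?_, ?_⟩
    · simpa using hhead
    · rw [List.nodup_append]
      refine ⟨List.nodup_reverse.2 hPB'n, (List.nodup_append.1 hW).1, ?_⟩
      intro y hy z hz hyz
      subst hyz
      have hy' : y ∈ PB' := by simpa using hy
      rcases hWP y (by simp [hz]) (Or.inr (by simp [hy'])) with rfl | rfl
      · exact haW0 hz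
      · exact hbPB hy'
    · simpa using hZ
  | cons y0 Y0 =>
    have hne : PA' ≠ [] := by rw [hPA']; simp
    obtain ⟨PA2, hPA2⟩ : ∃ PA2, PA' = PA2 ++ [w] := by
      have h1 : (a :: PA').getLast? = PA'.getLast? := by
        rw [hPA']; simp
      rw [h1, List.getLast?_eq_some_iff] at hAw
      exact hAw
    clear hPA'
    subst hPA2
    have hwPA2 : w ∉ PA2 := by
      have := List.nodup_append.1 hPA'n
      intro hmem
      exact (this.2.2 w hmem w (by simp)) rfl
    have haw : a ≠ w := by
      rintro rfl
      exact haPA (by simp)
    refine ⟨PB'.reverse ++ W ++ PA2, w, ?_, ?_, ?_⟩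
    · have e1 : PB'.reverse ++ W ++ PA2 ++ [w] = (PB'.reverse ++ W) ++ (PA2 ++ [w]) := by simp
      rw [e1, List.head?_append, hhead]
      rfl
    · rw [List.nodup_append, List.nodup_append]
      refine ⟨⟨List.nodup_reverse.2 hPB'n, hW, ?_⟩, (List.nodup_append.1 hPA'n).1, ?_⟩
      · intro y hy z hz hyz
        subst hyz
        have hy' : y ∈ PB' := by simpa using hy
        rcases hWP y hz (Or.inr (by simp [hy'])) with rfl | rfl
        · exact haw (hdis y (by simp) (by simp [hy']))
        · exact hbPB hy'
      · intro y hy z hz hyz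
        subst hyz
        rcases List.mem_append.1 hy with hy | hy
        · have hy' : y ∈ PB' := by simpa using hy
          have := hdis y (by simp [hz]) (by simp [hy'])
          subst this
          exact hwPA2 hz
        · rcases hWP y hy (Or.inl (by simp [hz])) with rfl | rfl
          · exact haPA (by simp [hz])
          · have := hdis y (by simp [hz]) (by simp)
            subst this
            exact hwPA2 hz
    · simpa using hZ

end MP_ad30dc_co
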