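import Pool.Agent.Lib.MP_ad30dc_co.D

/-!
# Definitions for the linear bound (open chains, regions, states)
-/

namespace MP_ad30dc_co

variable {V : Type*}

/-- `L` is the list of the vertices of a directed path of `G` from `u` to `v` inside `R`. -/
def IsP (G : V → V → Prop) (R : Set V) (u v : V) (L : List V) : Prop :=
  List.IsChain G L ∧ L.Nodup ∧ (∀ x ∈ L, x ∈ R) ∧ L.head? = some u ∧ L.getLast? = some v

/-- The vertices which can be reached by a path inside `R` from a vertex of `A`. -/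
def Rch (G : V → V → Prop) (R A : Set V) : Set V := {v | ∃ u ∈ A, ∃ L, IsP G R u v L}

/-- `Q` is a terminal strong component of the subdigraph induced on `R`: nonempty, closed in `R`
and strongly connected. -/
def IsTerm (G : V → V → Prop) (R Q : Finset V) : Prop :=
  Q.Nonempty ∧ Q ⊆ R ∧ (∀ v ∈ Q, ∀ w ∈ R, G v w → w ∈ Q) ∧
    ∀ u ∈ Q, ∀ v ∈ Q, v ∈ Rch G (↑Q) {u}

/-- Disjoint paths `PA` from `a` to `a' ∈ Qa` and `PB` from `b` to `b' ∈ Qb` inside `R` which meet
`Qa ∪ Qb` only in their last vertices. -/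
def Linked (G : V → V → Prop) (R Qa Qb : Finset V) (a b a' b' : V) (PA PB : List V) : Prop :=
  IsP G (↑R) a a' PA ∧ IsP G (↑R) b b' PB ∧ a' ∈ Qa ∧ b' ∈ Qb ∧
    (∀ y ∈ PA, (y ∈ Qa ∨ y ∈ Qb) → y = a') ∧ (∀ y ∈ PB, (y ∈ Qa ∨ y ∈ Qb) → y = b') ∧
    List.Disjoint PA PB

/-- An open chain: the list `W` of vertices is divided into `N` blocks; the `k`-th block has at
least `f k` arcs; the arcs of the blocks number `0, 2, 4, …` point from right to left (from
`W[i+1]` to `W[i]`), the arcs of the blocks number `1, 3, 5, …` from left to right. -/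
def Chn (G : V → V → Prop) (f : ℕ → ℕ) (N : ℕ) (W : List V) : Prop :=
  ∃ A : ℕ → ℕ, A 0 = 0 ∧ A N + 1 = W.length ∧ (∀ k < N, A k + f k ≤ A (k + 1)) ∧
    ∀ k < N, ∀ i, A k ≤ i → i < A (k + 1) → ∀ u v, W[i]? = some u → W[i + 1]? = some v →
      ((Even k → G v u) ∧ (¬ Even k → G u v))

/-- A closed chain with `N` blocks: an open chain whose first and last vertex coincide, and all
other vertices are distinct. -/
def Clo (G : V → V → Prop) (f : ℕ → ℕ) (N : ℕ) : Prop :=
  ∃ (W : List V) (z : V), (W ++ [z]).head? = some z ∧ W.Nodup ∧ Chn G f N (W ++ [z])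

/-- All out-neighbours of the vertices of `R` lie in `R`, `X` or `S`. -/
def Exits (G : V → V → Prop) (R X S : Finset V) : Prop :=
  ∀ v ∈ R, ∀ w, G v w → w ∈ R ∨ w ∈ X ∨ w ∈ S

/-- `W` is an open chain in `T` (outside `S`) from `b` (left end) to `a` (right end) with `2 * k`
blocks, the block number `i` has at least `lam (2 * j + i)` arcs. -/
def IsCh (G : V → V → Prop) (T S : Finset V) (lam : ℕ → ℕ) (j k : ℕ) (a b : V) (W : List V) :
    Prop :=
  Chn G (fun i => lam (2 * j + i)) (2 * k) W ∧ W.Nodup ∧ W.head? = some b ∧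
    W.getLast? = some a ∧ (∀ v ∈ W, v ∈ T ∧ v ∉ S)

/-- State I: one region `R` contains both ends of the chain and no other vertex of it. -/
def StI (G : V → V → Prop) (T S X R : Finset V) (lam : ℕ → ℕ) (j k : ℕ) (a b : V)
    (W : List V) : Prop :=
  IsCh G T S lam j k a b W ∧ R ⊆ T ∧ Disjoint R S ∧ Exits G R X S ∧ a ∈ R ∧ b ∈ R ∧ a ≠ b ∧
    ∀ v ∈ W, v ∈ R → v = a ∨ v = b

/-- State II: two disjoint regions `Ra`, `Rb`, which contain the ends `a`, `b` of the chain and no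
other vertices of it. -/
def StII (G : V → V → Prop) (T S Xa Xb Ra Rb : Finset V) (lam : ℕ → ℕ) (j k : ℕ) (a b : V)
    (W : List V) : Prop :=
  IsCh G T S lam j k a b W ∧ Ra ⊆ T ∧ Rb ⊆ T ∧ Disjoint Ra S ∧ Disjoint Rb S ∧
    Disjoint Ra Rb ∧ Exits G Ra Xa S ∧ Exits G Rb Xb S ∧ a ∈ Ra ∧ b ∈ Rb ∧
    (∀ v ∈ W, v ∈ Ra → v = a) ∧ ∀ v ∈ W, v ∈ Rb → v = b

/-- First outcome of the case analysis: after the removal of a set `s` of at most one vertex there
is a terminal component `Q` to which `a` and `b` are joined by disjoint paths. -/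
def OneWorld [DecidableEq V] (G : V → V → Prop) (R : Finset V) (a b : V) : Prop :=
  ∃ (s Q : Finset V) (a' b' : V) (PA PB : List V),
    s.card ≤ 1 ∧ s ⊆ R ∧ IsTerm G (R \ s) Q ∧ Linked G (R \ s) Q Q a b a' b' PA PB

/-- Second outcome of the case analysis: two separate worlds `Qa`, `Qb`. `s` is a set of at most
one new exit which does not lie on the paths; `Ea`, `Eb` (together at most one element) are further
exits of `Qa`, `Qb`. -/
def Worlds [DecidableEq V] (G : V → V → Prop) (R : Finset V) (a b : V) : Prop :=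
  ∃ (s Ea Eb Qa Qb : Finset V) (a' b' : V) (PA PB : List V),
    s.card ≤ 1 ∧ s ⊆ R ∧ Ea.card + Eb.card ≤ 1 ∧ Disjoint Qa Qb ∧
    Qa ⊆ R \ s ∧ Qb ⊆ R \ s ∧
    (∀ v ∈ Qa, ∀ w ∈ R, G v w → w ∈ Qa ∨ w ∈ Ea ∨ w ∈ s) ∧
    (∀ v ∈ Qb, ∀ w ∈ R, G v w → w ∈ Qb ∨ w ∈ Eb ∨ w ∈ s) ∧
    Linked G (R \ s) Qa Qb a b a' b' PA PB

end MP_ad30dc_co
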