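import Pool.Agent.Lib.MP_ad30dc_co.L0

namespace MP_ad30dc_co

variable {V : Type*} {G : V → V → Prop} {R R' A : Set V} {u v w x s : V} {L L' : List V}

/-! ROW L1: the API of `IsP`. Everything is elementary (lists). For the existence of
paths without repetition: if `w ∈ L` take the initial segment of `L` up to `w`, otherwise append
`w`. -/

theorem IsP.single (hu : u ∈ R) : IsP G R u u [u] := by
  refine ⟨by simp, by simp, ?_, rfl, rfl⟩
  intro x hx
  rw [List.mem_singleton] at hx
  rw [hx]; exact hu

theorem IsP.mono (h : R ⊆ R') (hL : IsP G R u v L) : IsP G R' u v L :=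
  ⟨hL.1, hL.2.1, fun x hx => h (hL.2.2.1 x hx), hL.2.2.2⟩

/-- all vertices of the path lie in `R'`: the path is a path inside `R'` -/
theorem IsP.of_mem (hL : IsP G R u v L) (h : ∀ y ∈ L, y ∈ R') : IsP G R' u v L :=
  ⟨hL.1, hL.2.1, h, hL.2.2.2⟩

theorem IsP.head_mem (hL : IsP G R u v L) : u ∈ L := List.mem_of_head? hL.2.2.2.1

theorem IsP.last_mem (hL : IsP G R u v L) : v ∈ L := List.mem_of_getLast? hL.2.2.2.2

theorem IsP.left_mem (hL : IsP G R u v L) : u ∈ R := hL.2.2.1 u hL.head_mem

theorem IsP.right_mem (hL : IsP G R u v L) : v ∈ R := hL.2.2.1 v hL.last_mem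

/-- `L = u :: tail` -/
theorem IsP.eq_cons (hL : IsP G R u v L) : ∃ P, L = u :: P := by
  cases L with
  | nil => exact absurd hL.2.2.2.1 (by simp)
  | cons a P =>
    have h := hL.2.2.2.1
    simp only [List.head?_cons, Option.some.injEq] at h
    exact ⟨P, by rw [h]⟩

/-- Initial segment up to `x`. -/
theorem IsP.split_left (hL : IsP G R u v L) (hx : x ∈ L) :
    ∃ L1, IsP G R u x L1 ∧ ∀ y ∈ L1, y ∈ L := by
  obtain ⟨s, t, rfl⟩ := List.append_of_mem hx
  have e : s ++ x :: t = (s ++ [x]) ++ t := by simp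
  obtain ⟨h1, h2, h3, h4, h5⟩ := hL
  have hsub : ∀ y ∈ s ++ [x], y ∈ s ++ x :: t := by
    intro y hy
    rw [e]
    exact List.mem_append_left _ hy
  refine ⟨s ++ [x], ⟨?_, ?_, fun y hy => h3 y (hsub y hy), ?_, by simp⟩, hsub⟩
  · rw [e, List.isChain_append] at h1
    exact h1.1
  · rw [e] at h2
    exact (List.nodup_append.1 h2).1
  · cases s with
    | nil => simpa using h4
    | cons a s => simpa using h4

/-- Final segment from `x`. -/
theorem IsP.split_right (hL : IsP G R u v L) (hx : x ∈ L) :
    ∃ L1, IsP G R x v L1 ∧ ∀ y ∈ L1, y ∈ L := by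
  obtain ⟨s, t, rfl⟩ := List.append_of_mem hx
  obtain ⟨h1, h2, h3, h4, h5⟩ := hL
  have hsub : ∀ y ∈ x :: t, y ∈ s ++ x :: t := fun y hy => List.mem_append_right _ hy
  refine ⟨x :: t, ⟨?_, ?_, fun y hy => h3 y (hsub y hy), rfl, ?_⟩, hsub⟩
  · rw [List.isChain_append] at h1
    exact h1.2.1
  · exact (List.nodup_append.1 h2).2.1
  · rw [List.getLast?_append_of_ne_nil s (by simp)] at h5
    exact h5

/-- the tail of a path with at least two vertices -/
private theorem L1_tail {a b : V} {P : List V} (hL : IsP G R u v (a :: b :: P)) :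
    IsP G R b v (b :: P) := by
  obtain ⟨h1, h2, h3, h4, h5⟩ := hL
  refine ⟨?_, ?_, fun y hy => h3 y (List.mem_cons_of_mem _ hy), rfl, ?_⟩
  · exact (List.isChain_cons_cons.1 h1).2
  · exact (List.nodup_cons.1 h2).2
  · rw [List.getLast?_cons_cons] at h5
    exact h5

private theorem L1_first (L : List V) : ∀ (u : V), IsP G R u v L → ∀ Q : Set V, (∃ y ∈ L, y ∈ Q) →
    ∃ w ∈ Q, ∃ L1, IsP G R u w L1 ∧ (∀ y ∈ L1, y ∈ L) ∧ ∀ y ∈ L1, y ∈ Q → y = w := by
  classical
  induction L with
  | nil => intro u hL; exact absurd hL.2.2.2.1 (by simp)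
  | cons a P ih =>
    intro u hL Q hQ
    have hau : a = u := by
      have h := hL.2.2.2.1
      simpa using h
    subst hau
    by_cases ha : a ∈ Q
    · refine ⟨a, ha, [a], IsP.single hL.left_mem, ?_, ?_⟩
      · intro y hy
        rw [List.mem_singleton] at hy
        rw [hy]; exact List.mem_cons_self
      · intro y hy _
        exact List.mem_singleton.1 hy
    · obtain ⟨y, hy, hyQ⟩ := hQ
      have hyP : y ∈ P := by
        rcases List.mem_cons.1 hy with h | h
        · exact absurd (h ▸ hyQ) ha
        · exact h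
      cases P with
      | nil => exact absurd hyP List.not_mem_nil
      | cons b P' =>
        obtain ⟨w, hw, L1, hL1, hsub, hun⟩ := ih b (L1_tail hL) Q ⟨y, hyP, hyQ⟩
        obtain ⟨P1, rfl⟩ := hL1.eq_cons
        refine ⟨w, hw, a :: b :: P1, ⟨?_, ?_, ?_, rfl, ?_⟩, ?_, ?_⟩
        · exact List.isChain_cons_cons.2 ⟨(List.isChain_cons_cons.1 hL.1).1, hL1.1⟩
        · refine List.nodup_cons.2 ⟨?_, hL1.2.1⟩
          intro h
          exact (List.nodup_cons.1 hL.2.1).1 (hsub a h)
        · intro z hz
          rcases List.mem_cons.1 hz with h | h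
          · rw [h]; exact hL.left_mem
          · exact hL1.2.2.1 z h
        · rw [List.getLast?_cons_cons]
          exact hL1.2.2.2.2
        · intro z hz
          rcases List.mem_cons.1 hz with h | h
          · rw [h]; exact List.mem_cons_self
          · exact List.mem_cons_of_mem _ (hsub z h)
        · intro z hz hzQ
          rcases List.mem_cons.1 hz with h | h
          · exact absurd (h ▸ hzQ) ha
          · exact hun z h hzQ

private theorem L1_last (L : List V) : ∀ (u : V), IsP G R u v L → ∀ Q : Set V, (∃ y ∈ L, y ∈ Q) →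
    ∃ w ∈ Q, ∃ L1, IsP G R w v L1 ∧ (∀ y ∈ L1, y ∈ L) ∧ ∀ y ∈ L1, y ∈ Q → y = w := by
  classical
  induction L with
  | nil => intro u hL; exact absurd hL.2.2.2.1 (by simp)
  | cons a P ih =>
    intro u hL Q hQ
    have hau : a = u := by
      have h := hL.2.2.2.1
      simpa using h
    subst hau
    by_cases hP : ∃ y ∈ P, y ∈ Q
    · cases P with
      | nil => obtain ⟨y, hy, -⟩ := hP; exact absurd hy List.not_mem_nil
      | cons b P' =>
        obtain ⟨w, hw, L1, hL1, hsub, hun⟩ := ih b (L1_tail hL) Q hP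
        exact ⟨w, hw, L1, hL1, fun y hy => List.mem_cons_of_mem _ (hsub y hy), hun⟩
    · obtain ⟨y, hy, hyQ⟩ := hQ
      have hya : y = a := by
        rcases List.mem_cons.1 hy with h | h
        · exact h
        · exact absurd ⟨y, h, hyQ⟩ hP
      subst hya
      refine ⟨y, hyQ, y :: P, hL, fun z hz => hz, ?_⟩
      intro z hz hzQ
      rcases List.mem_cons.1 hz with h | h
      · exact h
      · exact absurd ⟨z, h, hzQ⟩ hP

/-- The initial segment up to the first vertex of the set `Q` (here `Q` is any predicate set which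
contains the last vertex). Induction on `L` or `List.find?`/`takeWhile`. -/
theorem IsP.first_hit (hL : IsP G R u v L) (Q : Set V) (hv : v ∈ Q) :
    ∃ w ∈ Q, ∃ L1, IsP G R u w L1 ∧ (∀ y ∈ L1, y ∈ L) ∧ ∀ y ∈ L1, y ∈ Q → y = w :=
  L1_first L u hL Q ⟨v, hL.last_mem, hv⟩

/-- The final segment from the last vertex of the set `Q`. -/
theorem IsP.last_hit (hL : IsP G R u v L) (Q : Set V) (hu : u ∈ Q) :
    ∃ w ∈ Q, ∃ L1, IsP G R w v L1 ∧ (∀ y ∈ L1, y ∈ L) ∧ ∀ y ∈ L1, y ∈ Q → y = w :=
  L1_last L u hL Q ⟨u, hL.head_mem, hu⟩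

/-- Extend a path by one arc (shorten it if the new vertex is already on it). -/
theorem IsP.step (hL : IsP G R u v L) (h : G v w) (hw : w ∈ R) :
    ∃ L1, IsP G R u w L1 ∧ ∀ y ∈ L1, y ∈ L ∨ y = w := by
  classical
  by_cases hwL : w ∈ L
  · obtain ⟨L1, hL1, hsub⟩ := hL.split_left hwL
    exact ⟨L1, hL1, fun y hy => Or.inl (hsub y hy)⟩
  · obtain ⟨h1, h2, h3, h4, h5⟩ := hL
    refine ⟨L ++ [w], ⟨?_, ?_, ?_, ?_, by simp⟩, ?_⟩
    · rw [List.isChain_append]
      refine ⟨h1, by simp, ?_⟩
      intro x hx y hy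
      rw [h5] at hx
      simp only [Option.mem_def, Option.some.injEq, List.head?_cons] at hx hy
      rw [← hx, ← hy]
      exact h
    · rw [List.nodup_append]
      refine ⟨h2, by simp, ?_⟩
      intro a ha b hb hab
      rw [List.mem_singleton] at hb
      exact hwL (by rw [← hb, ← hab]; exact ha)
    · intro y hy
      rcases List.mem_append.1 hy with h' | h'
      · exact h3 y h'
      · rw [List.mem_singleton] at h'
        rw [h']; exact hw
    · cases L with
      | nil => exact absurd h4 (by simp)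
      | cons a L => simpa using h4
    · intro y hy
      rcases List.mem_append.1 hy with h' | h'
      · exact Or.inl h'
      · exact Or.inr (List.mem_singleton.1 h')

/-- Concatenation of two paths which have only `v` in common. -/
theorem IsP.append (hL : IsP G R u v L) (hL' : IsP G R v w L')
    (h : ∀ y ∈ L, y ∈ L' → y = v) : IsP G R u w (L ++ L'.tail) := by
  classical
  obtain ⟨P, rfl⟩ := hL'.eq_cons
  rw [List.tail_cons]
  obtain ⟨h1, h2, h3, h4, h5⟩ := hL
  obtain ⟨g1, g2, g3, g4, g5⟩ := hL'
  refine ⟨?_, ?_, ?_, ?_, ?_⟩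
  · rw [List.isChain_append]
    refine ⟨h1, ?_, ?_⟩
    · cases P with
      | nil => simp
      | cons b P => exact (List.isChain_cons_cons.1 g1).2
    · intro x hx y hy
      rw [h5] at hx
      simp only [Option.mem_def, Option.some.injEq] at hx
      rw [← hx]
      cases P with
      | nil => simp at hy
      | cons b P =>
        simp only [Option.mem_def, List.head?_cons, Option.some.injEq] at hy
        rw [← hy]
        exact (List.isChain_cons_cons.1 g1).1
  · rw [List.nodup_append]
    refine ⟨h2, (List.nodup_cons.1 g2).2, ?_⟩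
    intro a ha b hb hab
    subst hab
    have := h a ha (List.mem_cons_of_mem _ hb)
    subst this
    exact (List.nodup_cons.1 g2).1 hb
  · intro y hy
    rcases List.mem_append.1 hy with h' | h'
    · exact h3 y h'
    · exact g3 y (List.mem_cons_of_mem _ h')
  · cases L with
    | nil => exact absurd h4 (by simp)
    | cons a L => simpa using h4
  · cases P with
    | nil =>
      simp only [List.getLast?_singleton, Option.some.injEq] at g5
      rw [List.append_nil, ← g5]
      exact h5
    | cons b P =>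
      rw [List.getLast?_append_of_ne_nil L (by simp)]
      rw [List.getLast?_cons_cons] at g5
      exact g5

/-- Two paths can be combined to a path whose vertices are on one of them: take the last vertex of
`L'` which lies on `L` (`last_hit`), and `split_left` of `L`. -/
theorem IsP.trans (hL : IsP G R u v L) (hL' : IsP G R v w L') :
    ∃ L1, IsP G R u w L1 ∧ ∀ y ∈ L1, y ∈ L ∨ y ∈ L' := by
  obtain ⟨z, hz, M, hM, hsub, hun⟩ := hL'.last_hit {y | y ∈ L} hL.last_mem
  obtain ⟨N, hN, hNsub⟩ := hL.split_left hz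
  refine ⟨N ++ M.tail, hN.append hM ?_, ?_⟩
  · intro y hy hyM
    exact hun y hyM (hNsub y hy)
  · intro y hy
    rcases List.mem_append.1 hy with h' | h'
    · exact Or.inl (hNsub y h')
    · exact Or.inr (hsub y (List.mem_of_mem_tail h'))

end MP_ad30dc_co
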