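import Pool.Agent.Lib.MP_ad30dc_co.L2
import Pool.Agent.Lib.MP_ad30dc_co.K2

namespace MP_ad30dc_co

variable {V : Type*} [Fintype V] [DecidableEq V]

/-- ROW L8a. If the exits of `R` are in `X ∪ S` then the vertices of `R` have at least
`d - |X| - |S|` out-neighbours in `R`. -/
theorem deg_region (G : V → V → Prop) (R X S : Finset V) (d : ℕ) (hE : Exits G R X S)
    (hdeg : ∀ v, d ≤ (out G Finset.univ v).card) (v : V) (hv : v ∈ R) :
    d ≤ (out G R v).card + X.card + S.card := by
  have hsub : out G Finset.univ v ⊆ out G R v ∪ X ∪ S := by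
    intro w hw
    have hw' := (mem_out.1 hw).2
    rcases hE v hv w hw' with h | h | h
    · exact Finset.mem_union_left _ (Finset.mem_union_left _ (mem_out.2 ⟨h, hw'⟩))
    · exact Finset.mem_union_left _ (Finset.mem_union_right _ h)
    · exact Finset.mem_union_right _ h
  have h1 := Finset.card_le_card hsub
  have h2 := Finset.card_union_le (out G R v ∪ X) S
  have h3 := Finset.card_union_le (out G R v) X
  have h4 := hdeg v
  omega

/-- ROW L8b (in-path and leg inside a strongly connected region `Q`). `Z ⊆ Q` nonempty,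
`Z.card ≤ 2`. `in_path` gives `z`, `x`, `Y`; then `greedy_path` from `x` inside `Q` with the
forbidden set `X := (Y.toFinset.erase x) ∪ Z` of cardinality at most `β - 1 + Z.card`, `l = α`,
`h = α + β + 1`: a path `x :: P` with `P.length = α`. The conclusion collects everything: the lists
`Y`, `P` have no repetitions, are disjoint, and avoid `Z`. -/
theorem in_path_leg (G : V → V → Prop) (hG : ∀ v, ¬ G v v)
    (Q Z : Finset V) (hZ : Z.Nonempty) (hZ2 : Z.card ≤ 2) (hZQ : Z ⊆ Q)
    (hconn : ∀ u ∈ Q, ∀ v ∈ Q, v ∈ Rch G (↑Q) {u}) (α β : ℕ) (hβ : 1 ≤ β)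
    (hdeg : ∀ v ∈ Q, α + β + 1 ≤ (out G Q v).card) (hα : 1 ≤ α) :
    ∃ z ∈ Z, ∃ (x : V) (Y P : List V), Y.length = β ∧ Y.head? = some x ∧ P.length = α ∧
      List.IsChain G (Y ++ [z]) ∧ List.IsChain G (x :: P) ∧ (Y ++ P).Nodup ∧
      (∀ y ∈ Y ++ P, y ∈ Q ∧ y ∉ Z) := by
  obtain ⟨z, hz, x, Y, hYl, hYx, hYP, hYZ⟩ := in_path G hG Q Z hZ hZQ hconn β hβ (fun v hv => by
    have := hdeg v hv
    omega)
  obtain ⟨hYc, hYn, hYm, -, -⟩ := hYP
  have hxY : x ∈ Y := List.mem_of_mem_head? hYx
  have hYQ : ∀ y ∈ Y, y ∈ Q := fun y hy => by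
    have := hYm y (List.mem_append_left _ hy)
    simpa using this
  have hYn' : Y.Nodup := (List.nodup_append.1 hYn).1
  have hcard : ((Y.toFinset.erase x) ∪ Z).card + α ≤ α + β + 1 := by
    have h1 := Finset.card_union_le (Y.toFinset.erase x) Z
    have h2 : (Y.toFinset.erase x).card = Y.toFinset.card - 1 :=
      Finset.card_erase_of_mem (List.mem_toFinset.2 hxY)
    have h3 : Y.toFinset.card ≤ Y.length := List.toFinset_card_le Y
    omega
  obtain ⟨P, hPl, hPc, hPn, hPm⟩ := greedy_path G hG Q ((Y.toFinset.erase x) ∪ Z) x (hYQ x hxY)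
    α (α + β + 1) hcard hdeg
  refine ⟨z, hz, x, Y, P, hYl, hYx, hPl, hYc, hPc, ?_, ?_⟩
  · refine List.nodup_append.2 ⟨hYn', (List.nodup_cons.1 hPn).2, ?_⟩
    intro y hy y' hy' he
    subst he
    have h1 := (hPm y hy').2
    rw [Finset.mem_union, Finset.mem_erase, List.mem_toFinset] at h1
    push Not at h1
    by_cases hyx : y = x
    · rw [hyx] at hy'
      exact (List.nodup_cons.1 hPn).1 hy'
    · exact h1.1 hyx hy
  · intro y hy
    rcases List.mem_append.1 hy with h | h
    · exact ⟨hYQ y h, hYZ y h⟩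
    · refine ⟨(hPm y h).1, fun hyZ => (hPm y h).2 (Finset.mem_union_right _ hyZ)⟩

/-- ROW L8c (Step II). Let `R'` be the set of vertices reachable from `a` inside `Ra` and `Q` a
terminal component of `R'` (`exists_term`); then `Q` is closed in `Ra`, so `Exits G Q Xa S`, and
the out-degrees in `Q` are at least `α + β + 1` with `β = lam (2 j + 2 k)`,
`α = lam (2 j + 2 k + 1)` (`deg_region`, `hd`). Let `PA` be a path inside `Ra` from `a` to the first
vertex `t` of `Q` (`first_hit`). `in_path_leg` with `Z = {t}` gives `x`, `Y`, `P` (`z = t`). Let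
`a'` be the last vertex of `P`. New list: `W' = W ++ PA.tail ++ Y.reverse ++ P`
(`Chn.append_path`, `Chn.append_step` with `f i = lam (2 j + i)`, `N = 2 k`). New region:
`Ra' = Q \ (insert t (Y ++ P.dropLast))`, new `Xa' = Xa ∪ {t} ∪ Y ∪ P.dropLast`, but note that the
first entry `x` of `Y` and `t`, and `Y` has `β` entries, `P.dropLast` has `α - 1` entries: together
`1 + β + (α - 1) = α + β` new exits. `Rb`, `Xb`, `b`, `S` are unchanged. Checks: `W'` is without
repetition since `PA.tail ⊆ Ra \ {a}` (and outside `Q` except for `t`), `Y`, `P ⊆ Q \ {t}`,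
`W ∩ Ra = {a}`, `PA` without repetition; if `t = a` then `PA = [a]`. `W' ∩ Ra' = {a'}`. -/
theorem step_II (G : V → V → Prop) (hG : ∀ v, ¬ G v v) (T S Xa Xb Ra Rb : Finset V)
    (lam : ℕ → ℕ) (hlam : ∀ i, 1 ≤ lam i) (j k d : ℕ) (hk : 1 ≤ k) (a b : V) (W : List V)
    (hdeg : ∀ v, d ≤ (out G Finset.univ v).card)
    (hst : StII G T S Xa Xb Ra Rb lam j k a b W)
    (hd : S.card + Xa.card + lam (2 * j + 2 * k) + lam (2 * j + 2 * k + 1) + 1 ≤ d) :
    ∃ (Xa' Ra' : Finset V) (a' : V) (W' : List V),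
      Xa'.card ≤ Xa.card + lam (2 * j + 2 * k) + lam (2 * j + 2 * k + 1) ∧
      StII G T S Xa' Xb Ra' Rb lam j (k + 1) a' b W' := by
  classical
  obtain ⟨⟨hchn, hWn, hWb, hWa, hWT⟩, hRaT, hRbT, hRaS, hRbS, hRab, hEa, hEb, haR, hbR, hWRa,
    hWRb⟩ := hst
  -- the terminal component
  let R' : Finset V := Ra.filter (fun v => v ∈ Rch G (↑Ra) {a})
  have hR'Ra : R' ⊆ Ra := Finset.filter_subset _ _
  have haR' : a ∈ R' := Finset.mem_filter.2 ⟨haR, Rch_base rfl (by simpa using haR)⟩
  obtain ⟨Q, hQne, hQR', hQcl, hQconn⟩ := exists_term G R' ⟨a, haR'⟩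
  have hQRa : Q ⊆ Ra := hQR'.trans hR'Ra
  have hQcl' : ∀ v ∈ Q, ∀ w ∈ Ra, G v w → w ∈ Q := by
    intro v hv w hw hvw
    refine hQcl v hv w (Finset.mem_filter.2 ⟨hw, ?_⟩) hvw
    exact Rch_step (Finset.mem_filter.1 (hQR' hv)).2 hvw (by simpa using hw)
  have hEQ : Exits G Q Xa S := by
    intro v hv w hvw
    rcases hEa v (hQRa hv) w hvw with h | h | h
    · exact Or.inl (hQcl' v hv w h hvw)
    · exact Or.inr (Or.inl h)
    · exact Or.inr (Or.inr h)
  have hdQ : ∀ v ∈ Q, lam (2 * j + 2 * k + 1) + lam (2 * j + 2 * k) + 1 ≤ (out G Q v).card := by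
    intro v hv
    have := deg_region G Q Xa S d hEQ hdeg v hv
    omega
  -- the path to the component
  obtain ⟨q0, hq0⟩ := hQne
  obtain ⟨u, hu, L, hL⟩ := (Finset.mem_filter.1 (hQR' hq0)).2
  have hua : u = a := hu
  subst hua
  obtain ⟨t, htQ, PA, hPA, -, hPAQ⟩ := hL.first_hit (↑Q : Set V) (by simpa using hq0)
  have htQ' : t ∈ Q := by simpa using htQ
  have hPAQ' : ∀ y ∈ PA, y ∈ Q → y = t := fun y hy hyQ => hPAQ y hy (by simpa using hyQ)
  -- the in-path and the leg
  obtain ⟨z, hz, x, Y, P, hYl, hYx, hPl, hYc, hPc, hYPn, hYPm⟩ := in_path_leg G hG Q {t}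
    (Finset.singleton_nonempty t) (by simp) (by simpa using htQ') hQconn
    (lam (2 * j + 2 * k + 1)) (lam (2 * j + 2 * k)) (hlam _) hdQ (hlam _)
  have hzt : z = t := Finset.mem_singleton.1 hz
  subst hzt
  have hYPQ : ∀ y ∈ Y ++ P, y ∈ Q := fun y hy => (hYPm y hy).1
  have hYPz : ∀ y ∈ Y ++ P, y ≠ z := fun y hy => by
    have := (hYPm y hy).2
    simpa using this
  obtain ⟨hPAc, hPAn, hPAm, hPAh, hPAl⟩ := hPA
  obtain ⟨PT, hPT⟩ : ∃ PT, PA = u :: PT := by
    cases PA with
    | nil => simp at hPAh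
    | cons c PT =>
      simp only [List.head?_cons, Option.some.injEq] at hPAh
      exact ⟨PT, by rw [hPAh]⟩
  have huPT : u ∉ PT := by
    rw [hPT] at hPAn
    exact (List.nodup_cons.1 hPAn).1
  have hPTn : PT.Nodup := by
    rw [hPT] at hPAn
    exact (List.nodup_cons.1 hPAn).2
  have hPTPA : ∀ y ∈ PT, y ∈ PA := fun y hy => by
    rw [hPT]
    exact List.mem_cons_of_mem _ hy
  have huPA : u ∈ PA := by
    rw [hPT]
    exact List.mem_cons_self
  have hPARa : ∀ y ∈ PA, y ∈ Ra := fun y hy => by simpa using hPAm y hy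
  -- the last vertex of the leg
  have hPne : P ≠ [] := by
    intro h
    have := hlam (2 * j + 2 * k + 1)
    rw [h] at hPl
    simp only [List.length_nil] at hPl
    omega
  have hPsplit : P.dropLast ++ [P.getLast hPne] = P := List.dropLast_append_getLast hPne
  have hPn : P.Nodup := (List.nodup_append.1 hYPn).2.1
  have hYn : Y.Nodup := (List.nodup_append.1 hYPn).1
  have hYPd : ∀ y ∈ Y, y ∉ P := fun y hy hy' => (List.nodup_append.1 hYPn).2.2 y hy y hy' rfl
  have ha'P : P.getLast hPne ∈ P := List.getLast_mem _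
  have ha'D : P.getLast hPne ∉ P.dropLast := by
    intro h
    rw [← hPsplit] at hPn
    exact (List.nodup_append.1 hPn).2.2 _ h _ (by simp) rfl
  have ha'Q : P.getLast hPne ∈ Q := hYPQ _ (List.mem_append_right _ ha'P)
  have hDP : ∀ y ∈ P.dropLast, y ∈ P := fun y hy => List.mem_of_mem_dropLast hy
  let U : Finset V := insert z (Y ++ P.dropLast).toFinset
  have hUcard : U.card ≤ lam (2 * j + 2 * k) + lam (2 * j + 2 * k + 1) := by
    have h1 : U.card ≤ (Y ++ P.dropLast).toFinset.card + 1 := Finset.card_insert_le _ _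
    have h2 : (Y ++ P.dropLast).toFinset.card ≤ (Y ++ P.dropLast).length :=
      List.toFinset_card_le _
    have h3 := hlam (2 * j + 2 * k + 1)
    rw [List.length_append, List.length_dropLast, hYl, hPl] at h2
    omega
  have hzU : z ∈ U := Finset.mem_insert_self _ _
  have hYU : ∀ y ∈ Y, y ∈ U := fun y hy =>
    Finset.mem_insert_of_mem (List.mem_toFinset.2 (List.mem_append_left _ hy))
  have hDU : ∀ y ∈ P.dropLast, y ∈ U := fun y hy =>
    Finset.mem_insert_of_mem (List.mem_toFinset.2 (List.mem_append_right _ hy))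
  have ha'U : P.getLast hPne ∉ U := by
    intro h
    rcases Finset.mem_insert.1 h with h | h
    · exact hYPz _ (List.mem_append_right _ ha'P) h
    · rcases List.mem_append.1 (List.mem_toFinset.1 h) with h | h
      · exact hYPd _ h ha'P
      · exact ha'D h
  -- `W` and the component
  have hWQ : ∀ y ∈ W, y ∈ Q → y = z := by
    intro y hy hyQ
    have h1 := hWRa y hy (hQRa hyQ)
    rw [h1] at hyQ ⊢
    exact hPAQ' u huPA hyQ
  have hWYP : ∀ y ∈ W, y ∉ Y ++ P := by
    intro y hy hyYP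
    exact hYPz y hyYP (hWQ y hy (hYPQ y hyYP))
  have hPTYP : ∀ y ∈ PT, y ∉ Y ++ P := by
    intro y hy hyYP
    exact hYPz y hyYP (hPAQ' y (hPTPA y hy) (hYPQ y hyYP))
  have hWPT : ∀ y ∈ W, y ∉ PT := by
    intro y hy hyPT
    have h1 := hWRa y hy (hPARa y (hPTPA y hyPT))
    rw [h1] at hyPT
    exact huPT hyPT
  have hmem : ∀ y, y ∈ W ++ PT ++ Y.reverse ++ P → y ∈ W ∨ y ∈ PT ∨ y ∈ Y ++ P := by
    intro y hy
    simp only [List.mem_append, List.mem_reverse] at hy ⊢
    tauto
  -- the new chain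
  have hlast : (W ++ PT).getLast? = some z := by
    rw [hPT] at hPAl
    cases PT with
    | nil =>
      simp only [List.getLast?_singleton, Option.some.injEq] at hPAl
      rw [List.append_nil, hWa, hPAl]
    | cons c PT' =>
      rw [List.getLast?_append_of_ne_nil _ (by simp)]
      rw [List.getLast?_cons_cons] at hPAl
      exact hPAl
  have hchn1 : Chn G (fun i => lam (2 * j + i)) (2 * k) (W ++ PT) := by
    have h1 := hchn.append_path (even_two_mul k) (by omega) hWa PA hPAc hPAh
    rw [hPT] at h1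
    exact h1
  have hchn2 : Chn G (fun i => lam (2 * j + i)) (2 * k + 2) (W ++ PT ++ Y.reverse ++ P) := by
    refine hchn1.append_step (even_two_mul k) hlast Y P hYc hYx hPc ?_ ?_
    · exact hYl.ge
    · exact hPl.ge
  have hnodup : (W ++ PT ++ Y.reverse ++ P).Nodup := by
    refine List.nodup_append.2 ⟨List.nodup_append.2 ⟨List.nodup_append.2 ⟨hWn, hPTn, ?_⟩,
      List.nodup_reverse.2 hYn, ?_⟩, hPn, ?_⟩
    · intro y hy y' hy' he
      subst he
      exact hWPT y hy hy'
    · intro y hy y' hy' he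
      subst he
      rw [List.mem_reverse] at hy'
      rcases List.mem_append.1 hy with h | h
      · exact hWYP y h (List.mem_append_left _ hy')
      · exact hPTYP y h (List.mem_append_left _ hy')
    · intro y hy y' hy' he
      subst he
      rcases List.mem_append.1 hy with h | h
      · rcases List.mem_append.1 h with h | h
        · exact hWYP y h (List.mem_append_right _ hy')
        · exact hPTYP y h (List.mem_append_right _ hy')
      · exact hYPd y (List.mem_reverse.1 h) hy'
  refine ⟨Xa ∪ U, Q \ U, P.getLast hPne, W ++ PT ++ Y.reverse ++ P, ?_, ⟨hchn2, hnodup, ?_, ?_, ?_⟩,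
    ?_, hRbT, ?_, hRbS, ?_, ?_, hEb, ?_, hbR, ?_, ?_⟩
  · have := Finset.card_union_le Xa U
    omega
  · -- head
    cases W with
    | nil => simp at hWb
    | cons c W' => simpa using hWb
  · -- last
    rw [List.getLast?_append_of_ne_nil _ hPne, List.getLast?_eq_getLast_of_ne_nil hPne]
  · intro v hv
    have key : v ∈ Ra → v ∈ T ∧ v ∉ S := fun h =>
      ⟨hRaT h, fun hS => (Finset.disjoint_left.1 hRaS h) hS⟩
    rcases hmem v hv with h | h | h
    · exact hWT v h
    · exact key (hPARa v (hPTPA v h))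
    · exact key (hQRa (hYPQ v h))
  · exact (Finset.sdiff_subset.trans hQRa).trans hRaT
  · exact Finset.disjoint_of_subset_left (Finset.sdiff_subset.trans hQRa) hRaS
  · exact Finset.disjoint_of_subset_left (Finset.sdiff_subset.trans hQRa) hRab
  · intro v hv w hvw
    rcases hEQ v (Finset.mem_sdiff.1 hv).1 w hvw with h | h | h
    · by_cases hwU : w ∈ U
      · exact Or.inr (Or.inl (Finset.mem_union_right _ hwU))
      · exact Or.inl (Finset.mem_sdiff.2 ⟨h, hwU⟩)
    · exact Or.inr (Or.inl (Finset.mem_union_left _ h))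
    · exact Or.inr (Or.inr h)
  · exact Finset.mem_sdiff.2 ⟨ha'Q, ha'U⟩
  · intro v hv hvQ
    obtain ⟨hvQ, hvU⟩ := Finset.mem_sdiff.1 hvQ
    rcases hmem v hv with h | h | h
    · exact absurd (hWQ v h hvQ ▸ hzU) hvU
    · exact absurd (hPAQ' v (hPTPA v h) hvQ ▸ hzU) hvU
    · rcases List.mem_append.1 h with h | h
      · exact absurd (hYU v h) hvU
      · rw [← hPsplit] at h
        rcases List.mem_append.1 h with h | h
        · exact absurd (hDU v h) hvU
        · simpa using h
  · intro v hv hvRb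
    rcases hmem v hv with h | h | h
    · exact hWRb v h hvRb
    · exact absurd hvRb (Finset.disjoint_left.1 hRab (hPARa v (hPTPA v h)))
    · exact absurd hvRb (Finset.disjoint_left.1 hRab (hQRa (hYPQ v h)))

end MP_ad30dc_co
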