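import Pool.Agent.Lib.MP_ad30dc_co.L6
import Pool.Agent.Lib.MP_ad30dc_co.L8

namespace MP_ad30dc_co

variable {V : Type*} [Fintype V] [DecidableEq V]

omit [Fintype V] in
/-- Extension of a chain at both ends by two disjoint paths inside the region. -/
private theorem L9_move (G : V → V → Prop) (T S R s : Finset V) (lam : ℕ → ℕ) (j k : ℕ)
    (hk : 1 ≤ k) (a b a' b' : V) (W PA PB : List V) (hch : IsCh G T S lam j k a b W)
    (hRT : R ⊆ T) (hsR : s ⊆ R) (hRS : Disjoint R S) (hWR : ∀ v ∈ W, v ∈ R → v = a ∨ v = b)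
    (hPA : IsP G (↑(R \ s)) a a' PA) (hPB : IsP G (↑(R \ s)) b b' PB)
    (hdis : List.Disjoint PA PB) :
    IsCh G T (S ∪ s) lam j k a' b' (PB.tail.reverse ++ W ++ PA.tail) ∧
    ∀ v ∈ PB.tail.reverse ++ W ++ PA.tail, v ∈ R → v ∈ PA ∨ v ∈ PB := by
  obtain ⟨hC, hN, hh, hl, hT⟩ := hch
  obtain ⟨PA', hA'⟩ := hPA.eq_cons
  obtain ⟨PB', hB'⟩ := hPB.eq_cons
  have haA : a ∈ PA := hPA.head_mem
  have hbB : b ∈ PB := hPB.head_mem
  have hAR : ∀ y ∈ PA, y ∈ R ∧ y ∉ s := by
    intro y hy
    have := hPA.2.2.1 y hy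
    rw [Finset.mem_coe, Finset.mem_sdiff] at this
    exact this
  have hBR : ∀ y ∈ PB, y ∈ R ∧ y ∉ s := by
    intro y hy
    have := hPB.2.2.1 y hy
    rw [Finset.mem_coe, Finset.mem_sdiff] at this
    exact this
  have hAn : a ∉ PA' ∧ PA'.Nodup := by
    have := hPA.2.1
    rw [hA', List.nodup_cons] at this
    exact this
  have hBn : b ∉ PB' ∧ PB'.Nodup := by
    have := hPB.2.1
    rw [hB', List.nodup_cons] at this
    exact this
  have hA2 : ∀ y ∈ PA', y ∈ PA := by
    intro y hy; rw [hA']; exact List.mem_cons_of_mem _ hy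
  have hB2 : ∀ y ∈ PB', y ∈ PB := by
    intro y hy; rw [hB']; exact List.mem_cons_of_mem _ hy
  have hAt : PA.tail = PA' := by rw [hA']; rfl
  have hBt : PB.tail = PB' := by rw [hB']; rfl
  have hAW : ∀ y ∈ PA', y ∉ W := by
    intro y hy hw
    rcases hWR y hw (hAR y (hA2 y hy)).1 with h | h
    · subst h; exact hAn.1 hy
    · subst h; exact hdis (hA2 _ hy) hbB
  have hBW : ∀ y ∈ PB', y ∉ W := by
    intro y hy hw
    rcases hWR y hw (hBR y (hB2 y hy)).1 with h | h
    · subst h; exact hdis haA (hB2 _ hy)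
    · subst h; exact hBn.1 hy
  refine ⟨⟨?_, ?_, ?_, ?_, ?_⟩, ?_⟩
  · exact Chn.append_both (even_two_mul k) (by omega) hC hl hh PA PB hPA.1 hPA.2.2.2.1 hPB.1
      hPB.2.2.2.1
  · rw [hAt, hBt]
    rw [List.nodup_append, List.nodup_append]
    refine ⟨⟨List.nodup_reverse.2 hBn.2, hN, ?_⟩, hAn.2, ?_⟩
    · intro y hy z hz hyz
      rw [List.mem_reverse] at hy
      subst hyz
      exact hBW y hy hz
    · intro y hy z hz hyz
      subst hyz
      rw [List.mem_append, List.mem_reverse] at hy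
      rcases hy with hy | hy
      · exact hdis (hA2 _ hz) (hB2 _ hy)
      · exact hAW y hz hy
  · rw [hBt, List.append_assoc]
    have hlast := hPB.2.2.2.2
    rw [hB'] at hlast
    rcases List.eq_nil_or_concat PB' with h | ⟨L, c, h⟩
    · subst h
      simp only [List.getLast?_singleton, Option.some.injEq] at hlast
      subst hlast
      rw [List.reverse_nil, List.nil_append, List.head?_append, hh]
      rfl
    · subst h
      rw [List.concat_eq_append] at hlast ⊢
      rw [List.head?_append, List.head?_reverse]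
      rw [← List.cons_append, List.getLast?_append] at hlast
      simp only [List.getLast?_singleton, Option.some_or, Option.some.injEq] at hlast
      subst hlast
      simp
  · rw [hAt]
    have hlast := hPA.2.2.2.2
    rw [hA'] at hlast
    rcases List.eq_nil_or_concat PA' with h | ⟨L, c, h⟩
    · subst h
      simp only [List.getLast?_singleton, Option.some.injEq] at hlast
      subst hlast
      rw [List.append_nil, List.getLast?_append, hl]
      rfl
    · subst h
      rw [List.concat_eq_append] at hlast ⊢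
      rw [← List.cons_append, List.getLast?_append] at hlast
      simp only [List.getLast?_singleton, Option.some_or, Option.some.injEq] at hlast
      subst hlast
      simp
  · intro v hv
    rw [hAt, hBt, List.mem_append, List.mem_append, List.mem_reverse] at hv
    have hcase : (v ∈ PA ∨ v ∈ PB) ∨ v ∈ W := by
      rcases hv with (hv | hv) | hv
      · exact Or.inl (Or.inr (hB2 v hv))
      · exact Or.inr hv
      · exact Or.inl (Or.inl (hA2 v hv))
    rw [Finset.mem_union]
    rcases hcase with (h | h) | h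
    · obtain ⟨h1, h2⟩ := hAR v h
      refine ⟨hRT h1, ?_⟩
      rintro (h3 | h3)
      · exact (Finset.disjoint_left.1 hRS) h1 h3
      · exact h2 h3
    · obtain ⟨h1, h2⟩ := hBR v h
      refine ⟨hRT h1, ?_⟩
      rintro (h3 | h3)
      · exact (Finset.disjoint_left.1 hRS) h1 h3
      · exact h2 h3
    · obtain ⟨h1, h2⟩ := hT v h
      refine ⟨h1, ?_⟩
      rintro (h3 | h3)
      · exact h2 h3
      · rcases hWR v h (hsR h3) with e | e
        · subst e; exact (hAR _ haA).2 h3
        · subst e; exact (hBR _ hbB).2 h3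
  · intro v hv hvR
    rw [hAt, hBt, List.mem_append, List.mem_append, List.mem_reverse] at hv
    rcases hv with (hv | hv) | hv
    · exact Or.inr (hB2 v hv)
    · rcases hWR v hv hvR with h | h
      · subst h; exact Or.inl haA
      · subst h; exact Or.inr hbB
    · exact Or.inl (hA2 v hv)

/-- ROW L9a (State I and `Worlds` give State II). Take the data `s, Ea, Eb, Qa, Qb, a', b', PA, PB`
of `Worlds G R a b` and put `S' = S ∪ s`, `Xa = X ∪ Ea`, `Xb = X ∪ Eb`, `Ra = Qa`, `Rb = Qb`,
`W' = PB.tail.reverse ++ W ++ PA.tail` (`Chn.append_both`). Checks: exits: for `v ∈ Qa` and `G v w`: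
`w ∈ R` (then `Qa`, `Ea` or `s`) or `w ∈ X` or `w ∈ S`. `W'` has no repetition: `W ∩ R = {a, b}`,
the paths are inside `R \ s`, disjoint, without repetitions, and start in `a`, `b`. `W'` avoids
`S ∪ s`: the old list meets `R` only in `a`, `b`, which are not in `s` (they are on the paths).
`W' ∩ Qa = {a'}`: entries of `PA` in `Qa` are `a'`; entries of `PB` in `Qa` are `b' ∈ Qb`: none;
entries of `W` in `Qa ⊆ R` are `a` or `b`, which are on `PA` or `PB`. -/
theorem worlds_step (G : V → V → Prop) (T S X R : Finset V) (lam : ℕ → ℕ) (j k : ℕ)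
    (hk : 1 ≤ k) (a b : V) (W : List V) (hst : StI G T S X R lam j k a b W)
    (hw : Worlds G R a b) :
    ∃ (S' Xa Xb Ra Rb : Finset V) (a' b' : V) (W' : List V),
      S'.card ≤ S.card + 1 ∧ Xa.card ≤ X.card + 1 ∧ Xb.card ≤ X.card + 1 ∧
      Xa.card + Xb.card ≤ 2 * X.card + 1 ∧
      StII G T S' Xa Xb Ra Rb lam j k a' b' W' := by
  obtain ⟨s, Ea, Eb, Qa, Qb, a', b', PA, PB, hs1, hsR, hE, hQ, hQa, hQb, hea, heb,
    hPA, hPB, ha', hb', hyA, hyB, hdis⟩ := hw
  obtain ⟨hch, hRT, hRS, hex, haR, hbR, hab, hWR⟩ := hst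
  obtain ⟨hch', hmem⟩ := L9_move G T S R s lam j k hk a b a' b' W PA PB hch hRT hsR hRS hWR
    hPA hPB hdis
  have hQaR : ∀ v ∈ Qa, v ∈ R ∧ v ∉ s := fun v hv => Finset.mem_sdiff.1 (hQa hv)
  have hQbR : ∀ v ∈ Qb, v ∈ R ∧ v ∉ s := fun v hv => Finset.mem_sdiff.1 (hQb hv)
  have hc1 := Finset.card_union_le S s
  have hc2 := Finset.card_union_le X Ea
  have hc3 := Finset.card_union_le X Eb
  refine ⟨S ∪ s, X ∪ Ea, X ∪ Eb, Qa, Qb, a', b', PB.tail.reverse ++ W ++ PA.tail,
    by omega, by omega, by omega, by omega, hch', fun v hv => hRT (hQaR v hv).1,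
    fun v hv => hRT (hQbR v hv).1, ?_, ?_, hQ, ?_, ?_, ha', hb', ?_, ?_⟩
  · rw [Finset.disjoint_left]
    intro v hv h
    rcases Finset.mem_union.1 h with h | h
    · exact (Finset.disjoint_left.1 hRS) (hQaR v hv).1 h
    · exact (hQaR v hv).2 h
  · rw [Finset.disjoint_left]
    intro v hv h
    rcases Finset.mem_union.1 h with h | h
    · exact (Finset.disjoint_left.1 hRS) (hQbR v hv).1 h
    · exact (hQbR v hv).2 h
  · intro v hv w hvw
    rw [Finset.mem_union, Finset.mem_union]
    rcases hex v (hQaR v hv).1 w hvw with h | h | h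
    · rcases hea v hv w h hvw with h | h | h
      · exact Or.inl h
      · exact Or.inr (Or.inl (Or.inr h))
      · exact Or.inr (Or.inr (Or.inr h))
    · exact Or.inr (Or.inl (Or.inl h))
    · exact Or.inr (Or.inr (Or.inl h))
  · intro v hv w hvw
    rw [Finset.mem_union, Finset.mem_union]
    rcases hex v (hQbR v hv).1 w hvw with h | h | h
    · rcases heb v hv w h hvw with h | h | h
      · exact Or.inl h
      · exact Or.inr (Or.inl (Or.inr h))
      · exact Or.inr (Or.inr (Or.inr h))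
    · exact Or.inr (Or.inl (Or.inl h))
    · exact Or.inr (Or.inr (Or.inl h))
  · intro v hv hvQ
    rcases hmem v hv (hQaR v hvQ).1 with h | h
    · exact hyA v h (Or.inl hvQ)
    · exfalso
      have := hyB v h (Or.inl hvQ)
      subst this
      exact (Finset.disjoint_left.1 hQ) hvQ hb'
  · intro v hv hvQ
    rcases hmem v hv (hQbR v hvQ).1 with h | h
    · exfalso
      have := hyA v h (Or.inr hvQ)
      subst this
      exact (Finset.disjoint_left.1 hQ) ha' hvQ
    · exact hyB v h (Or.inr hvQ)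

/-- ROW L9b (State I and `OneWorld`: arrival in a strongly connected region). Take the data
`s, Q, a', b', PA, PB` and put `S' = S ∪ s`, `R' = Q`, `W' = PB.tail.reverse ++ W ++ PA.tail`.
`a' ≠ b'` as the paths are disjoint. -/
theorem one_world_move (G : V → V → Prop) (T S X R : Finset V) (lam : ℕ → ℕ) (j k : ℕ)
    (hk : 1 ≤ k) (a b : V) (W : List V) (hst : StI G T S X R lam j k a b W)
    (hw : OneWorld G R a b) :
    ∃ (S' Q : Finset V) (a' b' : V) (W' : List V), S'.card ≤ S.card + 1 ∧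
      StI G T S' X Q lam j k a' b' W' ∧ ∀ u ∈ Q, ∀ v ∈ Q, v ∈ Rch G (↑Q) {u} := by
  obtain ⟨s, Q, a', b', PA, PB, hs1, hsR, ⟨hQne, hQR, hQcl, hQconn⟩,
    hPA, hPB, ha', hb', hyA, hyB, hdis⟩ := hw
  obtain ⟨hch, hRT, hRS, hex, haR, hbR, hab, hWR⟩ := hst
  obtain ⟨hch', hmem⟩ := L9_move G T S R s lam j k hk a b a' b' W PA PB hch hRT hsR hRS hWR
    hPA hPB hdis
  have hQ : ∀ v ∈ Q, v ∈ R ∧ v ∉ s := fun v hv => Finset.mem_sdiff.1 (hQR hv)
  have hc1 := Finset.card_union_le S s
  refine ⟨S ∪ s, Q, a', b', PB.tail.reverse ++ W ++ PA.tail, by omega,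
    ⟨hch', fun v hv => hRT (hQ v hv).1, ?_, ?_, ha', hb', ?_, ?_⟩, hQconn⟩
  · rw [Finset.disjoint_left]
    intro v hv h
    rcases Finset.mem_union.1 h with h | h
    · exact (Finset.disjoint_left.1 hRS) (hQ v hv).1 h
    · exact (hQ v hv).2 h
  · intro v hv w hvw
    rw [Finset.mem_union]
    rcases hex v (hQ v hv).1 w hvw with h | h | h
    · by_cases hws : w ∈ s
      · exact Or.inr (Or.inr (Or.inr hws))
      · exact Or.inl (hQcl v hv w (Finset.mem_sdiff.2 ⟨h, hws⟩) hvw)
    · exact Or.inr (Or.inl h)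
    · exact Or.inr (Or.inr (Or.inl h))
  · intro h
    subst h
    exact hdis hPA.last_mem hPB.last_mem
  · intro v hv hvQ
    rcases hmem v hv (hQ v hvQ).1 with h | h
    · exact Or.inl (hyA v h (Or.inl hvQ))
    · exact Or.inr (hyB v h (Or.inl hvQ))

omit [Fintype V] in
/-- The region after the extension at the end `z` (the other end is `o`). -/
private theorem L9_region (G : V → V → Prop) (T S X Q : Finset V) (z o a' : V) (W Y P : List V)
    (hQT : Q ⊆ T) (hQS : Disjoint Q S) (hex : Exits G Q X S) (hoQ : o ∈ Q) (hzo : z ≠ o)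
    (hWQ : ∀ v ∈ W, v ∈ Q → v = z ∨ v = o)
    (hYP : (Y ++ P).Nodup) (hmem : ∀ y ∈ Y ++ P, y ∈ Q ∧ y ≠ z ∧ y ≠ o)
    (hlast : P.getLast? = some a') :
    ∃ X' R' : Finset V, X'.card ≤ X.card + Y.length + P.length ∧ R' ⊆ T ∧ Disjoint R' S ∧
      Exits G R' X' S ∧ a' ∈ R' ∧ o ∈ R' ∧ a' ≠ o ∧
      ∀ v, (v ∈ W ∨ v ∈ Y ∨ v ∈ P) → v ∈ R' → v = a' ∨ v = o := by
  obtain ⟨P0, hP0⟩ : ∃ P0, P = P0 ++ [a'] := by
    rcases List.eq_nil_or_concat P with h | ⟨L, c, h⟩
    · subst h; simp at hlast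
    · rw [List.concat_eq_append] at h
      subst h
      rw [List.getLast?_append] at hlast
      simp only [List.getLast?_singleton, Option.some_or, Option.some.injEq] at hlast
      subst hlast
      exact ⟨L, rfl⟩
  subst hP0
  have hsubset : ∀ v ∈ insert z (Y ++ P0).toFinset, v = z ∨ v ∈ Y ∨ v ∈ P0 := by
    intro v hv
    simpa using hv
  have hn : (Y ++ P0).Nodup ∧ a' ∉ Y ++ P0 := by
    rw [← List.append_assoc, List.nodup_append] at hYP
    refine ⟨hYP.1, fun h => ?_⟩
    exact hYP.2.2 a' h a' (List.mem_singleton.2 rfl) rfl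
  have ha'mem : a' ∈ Y ++ (P0 ++ [a']) := by simp
  obtain ⟨ha'Q, ha'z, ha'o⟩ := hmem a' ha'mem
  have ho : o ∉ Y ++ P0 := by
    intro h
    have : o ∈ Y ++ (P0 ++ [a']) := by
      rw [← List.append_assoc, List.mem_append]
      exact Or.inl h
    exact (hmem o this).2.2 rfl
  have hR : ∀ v, v ∈ Q \ insert z (Y ++ P0).toFinset ↔ v ∈ Q ∧ v ≠ z ∧ v ∉ Y ++ P0 := by
    intro v
    rw [Finset.mem_sdiff, Finset.mem_insert, List.mem_toFinset, not_or]
  refine ⟨X ∪ insert z (Y ++ P0).toFinset, Q \ insert z (Y ++ P0).toFinset, ?_, ?_, ?_, ?_, ?_, ?_,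
    ha'o, ?_⟩
  · have h1 := Finset.card_union_le X (insert z (Y ++ P0).toFinset)
    have h2 := Finset.card_insert_le z (Y ++ P0).toFinset
    have h3 := List.toFinset_card_le (Y ++ P0)
    rw [List.length_append] at h3 ⊢
    rw [List.length_singleton]
    omega
  · intro v hv
    exact hQT ((hR v).1 hv).1
  · rw [Finset.disjoint_left]
    intro v hv h
    exact (Finset.disjoint_left.1 hQS) ((hR v).1 hv).1 h
  · intro v hv w hvw
    rcases hex v ((hR v).1 hv).1 w hvw with h | h | h
    · by_cases hw : w ∈ insert z (Y ++ P0).toFinset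
      · exact Or.inr (Or.inl (Finset.mem_union_right _ hw))
      · exact Or.inl (Finset.mem_sdiff.2 ⟨h, hw⟩)
    · exact Or.inr (Or.inl (Finset.mem_union_left _ h))
    · exact Or.inr (Or.inr h)
  · exact (hR a').2 ⟨ha'Q, ha'z, hn.2⟩
  · exact (hR o).2 ⟨hoQ, hzo.symm, ho⟩
  · intro v hv hvR
    obtain ⟨h1, h2, h3⟩ := (hR v).1 hvR
    rw [List.mem_append, not_or] at h3
    rcases hv with hv | hv | hv
    · rcases hWQ v hv h1 with h | h
      · exact absurd h h2
      · exact Or.inr h
    · exact absurd hv h3.1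
    · rw [List.mem_append, List.mem_singleton] at hv
      rcases hv with hv | hv
      · exact absurd hv h3.2
      · exact Or.inl hv

omit [Fintype V] in
/-- The last part of the in-path and the leg. -/
private theorem L9_leg (G : V → V → Prop) (hG : ∀ v, ¬ G v v) (Q : Finset V) (a b z : V)
    (Y0 : List V) (α β : ℕ) (hβ : 1 ≤ β) (hβ0 : β ≤ Y0.length)
    (hc : List.IsChain G (Y0 ++ [z])) (hn : (Y0 ++ [z]).Nodup)
    (hY0 : ∀ y ∈ Y0, y ∈ Q ∧ y ≠ a ∧ y ≠ b)
    (hdeg : ∀ v ∈ Q, α + β + 1 ≤ (out G Q v).card) :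
    ∃ (x : V) (Y P : List V), Y.length = β ∧ Y.head? = some x ∧ P.length = α ∧
      List.IsChain G (Y ++ [z]) ∧ List.IsChain G (x :: P) ∧ (Y ++ P).Nodup ∧
      ∀ y ∈ Y ++ P, y ∈ Q ∧ y ≠ a ∧ y ≠ b := by
  have hlen : (Y0.drop (Y0.length - β)).length = β := by
    rw [List.length_drop]; omega
  have hsplit : Y0 ++ [z] = Y0.take (Y0.length - β) ++ (Y0.drop (Y0.length - β) ++ [z]) := by
    rw [← List.append_assoc, List.take_append_drop]
  have hc' : List.IsChain G (Y0.drop (Y0.length - β) ++ [z]) := by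
    rw [hsplit, List.isChain_append] at hc
    exact hc.2.1
  have hn' : (Y0.drop (Y0.length - β)).Nodup := by
    rw [hsplit, List.nodup_append] at hn
    exact (List.nodup_append.1 hn.2.1).1
  have hmem : ∀ y ∈ Y0.drop (Y0.length - β), y ∈ Q ∧ y ≠ a ∧ y ≠ b :=
    fun y hy => hY0 y (List.mem_of_mem_drop hy)
  generalize Y0.drop (Y0.length - β) = Y at hlen hc' hn' hmem
  cases Y with
  | nil => simp at hlen; omega
  | cons x Y' =>
    have hxQ : x ∈ Q := (hmem x List.mem_cons_self).1
    have hcard : (Y'.toFinset ∪ {a, b}).card + α ≤ α + β + 1 := by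
      have h1 := Finset.card_union_le Y'.toFinset {a, b}
      have h2 : ({a, b} : Finset V).card ≤ 2 := Finset.card_le_two
      have h3 := List.toFinset_card_le Y'
      rw [List.length_cons] at hlen
      omega
    obtain ⟨P, hPl, hPc, hPn, hPm⟩ := greedy_path G hG Q (Y'.toFinset ∪ {a, b}) x hxQ α
      (α + β + 1) hcard hdeg
    have hPm' : ∀ v ∈ P, v ∈ Q ∧ v ∉ Y' ∧ v ≠ a ∧ v ≠ b := by
      intro v hv
      obtain ⟨h1, h2⟩ := hPm v hv
      simp only [Finset.mem_union, List.mem_toFinset, Finset.mem_insert, Finset.mem_singleton,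
        not_or] at h2
      exact ⟨h1, h2.1, h2.2.1, h2.2.2⟩
    refine ⟨x, x :: Y', P, hlen, rfl, hPl, hc', hPc, ?_, ?_⟩
    · rw [List.nodup_append]
      rw [List.nodup_cons] at hPn
      refine ⟨hn', hPn.2, ?_⟩
      intro y hy w hw hyw
      subst hyw
      rcases List.mem_cons.1 hy with h | h
      · subst h; exact hPn.1 hw
      · exact (hPm' _ hw).2.1 h
    · intro y hy
      rcases List.mem_append.1 hy with h | h
      · exact hmem y h
      · exact ⟨(hPm' y h).1, (hPm' y h).2.2⟩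

/-- ROW L9c (extension in a strongly connected region). Let `β₁ = lam (2 j + 2 k)`,
`α₁ = lam (2 j + 2 k + 1)`, `β₂ = lam (2 j - 1)`, `α₂ = lam (2 j - 2)`. The out-degrees inside `Q`
are at least `α₁ + β₁ + 1` and at least `α₂ + β₂ + 1` (`deg_region`). Apply `in_path` (ROW L2b) with
`Z = {a, b}` and `β = max β₁ β₂` (`β + 2 ≤` the out-degrees, since `lam ≥ 1`): it gives an end
`z ∈ {a, b}` and a list `Y₀` of length `max β₁ β₂`. If `z = a` let `Y` be the last `β₁` entries of
`Y₀`, if `z = b` let `Y` be the last `β₂` entries (`List.drop`); `Y ++ [z]` is again a path, from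
its first vertex `x`. Then `greedy_path` from `x` inside `Q`, with the forbidden set
`(Y.toFinset.erase x) ∪ {a, b}`, gives a path `x :: P` with `P.length = α₁` or `α₂`.
Case `z = a`: new list `W ++ Y.reverse ++ P` (`Chn.append_step` with `f i = lam (2 j + i)`,
`N = 2 k`), new right end `a'` = last vertex of `P`, region `R' = Q \ (a, Y, P.dropLast)`,
`X' = X ∪ {a} ∪ Y ∪ P.dropLast` (at most `1 + β₁ + (α₁ - 1)` new elements), same `j`.
Case `z = b`: new list `P.reverse ++ Y ++ W` (`Chn.prepend_step` with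
`f i = lam (2 (j - 1) + i)`, so `f (i + 2) = lam (2 j + i)`, `f 1 = lam (2 j - 1)`,
`f 0 = lam (2 j - 2)`), new left end `b'` = last vertex of `P`, `R' = Q \ (b, Y, P.dropLast)`,
`j' = j - 1`. -/
theorem extend_I (G : V → V → Prop) (hG : ∀ v, ¬ G v v) (T S X Q : Finset V) (lam : ℕ → ℕ)
    (hlam : ∀ i, 1 ≤ lam i) (j k d : ℕ) (hk : 1 ≤ k) (hj : 1 ≤ j) (a b : V) (W : List V)
    (hdeg : ∀ v, d ≤ (out G Finset.univ v).card)
    (hst : StI G T S X Q lam j k a b W)
    (hconn : ∀ u ∈ Q, ∀ v ∈ Q, v ∈ Rch G (↑Q) {u})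
    (hd1 : S.card + X.card + lam (2 * j + 2 * k) + lam (2 * j + 2 * k + 1) + 1 ≤ d)
    (hd2 : S.card + X.card + lam (2 * j - 1) + lam (2 * j - 2) + 1 ≤ d) :
    (∃ (X' R' : Finset V) (a' : V) (W' : List V),
      X'.card ≤ X.card + lam (2 * j + 2 * k) + lam (2 * j + 2 * k + 1) ∧
      StI G T S X' R' lam j (k + 1) a' b W') ∨
    (∃ (X' R' : Finset V) (b' : V) (W' : List V),
      X'.card ≤ X.card + lam (2 * j - 1) + lam (2 * j - 2) ∧
      StI G T S X' R' lam (j - 1) (k + 1) a b' W') := by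
  obtain ⟨⟨hC, hN, hh, hl, hWT⟩, hQT, hQS, hex, haQ, hbQ, hab, hWQ⟩ := hst
  have hdegQ : ∀ v ∈ Q, d ≤ (out G Q v).card + X.card + S.card :=
    fun v hv => deg_region G Q X S d hex hdeg v hv
  have hZc : ({a, b} : Finset V).card = 2 := Finset.card_pair hab
  have hl1 := hlam (2 * j + 2 * k)
  have hl2 := hlam (2 * j + 2 * k + 1)
  have hl3 := hlam (2 * j - 1)
  have hl4 := hlam (2 * j - 2)
  obtain ⟨z, hz, x0, Y0, hY0l, hY0h, ⟨hc0, hn0, hm0, -, -⟩, hY0Z⟩ := in_path G hG Q {a, b}
    ⟨a, by simp⟩ (by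
      intro v hv
      rcases Finset.mem_insert.1 hv with h | h
      · subst h; exact haQ
      · rw [Finset.mem_singleton] at h; subst h; exact hbQ) hconn
    (max (lam (2 * j + 2 * k)) (lam (2 * j - 1))) (by omega) (by
      intro v hv
      have := hdegQ v hv
      rw [hZc]
      omega)
  have hY0m : ∀ y ∈ Y0, y ∈ Q ∧ y ≠ a ∧ y ≠ b := by
    intro y hy
    have h1 := hY0Z y hy
    simp only [Finset.mem_insert, Finset.mem_singleton, not_or] at h1
    refine ⟨?_, h1⟩
    have := hm0 y (List.mem_append_left _ hy)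
    exact this
  rw [Finset.mem_insert, Finset.mem_singleton] at hz
  rcases hz with hz | hz
  · left
    subst hz
    obtain ⟨x, Y, P, hYl, hYh, hPl, hYc, hPc, hYPn, hYPm⟩ := L9_leg G hG Q z b z Y0
      (lam (2 * j + 2 * k + 1)) (lam (2 * j + 2 * k)) hl1 (by omega) hc0 hn0 hY0m (by
        intro v hv
        have := hdegQ v hv
        omega)
    obtain ⟨a', ha'⟩ : ∃ a', P.getLast? = some a' := by
      cases P with
      | nil => simp at hPl; omega
      | cons p P' => exact ⟨_, List.getLast?_eq_some_getLast (by simp)⟩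
    obtain ⟨X', R', hX', hR'T, hR'S, hex', ha'R, hbR, ha'b, hWR⟩ := L9_region G T S X Q z b a' W Y P
      hQT hQS hex hbQ hab hWQ hYPn hYPm ha'
    refine ⟨X', R', a', W ++ Y.reverse ++ P, by omega, ⟨?_, ?_, ?_, ?_, ?_⟩, hR'T, hR'S, hex', ha'R,
      hbR, ha'b, ?_⟩
    · exact Chn.append_step (f := fun i => lam (2 * j + i)) (even_two_mul k) hC hl Y P hYc hYh hPc
        hYl.ge hPl.ge
    · rw [List.append_assoc, List.nodup_append]
      refine ⟨hN, ?_, ?_⟩
      · rw [List.nodup_append] at hYPn ⊢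
        refine ⟨List.nodup_reverse.2 hYPn.1, hYPn.2.1, ?_⟩
        intro y hy w hw
        exact hYPn.2.2 y (List.mem_reverse.1 hy) w hw
      · intro y hy w hw hyw
        subst hyw
        have hmem : y ∈ Y ++ P := by
          rw [List.mem_append, List.mem_reverse] at hw
          exact List.mem_append.2 hw
        obtain ⟨h1, h2, h3⟩ := hYPm y hmem
        rcases hWQ y hy h1 with h | h
        · exact h2 h
        · exact h3 h
    · rw [List.append_assoc, List.head?_append, hh]
      rfl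
    · rw [List.getLast?_append, ha']
      rfl
    · intro v hv
      rw [List.mem_append, List.mem_append, List.mem_reverse, or_assoc, ← List.mem_append] at hv
      rcases hv with hv | hv
      · exact hWT v hv
      · have h1 := (hYPm v hv).1
        exact ⟨hQT h1, (Finset.disjoint_left.1 hQS) h1⟩
    · intro v hv hvR
      rw [List.mem_append, List.mem_append, List.mem_reverse, or_assoc] at hv
      exact hWR v hv hvR
  · right
    subst hz
    have hWQ' : ∀ v ∈ W, v ∈ Q → v = z ∨ v = a := fun v hv hvQ => (hWQ v hv hvQ).symm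
    obtain ⟨x, Y, P, hYl, hYh, hPl, hYc, hPc, hYPn, hYPm⟩ := L9_leg G hG Q a z z Y0
      (lam (2 * j - 2)) (lam (2 * j - 1)) hl3 (by omega) hc0 hn0 hY0m (by
        intro v hv
        have := hdegQ v hv
        omega)
    have hYPm' : ∀ y ∈ Y ++ P, y ∈ Q ∧ y ≠ z ∧ y ≠ a :=
      fun y hy => ⟨(hYPm y hy).1, (hYPm y hy).2.2, (hYPm y hy).2.1⟩
    obtain ⟨b', hb'⟩ : ∃ b', P.getLast? = some b' := by
      cases P with
      | nil => simp at hPl; omega
      | cons p P' => exact ⟨_, List.getLast?_eq_some_getLast (by simp)⟩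
    obtain ⟨X', R', hX', hR'T, hR'S, hex', hb'R, haR, hb'a, hWR⟩ := L9_region G T S X Q z a b' W Y P
      hQT hQS hex haQ hab.symm hWQ' hYPn hYPm' hb'
    refine ⟨X', R', b', P.reverse ++ Y ++ W, by omega, ⟨?_, ?_, ?_, ?_, ?_⟩, hR'T, hR'S, hex', haR,
      hb'R, hb'a.symm, ?_⟩
    · have hC' : Chn G (fun i => (fun i => lam (2 * (j - 1) + i)) (i + 2)) (2 * k) W := by
        refine Chn.congr (fun i _ => ?_) hC
        show lam (2 * j + i) = lam (2 * (j - 1) + (i + 2))
        congr 1
        omega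
      refine Chn.prepend_step (f := fun i => lam (2 * (j - 1) + i)) (even_two_mul k) hC' hh Y P hYc
        hYh hPc ?_ ?_
      · show lam (2 * (j - 1) + 1) ≤ Y.length
        rw [hYl, show 2 * (j - 1) + 1 = 2 * j - 1 by omega]
      · show lam (2 * (j - 1) + 0) ≤ P.length
        rw [hPl, show 2 * (j - 1) + 0 = 2 * j - 2 by omega]
    · rw [List.nodup_append]
      refine ⟨?_, hN, ?_⟩
      · rw [List.nodup_append] at hYPn ⊢
        refine ⟨List.nodup_reverse.2 hYPn.2.1, hYPn.1, ?_⟩
        intro y hy w hw h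
        exact hYPn.2.2 w hw y (List.mem_reverse.1 hy) h.symm
      · intro y hy w hw hyw
        subst hyw
        have hmem : y ∈ Y ++ P := by
          rw [List.mem_append, List.mem_reverse] at hy
          exact List.mem_append.2 hy.symm
        obtain ⟨h1, h2, h3⟩ := hYPm y hmem
        rcases hWQ y hw h1 with h | h
        · exact h2 h
        · exact h3 h
    · rw [List.append_assoc, List.head?_append, List.head?_reverse, hb']
      rfl
    · rw [List.getLast?_append, hl]
      rfl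
    · intro v hv
      rw [List.mem_append, List.mem_append, List.mem_reverse] at hv
      rcases hv with hv | hv
      · have h1 := (hYPm v (List.mem_append.2 hv.symm)).1
        exact ⟨hQT h1, (Finset.disjoint_left.1 hQS) h1⟩
      · exact hWT v hv
    · intro v hv hvR
      rw [List.mem_append, List.mem_append, List.mem_reverse] at hv
      refine (hWR v ?_ hvR).symm
      tauto

end MP_ad30dc_co
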