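import Pool.Agent.Lib.MP_ad30dc_co.L7
import Pool.Agent.Lib.MP_ad30dc_co.L9
import Pool.Agent.Lib.MP_ad30dc_co.A1

namespace MP_ad30dc_co

variable {V : Type*} [Fintype V] [DecidableEq V]

/-- ROW L10a (the start). Take any `x ∈ T`. `greedy_path` in `T` gives a path `x :: P` with
`P.length = lam (2 r + 1)` (`X = ∅`, `h = d - m`), and then a path `x :: Q` with
`Q.length = lam (2 r)` that avoids `P` (`X = P.toFinset`). `W = Q.reverse ++ [x] ++ P` (`chn_base`),
`a` = last vertex of `P`, `b` = last vertex of `Q`, `X` = all other vertices of `W`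
(`|X| = |P| + |Q| - 1`), `R = T \ X`, `S = bdry G T` (exits of `T` are in `bdry G T`). -/
theorem start_I [Nonempty V] (G : V → V → Prop) (hG : ∀ v, ¬ G v v) (T : Finset V)
    (hT : T.Nonempty)
    (m : ℕ) (hTm : (bdry G T).card ≤ m) (lam : ℕ → ℕ) (hlam : ∀ i, 1 ≤ lam i) (r d : ℕ)
    (hd : m + lam (2 * r) + lam (2 * r + 1) ≤ d)
    (hdeg : ∀ v, d ≤ (out G Finset.univ v).card) :
    ∃ (X R : Finset V) (a b : V) (W : List V),
      X.card + 1 ≤ lam (2 * r) + lam (2 * r + 1) ∧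
      StI G T (bdry G T) X R lam r 1 a b W := by
  classical
  obtain ⟨x, hx⟩ := hT
  have hdegT : ∀ v ∈ T, d - m ≤ (out G T v).card := fun v hv =>
    deg_in G m d T hTm v hv (hdeg v)
  obtain ⟨P, hP1, hP2, hP3, hP4⟩ := greedy_path G hG T ∅ x hx (lam (2 * r + 1)) (d - m)
    (by simp; omega) hdegT
  have hPc : P.toFinset.card = lam (2 * r + 1) := by
    rw [List.toFinset_card_of_nodup (List.nodup_cons.mp hP3).2, hP1]
  obtain ⟨Q, hQ1, hQ2, hQ3, hQ4⟩ := greedy_path G hG T P.toFinset x hx (lam (2 * r)) (d - m)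
    (by omega) hdegT
  have hPne : P ≠ [] := by
    intro h
    rw [h] at hP1
    have := hlam (2 * r + 1)
    simp at hP1
    omega
  have hQne : Q ≠ [] := by
    intro h
    rw [h] at hQ1
    have := hlam (2 * r)
    simp at hQ1
    omega
  set a := P.getLast hPne with ha
  set b := Q.getLast hQne with hb
  have haP : a ∈ P := List.getLast_mem _
  have hbQ : b ∈ Q := List.getLast_mem _
  have hab : a ≠ b := by
    intro h
    have := (hQ4 b hbQ).2
    rw [← h] at this
    exact this (List.mem_toFinset.mpr haP)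
  set W := Q.reverse ++ [x] ++ P with hW
  have hmemW : ∀ v, v ∈ W ↔ v ∈ Q ∨ v = x ∨ v ∈ P := by
    intro v
    simp [hW]
  have hWnd : W.Nodup := by
    have hx1 : x ∉ P := (List.nodup_cons.mp hP3).1
    have hx2 : x ∉ Q := (List.nodup_cons.mp hQ3).1
    rw [hW, List.nodup_append, List.nodup_append]
    refine ⟨⟨?_, by simp, ?_⟩, (List.nodup_cons.mp hP3).2, ?_⟩
    · rw [List.nodup_reverse]
      exact (List.nodup_cons.mp hQ3).2
    · intro u hu v hv huv
      simp only [List.mem_reverse] at hu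
      simp only [List.mem_singleton] at hv
      rw [huv, hv] at hu
      exact hx2 hu
    · intro u hu v hv huv
      simp only [List.mem_append, List.mem_reverse, List.mem_singleton] at hu
      rcases hu with hu | hu
      · have := (hQ4 u hu).2
        rw [huv] at this
        exact this (List.mem_toFinset.mpr hv)
      · rw [← hu, huv] at hx1
        exact hx1 hv
  have hWlen : W.length = lam (2 * r) + lam (2 * r + 1) + 1 := by
    simp only [hW, List.length_append, List.length_reverse, List.length_cons, List.length_nil,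
      hP1, hQ1]
    omega
  have haW : a ∈ W := (hmemW a).mpr (Or.inr (Or.inr haP))
  have hbW : b ∈ W := (hmemW b).mpr (Or.inl hbQ)
  have hWT : ∀ v ∈ W, v ∈ T := by
    intro v hv
    rcases (hmemW v).mp hv with h | h | h
    · exact (hQ4 v h).1
    · rw [h]; exact hx
    · exact (hP4 v h).1
  set X := (W.toFinset.erase a).erase b with hX
  have hXm : ∀ v, v ∈ X ↔ v ∈ W ∧ v ≠ a ∧ v ≠ b := by
    intro v
    simp only [hX, Finset.mem_erase, List.mem_toFinset]
    tauto
  have hXc : X.card + 2 = W.length := by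
    have h1 : b ∈ W.toFinset.erase a := by
      rw [Finset.mem_erase, List.mem_toFinset]
      exact ⟨hab.symm, hbW⟩
    have h2 : X.card + 1 = (W.toFinset.erase a).card := Finset.card_erase_add_one h1
    have h3 := Finset.card_erase_add_one (List.mem_toFinset.mpr haW)
    rw [List.toFinset_card_of_nodup hWnd] at h3
    omega
  refine ⟨X, T \ X, a, b, W, by omega, ⟨?_, hWnd, ?_, ?_, ?_⟩, Finset.sdiff_subset, ?_, ?_, ?_,
    ?_, hab, ?_⟩
  · exact chn_base (f := fun i => lam (2 * r + i)) P Q hP2 hQ2 (by simp [hQ1]) (by simp [hP1])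
  · rw [hW, List.append_assoc, List.head?_append, List.head?_reverse,
      List.getLast?_eq_some_getLast hQne]
    simp [hb]
  · rw [hW, List.getLast?_append, List.getLast?_eq_some_getLast hPne]
    simp [ha]
  · intro v hv
    refine ⟨hWT v hv, ?_⟩
    rw [mem_bdry]
    exact fun h => h.1 (hWT v hv)
  · rw [Finset.disjoint_left]
    intro v hv hv'
    rw [mem_bdry] at hv'
    exact hv'.1 (Finset.mem_sdiff.mp hv).1
  · intro v hv w hvw
    by_cases hwT : w ∈ T
    · by_cases hwX : w ∈ X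
      · exact Or.inr (Or.inl hwX)
      · exact Or.inl (Finset.mem_sdiff.mpr ⟨hwT, hwX⟩)
    · right; right
      rw [mem_bdry]
      exact ⟨hwT, v, (Finset.mem_sdiff.mp hv).1, hvw⟩
  · rw [Finset.mem_sdiff, hXm]
    exact ⟨hWT a haW, fun h => h.2.1 rfl⟩
  · rw [Finset.mem_sdiff, hXm]
    exact ⟨hWT b hbW, fun h => h.2.2 rfl⟩
  · intro v hv hv'
    rw [Finset.mem_sdiff, hXm] at hv'
    by_contra hcon
    push Not at hcon
    exact hv'.2 ⟨hv, hcon.1, hcon.2⟩

private theorem L10_succ (lam : ℕ → ℕ) (j k : ℕ) :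
    ∑ i ∈ Finset.range (2 * (k + 1)), lam (2 * j + i) =
      ∑ i ∈ Finset.range (2 * k), lam (2 * j + i) + lam (2 * j + 2 * k) +
        lam (2 * j + 2 * k + 1) := by
  rw [show 2 * (k + 1) = 2 * k + 1 + 1 by ring, Finset.sum_range_succ, Finset.sum_range_succ]
  congr 2

private theorem L10_pred (lam : ℕ → ℕ) (j k : ℕ) (hj : 1 ≤ j) :
    ∑ i ∈ Finset.range (2 * (k + 1)), lam (2 * (j - 1) + i) =
      ∑ i ∈ Finset.range (2 * k), lam (2 * j + i) + lam (2 * j - 1) + lam (2 * j - 2) := by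
  obtain ⟨l, rfl⟩ : ∃ l, j = l + 1 := ⟨j - 1, by omega⟩
  rw [show 2 * (k + 1) = 2 * k + 1 + 1 by ring, Finset.sum_range_succ', Finset.sum_range_succ']
  have e1 : 2 * (l + 1) - 1 = 2 * l + 1 := by omega
  have e2 : 2 * (l + 1) - 2 = 2 * l := by omega
  rw [e1, e2]
  have e3 : ∀ i, 2 * (l + 1 - 1) + (i + 1 + 1) = 2 * (l + 1) + i := by intro i; omega
  simp only [e3]
  have e4 : 2 * (l + 1 - 1) + (0 + 1) = 2 * l + 1 := by omega
  have e5 : 2 * (l + 1 - 1) + 0 = 2 * l := by omega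
  rw [e4, e5]

private theorem L10_mono (lam : ℕ → ℕ) (j k r : ℕ) (hk : k ≤ r) :
    ∑ i ∈ Finset.range (2 * k), lam (2 * j + i) ≤ ∑ i ∈ Finset.range (2 * r), lam (2 * j + i) :=
  Finset.sum_le_sum_of_subset (Finset.range_mono (by omega))

/-- ROW L10b (the whole construction). Let `σ j k = ∑ i ∈ range (2 k), lam (2 j + i)`; by `hn`
`σ j r ≤ n` for all `j`, and `σ j k ≤ σ j r` for `k ≤ r`. `m = 2 n + r`, `d = 3 n + 2 r`; `T` from
`minimal_set G m`. Claim, by induction on `k`, `1 ≤ k ≤ r`: one of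
(I) `∃ j, j ≤ r`, `r + 1 ≤ j + k`, and `S, X, R, a, b, W` with `StI`, `|X| + 1 ≤ σ j k`,
    `|S| + 1 ≤ m + k`;
(II) `∃ j ≤ r` and `S, Xa, Xb, Ra, Rb, a, b, W` with `StII`, `|Xa| ≤ σ j k`,
    `|Xa| + |Xb| + 1 ≤ 2 σ j k`, `|S| + 1 ≤ m + k`.
`k = 1`: `start_I`, `j = r`. Step from `k` to `k + 1 ≤ r`: in case (I) use `world_cases` for
`R, a, b`. If `OneWorld`: `one_world_move` (`|S'| ≤ |S| + 1 ≤ m + k`), then `extend_I`; here
`j ≥ 1`, and `|X| + (two new values of lam) + 1 ≤ σ (new j) (k + 1) ≤ n` (note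
`σ (j - 1) (k + 1) = lam (2 j - 2) + lam (2 j - 1) + σ j k`), so the hypotheses on `d` hold. If
`Worlds`: `worlds_step` gives State II for `k` with `|S'| ≤ m + k`, `|Xa| ≤ σ j k`,
`|Xa| + |Xb| + 1 ≤ 2 σ j k`, then `step_II`. In case (II): `step_II`
(`|S| + |Xa| + lam + lam + 1 ≤ (m + k - 1) + σ j (k + 1) + 1 ≤ m + r + n`).
Finally `k = r`: `close_I` or `close_II`: `|S| + |X| + |X| ≤ (m + r - 1) + 2 (n - 1) < 2 m + 2`,
`|S| + |Xa| + |Xb| ≤ (m + r - 1) + (2 n - 1) < 2 m + 2`. -/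
theorem core_linear [Nonempty V] (G : V → V → Prop) (hG : ∀ v, ¬ G v v) (lam : ℕ → ℕ)
    (hlam : ∀ i, 1 ≤ lam i) (r n d : ℕ) (hr : 1 ≤ r)
    (hn : ∀ j, ∑ i ∈ Finset.range (2 * r), lam (2 * j + i) ≤ n) (hd : 3 * n + 2 * r ≤ d)
    (hdeg : ∀ v, d ≤ (out G Finset.univ v).card) :
    ∃ j, Clo G (fun i => lam (2 * j + i)) (2 * r) := by
  classical
  obtain ⟨T, hT, hTm, hmin⟩ := minimal_set G (2 * n + r)
  have hσ : ∀ j k, k ≤ r → ∑ i ∈ Finset.range (2 * k), lam (2 * j + i) ≤ n := fun j k hk =>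
    (L10_mono lam j k r hk).trans (hn j)
  -- the claim
  have key : ∀ k, 1 ≤ k → k ≤ r →
      (∃ j, j ≤ r ∧ r + 1 ≤ j + k ∧ ∃ (S X R : Finset V) (a b : V) (W : List V),
        StI G T S X R lam j k a b W ∧
        X.card + 1 ≤ ∑ i ∈ Finset.range (2 * k), lam (2 * j + i) ∧
        S.card + 1 ≤ 2 * n + r + k) ∨
      (∃ j, j ≤ r ∧ ∃ (S Xa Xb Ra Rb : Finset V) (a b : V) (W : List V),
        StII G T S Xa Xb Ra Rb lam j k a b W ∧
        Xa.card ≤ ∑ i ∈ Finset.range (2 * k), lam (2 * j + i) ∧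
        Xa.card + Xb.card + 1 ≤ 2 * ∑ i ∈ Finset.range (2 * k), lam (2 * j + i) ∧
        S.card + 1 ≤ 2 * n + r + k) := by
    intro k hk
    induction k, hk using Nat.le_induction with
    | base =>
      intro _
      left
      have h1 : ∑ i ∈ Finset.range (2 * 1), lam (2 * r + i) = lam (2 * r) + lam (2 * r + 1) := by
        simp [Finset.sum_range_succ]
      have h2 := hσ r 1 hr
      obtain ⟨X, R, a, b, W, h3, h4⟩ := start_I G hG T hT (2 * n + r) hTm lam hlam r d
        (by omega) hdeg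
      exact ⟨r, le_rfl, le_rfl, bdry G T, X, R, a, b, W, h4, by omega, by omega⟩
    | succ k hk1 ih =>
      intro hkr
      -- Step II
      have stepII : ∀ j, j ≤ r → ∀ (S Xa Xb Ra Rb : Finset V) (a b : V) (W : List V),
          StII G T S Xa Xb Ra Rb lam j k a b W →
          Xa.card ≤ ∑ i ∈ Finset.range (2 * k), lam (2 * j + i) →
          Xa.card + Xb.card + 1 ≤ 2 * ∑ i ∈ Finset.range (2 * k), lam (2 * j + i) →
          S.card ≤ 2 * n + r + k →
          (∃ j, j ≤ r ∧ ∃ (S Xa Xb Ra Rb : Finset V) (a b : V) (W : List V),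
            StII G T S Xa Xb Ra Rb lam j (k + 1) a b W ∧
            Xa.card ≤ ∑ i ∈ Finset.range (2 * (k + 1)), lam (2 * j + i) ∧
            Xa.card + Xb.card + 1 ≤ 2 * ∑ i ∈ Finset.range (2 * (k + 1)), lam (2 * j + i) ∧
            S.card + 1 ≤ 2 * n + r + (k + 1)) := by
        intro j hj S Xa Xb Ra Rb a b W hst h1 h2 h3
        have h4 := L10_succ lam j k
        have h5 := hσ j (k + 1) hkr
        obtain ⟨Xa', Ra', a', W', h6, h7⟩ := step_II G hG T S Xa Xb Ra Rb lam hlam j k d hk1 a b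
          W hdeg hst (by omega)
        exact ⟨j, hj, S, Xa', Xb, Ra', Rb, a', b, W', h7, by omega, by omega, by omega⟩
      rcases ih (by omega) with ⟨j, hj, hjk, S, X, R, a, b, W, hst, hX, hS⟩ |
        ⟨j, hj, S, Xa, Xb, Ra, Rb, a, b, W, hst, hXa, hXb, hS⟩
      · have hj1 : 1 ≤ j := by omega
        have h4 := L10_succ lam j k
        have h5 := hσ j (k + 1) hkr
        have h6 := L10_pred lam j k hj1
        have h7 := hσ (j - 1) (k + 1) hkr
        rcases world_cases G R a b hst.2.2.2.2.1 hst.2.2.2.2.2.1 hst.2.2.2.2.2.2.1 with hw | hw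
        · obtain ⟨S', Q, a', b', W', h8, h9, h10⟩ := one_world_move G T S X R lam j k hk1 a b W
            hst hw
          rcases extend_I G hG T S' X Q lam hlam j k d hk1 hj1 a' b' W' hdeg h9 h10 (by omega)
            (by omega) with ⟨X', R', a'', W'', h11, h12⟩ | ⟨X', R', b'', W'', h11, h12⟩
          · exact Or.inl ⟨j, hj, by omega, S', X', R', a'', b', W'', h12, by omega, by omega⟩
          · exact Or.inl ⟨j - 1, by omega, by omega, S', X', R', a', b'', W'', h12, by omega,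
              by omega⟩
        · obtain ⟨S', Xa, Xb, Ra, Rb, a', b', W', h8, h9, h9', h10, h11⟩ :=
            worlds_step G T S X R lam j k hk1 a b W hst hw
          exact Or.inr (stepII j hj S' Xa Xb Ra Rb a' b' W' h11 (by omega) (by omega)
            (by omega))
      · exact Or.inr (stepII j hj S Xa Xb Ra Rb a b W hst hXa hXb (by omega))
  rcases key r hr le_rfl with ⟨j, hj, hjk, S, X, R, a, b, W, hst, hX, hS⟩ |
    ⟨j, hj, S, Xa, Xb, Ra, Rb, a, b, W, hst, hXa, hXb, hS⟩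
  · have h1 := hn j
    exact ⟨j, close_I G T S X R lam j r (2 * n + r) hr a b W hmin hst (by omega)⟩
  · have h1 := hn j
    exact ⟨j, close_II G T S Xa Xb Ra Rb lam j r (2 * n + r) hr a b W hmin hst (by omega)⟩

end MP_ad30dc_co
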