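import Pool.Agent.Lib.MP_ad30dc_co.R1
import Pool.Agent.Lib.MP_ad30dc_co.B0

namespace MP_ad30dc_co

/-- ROW L2a. Take a nonempty subset `Q` of `R` that is closed in `R` (`R` itself is closed) with
minimal cardinality. For `u ∈ Q` the set of vertices of `Q` which are reachable from `u` inside `Q`
is nonempty and closed in `R`, so it is `Q`. -/
theorem exists_term {V : Type*} [DecidableEq V] (G : V → V → Prop) (R : Finset V)
    (hR : R.Nonempty) : ∃ Q, IsTerm G R Q := by
  classical
  obtain ⟨Q, hQ, hmin⟩ := Finset.exists_min_image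
    (R.powerset.filter (fun Q => Q.Nonempty ∧ ∀ v ∈ Q, ∀ w ∈ R, G v w → w ∈ Q)) Finset.card
    ⟨R, by
      rw [Finset.mem_filter, Finset.mem_powerset]
      exact ⟨subset_rfl, hR, fun v _ w hw _ => hw⟩⟩
  rw [Finset.mem_filter, Finset.mem_powerset] at hQ
  obtain ⟨hQR, hQn, hQc⟩ := hQ
  refine ⟨Q, hQn, hQR, hQc, ?_⟩
  intro u hu v hv
  have h1 : Q.filter (fun v => v ∈ Rch G (↑Q) {u}) ∈
      R.powerset.filter (fun Q => Q.Nonempty ∧ ∀ v ∈ Q, ∀ w ∈ R, G v w → w ∈ Q) := by
    rw [Finset.mem_filter, Finset.mem_powerset]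
    refine ⟨(Finset.filter_subset _ _).trans hQR, ⟨u, ?_⟩, ?_⟩
    · rw [Finset.mem_filter]
      exact ⟨hu, Rch_base (Set.mem_singleton u) (Finset.mem_coe.2 hu)⟩
    · intro v hv w hw hvw
      rw [Finset.mem_filter] at hv ⊢
      have hwQ := hQc v hv.1 w hw hvw
      exact ⟨hwQ, Rch_step hv.2 hvw (Finset.mem_coe.2 hwQ)⟩
  have h2 := hmin _ h1
  have h3 := Finset.eq_of_subset_of_card_le (Finset.filter_subset _ _) h2
  rw [← h3, Finset.mem_filter] at hv
  exact hv.2

/-- the first element with a property -/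
private theorem L2_split {V : Type*} (p : V → Prop) : ∀ L : List V, (∃ a ∈ L, p a) →
    ∃ L1 a L2, L = L1 ++ a :: L2 ∧ p a ∧ ∀ v ∈ L1, ¬ p v
  | [], h => by
    obtain ⟨a, ha, -⟩ := h
    simp at ha
  | b :: L, h => by
    by_cases hb : p b
    · exact ⟨[], b, L, rfl, hb, by simp⟩
    · obtain ⟨a, ha, hpa⟩ := h
      rcases List.mem_cons.1 ha with rfl | ha
      · exact absurd hpa hb
      · obtain ⟨L1, c, L2, h1, h2, h3⟩ := L2_split p L ⟨a, ha, hpa⟩
        refine ⟨b :: L1, c, L2, by rw [h1]; rfl, h2, ?_⟩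
        intro v hv
        rcases List.mem_cons.1 hv with rfl | hv
        · exact hb
        · exact h3 v hv

/-- ROW L2b (in-path). Let `Q' = Q \ Z`. Every vertex of `Q` has at least `β` out-neighbours in
`Q'`; in particular `Q'` is nonempty. Take a longest path `p_0, …, p_L` of `G` inside `Q'` (as a
list without repetition; lengths are bounded by `Q'.card`). All out-neighbours of `p_L` in `Q'` lie
on it, there are at least `β ≥ 1` of them, all different from `p_L` (`hG`), so the one with the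
smallest index `j` satisfies `j ≤ L - β`: `C = [p_j, …, p_L]` is a directed cycle (`G p_L p_j`) with
at least `β + 1` vertices. By `hconn` there is a path inside `Q` from `p_L` to an element of `Z`;
take its last vertex `p_i` on `C` (`IsP.last_hit`) and then its first vertex `z` in `Z`
(`IsP.first_hit`): a path `p_i, q_1, …, q_h = z`, `h ≥ 1`, whose inner vertices are in `Q' \ C`.
The list `p_{i+1}, …, p_L, p_j, …, p_i, q_1, …, q_{h-1}, z` is a directed path inside `Q` with at
least `β + 1` vertices before `z` (`|C| ≥ β + 1`), all of them in `Q'`. Take its last `β` vertices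
before `z` as `Y`. -/
theorem in_path {V : Type*} [DecidableEq V] (G : V → V → Prop) (hG : ∀ v, ¬ G v v)
    (Q Z : Finset V) (hZ : Z.Nonempty) (hZQ : Z ⊆ Q)
    (hconn : ∀ u ∈ Q, ∀ v ∈ Q, v ∈ Rch G (↑Q) {u}) (β : ℕ) (hβ : 1 ≤ β)
    (hdeg : ∀ v ∈ Q, β + Z.card ≤ (out G Q v).card) :
    ∃ z ∈ Z, ∃ (x : V) (Y : List V), Y.length = β ∧ Y.head? = some x ∧
      IsP G (↑Q) x z (Y ++ [z]) ∧ ∀ y ∈ Y, y ∉ Z := by
  classical
  -- degrees in `Q \ Z`
  have hdeg' : ∀ v ∈ Q, β ≤ (out G (Q \ Z) v).card := by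
    intro v hv
    have h1 := hdeg v hv
    have h2 : out G Q v ⊆ out G (Q \ Z) v ∪ Z := by
      intro w hw
      rw [mem_out] at hw
      rw [Finset.mem_union, mem_out, Finset.mem_sdiff]
      by_cases h3 : w ∈ Z
      · exact Or.inr h3
      · exact Or.inl ⟨⟨hw.1, h3⟩, hw.2⟩
    have h3 := (Finset.card_le_card h2).trans (Finset.card_union_le _ _)
    omega
  -- a vertex of `Q \ Z`
  obtain ⟨z0, hz0⟩ := hZ
  obtain ⟨x0, hx0⟩ : ∃ x0, x0 ∈ Q \ Z := by
    have h1 := hdeg' z0 (hZQ hz0)
    obtain ⟨x0, hx0⟩ := Finset.card_pos.1 (lt_of_lt_of_le hβ h1)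
    rw [mem_out] at hx0
    exact ⟨x0, hx0.1⟩
  -- a stuck path
  obtain ⟨P, hPc, hPn, hPm, hPs⟩ : ∃ P : List V, List.IsChain G (x0 :: P) ∧ (x0 :: P).Nodup ∧
      (∀ v ∈ P, v ∈ Q \ Z) ∧ ∀ w ∈ out G (Q \ Z) ((x0 :: P).getLast (by simp)), w ∈ x0 :: P := by
    rcases greedy G (Q \ Z) ∅ x0 (Q \ Z).card with ⟨P, h1, h2, h3, h4⟩ | ⟨P, h1, h2, h3, h4, h5⟩
    · exfalso
      have h5 : (x0 :: P).toFinset ⊆ Q \ Z := by
        intro v hv
        rw [List.mem_toFinset] at hv
        rcases List.mem_cons.1 hv with rfl | hv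
        · exact hx0
        · exact (h4 v hv).1
      have h6 := Finset.card_le_card h5
      rw [List.toFinset_card_of_nodup h3, List.length_cons] at h6
      omega
    · refine ⟨P, h2, h3, fun v hv => (h4 v hv).1, fun w hw => ?_⟩
      rcases h5 w hw with h6 | h6
      · simp at h6
      · exact h6
  have hLm : ∀ v ∈ x0 :: P, v ∈ Q \ Z := by
    intro v hv
    rcases List.mem_cons.1 hv with rfl | hv
    · exact hx0
    · exact hPm v hv
  obtain ⟨y, hy⟩ : ∃ y, (x0 :: P).getLast (by simp) = y := ⟨_, rfl⟩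
  rw [hy] at hPs
  have hyL : y ∈ x0 :: P := by rw [← hy]; exact List.getLast_mem _
  have hyl : (x0 :: P).getLast? = some y := by
    rw [List.getLast?_eq_some_getLast (by simp), hy]
  have hyQ : y ∈ Q := (Finset.mem_sdiff.1 (hLm y hyL)).1
  -- the cycle
  obtain ⟨L1, a, L2, hL, ha, hL1⟩ := L2_split (fun v => v ∈ out G (Q \ Z) y) (x0 :: P) (by
    obtain ⟨w, hw⟩ := Finset.card_pos.1 (lt_of_lt_of_le hβ (hdeg' y hyQ))
    exact ⟨w, hPs w hw, hw⟩)
  obtain ⟨C, hC⟩ : ∃ C, C = a :: L2 := ⟨_, rfl⟩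
  rw [← hC] at hL
  have hCn : C.Nodup := by
    rw [hL, List.nodup_append] at hPn
    exact hPn.2.1
  have hCc : List.IsChain G C := by
    rw [hL, List.isChain_append] at hPc
    exact hPc.2.1
  have hCm : ∀ v ∈ C, v ∈ Q \ Z := by
    intro v hv
    apply hLm
    rw [hL]
    exact List.mem_append_right _ hv
  have hCl : C.getLast? = some y := by
    rw [hL, List.getLast?_append] at hyl
    rw [hC] at hyl ⊢
    rw [List.getLast?_eq_some_getLast (by simp)] at hyl ⊢
    simpa using hyl
  have hyC : y ∈ C := List.mem_of_getLast? hCl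
  have hCh : C.head? = some a := by rw [hC]; rfl
  have hya : G y a := (mem_out.1 ha).2
  have hClen : β + 1 ≤ C.length := by
    have h1 : out G (Q \ Z) y ⊆ C.toFinset.erase y := by
      intro w hw
      rw [Finset.mem_erase, List.mem_toFinset]
      refine ⟨?_, ?_⟩
      · rintro rfl
        exact hG _ (mem_out.1 hw).2
      · have h2 := hPs w hw
        rw [hL, List.mem_append] at h2
        rcases h2 with h2 | h2
        · exact absurd hw (hL1 w h2)
        · exact h2
    have h2 := Finset.card_le_card h1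
    rw [Finset.card_erase_of_mem (List.mem_toFinset.2 hyC), List.toFinset_card_of_nodup hCn] at h2
    have h3 := hdeg' y hyQ
    omega
  -- the path to `Z`
  obtain ⟨y', hy', K, hK⟩ := hconn y hyQ z0 (hZQ hz0)
  rw [Set.mem_singleton_iff] at hy'
  subst hy'
  obtain ⟨w, hw, K1, hK1, -, hK1w⟩ := hK.last_hit {v | v ∈ C} hyC
  obtain ⟨z, hz, K2, hK2, hK21, hK2z⟩ := hK1.first_hit {v | v ∈ Z} hz0
  have hwC : w ∈ C := hw
  have hzZ : z ∈ Z := hz
  obtain ⟨C1, C2, hCs⟩ := List.append_of_mem hwC
  have hwz : w ≠ z := by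
    rintro rfl
    exact (Finset.mem_sdiff.1 (hCm w hwC)).2 hzZ
  -- `K2 = D ++ [z]`
  obtain ⟨hK2c, hK2n, hK2m, hK2h, hK2l⟩ := hK2
  obtain ⟨D, hD⟩ : ∃ D, K2 = D ++ [z] := by
    have h1 : K2 ≠ [] := by
      rintro rfl
      simp at hK2h
    refine ⟨K2.dropLast, ?_⟩
    have h2 := List.dropLast_append_getLast h1
    rw [List.getLast?_eq_some_getLast h1, Option.some.injEq] at hK2l
    rw [hK2l] at h2
    exact h2.symm
  -- the long path
  have hnC : w ∉ C1 ∧ w ∉ C2 := by
    rw [hCs, List.nodup_append] at hCn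
    obtain ⟨-, h2, h3⟩ := hCn
    rw [List.nodup_cons] at h2
    exact ⟨fun h4 => h3 w h4 w List.mem_cons_self rfl, h2.1⟩
  have hlen12 : β ≤ (C2 ++ C1).length := by
    rw [hCs] at hClen
    simp only [List.length_append, List.length_cons] at hClen ⊢
    omega
  have hMc : List.IsChain G (C2 ++ (C1 ++ K2)) := by
    rw [hCs] at hCc
    have h1 : List.IsChain G (C1 ++ K2) := by
      rw [List.isChain_append] at hCc ⊢
      refine ⟨hCc.1, hK2c, ?_⟩
      intro s hs t ht
      rw [hK2h] at ht
      apply hCc.2.2 s hs t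
      simpa using ht
    rw [List.isChain_append]
    refine ⟨?_, h1, ?_⟩
    · have h2 : List.IsChain G ((C1 ++ [w]) ++ C2) := by simpa using hCc
      rw [List.isChain_append] at h2
      exact h2.2.1
    · intro s hs t ht
      have e1 : s = y' := by
        have h2 : (C1 ++ w :: C2).getLast? = some y' := by rw [← hCs]; exact hCl
        have h3 : C1 ++ w :: C2 = (C1 ++ [w]) ++ C2 := by simp
        rw [h3, List.getLast?_append, hs] at h2
        simpa using h2
      have e2 : t = a := by
        have h2 : (C1 ++ w :: C2).head? = some a := by rw [← hCs]; exact hCh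
        rw [List.head?_append] at h2 ht
        rw [hK2h] at ht
        simp only [List.head?_cons] at h2
        rw [h2] at ht
        simpa using ht.symm
      rw [e1, e2]
      exact hya
  have hMn : (C2 ++ (C1 ++ K2)).Nodup := by
    rw [← List.append_assoc, List.nodup_append]
    have h1 : (C2 ++ C1).Nodup := by
      have h2 : (C1 ++ w :: C2).Nodup := by rw [← hCs]; exact hCn
      have h3 : (C1 ++ C2).Nodup := h2.sublist (by
        apply List.Sublist.append_left
        exact List.sublist_cons_self _ _)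
      exact (List.perm_append_comm.nodup_iff).1 h3
    refine ⟨h1, hK2n, ?_⟩
    intro s hs t ht hst
    subst hst
    have h2 : s ∈ C := by
      rw [hCs]
      rcases List.mem_append.1 hs with h | h
      · exact List.mem_append_right _ (List.mem_cons_of_mem _ h)
      · exact List.mem_append_left _ h
    have h3 := hK1w s (hK21 s ht) h2
    subst h3
    rcases List.mem_append.1 hs with h | h
    · exact hnC.2 h
    · exact hnC.1 h
  have hMm : ∀ v ∈ C2 ++ (C1 ++ K2), v ∈ Q := by
    intro v hv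
    have hcase : v ∈ C ∨ v ∈ K2 := by
      rw [hCs]
      simp only [List.mem_append, List.mem_cons] at hv ⊢
      tauto
    rcases hcase with h | h
    · exact (Finset.mem_sdiff.1 (hCm v h)).1
    · exact Finset.mem_coe.1 (hK2m v h)
  -- cut
  obtain ⟨N, hN⟩ : ∃ N, N = C2 ++ (C1 ++ D) := ⟨_, rfl⟩
  have hM : C2 ++ (C1 ++ K2) = N ++ [z] := by
    rw [hN, hD]
    simp
  rw [hM] at hMc hMn hMm
  have hNlen : β ≤ N.length := by
    rw [hN]
    simp only [List.length_append] at hlen12 ⊢
    omega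
  have hNZ : ∀ v ∈ N, v ∉ Z := by
    intro v hv hvZ
    have hcase : v ∈ C ∨ v ∈ D := by
      rw [hCs]
      rw [hN] at hv
      simp only [List.mem_append, List.mem_cons] at hv ⊢
      tauto
    rcases hcase with h | h
    · exact (Finset.mem_sdiff.1 (hCm v h)).2 hvZ
    · have h1 : v ∈ K2 := by
        rw [hD]
        exact List.mem_append_left _ h
      have h2 := hK2z v h1 hvZ
      subst h2
      rw [List.nodup_append] at hMn
      exact hMn.2.2 v hv v (by simp) rfl
  obtain ⟨Y, hY⟩ : ∃ Y, Y = N.drop (N.length - β) := ⟨_, rfl⟩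
  have hYN : N = N.take (N.length - β) ++ Y := by
    rw [hY]
    exact (List.take_append_drop _ _).symm
  have hYl : Y.length = β := by
    rw [hY, List.length_drop]
    omega
  obtain ⟨x, hx⟩ : ∃ x, Y.head? = some x := by
    cases Y with
    | nil =>
      simp only [List.length_nil] at hYl
      omega
    | cons x Y => exact ⟨x, rfl⟩
  have hYsub : ∀ v ∈ Y, v ∈ N := by
    intro v hv
    rw [hYN]
    exact List.mem_append_right _ hv
  rw [hYN, List.append_assoc] at hMc hMn
  refine ⟨z, hzZ, x, Y, hYl, hx, ⟨?_, ?_, ?_, ?_, ?_⟩, fun v hv => hNZ v (hYsub v hv)⟩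
  · rw [List.isChain_append] at hMc
    exact hMc.2.1
  · rw [List.nodup_append] at hMn
    exact hMn.2.1
  · intro v hv
    rw [Finset.mem_coe]
    apply hMm
    rcases List.mem_append.1 hv with h | h
    · exact List.mem_append_left _ (hYsub v h)
    · exact List.mem_append_right _ h
  · rw [List.head?_append, hx]
    rfl
  · simp

end MP_ad30dc_co
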