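import Pool.Agent.Lib.MP_ad30dc_co.R1

namespace MP_ad30dc_co

private theorem L3_tail {V : Type*} {G : V → V → Prop} {R : Set V} {a q : V} {P : List V}
    (h : IsP G R a q (a :: P)) (hne : a ≠ q) :
    ∃ a1, G a a1 ∧ a ∉ P ∧ IsP G R a1 q P := by
  obtain ⟨h1, h2, h3, h4, h5⟩ := h
  cases P with
  | nil =>
    simp at h5
    exact absurd h5 hne
  | cons b P' =>
    rw [List.isChain_cons_cons] at h1
    rw [List.nodup_cons] at h2
    refine ⟨b, h1.1, h2.1, h1.2, h2.2, fun x hx => h3 x (List.mem_cons_of_mem _ hx), rfl, ?_⟩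
    rw [List.getLast?_cons_cons] at h5
    exact h5

private theorem L3_cons {V : Type*} {G : V → V → Prop} {R R' : Set V} {a a1 q : V} {P : List V}
    (h : IsP G R' a1 q P) (hG : G a a1) (hR : R' ⊆ R) (ha : a ∈ R) (ha' : a ∉ P) :
    IsP G R a q (a :: P) := by
  obtain ⟨P', rfl⟩ := h.eq_cons
  obtain ⟨h1, h2, h3, h4, h5⟩ := h
  refine ⟨?_, ?_, ?_, rfl, ?_⟩
  · rw [List.isChain_cons_cons]
    exact ⟨hG, h1⟩
  · rw [List.nodup_cons]
    exact ⟨ha', h2⟩
  · intro x hx
    rcases List.mem_cons.mp hx with rfl | hx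
    · exact ha
    · exact hR (h3 x hx)
  · rw [List.getLast?_cons_cons]
    exact h5

/-- ROW L3 (Menger for two paths, asymmetric form). By (strong) induction on `R.card`, for all
`a, b, Q`.
If the second alternative fails, every `s ∈ R` has some `q ∈ Q` with `q ∈ Rch G (R \ {s}) {a, b}`
(for all `s ∈ R`). We have to find the two paths.
Case `a ∈ Q`: use `s = a`: some `q ∈ Q` is reachable inside `R \ {a}` from `b` (the start `a` is not
in `R \ {a}`); `first_hit` gives a path `PB` from `b` to the first vertex of `Q`, inside `R \ {a}`;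
`PA = [a]`. But we need `PB` to avoid... it meets `Q` only in `b'` and `a ∉ PB`: fine.
Case `a ∉ Q`. Let `R' = R \ {a}` (`Finset.erase`). Using `s = a`: `b ∈ R'` and some `q ∈ Q` is
reachable from `b` inside `R'`. Call `s ∈ R'` a `b`-separator if no `q ∈ Q` is in
`Rch G (R' \ {s}) {b}`; for instance `s = b` is one. Choose a `b`-separator `s` such that
`U s := Rch G (R' \ {s}) {b}` has maximal cardinality (finite sets; for `s = b` it is empty).
Using this `s` in the hypothesis: there is a path inside `R \ {s}` from `a` or `b` to some `q ∈ Q`;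
if it does not contain `a` it is a path from `b` inside `R' \ {s}`: contradiction. So it contains
`a`; its final segment from `a` has a second vertex `a1 ∈ R'` (as `a ∉ Q`), and
`q ∈ Rch G (R' \ {s}) {a1}` (`R' \ {s}`). Also `a1 ≠ b` since `s` is a `b`-separator.
Apply the induction hypothesis to `R'`, `a1`, `b`, `Q ∩ R' = Q`. If it gives paths, put `a` in front
of the path from `a1`. If it gives a vertex `s' ∈ R'` such that no `q ∈ Q` is in
`Rch G (R' \ {s'}) {a1, b}`: then `s'` is a `b`-separator. `s' ≠ s` (because of `a1`). CLAIM: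
`s' ∈ U s`. Otherwise every path from `b` inside `R'` to `s'` passes through `s`. Then
`U s ⊆ U s'`, and `s ∈ U s'` unless ... : take a path from `b` to some `q ∈ Q` inside `R'`; it
contains `s` (separator); its initial segment up to `s` does not contain `s'` (else the part up to
`s'` is a path from `b` to `s'` that avoids `s`). So `s ∈ U s'`; and for `y ∈ U s` the path from `b`
to `y` avoiding `s` cannot contain `s'`, so `y ∈ U s'`. As `s ∉ U s`, `U s'` is larger:
contradiction to the choice of `s`. So there is a path `P1` from `b` to `s'` inside `R' \ {s}`.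
The path from `a1` to `q` inside `R' \ {s}` must contain `s'` (since `s'` separates `{a1, b}` from
`Q` in `R'`); its final segment from `s'` to `q` avoids `s`; together with `P1`
(`IsP.trans`) we get `q ∈ Rch G (R' \ {s}) {b}`, a contradiction to: `s` is a `b`-separator. -/
theorem two_linked {V : Type*} [DecidableEq V] (G : V → V → Prop) (R : Finset V) (a b : V)
    (ha : a ∈ R) (hb : b ∈ R) (hab : a ≠ b) (Q : Finset V) (hQ : Q ⊆ R) :
    (∃ (a' b' : V) (PA PB : List V), Linked G R Q Q a b a' b' PA PB) ∨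
    (∃ s ∈ R, ∀ q ∈ Q, q ∉ Rch G (↑R \ {s}) {a, b}) := by
  classical
  suffices H : ∀ (n : ℕ) (R : Finset V) (a b : V), R.card = n → a ∈ R → b ∈ R → a ≠ b → Q ⊆ R →
      (∃ (a' b' : V) (PA PB : List V), Linked G R Q Q a b a' b' PA PB) ∨
      (∃ s ∈ R, ∀ q ∈ Q, q ∉ Rch G (↑R \ {s}) {a, b}) from H R.card R a b rfl ha hb hab hQ
  clear hQ hab hb ha a b R
  intro n
  induction n using Nat.strong_induction_on with
  | _ n ih =>
  intro R a b hn ha hb hab hQ
  by_contra hcon
  rw [not_or] at hcon
  obtain ⟨hno, hsep⟩ := hcon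
  push Not at hsep
  by_cases haQ : a ∈ Q
  · obtain ⟨q, hq, u, hu, L, hL⟩ := hsep a ha
    have hub : u = b := by
      rcases hu with h | h
      · exact absurd h hL.left_mem.2
      · exact h
    subst hub
    obtain ⟨w, hw, L1, hL1, -, hL1Q⟩ := hL.first_hit (↑Q) hq
    refine hno ⟨a, w, [a], L1, IsP.single ha, hL1.mono Set.sdiff_subset, haQ, hw, ?_, ?_, ?_⟩
    · intro y hy _
      simpa using hy
    · intro y hy h
      exact hL1Q y hy (by rcases h with h | h <;> exact h)
    · intro y hy hy'
      rw [List.mem_singleton] at hy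
      subst hy
      exact (hL1.2.2.1 y hy').2 rfl
  · set R' : Finset V := R.erase a with hR'
    have hcR : (↑R' : Set V) = ↑R \ {a} := by rw [hR', Finset.coe_erase]
    have hbR' : b ∈ R' := Finset.mem_erase.mpr ⟨hab.symm, hb⟩
    have hR'R : (↑R' : Set V) ⊆ ↑R := by rw [hcR]; exact Set.sdiff_subset
    have hQ' : Q ⊆ R' := fun q hq => Finset.mem_erase.mpr ⟨fun h => haQ (h ▸ hq), hQ hq⟩
    -- reachability of `Q` from `b` inside `R'`
    obtain ⟨q0, hq0, hq0R⟩ : ∃ q ∈ Q, q ∈ Rch G (↑R') {b} := by
      obtain ⟨q, hq, u, hu, L, hL⟩ := hsep a ha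
      have hub : u = b := by
        rcases hu with h | h
        · exact absurd h hL.left_mem.2
        · exact h
      subst hub
      exact ⟨q, hq, u, rfl, L, by rw [hcR]; exact hL⟩
    let U : V → Finset V := fun s => R'.filter (fun y => y ∈ Rch G (↑R' \ {s}) {b})
    let Sp : Finset V := R'.filter (fun s => ∀ q ∈ Q, q ∉ Rch G (↑R' \ {s}) {b})
    have hSp : Sp.Nonempty := by
      refine ⟨b, Finset.mem_filter.mpr ⟨hbR', ?_⟩⟩
      rintro q - ⟨u, hu, L, hL⟩
      rw [Set.mem_singleton_iff] at hu
      subst hu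
      exact hL.left_mem.2 rfl
    obtain ⟨s, hs, hmax⟩ := Finset.exists_max_image Sp (fun s => (U s).card) hSp
    obtain ⟨hsR', hsS⟩ := Finset.mem_filter.mp hs
    have hsR : s ∈ R := hR'R hsR'
    have hsa : s ≠ a := (Finset.mem_erase.mp hsR').1
    -- the path from `a`
    obtain ⟨a1, q1, P, haa1, hq1, hP⟩ : ∃ (a1 q1 : V) (P : List V), G a a1 ∧ q1 ∈ Q ∧
        IsP G (↑R' \ {s}) a1 q1 P := by
      obtain ⟨q, hq, u, hu, L, hL⟩ := hsep s hsR
      have haL : a ∈ L := by
        by_contra haL
        have hu' : u = b := by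
          rcases hu with h | h
          · rw [← h] at haL
            exact absurd hL.head_mem haL
          · exact h
        subst hu'
        refine hsS q hq ⟨u, rfl, L, hL.of_mem fun y hy => ⟨?_, (hL.2.2.1 y hy).2⟩⟩
        rw [hcR]
        exact ⟨(hL.2.2.1 y hy).1, fun h => haL (by rw [← Set.mem_singleton_iff.mp h]; exact hy)⟩
      obtain ⟨L1, hL1, -⟩ := hL.split_right haL
      obtain ⟨P, rfl⟩ := hL1.eq_cons
      obtain ⟨a1, h1, h2, h3⟩ := L3_tail hL1 (fun h => haQ (h ▸ hq))
      refine ⟨a1, q, P, h1, hq, h3.of_mem fun y hy => ⟨?_, (h3.2.2.1 y hy).2⟩⟩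
      rw [hcR]
      exact ⟨(h3.2.2.1 y hy).1, fun h => h2 (by rw [← Set.mem_singleton_iff.mp h]; exact hy)⟩
    have ha1b : a1 ≠ b := by
      rintro rfl
      exact hsS q1 hq1 ⟨a1, rfl, P, hP⟩
    have ha1R' : a1 ∈ R' := hP.left_mem.1
    have hcard : R'.card < n := by
      rw [← hn]
      exact Finset.card_erase_lt_of_mem ha
    rcases ih R'.card hcard R' a1 b rfl ha1R' hbR' ha1b hQ' with
      ⟨a', b', PA, PB, h1, h2, h3, h4, h5, h6, h7⟩ | ⟨s', hs', hsep'⟩
    · have haPA : a ∉ PA := fun h => (Finset.mem_erase.mp (h1.2.2.1 a h)).1 rfl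
      have haPB : a ∉ PB := fun h => (Finset.mem_erase.mp (h2.2.2.1 a h)).1 rfl
      refine hno ⟨a', b', a :: PA, PB, L3_cons h1 haa1 hR'R ha haPA, h2.mono hR'R, h3, h4, ?_, h6,
        ?_⟩
      · intro y hy h
        rcases List.mem_cons.mp hy with rfl | hy
        · rcases h with h | h <;> exact absurd h haQ
        · exact h5 y hy h
      · intro y hy hy'
        rcases List.mem_cons.mp hy with rfl | hy
        · exact haPB hy'
        · exact h7 hy hy'
    · have hs'S : s' ∈ Sp := by
        refine Finset.mem_filter.mpr ⟨hs', fun q hq h => hsep' q hq ?_⟩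
        exact Rch_mono (Set.Subset.refl _) (by intro x hx; exact Or.inr hx) h
      have hss' : s' ≠ s := by
        rintro rfl
        exact hsep' q1 hq1 ⟨a1, Or.inl rfl, P, hP⟩
      have hclaim : s' ∈ Rch G (↑R' \ {s}) {b} := by
        by_contra hnc
        have hsub : U s ⊆ U s' := by
          intro y hy
          obtain ⟨hyR, u, hu, L, hL⟩ := Finset.mem_filter.mp hy
          have hs'L : s' ∉ L := by
            intro h
            obtain ⟨L1, hL1, -⟩ := hL.split_left h
            exact hnc ⟨u, hu, L1, hL1⟩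
          refine Finset.mem_filter.mpr ⟨hyR, u, hu, L, hL.of_mem fun x hx => ⟨(hL.2.2.1 x hx).1, ?_⟩⟩
          intro h
          exact hs'L (by rw [← Set.mem_singleton_iff.mp h]; exact hx)
        have hsU' : s ∈ U s' := by
          obtain ⟨u, hu, L, hL⟩ := hq0R
          have hsL : s ∈ L := by
            by_contra hsL
            refine hsS q0 hq0 ⟨u, hu, L, hL.of_mem fun x hx => ⟨hL.2.2.1 x hx, ?_⟩⟩
            intro h
            exact hsL (by rw [← Set.mem_singleton_iff.mp h]; exact hx)
          obtain ⟨L1, hL1, -⟩ := hL.split_left hsL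
          obtain ⟨w, hw, L2, hL2, -, hL2w⟩ := hL1.first_hit {s, s'} (Or.inl rfl)
          rcases hw with hw | hw
          · subst hw
            refine Finset.mem_filter.mpr ⟨hsR', u, hu, L2, hL2.of_mem fun x hx =>
              ⟨hL2.2.2.1 x hx, ?_⟩⟩
            intro h
            rw [Set.mem_singleton_iff] at h
            subst h
            exact hss' (hL2w x hx (Or.inr rfl))
          · rw [Set.mem_singleton_iff] at hw
            subst hw
            refine absurd ?_ hnc
            refine ⟨u, hu, L2, hL2.of_mem fun x hx => ⟨hL2.2.2.1 x hx, ?_⟩⟩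
            intro h
            rw [Set.mem_singleton_iff] at h
            subst h
            exact hss' (hL2w x hx (Or.inl rfl)).symm
        have hsU : s ∉ U s := by
          intro h
          exact (Rch_subset (Finset.mem_filter.mp h).2).2 rfl
        have hlt : (U s).card < (U s').card :=
          Finset.card_lt_card ⟨hsub, fun h => hsU (h hsU')⟩
        exact absurd (hmax s' hs'S) (not_le.mpr hlt)
      have hs'P : s' ∈ P := by
        by_contra hs'P
        refine hsep' q1 hq1 ⟨a1, Or.inl rfl, P, hP.of_mem fun x hx => ⟨(hP.2.2.1 x hx).1, ?_⟩⟩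
        intro h
        exact hs'P (by rw [← Set.mem_singleton_iff.mp h]; exact hx)
      obtain ⟨P2, hP2, -⟩ := hP.split_right hs'P
      exact hsS q1 hq1 (Rch_trans hclaim ⟨s', rfl, P2, hP2⟩)

end MP_ad30dc_co
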