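import Pool.Agent.Lib.MP_ad30dc_co.R1

namespace MP_ad30dc_co

variable {V : Type*} [DecidableEq V]

/-- the tail of a path, for a vertex of the path different from its first vertex -/
theorem L4_tail {V : Type*} {G : V → V → Prop} {R : Set V} {u v y : V} {L : List V} (hL : IsP G R u v L)
    (hy : y ∈ L) (hyu : y ≠ u) : ∃ L1, IsP G (R \ {u}) y v L1 := by
  obtain ⟨P, rfl⟩ := hL.eq_cons
  have hyP : y ∈ P := by
    rcases List.mem_cons.1 hy with h | h
    · exact absurd h hyu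
    · exact h
  obtain ⟨h1, h2, h3, h4, h5⟩ := hL
  cases P with
  | nil => simp at hyP
  | cons p P' =>
    have hP : IsP G (R \ {u}) p v (p :: P') := by
      refine ⟨?_, ?_, ?_, rfl, ?_⟩
      · exact h1.tail
      · exact (List.nodup_cons.1 h2).2
      · intro x hx
        refine ⟨h3 x (List.mem_cons_of_mem _ hx), ?_⟩
        intro hxu
        rw [Set.mem_singleton_iff] at hxu
        rw [hxu] at hx
        exact (List.nodup_cons.1 h2).1 hx
      · rw [← h5]; simp
    obtain ⟨L1, hL1, _⟩ := hP.split_right hyP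
    exact ⟨L1, hL1⟩

/-- ROW L4a (Case 2). `Q` is a terminal component of `R`, `s` (at most one vertex) was removed:
`R = R1 \ s`. All paths from `b` to `Q` inside `R` pass through `a` (`hsep`), and `Q` is reachable
from `a` inside `R` (`hreach`). Take `Qa = Q`, `Qb` = the vertices reachable from `b` inside
`R \ {a}` (a filter), `Ea = ∅`, `Eb = {a}`, `PA` a path from `a` to the first vertex of `Q`
(`first_hit`), `PB = [b]`, `b' = b`. Checks: `b ∉ Q` and `Q` does not meet `Qb` by `hsep`; a common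
vertex `y` of `PA` and `Qb`: `y ≠ a` as `a ∉ Qb`, and the final segment of `PA` from `y` to `Q`
avoids `a` (no repetition in `PA`), so `Q` would be reachable from `b` inside `R \ {a}`. Exits: a
`w ∈ R1`, `G v w`: if `w ∈ s` fine; otherwise `w ∈ R`, and `w ∈ Qb` or `w = a`. -/
theorem worlds_of_sep (G : V → V → Prop) (R1 s : Finset V) (hs : s.card ≤ 1) (hsR : s ⊆ R1)
    (a b : V) (ha : a ∈ R1 \ s) (hb : b ∈ R1 \ s) (hab : a ≠ b) (Q : Finset V)
    (hQ : IsTerm G (R1 \ s) Q)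
    (hreach : ∃ q ∈ Q, q ∈ Rch G (↑(R1 \ s)) {a})
    (hsep : ∀ q ∈ Q, q ∉ Rch G (↑(R1 \ s) \ {a}) {b}) : Worlds G R1 a b := by
  classical
  obtain ⟨_, hQsub, hQcl, _⟩ := hQ
  set Qb : Finset V := (R1 \ s).filter (fun y => y ∈ Rch G (↑(R1 \ s) \ {a}) {b}) with hQb
  have hbR : b ∈ (↑(R1 \ s) : Set V) \ {a} := ⟨hb, fun h => hab (Set.mem_singleton_iff.1 h).symm⟩
  have hbr : b ∈ Rch G ((↑(R1 \ s) : Set V) \ {a}) {b} := Rch_base (Set.mem_singleton b) hbR
  have hbQb : b ∈ Qb := by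
    rw [hQb, Finset.mem_filter]
    exact ⟨hb, hbr⟩
  have hmem : ∀ y ∈ Qb, y ∈ Rch G ((↑(R1 \ s) : Set V) \ {a}) {b} := by
    intro y hy
    rw [hQb, Finset.mem_filter] at hy
    exact hy.2
  obtain ⟨q, hq, u, hu, L, hL⟩ := hreach
  rw [Set.mem_singleton_iff] at hu
  subst hu
  obtain ⟨a', ha', PA, hPA, _, hfirst⟩ := hL.first_hit (↑Q : Set V) hq
  have hPAb : ∀ y ∈ PA, y ∈ Qb → False := by
    intro y hy hyb
    have h1 := hmem y hyb
    have h2 : y ≠ u := by
      intro h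
      have h3 := Rch_subset h1
      exact h3.2 (Set.mem_singleton_iff.2 h)
    obtain ⟨L1, hL1⟩ := L4_tail hPA hy h2
    exact hsep a' ha' (Rch_trans h1 ⟨y, Set.mem_singleton y, L1, hL1⟩)
  refine ⟨s, ∅, {u}, Q, Qb, a', b, PA, [b], hs, hsR, ?_, ?_, hQsub, ?_, ?_, ?_, ?_⟩
  · simp
  · rw [Finset.disjoint_left]
    intro x hx hxb
    exact hsep x hx (hmem x hxb)
  · exact Finset.filter_subset _ _
  · intro v hv w hw hvw
    by_cases hws : w ∈ s
    · exact Or.inr (Or.inr hws)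
    · exact Or.inl (hQcl v hv w (Finset.mem_sdiff.2 ⟨hw, hws⟩) hvw)
  · intro v hv w hw hvw
    by_cases hws : w ∈ s
    · exact Or.inr (Or.inr hws)
    · by_cases hwa : w = u
      · exact Or.inr (Or.inl (Finset.mem_singleton.2 hwa))
      · left
        have hwR : w ∈ R1 \ s := Finset.mem_sdiff.2 ⟨hw, hws⟩
        rw [hQb, Finset.mem_filter]
        exact ⟨hwR, Rch_step (hmem v hv) hvw ⟨hwR, fun h => hwa (Set.mem_singleton_iff.1 h)⟩⟩
  · refine ⟨hPA, IsP.single hb, ha', hbQb, ?_, ?_, ?_⟩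
    · intro y hy h
      rcases h with h | h
      · exact hfirst y hy h
      · exact (hPAb y hy h).elim
    · intro y hy _
      exact List.mem_singleton.1 hy
    · intro y hy hyb
      rw [List.mem_singleton.1 hyb] at hy
      exact hPAb b hy hbQb

/-- ROW L4b. `Worlds` is symmetric in `a` and `b`. -/
theorem Worlds.symm (G : V → V → Prop) (R : Finset V) (a b : V) (h : Worlds G R a b) :
    Worlds G R b a := by
  obtain ⟨s, Ea, Eb, Qa, Qb, a', b', PA, PB, h1, h2, h3, h4, h5, h6, h7, h8, h9⟩ := h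
  obtain ⟨l1, l2, l3, l4, l5, l6, l7⟩ := h9
  refine ⟨s, Eb, Ea, Qb, Qa, b', a', PB, PA, h1, h2, ?_, h4.symm, h6, h5, h8, h7, ?_⟩
  · omega
  · exact ⟨l2, l1, l4, l3, fun y hy h => l6 y hy h.symm, fun y hy h => l5 y hy h.symm, l7.symm⟩

end MP_ad30dc_co
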