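import Pool.Agent.Lib.MP_ad30dc_co.R1

namespace MP_ad30dc_co

variable {V : Type*} [DecidableEq V]

/-- Initial segment up to `x`, avoiding the last vertex. -/
private theorem L5_init {V : Type*} {G : V → V → Prop} {R : Set V} {u v x : V} {L : List V}
    (hL : IsP G R u v L) (hx : x ∈ L) (hxv : x ≠ v) :
    ∃ L1, IsP G R u x L1 ∧ (∀ y ∈ L1, y ∈ L) ∧ v ∉ L1 := by
  obtain ⟨l1, l2, rfl⟩ := List.append_of_mem hx
  obtain ⟨h1, h2, h3, h4, h5⟩ := hL
  have e : l1 ++ x :: l2 = (l1 ++ [x]) ++ l2 := by simp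
  refine ⟨l1 ++ [x], ⟨?_, ?_, ?_, ?_, ?_⟩, ?_, ?_⟩
  · rw [e] at h1
    exact (List.isChain_append.1 h1).1
  · rw [e] at h2
    exact (List.nodup_append.1 h2).1
  · intro y hy
    apply h3
    rw [e]
    exact List.mem_append_left _ hy
  · rw [← h4]
    cases l1 <;> simp
  · simp
  · intro y hy
    rw [e]
    exact List.mem_append_left _ hy
  · intro hv
    have hl2 : l2 ≠ [] := by
      rintro rfl
      apply hxv
      have : (l1 ++ [x]).getLast? = some x := by simp
      rw [this] at h5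
      exact Option.some.inj h5
    have hv2 : v ∈ l2 := by
      rw [e, List.getLast?_append_of_ne_nil _ hl2] at h5
      exact List.mem_of_getLast? h5
    rw [e, List.nodup_append] at h2
    exact h2.2.2 v hv v hv2 rfl

/-- Final segment from `x`, avoiding the first vertex. -/
private theorem L5_final {V : Type*} {G : V → V → Prop} {R : Set V} {u v x : V} {L : List V}
    (hL : IsP G R u v L) (hx : x ∈ L) (hxu : x ≠ u) :
    ∃ L1, IsP G R x v L1 ∧ (∀ y ∈ L1, y ∈ L) ∧ u ∉ L1 := by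
  obtain ⟨l1, l2, rfl⟩ := List.append_of_mem hx
  obtain ⟨h1, h2, h3, h4, h5⟩ := hL
  refine ⟨x :: l2, ⟨?_, ?_, ?_, rfl, ?_⟩, ?_, ?_⟩
  · exact (List.isChain_append.1 h1).2.1
  · exact (List.nodup_append.1 h2).2.1
  · intro y hy
    exact h3 y (List.mem_append_right _ hy)
  · rw [List.getLast?_append_of_ne_nil _ (by simp)] at h5
    exact h5
  · intro y hy
    exact List.mem_append_right _ hy
  · intro hu
    have hl1 : l1 ≠ [] := by
      rintro rfl
      apply hxu
      simpa using h4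
    have hu1 : u ∈ l1 := by
      obtain ⟨z, l, rfl⟩ := List.exists_cons_of_ne_nil hl1
      simp at h4
      simp [h4]
    rw [List.nodup_append] at h2
    exact h2.2.2 u hu1 u hu rfl

/-- ROW L5 (Case 3.3.1). `s` separates `{a, b}` from `Qs` in `R` (`hs`), `c` separates `{a, b}`
from `Q1` in `R \ {s}` (`hc`), `Qs` is reachable from `s` inside `R` and `Q1` is reachable from `c`
inside `R \ {s}`; there are disjoint paths `A` from `a` to `s` and `B` from `b` to `c` inside `R`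
(neither contains the end of the other). Then extend `A` by a path `Ps` from `s` to the first
vertex of `Qs` and `B` by a path `P1` from `c` inside `R \ {s}` to the first vertex of `Q1`, and
take `Qa = Qs`, `Qb = Q1`, the set `s` of `Worlds` is empty, `Ea = ∅`, `Eb = {s}`.
Checks (each `y` below would contradict `hs` or `hc`):
`y ∈ A ∩ Ps`, `y ≠ s`: from `a` along `A` to `y` and along `Ps` to `Qs`, avoiding `s`;
`y ∈ B ∩ Ps`: `y ≠ s` as `A`, `B` are disjoint; from `b` to `y` to `Qs` avoiding `s`;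
`y ∈ B ∩ P1`, `y ≠ c`: from `b` along `B` (avoids `s` and `c`) to `y`, then along `P1` to `Q1`;
`y ∈ A ∩ P1`: `y ≠ s`, `y ≠ c` (`c ∈ B`), from `a` along `A` (avoids `s`: initial segment; and `c`)
to `y`, along `P1` to `Q1`: inside `R \ {s}` and avoiding `c`;
`y ∈ Ps ∩ P1`: `y ≠ s`; `y` is reachable from `b` inside `R \ {s}` (via `B`, `P1`), then along `Ps`
to `Qs` avoiding `s`.
`Qs ∩ Q1 = ∅`, `P1 ∩ Qs = ∅`, `B ∩ Qs = ∅`: elements of `Q1`, `P1`, `B` are reachable from `{a, b}`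
inside `R \ {s}` (for `Q1` use that it is strongly connected: every vertex of it is reachable from
the end of `P1`); `A ∩ Q1 = ∅`: an element of `A ∩ Q1` is reachable from `a` inside `R \ {s}` and
avoiding `c` (it is not `s` since `Q1 ⊆ R \ {s}`); `Ps ∩ Q1 = ∅`: such a vertex is reachable from
`{a, b}` inside `R \ {s}` and leads along `Ps` to `Qs` avoiding `s`; if the first vertex of `Qs` on
`Ps` is `s` itself (`s ∈ Qs`) then `Ps = [s]`. -/
theorem worlds_of_two (G : V → V → Prop) (R : Finset V) (a b s c : V) (hab : a ≠ b)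
    (ha : a ∈ R) (hb : b ∈ R) (hsR : s ∈ R) (hcR : c ∈ R) (hsc : s ≠ c)
    (hsa : s ≠ a) (hsb : s ≠ b)
    (Qs Q1 : Finset V) (hQs : IsTerm G R Qs) (hQ1 : IsTerm G (R \ {s}) Q1)
    (hs : ∀ q ∈ Qs, q ∉ Rch G (↑R \ {s}) {a, b})
    (hc : ∀ q ∈ Q1, q ∉ Rch G (↑(R \ {s}) \ {c}) {a, b})
    (hrs : ∃ q ∈ Qs, q ∈ Rch G (↑R) {s})
    (hrc : ∃ q ∈ Q1, q ∈ Rch G (↑(R \ {s})) {c})
    (A B : List V) (hA : IsP G (↑R) a s A) (hB : IsP G (↑R) b c B)
    (hAB : List.Disjoint A B) : Worlds G R a b := by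
  have eR : (↑(R \ {s}) : Set V) = (↑R : Set V) \ {s} := by
    rw [Finset.coe_sdiff, Finset.coe_singleton]
  have hsA : s ∈ A := hA.last_mem
  have hcB : c ∈ B := hB.last_mem
  have hsB : s ∉ B := fun h => hAB hsA h
  have hcA : c ∉ A := fun h => hAB h hcB
  -- the two additional paths
  obtain ⟨q0, hq0, u0, hu0, L0, hL0⟩ := hrs
  rw [Set.mem_singleton_iff] at hu0
  subst hu0
  obtain ⟨w0, hw0, Ps, hPs, -, hPsQ⟩ := hL0.first_hit (↑Qs : Set V) (Finset.mem_coe.2 hq0)
  obtain ⟨q1, hq1, u1, hu1, L1, hL1⟩ := hrc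
  rw [Set.mem_singleton_iff] at hu1
  subst hu1
  obtain ⟨w1, hw1, P1, hP1, -, hP1Q⟩ := hL1.first_hit (↑Q1 : Set V) (Finset.mem_coe.2 hq1)
  rw [Finset.mem_coe] at hw0 hw1
  have haAB : a ∈ ({a, b} : Set V) := by simp
  have hbAB : b ∈ ({a, b} : Set V) := by simp
  -- membership facts
  have hP1s : ∀ y ∈ P1, y ≠ u0 := by
    intro y hy h
    have := hP1.2.2.1 y hy
    rw [eR] at this
    exact this.2 (by simpa using h)
  have hQ1s : ∀ y ∈ Q1, y ≠ u0 := by
    intro y hy h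
    have := hQ1.2.1 hy
    rw [Finset.mem_sdiff, Finset.mem_singleton] at this
    exact this.2 h
  have K1' : ∀ y ∈ A, y ≠ u0 → y ∈ Rch G (↑(R \ {u0}) \ {u1}) {a, b} := by
    intro y hy hys
    obtain ⟨L, hL, hLA, hsL⟩ := L5_init hA hy hys
    refine ⟨a, haAB, L, hL.of_mem ?_⟩
    intro z hz
    rw [eR]
    refine ⟨⟨hL.2.2.1 z hz, ?_⟩, ?_⟩
    · intro h
      rw [Set.mem_singleton_iff] at h
      exact hsL (h ▸ hz)
    · intro h
      rw [Set.mem_singleton_iff] at h
      exact hcA (h ▸ hLA z hz)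
  have hsub : Rch G (↑(R \ {u0}) \ {u1}) {a, b} ⊆ Rch G (↑R \ {u0}) {a, b} := by
    apply Rch_mono _ le_rfl
    rw [eR]
    exact Set.sdiff_subset
  have K1 : ∀ y ∈ A, y ≠ u0 → y ∈ Rch G (↑R \ {u0}) {a, b} := fun y hy hys => hsub (K1' y hy hys)
  have K2 : ∀ y ∈ B, y ∈ Rch G (↑R \ {u0}) {a, b} := by
    intro y hy
    obtain ⟨L, hL, hLB⟩ := hB.split_left hy
    exact Rch_avoid hbAB hL (fun h => hsB (hLB _ h))
  have K2' : ∀ y ∈ B, y ≠ u1 → y ∈ Rch G (↑(R \ {u0}) \ {u1}) {a, b} := by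
    intro y hy hyc
    obtain ⟨L, hL, hLB, hcL⟩ := L5_init hB hy hyc
    refine ⟨b, hbAB, L, hL.of_mem ?_⟩
    intro z hz
    rw [eR]
    refine ⟨⟨hL.2.2.1 z hz, ?_⟩, ?_⟩
    · intro h
      rw [Set.mem_singleton_iff] at h
      exact hsB (h ▸ hLB z hz)
    · intro h
      rw [Set.mem_singleton_iff] at h
      exact hcL (h ▸ hz)
  have K3 : ∀ y ∈ P1, y ∈ Rch G (↑R \ {u0}) {a, b} := by
    apply Rch_path (K2 u1 hcB) (v := w1)
    rw [← eR]
    exact hP1
  have K4 : ∀ y ∈ Q1, y ∈ Rch G (↑R \ {u0}) {a, b} := by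
    intro y hy
    refine Rch_trans (K3 w1 hP1.last_mem) (Rch_mono ?_ le_rfl (hQ1.2.2.2 w1 hw1 y hy))
    rw [← eR]
    exact Finset.coe_subset.2 hQ1.2.1
  have K5 : ∀ y ∈ Ps, y ≠ u0 → y ∉ Rch G (↑R \ {u0}) {a, b} := by
    intro y hy hys hr
    obtain ⟨L, hL, -, hsL⟩ := L5_final hPs hy hys
    apply hs w0 hw0
    refine Rch_trans hr ?_
    exact Rch_avoid (Set.mem_singleton y) hL hsL
  have K6 : ∀ y ∈ P1, y ≠ u1 → y ∉ Rch G (↑(R \ {u0}) \ {u1}) {a, b} := by
    intro y hy hyc hr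
    obtain ⟨L, hL, -, hcL⟩ := L5_final hP1 hy hyc
    apply hc w1 hw1
    refine Rch_trans hr ?_
    exact Rch_avoid (Set.mem_singleton y) hL hcL
  -- the worlds
  have hPA : IsP G (↑R) a w0 (A ++ Ps.tail) := by
    apply hA.append hPs
    intro y hy hy2
    by_contra h
    exact K5 y hy2 h (K1 y hy h)
  have hP1R : IsP G (↑R) u1 w1 P1 := by
    apply hP1.mono
    rw [eR]
    exact Set.sdiff_subset
  have hPB : IsP G (↑R) b w1 (B ++ P1.tail) := by
    apply hB.append hP1R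
    intro y hy hy2
    by_contra h
    exact K6 y hy2 h (K2' y hy h)
  have mA : ∀ y ∈ A ++ Ps.tail, y ∈ A ∨ y ∈ Ps := by
    intro y hy
    rcases List.mem_append.1 hy with h | h
    · exact Or.inl h
    · exact Or.inr (List.mem_of_mem_tail h)
  have mB : ∀ y ∈ B ++ P1.tail, y ∈ B ∨ y ∈ P1 := by
    intro y hy
    rcases List.mem_append.1 hy with h | h
    · exact Or.inl h
    · exact Or.inr (List.mem_of_mem_tail h)
  refine ⟨∅, ∅, {u0}, Qs, Q1, w0, w1, A ++ Ps.tail, B ++ P1.tail, by simp, by simp, by simp,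
    ?_, ?_, ?_, ?_, ?_, ?_⟩
  · rw [Finset.disjoint_left]
    intro y hy hy2
    exact hs y hy (K4 y hy2)
  · rw [Finset.sdiff_empty]
    exact hQs.2.1
  · rw [Finset.sdiff_empty]
    exact hQ1.2.1.trans Finset.sdiff_subset
  · intro v hv w hw hvw
    exact Or.inl (hQs.2.2.1 v hv w hw hvw)
  · intro v hv w hw hvw
    by_cases h : w = u0
    · exact Or.inr (Or.inl (by simpa using h))
    · exact Or.inl (hQ1.2.2.1 v hv w (by simp [hw, h]) hvw)
  · rw [Finset.sdiff_empty]
    refine ⟨hPA, hPB, hw0, hw1, ?_, ?_, ?_⟩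
    · intro y hy hQ
      rcases mA y hy with h | h
      · rcases hQ with h2 | h2
        · by_cases hys : y = u0
          · subst hys
            exact hPsQ y hPs.head_mem (Finset.mem_coe.2 h2)
          · exact absurd (K1 y h hys) (hs y h2)
        · exact absurd (K1' y h (hQ1s y h2)) (hc y h2)
      · rcases hQ with h2 | h2
        · exact hPsQ y h (Finset.mem_coe.2 h2)
        · exact absurd (K4 y h2) (K5 y h (hQ1s y h2))
    · intro y hy hQ
      rcases mB y hy with h | h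
      · rcases hQ with h2 | h2
        · exact absurd (K2 y h) (hs y h2)
        · by_cases hyc : y = u1
          · subst hyc
            exact hP1Q y hP1.head_mem (Finset.mem_coe.2 h2)
          · exact absurd (K2' y h hyc) (hc y h2)
      · rcases hQ with h2 | h2
        · exact absurd (K3 y h) (hs y h2)
        · exact hP1Q y h (Finset.mem_coe.2 h2)
    · intro y hyA hyB
      rcases mA y hyA with h | h
      · rcases mB y hyB with h2 | h2
        · exact hAB h h2
        · exact K6 y h2 (fun e => hcA (e ▸ h)) (K1' y h (hP1s y h2))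
      · rcases mB y hyB with h2 | h2
        · exact K5 y h (fun e => hsB (e ▸ h2)) (K2 y h2)
        · exact K5 y h (hP1s y h2) (K3 y h2)

end MP_ad30dc_co
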