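import Pool.Agent.Lib.MP_ad30dc_co.L2
import Pool.Agent.Lib.MP_ad30dc_co.L3
import Pool.Agent.Lib.MP_ad30dc_co.L4
import Pool.Agent.Lib.MP_ad30dc_co.L5

namespace MP_ad30dc_co

variable {V : Type*} [DecidableEq V]

omit [DecidableEq V] in
/-- A vertex `t` that separates `A` from `q` lies on every path: `t` is reachable from `A`, and `q`
is reachable from `t`. -/
private theorem L6_thr {G : V → V → Prop} {R A : Set V} {q t : V} (h : q ∈ Rch G R A)
    (hn : q ∉ Rch G (R \ {t}) A) : t ∈ Rch G R A ∧ q ∈ Rch G R {t} := by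
  obtain ⟨u, hu, L, hL⟩ := h
  have ht : t ∈ L := by
    by_contra hc
    exact hn (Rch_avoid hu hL hc)
  obtain ⟨L1, hL1, _⟩ := hL.split_left ht
  obtain ⟨L2, hL2, _⟩ := hL.split_right ht
  exact ⟨⟨u, hu, L1, hL1⟩, ⟨t, rfl, L2, hL2⟩⟩

omit [DecidableEq V] in
/-- If `t` is not reachable when `z` is removed, then everything that is reachable without `z` is
reachable without `t`. -/
private theorem L6_swap {G : V → V → Prop} {R A : Set V} {q t z : V}
    (ht : t ∉ Rch G (R \ {z}) A) (h : q ∈ Rch G (R \ {z}) A) : q ∈ Rch G (R \ {t}) A := by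
  obtain ⟨u, hu, L, hL⟩ := h
  have htL : t ∉ L := by
    intro hc
    obtain ⟨L1, hL1, _⟩ := hL.split_left hc
    exact ht ⟨u, hu, L1, hL1⟩
  exact Rch_avoid hu (hL.mono Set.sdiff_subset) htL

/-- ROW L6a. Apply `exists_term` to `R0 = {v ∈ R | v ∈ Rch G R {a, b}}` (nonempty: contains `a`).
`R0` is closed in `R`, so `Q` is closed in `R`. -/
theorem exists_reachable_term (G : V → V → Prop) (R : Finset V) (a b : V) (ha : a ∈ R) :
    ∃ Q, IsTerm G R Q ∧ ∀ q ∈ Q, q ∈ Rch G (↑R) {a, b} := by
  classical
  have ha0 : a ∈ R.filter (fun v => v ∈ Rch G (↑R) {a, b}) := by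
    rw [Finset.mem_filter]
    exact ⟨ha, Rch_base (by simp) (Finset.mem_coe.2 ha)⟩
  obtain ⟨Q, hne, hsub, hcl, hconn⟩ :=
    exists_term G (R.filter (fun v => v ∈ Rch G (↑R) {a, b})) ⟨a, ha0⟩
  refine ⟨Q, ⟨hne, fun v hv => (Finset.mem_filter.1 (hsub hv)).1, ?_, hconn⟩,
    fun q hq => (Finset.mem_filter.1 (hsub hq)).2⟩
  intro v hv w hw hvw
  refine hcl v hv w ?_ hvw
  rw [Finset.mem_filter]
  exact ⟨hw, Rch_step (Finset.mem_filter.1 (hsub hv)).2 hvw (Finset.mem_coe.2 hw)⟩

/-- ROW L6b. Apply `two_linked` inside `R \ s` to `Q`. If there are paths: `OneWorld`. Otherwise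
there is `t ∈ R \ s` such that no `q ∈ Q` is reachable from `{a, b}` inside `(R \ s) \ {t}`. If
`t = a`: by `hreach` some `q ∈ Q` is reachable from `a` or `b` inside `R \ s` by a path; this path
contains `a` (otherwise `Rch_avoid`), its final segment from `a` (`split_right`) shows
`q ∈ Rch G (R \ s) {a}`; `worlds_of_sep` applies (`Rch_mono` for `{b} ⊆ {a, b}`). If `t = b`: the
same with `a`, `b` exchanged and `Worlds.symm`. -/
theorem one_or_worlds_or_sep (G : V → V → Prop) (R s : Finset V) (hs : s.card ≤ 1) (hsR : s ⊆ R)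
    (a b : V) (ha : a ∈ R \ s) (hb : b ∈ R \ s) (hab : a ≠ b) (Q : Finset V)
    (hQ : IsTerm G (R \ s) Q) (hreach : ∀ q ∈ Q, q ∈ Rch G (↑(R \ s)) {a, b}) :
    OneWorld G R a b ∨ Worlds G R a b ∨
      ∃ t ∈ R \ s, t ≠ a ∧ t ≠ b ∧ ∀ q ∈ Q, q ∉ Rch G (↑(R \ s) \ {t}) {a, b} := by
  rcases two_linked G (R \ s) a b ha hb hab Q hQ.2.1 with
    ⟨a', b', PA, PB, hL⟩ | ⟨t, ht, hsep⟩
  · exact Or.inl ⟨s, Q, a', b', PA, PB, hs, hsR, hQ, hL⟩
  · obtain ⟨q, hq⟩ := hQ.1
    have hthr := (L6_thr (hreach q hq) (hsep q hq)).2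
    by_cases hta : t = a
    · subst hta
      exact Or.inr (Or.inl (worlds_of_sep G R s hs hsR t b ha hb hab Q hQ ⟨q, hq, hthr⟩
        (fun q' hq' h => hsep q' hq' (Rch_mono subset_rfl (by simp) h))))
    · by_cases htb : t = b
      · subst htb
        exact Or.inr (Or.inl (Worlds.symm G R t a (worlds_of_sep G R s hs hsR t a hb ha
          (Ne.symm hab) Q hQ ⟨q, hq, hthr⟩
          (fun q' hq' h => hsep q' hq' (Rch_mono subset_rfl (by simp) h)))))
      · exact Or.inr (Or.inr ⟨t, ht, hta, htb, hsep⟩)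

/-- ROW L6c (the case analysis). Suppose neither `OneWorld` nor `Worlds` holds.
Let `Good t Q` mean: `t ∈ R`, `t ≠ a`, `t ≠ b`, `IsTerm G R Q`, all `q ∈ Q` are in
`Rch G R {a, b}`, and no `q ∈ Q` is in `Rch G (R \ {t}) {a, b}`. By `exists_reachable_term` and
`one_or_worlds_or_sep` with `s = ∅` some good pair exists. Choose a good pair `(t, Qt)` such that
the finite set `U t := Rch G (R \ {t}) {a, b}` has minimal cardinality.
Apply `exists_reachable_term` in `R \ {t}` and `one_or_worlds_or_sep` with `s = {t}`: we get `Q1`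
(terminal in `R \ {t}`, reachable) and `c ∈ R \ {t}`, `c ≠ a`, `c ≠ b`, that separates `{a, b}` from
`Q1` inside `R \ {t}`. Facts: (F1) `c ∈ U t` (a path from `{a, b}` to `Q1` inside `R \ {t}` contains
`c`: initial segment), and some `q ∈ Q1` is reachable from `c` inside `R \ {t}` (final segment);
(F2) some `q ∈ Qt` is reachable from `t` inside `R`.
Apply `two_linked` inside `R` to the target set `{t, c}`.
(i) Paths: since the paths are disjoint and meet `{t, c}` only in their last vertices, one ends in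
`t` and the other in `c`. If the path from `a` ends in `t`: `worlds_of_two` gives `Worlds G R a b`.
If the path from `b` ends in `t`: `worlds_of_two` for `b, a` (the pair set `{b, a} = {a, b}`) and
`Worlds.symm`.
(ii) `z ∈ R` with `t, c ∉ Rch G (R \ {z}) {a, b}`. `z ≠ t` by (F1). If `z = a`: no `q ∈ Qt` is in
`Rch G (R \ {a}) {b}` (such a path would contain `t`, since `t` separates, so `t` would be
reachable), and some `q ∈ Qt` is reachable from `a` inside `R` (a path from `{a, b}` contains `a`,
otherwise it starts in `b` and avoids `a`), so `worlds_of_sep` with `s = ∅` gives `Worlds`. `z = b`: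
symmetric. Otherwise `(z, Qt)` is good (a path from `{a, b}` to `q ∈ Qt` inside `R \ {z}` would
contain `t`), and `U z ⊆ U t` (if the path to `y ∈ U z` contained `t` then `t ∈ U z`), and
`c ∈ U t`, `c ∉ U z`: contradiction to the minimality. -/
theorem world_cases (G : V → V → Prop) (R : Finset V) (a b : V) (ha : a ∈ R) (hb : b ∈ R)
    (hab : a ≠ b) : OneWorld G R a b ∨ Worlds G R a b := by
  classical
  by_contra hcon
  rw [not_or] at hcon
  obtain ⟨h1, h2⟩ := hcon
  have key : ∀ n : ℕ, ∀ t ∈ R, t ≠ a → t ≠ b → ∀ Q, IsTerm G R Q →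
      (∀ q ∈ Q, q ∈ Rch G (↑R) {a, b}) → (∀ q ∈ Q, q ∉ Rch G (↑R \ {t}) {a, b}) →
      (R.filter (fun v => v ∈ Rch G (↑R \ {t}) {a, b})).card = n → False := by
    intro n
    induction n using Nat.strong_induction_on with
    | _ n ih =>
      intro t ht hta htb Qt hQt hreach hsep hn
      have ha' : a ∈ R \ {t} := by
        rw [Finset.mem_sdiff, Finset.mem_singleton]
        exact ⟨ha, Ne.symm hta⟩
      have hb' : b ∈ R \ {t} := by
        rw [Finset.mem_sdiff, Finset.mem_singleton]
        exact ⟨hb, Ne.symm htb⟩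
      obtain ⟨Q1, hQ1, hreach1⟩ := exists_reachable_term G (R \ {t}) a b ha'
      rcases one_or_worlds_or_sep G R {t} (by simp) (by simpa using ht) a b ha' hb' hab Q1 hQ1
        hreach1 with h | h | ⟨c, hc, hca, hcb, hsep1⟩
      · exact h1 h
      · exact h2 h
      rw [Finset.mem_sdiff, Finset.mem_singleton] at hc
      obtain ⟨hcR, hct⟩ := hc
      obtain ⟨q1, hq1⟩ := hQ1.1
      obtain ⟨q0, hq0⟩ := hQt.1
      obtain ⟨hc1, hc2⟩ := L6_thr (hreach1 q1 hq1) (hsep1 q1 hq1)
      obtain ⟨ht1, ht2⟩ := L6_thr (hreach q0 hq0) (hsep q0 hq0)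
      have hcU : c ∈ Rch G (↑R \ {t}) {a, b} := by
        have he : ((R \ {t} : Finset V) : Set V) = ↑R \ {t} := by
          rw [Finset.coe_sdiff, Finset.coe_singleton]
        rw [← he]
        exact hc1
      rcases two_linked G R a b ha hb hab {t, c} (by
        intro x hx
        rw [Finset.mem_insert, Finset.mem_singleton] at hx
        rcases hx with rfl | rfl
        · exact ht
        · exact hcR) with ⟨a', b', PA, PB, hPA, hPB, ha1, hb1, _, _, hdis⟩ | ⟨z, hz, hzs⟩
      · have hne : a' ≠ b' := by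
          intro he
          subst he
          exact hdis hPA.last_mem hPB.last_mem
        rw [Finset.mem_insert, Finset.mem_singleton] at ha1 hb1
        rcases ha1 with rfl | rfl
        · rcases hb1 with rfl | rfl
          · exact hne rfl
          · exact h2 (worlds_of_two G R a b a' b' hab ha hb ht hcR (Ne.symm hct) hta htb Qt Q1
              hQt hQ1 hsep hsep1 ⟨q0, hq0, ht2⟩ ⟨q1, hq1, hc2⟩ PA PB hPA hPB hdis)
        · rcases hb1 with rfl | rfl
          · refine h2 (Worlds.symm G R b a (worlds_of_two G R b a b' a' (Ne.symm hab) hb ha ht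
              hcR (Ne.symm hct) htb hta Qt Q1 hQt hQ1 ?_ ?_ ⟨q0, hq0, ht2⟩ ⟨q1, hq1, hc2⟩ PB PA
              hPB hPA hdis.symm))
            · rw [Set.pair_comm]
              exact hsep
            · rw [Set.pair_comm]
              exact hsep1
          · exact hne rfl
      · have htz : t ∉ Rch G (↑R \ {z}) {a, b} := hzs t (by simp)
        have hcz : c ∉ Rch G (↑R \ {z}) {a, b} := hzs c (by simp)
        have hnoz : ∀ q ∈ Qt, q ∉ Rch G (↑R \ {z}) {a, b} := fun q hq h =>
          hsep q hq (L6_swap htz h)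
        have hq0z := (L6_thr (hreach q0 hq0) (hnoz q0 hq0)).2
        by_cases hza : z = a
        · subst hza
          refine h2 (worlds_of_sep G R ∅ (by simp) (by simp) z b (by simpa using ha)
            (by simpa using hb) hab Qt (by simpa using hQt) ⟨q0, hq0, by simpa using hq0z⟩ ?_)
          intro q hq h
          rw [Finset.sdiff_empty] at h
          exact hnoz q hq (Rch_mono subset_rfl (by simp) h)
        · by_cases hzb : z = b
          · subst hzb
            refine h2 (Worlds.symm G R z a (worlds_of_sep G R ∅ (by simp) (by simp) z a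
              (by simpa using hb) (by simpa using ha) (Ne.symm hab) Qt (by simpa using hQt)
              ⟨q0, hq0, by simpa using hq0z⟩ ?_))
            intro q hq h
            rw [Finset.sdiff_empty] at h
            exact hnoz q hq (Rch_mono subset_rfl (by simp) h)
          · refine ih (R.filter (fun v => v ∈ Rch G (↑R \ {z}) {a, b})).card ?_ z hz hza hzb Qt
              hQt hreach hnoz rfl
            rw [← hn]
            apply Finset.card_lt_card
            rw [Finset.ssubset_iff_of_subset]
            · refine ⟨c, ?_, ?_⟩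
              · rw [Finset.mem_filter]
                exact ⟨hcR, hcU⟩
              · rw [Finset.mem_filter]
                exact fun h => hcz h.2
            · intro y hy
              rw [Finset.mem_filter] at hy ⊢
              exact ⟨hy.1, L6_swap htz hy.2⟩
  obtain ⟨Q, hQ, hreach⟩ := exists_reachable_term G R a b ha
  rcases one_or_worlds_or_sep G R ∅ (by simp) (by simp) a b (by simpa using ha)
    (by simpa using hb) hab Q (by simpa using hQ) (by simpa using hreach) with
    h | h | ⟨t, ht, hta, htb, hsep⟩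
  · exact h1 h
  · exact h2 h
  · rw [Finset.sdiff_empty] at ht
    refine key _ t ht hta htb Q hQ hreach ?_ rfl
    intro q hq h
    refine hsep q hq ?_
    rw [Finset.sdiff_empty]
    exact h

end MP_ad30dc_co
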