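import Pool.Agent.Lib.MP_ad30dc_co.R1
import Pool.Agent.Lib.MP_ad30dc_co.K2

namespace MP_ad30dc_co

variable {V : Type*} [Fintype V] [DecidableEq V]

private theorem L7_exit_card (G : V → V → Prop) (T S X R Y : Finset V) (m : ℕ) (c d : V)
    (hmin : ∀ T' : Finset V, T' ⊂ T → T'.Nonempty → m < (bdry G T').card)
    (hRT : R ⊆ T) (hE : Exits G R X S) (hc : c ∈ R) (hd : d ∈ T) (hdR : d ∉ R)
    (hY : ∀ v, v ∈ Y ↔ v ∈ Rch G (↑R) {c}) :
    m < X.card + (bdry G Y ∩ S).card := by
  have hYR : Y ⊆ R := by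
    intro v hv
    exact Rch_subset ((hY v).1 hv)
  have hcY : c ∈ Y := (hY c).2 (Rch_base (by simp) hc)
  have h1 : Y ⊂ T := by
    refine Finset.ssubset_iff_subset_ne.2 ⟨hYR.trans hRT, ?_⟩
    rintro rfl
    exact hdR (hYR hd)
  have h2 := hmin Y h1 ⟨c, hcY⟩
  have h3 : bdry G Y ⊆ X ∪ (bdry G Y ∩ S) := by
    intro w hw
    have hw' := mem_bdry.1 hw
    obtain ⟨hwY, v, hvY, hvw⟩ := hw'
    rcases hE v (hYR hvY) w hvw with h | h | h
    · exact absurd ((hY w).2 (Rch_step ((hY v).1 hvY) hvw h)) hwY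
    · exact Finset.mem_union_left _ h
    · exact Finset.mem_union_right _ (Finset.mem_inter.2 ⟨hw, h⟩)
  have h4 := Finset.card_le_card h3
  have h5 := Finset.card_union_le X (bdry G Y ∩ S)
  omega

omit [Fintype V] [DecidableEq V] in
private theorem L7_path (G : V → V → Prop) (R : Set V) {c v w : V} (hv : v ∈ Rch G R {c})
    (hvw : G v w) (hw : w ∉ R) :
    ∃ L : List V, List.IsChain G (L ++ [w]) ∧ (L ++ [w]).Nodup ∧ (L ++ [w]).head? = some c ∧
      ∀ y ∈ L, y ∈ R := by
  obtain ⟨u, hu, L, hL⟩ := hv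
  have huc : u = c := hu
  subst huc
  obtain ⟨h1, h2, h3, h4, h5⟩ := hL
  refine ⟨L, ?_, ?_, ?_, h3⟩
  · rw [List.isChain_append]
    refine ⟨h1, by simp, ?_⟩
    intro x hx y hy
    rw [h5] at hx
    simp only [List.head?_cons, Option.mem_def, Option.some.injEq] at hx hy
    subst hx
    subst hy
    exact hvw
  · rw [List.nodup_append]
    refine ⟨h2, by simp, ?_⟩
    intro y hy z hz hyz
    subst hyz
    have : y = w := by simpa using hz
    subst this
    exact hw (h3 y hy)
  · rw [List.head?_append, h4]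
    rfl

/-- ROW L7a (closing in State II). Let `Ya` be the finset of the vertices reachable from `a` inside
`Ra`, `Yb` in the same way. `Ya` is nonempty (`a`), contained in `T`, does not contain `b`, so
`Ya ⊂ T`; its boundary `bdry G Ya` is contained in `Xa ∪ S` (`Exits`; an out-neighbour in `Ra` of a
vertex of `Ya` is in `Ya`). So `m < |bdry G Ya| ≤ |Xa| + |bdry G Ya ∩ S|`, and the same for `b`.
Since `|S| + |Xa| + |Xb| < 2 m + 2`, the sets `bdry G Ya ∩ S` and `bdry G Yb ∩ S` have a common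
element `w` (`w ∈ S`, so `w ∉ W`, `w ∉ Ra`, `w ∉ Rb`). There is a path from `a` inside `Ra` to an
in-neighbour of `w`; append `w`: `PA`; in the same way `PB`. They have only `w` in common. Apply
`close_chain` (`w ≠ a, b`). -/
theorem close_II (G : V → V → Prop) (T S Xa Xb Ra Rb : Finset V) (lam : ℕ → ℕ) (j k m : ℕ)
    (hk : 1 ≤ k) (a b : V) (W : List V)
    (hmin : ∀ T' : Finset V, T' ⊂ T → T'.Nonempty → m < (bdry G T').card)
    (hst : StII G T S Xa Xb Ra Rb lam j k a b W)
    (hcard : S.card + Xa.card + Xb.card < 2 * m + 2) :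
    Clo G (fun i => lam (2 * j + i)) (2 * k) := by
  classical
  obtain ⟨⟨hchn, hWn, hWb, hWa, hWTS⟩, hRaT, hRbT, hRaS, hRbS, hRab, hEa, hEb, haR, hbR, hWRa,
    hWRb⟩ := hst
  set Ya : Finset V := Finset.univ.filter (fun v => v ∈ Rch G (↑Ra) {a}) with hYa
  set Yb : Finset V := Finset.univ.filter (fun v => v ∈ Rch G (↑Rb) {b}) with hYb
  have mYa : ∀ v, v ∈ Ya ↔ v ∈ Rch G (↑Ra) {a} := by
    intro v
    simp [hYa]
  have mYb : ∀ v, v ∈ Yb ↔ v ∈ Rch G (↑Rb) {b} := by
    intro v
    simp [hYb]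
  have c1 := L7_exit_card G T S Xa Ra Ya m a b hmin hRaT hEa haR (hRbT hbR)
    (fun h => Finset.disjoint_left.1 hRab h hbR) mYa
  have c2 := L7_exit_card G T S Xb Rb Yb m b a hmin hRbT hEb hbR (hRaT haR)
    (fun h => Finset.disjoint_left.1 hRab haR h) mYb
  have hcom : ∃ w ∈ S, w ∈ bdry G Ya ∧ w ∈ bdry G Yb := by
    by_contra hno
    have hdisj : Disjoint (bdry G Ya ∩ S) (bdry G Yb ∩ S) := by
      rw [Finset.disjoint_left]
      intro w hw1 hw2
      rw [Finset.mem_inter] at hw1 hw2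
      exact hno ⟨w, hw1.2, hw1.1, hw2.1⟩
    have h1 := Finset.card_union_of_disjoint hdisj
    have h2 : (bdry G Ya ∩ S) ∪ (bdry G Yb ∩ S) ⊆ S :=
      Finset.union_subset Finset.inter_subset_right Finset.inter_subset_right
    have h3 := Finset.card_le_card h2
    omega
  obtain ⟨w, hwS, hwa, hwb⟩ := hcom
  obtain ⟨-, va, hvaY, hvaw⟩ := mem_bdry.1 hwa
  obtain ⟨-, vb, hvbY, hvbw⟩ := mem_bdry.1 hwb
  have hwRa : w ∉ (↑Ra : Set V) := fun h => Finset.disjoint_left.1 hRaS h hwS
  have hwRb : w ∉ (↑Rb : Set V) := fun h => Finset.disjoint_left.1 hRbS h hwS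
  obtain ⟨LA, hA1, hA2, hA3, hA4⟩ := L7_path G (↑Ra) ((mYa va).1 hvaY) hvaw hwRa
  obtain ⟨LB, hB1, hB2, hB3, hB4⟩ := L7_path G (↑Rb) ((mYb vb).1 hvbY) hvbw hwRb
  have hab : a ≠ b := by
    rintro rfl
    exact Finset.disjoint_left.1 hRab haR hbR
  refine close_chain (W := W) (a := a) (b := b) (w := w) (even_two_mul k) (by omega) hchn hWn
    hWa hWb hab (LA ++ [w]) (LB ++ [w]) hA1 hA2 hA3 (by simp) hB1 hB2 hB3 (by simp) ?_ ?_
  · intro y hy1 hy2
    rcases List.mem_append.1 hy1 with h1 | h1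
    · rcases List.mem_append.1 hy2 with h2 | h2
      · exact absurd (hB4 y h2) (fun h => Finset.disjoint_left.1 hRab (hA4 y h1) h)
      · simpa using h2
    · simpa using h1
  · intro y hyW hy
    have hyS := (hWTS y hyW).2
    rcases hy with hy | hy
    · rcases List.mem_append.1 hy with h1 | h1
      · exact Or.inl (hWRa y hyW (hA4 y h1))
      · have : y = w := by simpa using h1
        subst this
        exact absurd hwS hyS
    · rcases List.mem_append.1 hy with h1 | h1
      · exact Or.inr (hWRb y hyW (hB4 y h1))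
      · have : y = w := by simpa using h1
        subst this
        exact absurd hwS hyS

/-- ROW L7b (closing in State I). Let `Ya`, `Yb` be the sets of vertices reachable from `a`, `b`
inside `R`. If they are disjoint: `StII` holds with `Ra = Ya`, `Rb = Yb`, `Xa = Xb = X`, and
`close_II` applies. Otherwise there is a path `PA` from `a` inside `R` whose last vertex `w` is in
`Yb` and whose other vertices are not in `Yb` (`first_hit`), and a path `PB` from `b` to `w` inside
`Yb` (`Rch_exists_path`); they have only `w` in common (if `y ∈ PA` and `y ∈ PB ⊆ Yb` then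
`y = w`). Apply `close_chain`. -/
theorem close_I (G : V → V → Prop) (T S X R : Finset V) (lam : ℕ → ℕ) (j k m : ℕ)
    (hk : 1 ≤ k) (a b : V) (W : List V)
    (hmin : ∀ T' : Finset V, T' ⊂ T → T'.Nonempty → m < (bdry G T').card)
    (hst : StI G T S X R lam j k a b W)
    (hcard : S.card + X.card + X.card < 2 * m + 2) :
    Clo G (fun i => lam (2 * j + i)) (2 * k) := by
  classical
  obtain ⟨hCh, hRT, hRS, hE, haR, hbR, hab, hWR⟩ := hst
  have hCh' := hCh
  obtain ⟨hchn, hWn, hWb, hWa, hWTS⟩ := hCh'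
  set Ya : Finset V := Finset.univ.filter (fun v => v ∈ Rch G (↑R) {a}) with hYa
  set Yb : Finset V := Finset.univ.filter (fun v => v ∈ Rch G (↑R) {b}) with hYb
  have mYa : ∀ v, v ∈ Ya ↔ v ∈ Rch G (↑R) {a} := by
    intro v
    simp [hYa]
  have mYb : ∀ v, v ∈ Yb ↔ v ∈ Rch G (↑R) {b} := by
    intro v
    simp [hYb]
  have hYaR : Ya ⊆ R := fun v hv => Rch_subset ((mYa v).1 hv)
  have hYbR : Yb ⊆ R := fun v hv => Rch_subset ((mYb v).1 hv)
  have haY : a ∈ Ya := (mYa a).2 (Rch_base (by simp) haR)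
  have hbY : b ∈ Yb := (mYb b).2 (Rch_base (by simp) hbR)
  by_cases hdisj : Disjoint Ya Yb
  · refine close_II G T S X X Ya Yb lam j k m hk a b W hmin ⟨hCh, hYaR.trans hRT, hYbR.trans hRT,
      Finset.disjoint_of_subset_left hYaR hRS, Finset.disjoint_of_subset_left hYbR hRS, hdisj,
      ?_, ?_, haY, hbY, ?_, ?_⟩ hcard
    · intro v hv w hvw
      rcases hE v (hYaR hv) w hvw with h | h | h
      · exact Or.inl ((mYa w).2 (Rch_step ((mYa v).1 hv) hvw h))
      · exact Or.inr (Or.inl h)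
      · exact Or.inr (Or.inr h)
    · intro v hv w hvw
      rcases hE v (hYbR hv) w hvw with h | h | h
      · exact Or.inl ((mYb w).2 (Rch_step ((mYb v).1 hv) hvw h))
      · exact Or.inr (Or.inl h)
      · exact Or.inr (Or.inr h)
    · intro v hvW hv
      rcases hWR v hvW (hYaR hv) with h | h
      · exact h
      · subst h
        exact absurd hbY (Finset.disjoint_left.1 hdisj hv)
    · intro v hvW hv
      rcases hWR v hvW (hYbR hv) with h | h
      · subst h
        exact absurd hv (Finset.disjoint_left.1 hdisj haY)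
      · exact h
  · rw [Finset.disjoint_left] at hdisj
    push Not at hdisj
    obtain ⟨z, hza, hzb⟩ := hdisj
    obtain ⟨u, hu, L, hL⟩ := (mYa z).1 hza
    have hua : u = a := hu
    subst hua
    obtain ⟨w, hwQ, PA, hPA, -, hfirst⟩ := hL.first_hit (Rch G (↑R) {b}) ((mYb z).1 hzb)
    obtain ⟨u', hu', PB, hPB⟩ := Rch_exists_path hwQ
    have hub : u' = b := hu'
    subst hub
    refine close_chain (W := W) (a := u) (b := u') (w := w) (even_two_mul k) (by omega) hchn hWn
      hWa hWb hab PA PB hPA.1 hPA.2.1 hPA.2.2.2.1 hPA.2.2.2.2 hPB.1 hPB.2.1 hPB.2.2.2.1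
      hPB.2.2.2.2 ?_ ?_
    · intro y hy1 hy2
      exact hfirst y hy1 (hPB.2.2.1 y hy2)
    · intro y hyW hy
      rcases hy with hy | hy
      · exact hWR y hyW (hPA.2.2.1 y hy)
      · exact hWR y hyW (Rch_subset (hPB.2.2.1 y hy))

end MP_ad30dc_co
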