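import Pool.Agent.Lib.MP_ad30dc_co.E2
import Pool.Agent.Lib.MP_ad30dc_co.F1
import Pool.Agent.Lib.MP_ad30dc_co.G1
import Pool.Agent.Lib.MP_ad30dc_co.G2
import Pool.Agent.Lib.MP_ad30dc_co.G3
import Pool.Agent.Lib.MP_ad30dc_co.H1

namespace MP_ad30dc_co

/-- ROW M1 (the final theorem). `L ≥ 1` (`hL` with `k = 1`). If `o` is constant (`o = fun _ => b`),
then `hL 0 (n - 1)` gives `n - 1 ≤ L ≤ 14 * numBlocks * L`, and `directed_case` applies. Otherwise
take `s` from `exists_start`, and pass to `o' i = o (i + s)` with `rotate`. Let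
`c j = o' (j : ZMod n)`: `c 0 = true`, `c (n-1) = false`. Take `r` from `parity`; by
`count_changes` `numBlocks n o = 2 * r`. `core` with `l = L - 1` (`28 * r * L = 14 * (2 r) * L`)
gives `W, z0`, `zig_fun` gives `A`, `stretch` gives `σ`, and `subdivision_of_fun` (with `zig_head`)
gives the subdivision of `orientedCycle n o'`. For `hrun` of `stretch`: for `i + k ≤ n` with
constant `c` on `[i, i + k)`: `k < n` (otherwise `i = 0`, `k = n` and `c (n - 1) = c 0`), then `hL`
with the start `(i : ZMod n) + s`. -/
theorem main {V : Type*} [Finite V] [Nonempty V] (n : ℕ) (hn : 3 ≤ n) (o : ZMod n → Bool) (L : ℕ)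
    (hL : ∀ (i : ZMod n) (k : ℕ), k < n → (∀ j < k, o (i + (j : ZMod n)) = o i) → k ≤ L)
    (D : Digraph V) (hD : ∀ v, ¬ D.Adj v v)
    (hdeg : ∀ v, 14 * numBlocks n o * L ≤ {w | D.Adj v w}.ncard) :
    ContainsSubdivision (orientedCycle n o) D := by
  classical
  haveI := Fintype.ofFinite V
  haveI : NeZero n := ⟨by omega⟩
  have hout : ∀ v, (out D.Adj Finset.univ v).card = {w | D.Adj v w}.ncard := by
    intro v
    rw [← Set.ncard_coe_finset]
    congr 1
    ext w
    simp
  have hnb : 1 ≤ numBlocks n o := le_max_left _ _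
  have hL1 : 1 ≤ L := by
    apply hL 0 1 (by omega)
    intro j hj
    have : j = 0 := by omega
    subst this
    simp
  by_cases hc : ∃ b, ∀ i, o i = b
  · obtain ⟨b, hb⟩ := hc
    have ho : o = fun _ => b := funext hb
    have hLn : n - 1 ≤ L := by
      apply hL 0 (n - 1) (by omega)
      intro j _
      rw [hb, hb]
    rw [ho]
    apply directed_case D hD n hn b
    intro v
    rw [hout v]
    refine le_trans ?_ (hdeg v)
    calc n - 1 ≤ L := hLn
      _ = 1 * L := (one_mul L).symm
      _ ≤ 14 * numBlocks n o * L := Nat.mul_le_mul_right L (by omega)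
  · have hex : ∀ b, ∃ i, o i = b := by
      intro b
      by_contra hno
      apply hc
      refine ⟨!b, fun i => ?_⟩
      have : o i ≠ b := fun h => hno ⟨i, h⟩
      revert this
      cases o i <;> cases b <;> simp
    obtain ⟨a, ha⟩ := hex true
    obtain ⟨b, hb⟩ := hex false
    obtain ⟨s, hs1, hs0⟩ := exists_start n hn o a b ha hb
    apply rotate n o s D
    have hcast : ((n - 1 : ℕ) : ZMod n) = -1 := by
      have h1 : ((n - 1 : ℕ) : ZMod n) + 1 = 0 := by
        have : ((n - 1 + 1 : ℕ) : ZMod n) = 0 := by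
          rw [Nat.sub_add_cancel (by omega)]
          exact ZMod.natCast_self n
        push_cast at this
        exact this
      exact eq_neg_of_add_eq_zero_left h1
    have hc0 : o (((0 : ℕ) : ZMod n) + s) = true := by simpa using hs1
    have hcn : o (((n - 1 : ℕ) : ZMod n) + s) = false := by
      rw [hcast, neg_add_eq_sub]
      exact hs0
    obtain ⟨r, hr1, hr⟩ := parity n (fun j : ℕ => o ((j : ZMod n) + s)) hc0 hcn
    have hcount := count_changes n hn o s hs1 hs0
    have hnb2 : numBlocks n o = 2 * r := by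
      unfold numBlocks
      rw [hcount, hr]
      exact max_eq_right (by omega)
    have hLL : L - 1 + 1 = L := Nat.sub_add_cancel hL1
    obtain ⟨W, z0, hzig, hWn⟩ := core D.Adj hD (L - 1) r (28 * r * L) hr1
      (by rw [hLL]) (by
        intro v
        rw [hout v]
        refine le_trans (le_of_eq ?_) (hdeg v)
        rw [hnb2]
        ring)
    rw [hLL] at hzig
    obtain ⟨A, hA0, hAK, hAL, hAadj⟩ := zig_fun hzig
    have hrun : ∀ i k, i + k ≤ n →
        (∀ j < k, (fun j : ℕ => o ((j : ZMod n) + s)) (i + j) =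
          (fun j : ℕ => o ((j : ZMod n) + s)) i) → k ≤ L := by
      intro i k hik hconst
      by_cases hk : k < n
      · apply hL ((i : ZMod n) + s) k hk
        intro j hj
        have h := hconst j hj
        simp only [Nat.cast_add] at h
        rw [← h]
        congr 1
        ring
      · have hkn : k = n := by omega
        have hi0 : i = 0 := by omega
        subst hi0
        have h := hconst (n - 1) (by omega)
        simp only [zero_add] at h
        rw [hcn, hc0] at h
        exact absurd h (by simp)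
    obtain ⟨σ, hσ0, hσn, hσlt, hσk⟩ := stretch n r L (fun j : ℕ => o ((j : ZMod n) + s)) A
      (by omega) hc0 hrun hr hA0 hAL
    refine subdivision_of_fun n hn (fun i => o (i + s)) D W z0 hWn (zig_head hzig) σ hσ0
      (by rw [hσn, hAK]) hσlt ?_
    intro j hj i hi1 hi2
    obtain ⟨k, hk, hke, hAk, hAk1⟩ := hσk j hj
    obtain ⟨h1, h2⟩ := hAadj k hk i (le_trans hAk hi1) (lt_of_lt_of_le hi2 hAk1)
    constructor
    · intro ho
      exact h1 (hke.2 ho)
    · intro ho
      apply h2
      rw [hke]
      have ho' : o ((j : ZMod n) + s) = false := ho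
      simp [ho']

end MP_ad30dc_co
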