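import Pool.Agent.Lib.MP_ad30dc_co.G3

namespace MP_ad30dc_co

/-- ROW N1 (the blocks of a cyclic word). Choose `s` with `o s = false`, `o (s - 1) = true` (a sink;
exists like in `exists_start` for the negated word: apply `exists_start` to `fun i => !(o i)`). Let
`c t = o (s + t)` for `t : ℕ` (periodic with period `n`), `c 0 = false`, `c (n - 1) = true`. Call
`t ≥ 0` a start if `t = 0` or `c t ≠ c (t - 1)`; `t` is a start iff `t + n` is a start (for `t = 0`:
`c n = false ≠ true = c (n - 1)`). Let `B k` be the `k`-th start (e.g. `Nat.nth`, or the recursion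
`B 0 = 0`, `B (k + 1) =` the least `t > B k` with `c t ≠ c (B k)`, which exists because `c` takes
both values on every interval of length `n`; `Nat.find`). Then `c` is constant on
`[B k, B (k + 1))` and alternates: `c (B k) = false` iff `k` is even. The number of starts in
`[0, n)` equals `numBlocks n o` (the `i : ZMod n` with `o i ≠ o (i + 1)` correspond to the starts
`t = (i + 1 - s).val`); it is even because `c n = c 0`; call it `2 r`. Since `n` is a start,
`B (2 r) = n`, and by periodicity `B (k + 2 r) = B k + n`. `r ≥ 1` since `0` is a start. -/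
theorem exists_blocks (n : ℕ) (hn : 3 ≤ n) (o : ZMod n → Bool) (a b : ZMod n)
    (ha : o a = true) (hb : o b = false) :
    ∃ (r : ℕ) (s : ZMod n) (B : ℕ → ℕ), 1 ≤ r ∧ numBlocks n o = 2 * r ∧ B 0 = 0 ∧
      (∀ k, B k < B (k + 1)) ∧ (∀ k, B (k + 2 * r) = B k + n) ∧
      ∀ k i, B k ≤ i → i < B (k + 1) → (o (s + (i : ZMod n)) = true ↔ ¬ Even k) := by
  classical
  have : NeZero n := ⟨by omega⟩
  obtain ⟨s, hs1, hs0⟩ := exists_start n hn (fun i => !(o i)) b a (by simp [hb]) (by simp [ha])
  have hs1' : o s = false := by simpa using hs1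
  have hs0' : o (s - 1) = true := by simpa using hs0
  obtain ⟨c, hc⟩ : ∃ c : ℕ → Bool, c = fun t : ℕ => o ((t : ZMod n) + s) := ⟨_, rfl⟩
  have hct : ∀ t : ℕ, c t = o ((t : ZMod n) + s) := fun t => by rw [hc]
  have hc0 : c 0 = false := by
    rw [hct, Nat.cast_zero, zero_add]
    exact hs1'
  have hcper : ∀ t, c (t + n) = c t := by
    intro t
    rw [hct, hct, Nat.cast_add, ZMod.natCast_self, add_zero]
  have hcn : c (n - 1) = true := by
    rw [hct]
    have e1 : ((n - 1 : ℕ) : ZMod n) + s = s - 1 := by
      rw [Nat.cast_sub (by omega), ZMod.natCast_self]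
      push_cast
      ring
    rw [e1]
    exact hs0'
  obtain ⟨r, hr1, hr⟩ := parity n (fun t => !(c t)) (by simp [hc0]) (by simp [hcn])
  have hcount := count_changes n hn (fun i => !(o i)) s hs1 hs0
  have hfil : ((Finset.range (n - 1)).filter (fun i => c i ≠ c (i + 1))).card + 1 = 2 * r := by
    rw [← hr]
    congr 2
    apply Finset.filter_congr
    intro i _
    simp
  have hnb : numBlocks n o = 2 * r := by
    unfold numBlocks
    have e1 : {i : ZMod n | o i ≠ o (i + 1)} =
        {i : ZMod n | (fun i => !(o i)) i ≠ (fun i => !(o i)) (i + 1)} := by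
      ext i
      simp
    rw [e1, hcount]
    have e2 : ((Finset.range (n - 1)).filter
        (fun i : ℕ => (fun i => !(o i)) ((i : ZMod n) + s) ≠
          (fun i => !(o i)) (((i + 1 : ℕ) : ZMod n) + s))).card + 1 = 2 * r := by
      rw [← hfil]
      congr 2
      apply Finset.filter_congr
      intro i _
      rw [hct, hct]
      simp
    rw [e2]
    exact max_eq_right (by omega)
  obtain ⟨Q, hQ⟩ : ∃ Q : ℕ → Prop, Q = fun t => t = 0 ∨ c t ≠ c (t - 1) := ⟨_, rfl⟩
  have hQt : ∀ t, Q t ↔ (t = 0 ∨ c t ≠ c (t - 1)) := fun t => by rw [hQ]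
  have hQper : ∀ t, Q (n + t) ↔ Q t := by
    intro t
    rw [hQt, hQt]
    rcases Nat.eq_zero_or_pos t with h | h
    · subst h
      refine ⟨fun _ => Or.inl rfl, fun _ => Or.inr ?_⟩
      rw [add_zero, hcn]
      have := hcper 0
      rw [zero_add] at this
      rw [this, hc0]
      decide
    · have e1 : c (n + t) = c t := by rw [add_comm]; exact hcper t
      have e2 : c (n + t - 1) = c (t - 1) := by
        have : n + t - 1 = (t - 1) + n := by omega
        rw [this]
        exact hcper _
      rw [e1, e2]
      constructor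
      · rintro (h1 | h1)
        · omega
        · exact Or.inr h1
      · rintro (h1 | h1)
        · omega
        · exact Or.inr h1
  have hQ0 : Q 0 := (hQt 0).mpr (Or.inl rfl)
  have hQn : ∀ m, Q (n * m) := by
    intro m
    induction m with
    | zero => rw [mul_zero]; exact hQ0
    | succ m ih =>
      have : n * (m + 1) = n + n * m := by ring
      rw [this]
      exact (hQper _).mpr ih
  have hinf : (Set.ofPred Q).Infinite := by
    refine Set.infinite_of_injective_forall_mem (f := fun m : ℕ => n * m) ?_ hQn
    intro x y hxy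
    exact Nat.eq_of_mul_eq_mul_left (by omega) hxy
  have hcnt : Nat.count Q n = 2 * r := by
    obtain ⟨m, rfl⟩ : ∃ m, n = m + 1 := ⟨n - 1, by omega⟩
    rw [Nat.count_succ', if_pos hQ0, ← hfil, Nat.count_eq_card_filter_range]
    congr 2
    apply Finset.filter_congr
    intro i _
    rw [hQt]
    simp only [Nat.add_sub_cancel]
    constructor
    · rintro (h1 | h1)
      · omega
      · exact fun h => h1 h.symm
    · intro h
      exact Or.inr fun h1 => h h1.symm
  obtain ⟨B, hB⟩ : ∃ B : ℕ → ℕ, B = Nat.nth Q := ⟨_, rfl⟩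
  have hB1 : ∀ k, B k < B (k + 1) := by
    intro k
    rw [hB]
    exact Nat.nth_strictMono hinf (Nat.lt_succ_self k)
  have hBQ : ∀ k, Q (B k) := by
    intro k
    rw [hB]
    exact Nat.nth_mem_of_infinite hinf k
  have hBc : ∀ t, Q t → B (Nat.count Q t) = t := by
    intro t ht
    rw [hB]
    exact Nat.nth_count ht
  have hB0 : B 0 = 0 := by
    have := hBc 0 hQ0
    rwa [Nat.count_zero] at this
  have hcB : ∀ k, Nat.count Q (B k) = k := by
    intro k
    rw [hB]
    exact Nat.count_nth_of_infinite hinf k
  have hBper : ∀ k, B (k + 2 * r) = B k + n := by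
    intro k
    have h1 := hBc (n + B k) ((hQper _).mpr (hBQ k))
    have h2 : Nat.count Q (n + B k) = 2 * r + k := by
      rw [Nat.count_add, hcnt]
      congr 1
      have h3 : (fun i => Q (n + i)) = Q := by
        funext i
        exact propext (hQper i)
      conv_rhs => rw [← hcB k]
      congr 1
    rw [h2] at h1
    rw [add_comm k, h1, add_comm]
  have hBnot : ∀ k t, B k < t → t < B (k + 1) → ¬ Q t := by
    intro k t h1 h2 h3
    have h4 := hBc t h3
    rw [← h4] at h1 h2
    rw [hB] at h1 h2
    have h5 := (Nat.nth_strictMono hinf).lt_iff_lt.mp h1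
    have h6 := (Nat.nth_strictMono hinf).lt_iff_lt.mp h2
    omega
  have hconst : ∀ k d, B k + d < B (k + 1) → c (B k + d) = c (B k) := by
    intro k d
    induction d with
    | zero => intro _; rfl
    | succ d ih =>
      intro hd
      have h1 := ih (by omega)
      have h2 := hBnot k (B k + (d + 1)) (by omega) hd
      rw [hQt, not_or, not_not] at h2
      rw [h2.2, ← h1]
      congr 1
  have halt : ∀ k, (c (B k) = true ↔ ¬ Even k) := by
    intro k
    induction k with
    | zero =>
      rw [hB0, hc0]
      simp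
    | succ k ih =>
      have h1 := hB1 k
      have h2 := (hQt _).mp (hBQ (k + 1))
      have h3 : c (B (k + 1)) ≠ c (B (k + 1) - 1) := by
        rcases h2 with h2 | h2
        · omega
        · exact h2
      have h4 := hconst k (B (k + 1) - 1 - B k) (by omega)
      have h5 : B k + (B (k + 1) - 1 - B k) = B (k + 1) - 1 := by omega
      rw [h5] at h4
      rw [h4] at h3
      rw [Nat.even_add_one, not_not]
      have h6 : c (B (k + 1)) = true ↔ ¬ (c (B k) = true) := by
        revert h3
        cases c (B (k + 1)) <;> cases c (B k) <;> simp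
      rw [h6, ih, not_not]
  refine ⟨r, s, B, hr1, hnb, hB0, hB1, hBper, ?_⟩
  intro k i h1 h2
  have h3 := hconst k (i - B k) (by omega)
  have h4 : B k + (i - B k) = i := by omega
  rw [h4] at h3
  have h5 : o (s + (i : ZMod n)) = c i := by
    rw [hct, add_comm]
  rw [h5, h3]
  exact halt k

end MP_ad30dc_co
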