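import Pool.Agent.Lib.MP_ad30dc_co.L0
import Pool.Agent.Lib.MP_ad30dc_co.G2
import Pool.Agent.Lib.MP_ad30dc_co.G3

namespace MP_ad30dc_co

private theorem N2_mono (A : ℕ → ℕ) (N : ℕ) (hA : ∀ k < N, A k ≤ A (k + 1)) :
    ∀ i j, i ≤ j → j ≤ N → A i ≤ A j := by
  intro i j hij
  induction j with
  | zero =>
    intro _
    have : i = 0 := by omega
    rw [this]
  | succ m ih =>
    intro hm
    rcases Nat.lt_or_ge m i with h | h
    · have : i = m + 1 := by omega
      rw [this]
    · exact (ih h (by omega)).trans (hA m (by omega))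

/-- ROW N2 (from the closed chain to the subdivision). Rotate (`rotate`) by `s' = s + B (2 j)`: it
suffices to treat `o' i = o (i + s')`. Take `W`, `z`, `A` from `hclo`. For `t ≤ n` let `κ t` be the
index `k < 2 r` with `B (2 j + k) ≤ B (2 j) + t < B (2 j + k + 1)` (for `t < n`; exists and is unique
since `B` is strictly increasing and `B (2 j + 2 r) = B (2 j) + n`), and
`σ t = A (κ t) + (B (2 j) + t - B (2 j + κ t))` for `t < n`, `σ t = A (2 r)` for `t ≥ n`. Then
`σ 0 = 0` (`κ 0 = 0`), `σ n = A (2 r) = W.length`, and for `t < n` with `k = κ t`: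
`A k ≤ σ t < σ (t + 1) ≤ A (k + 1)`: if `κ (t + 1) = k` then `σ (t + 1) = σ t + 1` and
`B (2 j) + t + 1 - B (2 j + k) < B (2 j + k + 1) - B (2 j + k) ≤ A (k + 1) - A k`; otherwise
`B (2 j) + t + 1 = B (2 j + k + 1)` and `σ (t + 1) = A (k + 1)`. So for `σ t ≤ i < σ (t + 1)` the
pair `(i, i + 1)` lies in the block `k`, the arc points to the right iff `k` is odd, iff
`o (s + (B (2 j) + t)) = true` (`hB`, as `2 j + k` and `k` have the same parity). Apply
`subdivision_of_fun` with `z0 = z`; entries by `List.getD_eq_getElem?_getD`. -/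
theorem subdivision_of_clo {V : Type*} (n : ℕ) (hn : 3 ≤ n) (o : ZMod n → Bool) (D : Digraph V)
    (r : ℕ) (hr : 1 ≤ r) (s : ZMod n) (B : ℕ → ℕ) (hB0 : ∀ k, B k < B (k + 1))
    (hBn : ∀ k, B (k + 2 * r) = B k + n)
    (hB : ∀ k i, B k ≤ i → i < B (k + 1) → (o (s + (i : ZMod n)) = true ↔ ¬ Even k))
    (j : ℕ) (hclo : Clo D.Adj (fun i => B (2 * j + i + 1) - B (2 * j + i)) (2 * r)) :
    ContainsSubdivision (orientedCycle n o) D := by
  obtain ⟨W, z, hhead, hnd, A, hA0, hAN, hA, hadj⟩ := hclo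
  obtain ⟨C, hC⟩ : ∃ C : ℕ → ℕ, C = fun k => B (2 * j + k) := ⟨_, rfl⟩
  have hCk : ∀ k, C k = B (2 * j + k) := fun k => by rw [hC]
  have hC1 : ∀ k, C k < C (k + 1) := fun k => by
    rw [hCk, hCk]
    exact hB0 (2 * j + k)
  have hCn : C (2 * r) = C 0 + n := by
    rw [hCk, hCk]
    exact hBn (2 * j)
  have hCm : ∀ a b, a ≤ b → C a ≤ C b := fun a b hab =>
    N2_mono C b (fun k _ => (hC1 k).le) a b hab le_rfl
  have hA' : ∀ k < 2 * r, A k + (C (k + 1) - C k) ≤ A (k + 1) := by
    intro k hk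
    rw [hCk, hCk]
    exact hA k hk
  have hAm : ∀ a b, a ≤ b → b ≤ 2 * r → A a ≤ A b :=
    N2_mono A (2 * r) fun k hk => by have := hA' k hk; omega
  have hlen : A (2 * r) = W.length := by
    rw [List.length_append, List.length_singleton] at hAN
    omega
  obtain ⟨κ, hκ⟩ : ∃ κ : ℕ → ℕ, κ = fun t => Nat.findGreatest (fun k => C k ≤ C 0 + t) (2 * r) :=
    ⟨_, rfl⟩
  have hκt : ∀ t, κ t = Nat.findGreatest (fun k => C k ≤ C 0 + t) (2 * r) := fun t => by rw [hκ]
  have hκle : ∀ t, κ t ≤ 2 * r := fun t => by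
    rw [hκt]
    exact Nat.findGreatest_le _
  have hκsp : ∀ t, C (κ t) ≤ C 0 + t := fun t => by
    rw [hκt]
    exact Nat.findGreatest_spec (P := fun k => C k ≤ C 0 + t) (m := 0) (Nat.zero_le _)
      (Nat.le_add_right _ _)
  have hκeq : ∀ t k, k ≤ 2 * r → C k ≤ C 0 + t → (k < 2 * r → C 0 + t < C (k + 1)) → κ t = k := by
    intro t k h1 h2 h3
    have h4 : k ≤ κ t := by
      rw [hκt]
      exact Nat.le_findGreatest h1 h2
    rcases Nat.eq_or_lt_of_le h4 with h5 | h5
    · exact h5.symm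
    · have h6 := hκle t
      have h7 := h3 (by omega)
      have h8 := hCm (k + 1) (κ t) h5
      have h9 := hκsp t
      omega
  have hκlt : ∀ t < n, κ t < 2 * r := by
    intro t ht
    rcases Nat.lt_or_ge (κ t) (2 * r) with h | h
    · exact h
    · have h1 := hCm _ _ h
      have h2 := hκsp t
      omega
  have hκnx : ∀ t < n, C 0 + t < C (κ t + 1) := by
    intro t ht
    by_contra hcon
    have h1 : κ t + 1 ≤ Nat.findGreatest (fun k => C k ≤ C 0 + t) (2 * r) :=
      Nat.le_findGreatest (hκlt t ht) (not_lt.mp hcon)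
    rw [← hκt] at h1
    omega
  obtain ⟨σ, hσ⟩ : ∃ σ : ℕ → ℕ, σ = fun t => A (κ t) + (C 0 + t - C (κ t)) := ⟨_, rfl⟩
  have hσt : ∀ t, σ t = A (κ t) + (C 0 + t - C (κ t)) := fun t => by rw [hσ]
  have hσ0 : σ 0 = 0 := by
    have h0 : κ 0 = 0 := hκeq 0 0 (Nat.zero_le _) le_rfl (fun _ => by have := hC1 0; omega)
    rw [hσt, h0, hA0]
    omega
  have hσn : σ n = W.length := by
    have h0 : κ n = 2 * r := hκeq n (2 * r) le_rfl hCn.le (fun h => absurd h (lt_irrefl _))
    rw [hσt, h0, hlen, hCn]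
    omega
  have key : ∀ t < n, A (κ t) ≤ σ t ∧ σ t < σ (t + 1) ∧ σ (t + 1) ≤ A (κ t + 1) := by
    intro t ht
    have h1 := hκlt t ht
    have h2 := hκnx t ht
    have h3 := hκsp t
    have h4 := hA' (κ t) h1
    have h5 := hσt t
    rcases Nat.lt_or_ge (C 0 + (t + 1)) (C (κ t + 1)) with h | h
    · have h6 : κ (t + 1) = κ t := hκeq (t + 1) (κ t) h1.le (by omega) (fun _ => h)
      have h7 := hσt (t + 1)
      rw [h6] at h7
      omega
    · have h6 : κ (t + 1) = κ t + 1 := hκeq (t + 1) (κ t + 1) h1 h (fun _ => by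
        have := hC1 (κ t + 1)
        omega)
      have h7 := hσt (t + 1)
      rw [h6] at h7
      omega
  refine rotate n o (s + (C 0 : ZMod n)) D ?_
  refine subdivision_of_fun n hn _ D W z hnd hhead σ hσ0 hσn (fun t ht => (key t ht).2.1) ?_
  intro t ht i hi1 hi2
  obtain ⟨h1, h2, h3⟩ := key t ht
  have h4 := hκlt t ht
  have h5 := hAm (κ t + 1) (2 * r) h4 le_rfl
  have hi : i < W.length := by omega
  have hadj' := hadj (κ t) h4 i (by omega) (by omega) ((W ++ [z]).getD i z)
    ((W ++ [z]).getD (i + 1) z) (by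
      rw [List.getD_eq_getElem _ _ (by simp; omega)]
      exact List.getElem?_eq_getElem _) (by
      rw [List.getD_eq_getElem _ _ (by simp; omega)]
      exact List.getElem?_eq_getElem _)
  have hb := hB (2 * j + κ t) (C 0 + t) (by rw [← hCk]; exact hκsp t) (by
    have := hκnx t ht
    rw [hCk (κ t + 1)] at this
    exact this)
  have he : Even (2 * j + κ t) ↔ Even (κ t) := by
    rw [Nat.even_add]
    constructor
    · intro h
      exact h.mp (even_two_mul j)
    · intro h
      exact ⟨fun _ => h, fun _ => even_two_mul j⟩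
  rw [he] at hb
  have hc : (t : ZMod n) + (s + (C 0 : ZMod n)) = s + ((C 0 + t : ℕ) : ZMod n) := by
    rw [Nat.cast_add]
    ring
  constructor
  · intro h
    have h' : o ((t : ZMod n) + (s + (C 0 : ZMod n))) = true := h
    rw [hc] at h'
    exact hadj'.2 (hb.mp h')
  · intro h
    have h' : o ((t : ZMod n) + (s + (C 0 : ZMod n))) = false := h
    rw [hc] at h'
    refine hadj'.1 ?_
    by_contra hne
    rw [hb.mpr hne] at h'
    exact absurd h' (by decide)

end MP_ad30dc_co
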