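import Pool.Agent.Lib.MP_ad30dc_co.L1

namespace MP_ad30dc_co

variable {V : Type*} {G : V → V → Prop} {R R' A : Set V} {u v w x s : V} {L L' : List V}

/-! ROW R1: the API of `Rch` (use the lemmas on `IsP` of L1). -/

theorem Rch_subset : Rch G R A ⊆ R := by
  rintro v ⟨u, -, L, hL⟩
  exact hL.right_mem

theorem Rch_base (hA : u ∈ A) (hu : u ∈ R) : u ∈ Rch G R A :=
  ⟨u, hA, [u], IsP.single hu⟩

theorem Rch_step (hv : v ∈ Rch G R A) (h : G v w) (hw : w ∈ R) : w ∈ Rch G R A := by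
  obtain ⟨u, hu, L, hL⟩ := hv
  obtain ⟨L1, hL1, -⟩ := hL.step h hw
  exact ⟨u, hu, L1, hL1⟩

theorem Rch_trans (hv : v ∈ Rch G R A) (hw : w ∈ Rch G R {v}) : w ∈ Rch G R A := by
  obtain ⟨u, hu, L, hL⟩ := hv
  obtain ⟨v', hv', L', hL'⟩ := hw
  rw [Set.mem_singleton_iff] at hv'
  subst hv'
  obtain ⟨L1, hL1, -⟩ := hL.trans hL'
  exact ⟨u, hu, L1, hL1⟩

theorem Rch_mono {A' : Set V} (h : R ⊆ R') (hA : A ⊆ A') : Rch G R A ⊆ Rch G R' A' := by
  rintro v ⟨u, hu, L, hL⟩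
  exact ⟨u, hA hu, L, hL.mono h⟩

private theorem R1_ind_aux (P : Set V) (hP : ∀ v ∈ P, ∀ w ∈ R, G v w → w ∈ P) :
    ∀ (L : List V) (u : V), u ∈ P → IsP G R u v L → v ∈ P := by
  intro L
  induction L with
  | nil =>
    intro u _ hL
    have h1 := hL.2.2.2.1
    simp at h1
  | cons a L ih =>
    intro u hu hL
    obtain ⟨h1, h2, h3, h4, h5⟩ := hL
    simp only [List.head?_cons, Option.some.injEq] at h4
    subst h4
    cases L with
    | nil =>
      simp only [List.getLast?_singleton, Option.some.injEq] at h5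
      subst h5
      exact hu
    | cons b L =>
      rw [List.isChain_cons_cons] at h1
      have hbR : b ∈ R := h3 b (by simp)
      refine ih b (hP a hu b hbR h1.1) ⟨h1.2, (List.nodup_cons.1 h2).2, ?_, rfl, ?_⟩
      · intro x hx
        exact h3 x (List.mem_cons_of_mem _ hx)
      · rw [List.getLast?_cons_cons] at h5
        exact h5

/-- A set `P` which contains `A ∩ R` and is closed under arcs inside `R` contains `Rch G R A`. -/
theorem Rch_ind (P : Set V) (hA : ∀ u ∈ A, u ∈ R → u ∈ P)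
    (hP : ∀ v ∈ P, ∀ w ∈ R, G v w → w ∈ P) : Rch G R A ⊆ P := by
  rintro v ⟨u, hu, L, hL⟩
  exact R1_ind_aux P hP L u (hA u hu hL.left_mem) hL

/-- A path from a vertex of `Rch G R A` inside `R` stays in `Rch G R A`. -/
theorem Rch_path (hu : u ∈ Rch G R A) (hL : IsP G R u v L) : ∀ y ∈ L, y ∈ Rch G R A := by
  intro y hy
  obtain ⟨L1, hL1, -⟩ := hL.split_left hy
  exact Rch_trans hu ⟨u, Set.mem_singleton u, L1, hL1⟩

/-- A vertex of the reach set is reached by a path inside the reach set. -/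
theorem Rch_exists_path (hv : v ∈ Rch G R A) : ∃ u ∈ A, ∃ L, IsP G (Rch G R A) u v L := by
  obtain ⟨u, hu, L, hL⟩ := hv
  refine ⟨u, hu, L, hL.of_mem (fun y hy => ?_)⟩
  obtain ⟨L1, hL1, -⟩ := hL.split_left hy
  exact ⟨u, hu, L1, hL1⟩

/-- A path that avoids `s` shows reachability in `R \ {s}`. -/
theorem Rch_avoid (hu : u ∈ A) (hL : IsP G R u v L) (hs : s ∉ L) : v ∈ Rch G (R \ {s}) A := by
  refine ⟨u, hu, L, hL.of_mem (fun y hy => ⟨hL.2.2.1 y hy, ?_⟩)⟩
  rintro rfl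
  exact hs hy

end MP_ad30dc_co
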