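import Pool.Agent.Lib.MP_ad30dc_co.L0

/-!
# Definitions for the full theorem `2 * |C| - 1`
-/

namespace MP_ad30dc_co

variable {V : Type*}

/-- The set `T` of Lemma G: its boundary has at most `f` vertices, every boundary vertex reaches
the vertex `ω ∉ T` outside `T`, and every nonempty subset of `T` with a boundary of at most `f`
vertices sees a boundary vertex of `T`. -/
def Good [Fintype V] (G : V → V → Prop) (T : Finset V) (f : ℕ) (ω : V) : Prop :=
  T.Nonempty ∧ ω ∉ T ∧ (bdry G T).card ≤ f ∧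
    (∀ w ∈ bdry G T, ω ∈ Rch G {v | v ∉ T} {w}) ∧
    ∀ A : Finset V, A ⊆ T → A.Nonempty → (bdry G A).card ≤ f → ∃ w ∈ bdry G T, w ∈ bdry G A

/-- Parking: the strand which starts in `a` is led along `PA` to a terminal component `Q` of `R`,
the strand which starts in `b` is led along `PB` to a vertex `b'` which sees a vertex of `M`. -/
def Park (G : V → V → Prop) (R M : Finset V) (a b : V) : Prop :=
  ∃ (Q : Finset V) (a' b' : V) (PA PB : List V), IsTerm G R Q ∧ IsP G (↑R) a a' PA ∧
    IsP G (↑R) b b' PB ∧ a' ∈ Q ∧ (∀ y ∈ PA, y ∈ Q → y = a') ∧ (∀ y ∈ PB, y ∉ Q) ∧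
    List.Disjoint PA PB ∧ ∃ w ∈ M, G b' w

/-- State P: the left end `b` is parked (it sees a vertex of `S`); the region `R` contains the right
end `a` and no other vertex of the chain. -/
def StP (G : V → V → Prop) (T S X R : Finset V) (lam : ℕ → ℕ) (j k : ℕ) (a b : V)
    (W : List V) : Prop :=
  IsCh G T S lam j k a b W ∧ R ⊆ T ∧ Disjoint R S ∧ Exits G R X S ∧ a ∈ R ∧ a ≠ b ∧
    (∀ v ∈ W, v ∈ R → v = a) ∧ ∃ w ∈ S, G b w

/-- State Q: the right end `a` is parked (it sees a vertex of `S`); the region `R` contains the left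
end `b` and no other vertex of the chain. -/
def StQ (G : V → V → Prop) (T S X R : Finset V) (lam : ℕ → ℕ) (j k : ℕ) (a b : V)
    (W : List V) : Prop :=
  IsCh G T S lam j k a b W ∧ R ⊆ T ∧ Disjoint R S ∧ Exits G R X S ∧ b ∈ R ∧ a ≠ b ∧
    (∀ v ∈ W, v ∈ R → v = b) ∧ ∃ w ∈ S, G a w

end MP_ad30dc_co
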