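import Pool.Agent.Lib.MP_ad30dc_co.L2
import Pool.Agent.Lib.MP_ad30dc_co.U0

namespace MP_ad30dc_co

variable {V : Type*} [Fintype V] [DecidableEq V]

/-- ROW U1a (the shrinking step of Lemma G). `ω ∉ T`, every vertex of `M = bdry G T` reaches `ω`
outside `T`, and `A ⊆ T` is nonempty, has at most `f` boundary vertices and sees no vertex of `M`.
Let `U = {v | v ∉ A and ω ∈ Rch G {x | x ∉ A} {v}}` and `K = T \ U` (`T.filter`). Facts:
(1) `A ⊆ K`, so `K` is nonempty; `ω ∉ K` as `K ⊆ T`. (2) `M ⊆ U`: the path from `w ∈ M` to `ω`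
outside `T` is outside `A` (`Rch_mono`). (3) Let `v ∈ K`, `G v u`, `u ∉ K`. Then `u ∈ U` (if `u ∈ T`
by definition of `K`, otherwise `u ∈ bdry G T = M`). If `v ∉ A` then `v ∈ U` (the arc `v u` and the
path of `u`: `Rch_base`, `Rch_step`, `Rch_trans`), contradiction. So `v ∈ A` and, as `A ⊆ K`,
`u ∉ A`: `u ∈ bdry G A`. Hence `bdry G K ⊆ bdry G A` and `bdry G K ⊆ U`. (4) Let `w ∈ bdry G K`. It
is in `U`; the path from `w` to `ω` outside `A` has all its vertices in `U` (final segments: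
`split_right`), so outside `K`: `ω ∈ Rch G {v | v ∉ K} {w}`. (5) `K ≠ T`: take `w0 ∈ M` and `t ∈ T`
with `G t w0`. `t ∉ A`, otherwise `w0 ∈ bdry G A`. As `w0 ∈ U`, `t ∈ U`; so `t ∉ K`. -/
theorem shrink (G : V → V → Prop) (T A : Finset V) (f : ℕ) (ω : V) (hωT : ω ∉ T)
    (hM : ∀ w ∈ bdry G T, ω ∈ Rch G {v | v ∉ T} {w}) (hAT : A ⊆ T) (hA : A.Nonempty)
    (hAf : (bdry G A).card ≤ f) (hdis : ∀ w ∈ bdry G T, w ∉ bdry G A)
    (hex : (bdry G T).Nonempty) :
    ∃ K : Finset V, K ⊂ T ∧ K.Nonempty ∧ ω ∉ K ∧ (bdry G K).card ≤ f ∧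
      ∀ w ∈ bdry G K, ω ∈ Rch G {v | v ∉ K} {w} := by
  classical
  let U : Set V := {v | v ∉ A ∧ ω ∈ Rch G {x | x ∉ A} {v}}
  let K : Finset V := T.filter (fun v => v ∉ U)
  have hAK : A ⊆ K := fun v hv => Finset.mem_filter.2 ⟨hAT hv, fun h => h.1 hv⟩
  have hMU : ∀ w ∈ bdry G T, w ∈ U := by
    intro w hw
    refine ⟨fun h => (mem_bdry.1 hw).1 (hAT h), ?_⟩
    refine Rch_mono ?_ le_rfl (hM w hw)
    intro v hv h
    exact hv (hAT h)
  have hstep : ∀ v ∈ K, ∀ u, G v u → u ∉ K → u ∈ U ∧ u ∈ bdry G A := by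
    intro v hv u hG hu
    have huU : u ∈ U := by
      by_cases hT : u ∈ T
      · by_contra h
        exact hu (Finset.mem_filter.2 ⟨hT, h⟩)
      · exact hMU u (mem_bdry.2 ⟨hT, v, (Finset.mem_filter.1 hv).1, hG⟩)
    have hvA : v ∈ A := by
      by_contra hvA
      apply (Finset.mem_filter.1 hv).2
      exact ⟨hvA, Rch_trans (Rch_step (Rch_base rfl hvA) hG huU.1) huU.2⟩
    exact ⟨huU, mem_bdry.2 ⟨huU.1, v, hvA, hG⟩⟩
  have hbK : ∀ w ∈ bdry G K, w ∈ U ∧ w ∈ bdry G A := by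
    intro w hw
    obtain ⟨h1, v, hv, hG⟩ := mem_bdry.1 hw
    exact hstep v hv w hG h1
  have hUK : ∀ w ∈ U, ω ∈ Rch G {v | v ∉ K} {w} := by
    intro w hw
    obtain ⟨u, hu, L, hL⟩ := hw.2
    rw [Set.mem_singleton_iff] at hu
    subst hu
    refine ⟨u, rfl, L, hL.of_mem ?_⟩
    intro y hy hyK
    obtain ⟨L1, hL1, -⟩ := hL.split_right hy
    exact (Finset.mem_filter.1 hyK).2 ⟨hL.2.2.1 y hy, y, rfl, L1, hL1⟩
  refine ⟨K, ?_, hA.mono hAK, ?_, ?_, fun w hw => hUK w (hbK w hw).1⟩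
  · refine Finset.ssubset_iff_subset_ne.2 ⟨Finset.filter_subset _ _, ?_⟩
    intro hKT
    obtain ⟨w0, hw0⟩ := hex
    obtain ⟨h1, t, ht, hG⟩ := mem_bdry.1 hw0
    have htK : t ∈ K := by
      show t ∈ K
      rw [show K = T from hKT]
      exact ht
    have := hstep t htK w0 hG (fun h => h1 (Finset.mem_filter.1 h).1)
    exact hdis w0 hw0 this.2
  · intro h
    exact hωT (Finset.mem_filter.1 h).1
  · exact (Finset.card_le_card (fun w hw => (hbK w hw).2)).trans hAf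

/-- ROW U1b (Lemma G). Let `Q` be a terminal component of `Finset.univ` (`exists_term`): closed
under arcs and strongly connected. Take `ω ∈ Q`. As `ω` has an out-neighbour (`hdeg`), which is in
`Q` and different from `ω` (`hG`), `Q.erase ω` is nonempty. Its boundary is contained in `{ω}`
(`Q` is closed), so it has at most `1 ≤ f` elements, and `ω ∈ Rch G _ {ω}` (`Rch_base`). Among all
nonempty `T ⊆ Q.erase ω` with `(bdry G T).card ≤ f` and
`∀ w ∈ bdry G T, ω ∈ Rch G {v | v ∉ T} {w}` take one of minimal cardinality. `bdry G T` is nonempty: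
`t ∈ T`, `ω ∈ Rch G Q {t}`, `ω ∉ T`, so if no arc left `T` the set `T` would contain `ω`
(`Rch_ind`). If some nonempty `A ⊆ T` with `(bdry G A).card ≤ f` had no boundary vertex in
`bdry G T`, then `shrink` would give a smaller `T`. -/
theorem exists_good [Nonempty V] (G : V → V → Prop) (hG : ∀ v, ¬ G v v) (f : ℕ) (hf : 1 ≤ f)
    (hdeg : ∀ v, 1 ≤ (out G Finset.univ v).card) :
    ∃ (T : Finset V) (ω : V), Good G T f ω := by
  classical
  obtain ⟨Q, hQ⟩ := exists_term G Finset.univ Finset.univ_nonempty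
  obtain ⟨ω, hω⟩ := hQ.1
  obtain ⟨x, hx⟩ := Finset.card_pos.1 (lt_of_lt_of_le Nat.zero_lt_one (hdeg ω))
  have hGx : G ω x := (mem_out.1 hx).2
  have hxQ : x ∈ Q := hQ.2.2.1 ω hω x (Finset.mem_univ x) hGx
  have hxω : x ≠ ω := by
    intro h
    subst h
    exact hG x hGx
  let P : Finset V → Prop := fun T => T.Nonempty ∧ T ⊆ Q.erase ω ∧ (bdry G T).card ≤ f ∧
    ∀ w ∈ bdry G T, ω ∈ Rch G {v | v ∉ T} {w}
  have hb0 : ∀ w ∈ bdry G (Q.erase ω), w = ω := by
    intro w hw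
    obtain ⟨h1, v, hv, hG'⟩ := mem_bdry.1 hw
    have hwQ : w ∈ Q := hQ.2.2.1 v (Finset.mem_of_mem_erase hv) w (Finset.mem_univ w) hG'
    by_contra hne
    exact h1 (Finset.mem_erase.2 ⟨hne, hwQ⟩)
  have hP0 : P (Q.erase ω) := by
    refine ⟨⟨x, Finset.mem_erase.2 ⟨hxω, hxQ⟩⟩, subset_rfl, ?_, ?_⟩
    · calc (bdry G (Q.erase ω)).card ≤ ({ω} : Finset V).card :=
            Finset.card_le_card fun w hw => Finset.mem_singleton.2 (hb0 w hw)
        _ = 1 := Finset.card_singleton ω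
        _ ≤ f := hf
    · intro w hw
      have := hb0 w hw
      subst this
      exact Rch_base rfl (mem_bdry.1 hw).1
  obtain ⟨T, hTm, hmin⟩ := Finset.exists_min_image (Finset.univ.filter P) Finset.card
    ⟨Q.erase ω, Finset.mem_filter.2 ⟨Finset.mem_univ _, hP0⟩⟩
  have hT : P T := (Finset.mem_filter.1 hTm).2
  have hωT : ω ∉ T := fun h => (Finset.mem_erase.1 (hT.2.1 h)).1 rfl
  refine ⟨T, ω, hT.1, hωT, hT.2.2.1, hT.2.2.2, ?_⟩
  intro A hAT hA hAf
  by_contra hcon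
  have hdis : ∀ w ∈ bdry G T, w ∉ bdry G A := fun w h1 h2 => hcon ⟨w, h1, h2⟩
  have hex : (bdry G T).Nonempty := by
    obtain ⟨t, ht⟩ := hT.1
    by_contra hne
    rw [Finset.not_nonempty_iff_eq_empty] at hne
    have h1 : ω ∈ Rch G (↑Q) {t} :=
      hQ.2.2.2 t (Finset.mem_of_mem_erase (hT.2.1 ht)) ω hω
    have h2 : Rch G (↑Q) {t} ⊆ (↑T : Set V) := by
      refine Rch_ind _ ?_ ?_
      · intro u hu _
        rw [Set.mem_singleton_iff] at hu
        subst hu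
        exact ht
      · intro v hv w hw hG'
        by_contra hwT
        have : w ∈ bdry G T := mem_bdry.2 ⟨hwT, v, hv, hG'⟩
        rw [hne] at this
        simp at this
    exact hωT (h2 h1)
  obtain ⟨K, hKT, hK, hωK, hKf, hKr⟩ := shrink G T A f ω hωT hT.2.2.2 hAT hA hAf hdis hex
  have := hmin K (Finset.mem_filter.2 ⟨Finset.mem_univ _, hK, hKT.1.trans hT.2.1, hKf, hKr⟩)
  exact absurd (Finset.card_lt_card hKT) (not_lt.2 this)

end MP_ad30dc_co
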