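import Pool.Agent.Lib.MP_ad30dc_co.U2

namespace MP_ad30dc_co

variable {V : Type*} [Fintype V] [DecidableEq V]

/-- A path from `a` inside its reach in `R` to a vertex that sees the boundary of `T`. -/
private theorem U3_reach (G : V → V → Prop) (T : Finset V) (f : ℕ) (ω : V) (hgood : Good G T f ω)
    (X R : Finset V) (hRT : R ⊆ T) (hE : Exits G R X (bdry G T)) (hX : X.card ≤ f) (a : V)
    (ha : a ∈ R) : ∃ (a1 w1 : V) (PA : List V), IsP G (Rch G (↑R) {a}) a a1 PA ∧
      w1 ∈ bdry G T ∧ G a1 w1 := by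
  classical
  have haY : a ∈ R.filter (fun v => v ∈ Rch G (↑R) {a}) := by
    rw [Finset.mem_filter]
    exact ⟨ha, Rch_base rfl (Finset.mem_coe.2 ha)⟩
  obtain ⟨v, hv, w, hw, hvw⟩ := good_sees G T f ω hgood
    (R.filter (fun v => v ∈ Rch G (↑R) {a})) X ((Finset.filter_subset _ _).trans hRT) ⟨a, haY⟩
    (by
      intro v hv w hvw
      rw [Finset.mem_filter] at hv
      rcases hE v hv.1 w hvw with h | h | h
      · left
        rw [Finset.mem_filter]
        exact ⟨h, Rch_step hv.2 hvw (Finset.mem_coe.2 h)⟩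
      · exact Or.inr (Or.inl h)
      · exact Or.inr (Or.inr h)) hX
  rw [Finset.mem_filter] at hv
  obtain ⟨u, hu, L, hL⟩ := Rch_exists_path hv.2
  rw [Set.mem_singleton_iff] at hu
  subst hu
  exact ⟨v, w, L, hL, hw, hvw⟩

/-- ROW U3a (closing in State P). Let `Ya` be the finset of the vertices reachable from `a` inside
`R`. It is nonempty, contained in `R ⊆ T`, and its exits are in `X ∪ bdry G T` (`Exits`; an
out-neighbour in `R` of a vertex of `Ya` is in `Ya`). `good_sees` gives `a1 ∈ Ya`,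
`w1 ∈ bdry G T`, `G a1 w1`. Let `PA` be a path from `a` to `a1` inside `R`; `W` meets it only in `a`.
`b` sees `w2 ∈ bdry G T`. Apply `close_esc` with `PB = [b]`, `b1 = b` (`b ∈ W`, and `b ∉ PA` since
`b ∈ R` would give `b = a`). -/
theorem close_P (G : V → V → Prop) (T : Finset V) (f : ℕ) (ω : V) (hgood : Good G T f ω)
    (X R : Finset V) (lam : ℕ → ℕ) (j k : ℕ) (hk : 1 ≤ k) (a b : V) (W : List V)
    (hst : StP G T (bdry G T) X R lam j k a b W) (hX : X.card ≤ f) :
    Clo G (fun i => lam (2 * j + i)) (2 * k) := by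
  obtain ⟨hch, hRT, hdR, hE, haR, hab, hWR, w2, hw2, hbw⟩ := hst
  obtain ⟨a1, w1, PA, hPA, hw1, hG1⟩ := U3_reach G T f ω hgood X R hRT hE hX a haR
  have hPAR : ∀ y ∈ PA, y ∈ R := fun y hy => Finset.mem_coe.1 (Rch_subset (hPA.2.2.1 y hy))
  have hbW : b ∈ W := List.mem_of_mem_head? hch.2.2.1
  have hbT : b ∈ T := (hch.2.2.2.2 b hbW).1
  refine close_esc G T f ω hgood lam j k hk a b W hch hab a1 b w1 w2 PA [b]
    (hPA.of_mem fun y hy => Finset.mem_coe.2 (hRT (hPAR y hy))) (IsP.single (Finset.mem_coe.2 hbT))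
    (fun y hy hyP => hWR y hy (hPAR y hyP)) (fun y _ hyb => List.mem_singleton.1 hyb) ?_ hw1 hG1
    hw2 hbw
  intro y hyP hyb
  rw [List.mem_singleton] at hyb
  subst hyb
  exact hab (hWR y hbW (hPAR y hyP)).symm

/-- ROW U3b (closing in State Q): the same with the roles of `a` and `b` exchanged
(`PA = [a]`, `PB` a path inside `R`). -/
theorem close_Q (G : V → V → Prop) (T : Finset V) (f : ℕ) (ω : V) (hgood : Good G T f ω)
    (X R : Finset V) (lam : ℕ → ℕ) (j k : ℕ) (hk : 1 ≤ k) (a b : V) (W : List V)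
    (hst : StQ G T (bdry G T) X R lam j k a b W) (hX : X.card ≤ f) :
    Clo G (fun i => lam (2 * j + i)) (2 * k) := by
  obtain ⟨hch, hRT, hdR, hE, hbR, hab, hWR, w2, hw2, haw⟩ := hst
  obtain ⟨b1, w1, PB, hPB, hw1, hG1⟩ := U3_reach G T f ω hgood X R hRT hE hX b hbR
  have hPBR : ∀ y ∈ PB, y ∈ R := fun y hy => Finset.mem_coe.1 (Rch_subset (hPB.2.2.1 y hy))
  have haW : a ∈ W := List.mem_of_mem_getLast? hch.2.2.2.1
  have haT : a ∈ T := (hch.2.2.2.2 a haW).1
  refine close_esc G T f ω hgood lam j k hk a b W hch hab a b1 w2 w1 [a] PB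
    (IsP.single (Finset.mem_coe.2 haT)) (hPB.of_mem fun y hy => Finset.mem_coe.2 (hRT (hPBR y hy)))
    (fun y _ hya => List.mem_singleton.1 hya) (fun y hy hyP => hWR y hy (hPBR y hyP)) ?_ hw2 haw
    hw1 hG1
  intro y hya hyP
  rw [List.mem_singleton] at hya
  subst hya
  exact hab (hWR y haW (hPBR y hyP))

/-- ROW U3c (closing in State I). Let `Ya`, `Yb` be the sets of vertices reachable from `a`, `b`
inside `R`. If they have a common element: `meet_paths` gives `w`, `PA`, `PB` inside `R` and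
`close_chain` applies (as in the old `close_I`). If they are disjoint: as in `close_P`, `good_sees`
for `Ya` and for `Yb` gives `a1`, `w1` and `b1`, `w2`; take the paths `PA` from `a` to `a1` inside
`Ya` and `PB` from `b` to `b1` inside `Yb` (`Rch_exists_path`); they are disjoint, and `close_esc`
applies (`W ∩ R = {a, b}`, `b ∉ Ya`, `a ∉ Yb`). -/
theorem close_S (G : V → V → Prop) (T : Finset V) (f : ℕ) (ω : V) (hgood : Good G T f ω)
    (X R : Finset V) (lam : ℕ → ℕ) (j k : ℕ) (hk : 1 ≤ k) (a b : V) (W : List V)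
    (hst : StI G T (bdry G T) X R lam j k a b W) (hX : X.card ≤ f) :
    Clo G (fun i => lam (2 * j + i)) (2 * k) := by
  obtain ⟨hch, hRT, hdR, hE, haR, hbR, hab, hWR⟩ := hst
  by_cases hm : ∃ o, o ∈ Rch G (↑R) {a} ∧ o ∈ Rch G (↑R) {b}
  · obtain ⟨o, ho1, ho2⟩ := hm
    obtain ⟨w, PU, PV, hPU, hPV, hUV⟩ := meet_paths G (↑R) a b o ho1 ho2
    refine close_chain (even_two_mul k) (by omega) hch.1 hch.2.1 hch.2.2.2.1 hch.2.2.1 hab PU PV
      hPU.1 hPU.2.1 hPU.2.2.2.1 hPU.2.2.2.2 hPV.1 hPV.2.1 hPV.2.2.2.1 hPV.2.2.2.2 hUV ?_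
    intro y hy hyP
    rcases hyP with h | h
    · exact hWR y hy (Finset.mem_coe.1 (hPU.2.2.1 y h))
    · exact hWR y hy (Finset.mem_coe.1 (hPV.2.2.1 y h))
  · obtain ⟨a1, w1, PA, hPA, hw1, hG1⟩ := U3_reach G T f ω hgood X R hRT hE hX a haR
    obtain ⟨b1, w2, PB, hPB, hw2, hG2⟩ := U3_reach G T f ω hgood X R hRT hE hX b hbR
    have hPAR : ∀ y ∈ PA, y ∈ R := fun y hy => Finset.mem_coe.1 (Rch_subset (hPA.2.2.1 y hy))
    have hPBR : ∀ y ∈ PB, y ∈ R := fun y hy => Finset.mem_coe.1 (Rch_subset (hPB.2.2.1 y hy))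
    refine close_esc G T f ω hgood lam j k hk a b W hch hab a1 b1 w1 w2 PA PB
      (hPA.of_mem fun y hy => Finset.mem_coe.2 (hRT (hPAR y hy)))
      (hPB.of_mem fun y hy => Finset.mem_coe.2 (hRT (hPBR y hy))) ?_ ?_ ?_ hw1 hG1 hw2 hG2
    · intro y hy hyP
      rcases hWR y hy (hPAR y hyP) with h | h
      · exact h
      · exfalso
        subst h
        exact hm ⟨y, hPA.2.2.1 y hyP, Rch_base rfl (Finset.mem_coe.2 hbR)⟩
    · intro y hy hyP
      rcases hWR y hy (hPBR y hyP) with h | h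
      · exfalso
        subst h
        exact hm ⟨y, Rch_base rfl (Finset.mem_coe.2 haR), hPB.2.2.1 y hyP⟩
      · exact h
    · intro y hyA hyB
      exact hm ⟨y, hPA.2.2.1 y hyA, hPB.2.2.1 y hyB⟩

end MP_ad30dc_co
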