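import Pool.Agent.Lib.MP_ad30dc_co.R1
import Pool.Agent.Lib.MP_ad30dc_co.K2
import Pool.Agent.Lib.MP_ad30dc_co.U0

namespace MP_ad30dc_co

variable {V : Type*}

/-- ROW U2a. If no vertex of `A` saw a vertex of `bdry G T`, then `bdry G A ⊆ X` (by `hE`), so
`(bdry G A).card ≤ f` and `Good` gives `w ∈ bdry G T` with `w ∈ bdry G A`, so some `v ∈ A` has
`G v w` (`mem_bdry`). -/
theorem good_sees [Fintype V] [DecidableEq V] (G : V → V → Prop) (T : Finset V) (f : ℕ) (ω : V)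
    (hgood : Good G T f ω) (A X : Finset V) (hAT : A ⊆ T) (hA : A.Nonempty)
    (hE : ∀ v ∈ A, ∀ w, G v w → w ∈ A ∨ w ∈ X ∨ w ∈ bdry G T) (hX : X.card ≤ f) :
    ∃ v ∈ A, ∃ w ∈ bdry G T, G v w := by
  by_contra hno
  have hno' : ∀ v ∈ A, ∀ w ∈ bdry G T, ¬ G v w := by
    intro v hv w hw h
    exact hno ⟨v, hv, w, hw, h⟩
  have hsub : bdry G A ⊆ X := by
    intro w hw
    obtain ⟨hwA, v, hv, hvw⟩ := mem_bdry.1 hw
    rcases hE v hv w hvw with h | h | h
    · exact absurd h hwA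
    · exact h
    · exact absurd hvw (hno' v hv w h)
  obtain ⟨w, hwT, hwA⟩ := hgood.2.2.2.2 A hAT hA ((Finset.card_le_card hsub).trans hX)
  obtain ⟨_, v, hv, hvw⟩ := mem_bdry.1 hwA
  exact hno' v hv w hwT hvw

/-- ROW U2b. There is a path `L` from `u` to `ω` inside `R`. `first_hit` for the set
`Rch G R {v}` (it contains `ω`) gives `w` and `PU`, and `PU` meets `Rch G R {v}` only in `w`.
`Rch_exists_path` gives a path `PV` from `v` to `w` inside `Rch G R {v} ⊆ R`. -/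
theorem meet_paths (G : V → V → Prop) (R : Set V) (u v ω : V) (hu : ω ∈ Rch G R {u})
    (hv : ω ∈ Rch G R {v}) :
    ∃ (w : V) (PU PV : List V), IsP G R u w PU ∧ IsP G R v w PV ∧
      ∀ y ∈ PU, y ∈ PV → y = w := by
  obtain ⟨u', hu', L, hL⟩ := hu
  have hu'' : u' = u := hu'
  subst hu''
  obtain ⟨w, hw, PU, hPU, -, hmeet⟩ := hL.first_hit (Rch G R {v}) hv
  obtain ⟨v', hv', PV, hPV⟩ := Rch_exists_path hw
  have hv'' : v' = v := hv'
  subst hv''
  refine ⟨w, PU, PV, hPU, hPV.mono Rch_subset, ?_⟩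
  intro y hy hy'
  exact hmeet y hy (hPV.2.2.1 y hy')

private theorem U2_join {G : V → V → Prop} {R R' : Set V} {a a1 w1 w : V} {PA PU : List V}
    (hPA : IsP G R a a1 PA) (hPU : IsP G R' w1 w PU) (h : G a1 w1)
    (hd : ∀ y ∈ PA, y ∉ PU) :
    List.IsChain G (PA ++ PU) ∧ (PA ++ PU).Nodup ∧ (PA ++ PU).head? = some a ∧
      (PA ++ PU).getLast? = some w := by
  refine ⟨?_, ?_, ?_, ?_⟩
  · rw [List.isChain_append]
    refine ⟨hPA.1, hPU.1, ?_⟩
    intro x hx y hy
    rw [hPA.2.2.2.2] at hx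
    rw [hPU.2.2.2.1] at hy
    have hx' : a1 = x := by simpa using hx
    have hy' : w1 = y := by simpa using hy
    rw [← hx', ← hy']
    exact h
  · rw [List.nodup_append]
    refine ⟨hPA.2.1, hPU.2.1, ?_⟩
    intro x hx y hy hxy
    subst hxy
    exact hd x hx hy
  · rw [List.head?_append, hPA.2.2.2.1]
    rfl
  · rw [List.getLast?_append, hPU.2.2.2.2]
    rfl

/-- ROW U2c (closing when both ends can escape from `T`). `meet_paths` with `R = {x | x ∉ T}`,
`u = w1`, `v = w2` gives `w`, `PU`, `PV`. Apply `close_chain` with the lists `PA ++ PU` and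
`PB ++ PV`: chains (`List.isChain_append`, junction arcs `G a1 w1` and `G b1 w2`), without
repetition (`PA ⊆ T`, `PU` outside `T`), from `a` and `b` to `w`; a common element is in
`PU ∩ PV`, so it is `w` (`PA`, `PB` are disjoint and inside `T`); an element of `W ⊆ T` on
`PA ++ PU` is on `PA`, so it is `a`; in the same way for `b`. -/
theorem close_esc [Fintype V] [DecidableEq V] (G : V → V → Prop) (T : Finset V) (f : ℕ) (ω : V)
    (hgood : Good G T f ω) (lam : ℕ → ℕ) (j k : ℕ) (hk : 1 ≤ k) (a b : V) (W : List V)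
    (hch : IsCh G T (bdry G T) lam j k a b W) (hab : a ≠ b) (a1 b1 w1 w2 : V) (PA PB : List V)
    (hPA : IsP G (↑T) a a1 PA) (hPB : IsP G (↑T) b b1 PB)
    (hWA : ∀ y ∈ W, y ∈ PA → y = a) (hWB : ∀ y ∈ W, y ∈ PB → y = b)
    (hdis : List.Disjoint PA PB) (hw1 : w1 ∈ bdry G T) (hG1 : G a1 w1)
    (hw2 : w2 ∈ bdry G T) (hG2 : G b1 w2) :
    Clo G (fun i => lam (2 * j + i)) (2 * k) := by
  obtain ⟨-, -, -, hreach, -⟩ := hgood
  obtain ⟨hchn, hnod, hhead, hlast, hWT⟩ := hch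
  obtain ⟨w, PU, PV, hPU, hPV, hmeet⟩ := meet_paths G {x | x ∉ T} w1 w2 ω (hreach w1 hw1)
    (hreach w2 hw2)
  have hAT : ∀ y ∈ PA, y ∈ T := fun y hy => hPA.2.2.1 y hy
  have hBT : ∀ y ∈ PB, y ∈ T := fun y hy => hPB.2.2.1 y hy
  have hUT : ∀ y ∈ PU, y ∉ T := fun y hy => hPU.2.2.1 y hy
  have hVT : ∀ y ∈ PV, y ∉ T := fun y hy => hPV.2.2.1 y hy
  obtain ⟨c1, n1, h1, l1⟩ := U2_join hPA hPU hG1 (fun y hy hy' => hUT y hy' (hAT y hy))
  obtain ⟨c2, n2, h2, l2⟩ := U2_join hPB hPV hG2 (fun y hy hy' => hVT y hy' (hBT y hy))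
  refine close_chain (a := a) (b := b) (w := w) (even_two_mul k) (by omega) hchn hnod hlast hhead
    hab (PA ++ PU) (PB ++ PV) c1 n1 h1 l1 c2 n2 h2 l2 ?_ ?_
  · intro y hy hy'
    rcases List.mem_append.1 hy with hy | hy
    · rcases List.mem_append.1 hy' with hy' | hy'
      · exact absurd hy' (hdis hy)
      · exact absurd (hAT y hy) (hVT y hy')
    · rcases List.mem_append.1 hy' with hy' | hy'
      · exact absurd (hBT y hy') (hUT y hy)
      · exact hmeet y hy hy'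
  · intro y hy hy'
    have hyT := (hWT y hy).1
    rcases hy' with hy' | hy'
    · rcases List.mem_append.1 hy' with hy' | hy'
      · exact Or.inl (hWA y hy hy')
      · exact absurd hyT (hUT y hy')
    · rcases List.mem_append.1 hy' with hy' | hy'
      · exact Or.inr (hWB y hy hy')
      · exact absurd hyT (hVT y hy')

end MP_ad30dc_co
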