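import Pool.Agent.Lib.MP_ad30dc_co.U4

namespace MP_ad30dc_co

variable {V : Type*} [DecidableEq V]

/-- ROW U5 (parking at a separator). `c` separates `{a, b}` from all terminal components of `R`
(`hsep`). `PA` is a path from `a` to `c`, `PB` is a path from `b` to `w ∈ M`, `w ∉ R`, both inside
`avoid G R a b c` except for their last vertices, and they are disjoint. `PB = PB0 ++ [w]`, where
`PB0` is nonempty since `b ≠ w` (`b ∈ R`), so `PB0` is a path from `b` to a vertex `b'` with
`G b' w`, inside `avoid` (`w ∉ PB0`). By `exists_term_from` for `c` there are a terminal component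
`Q` and a path from `c` to a vertex of `Q` inside `R`; `first_hit` gives `PC` from `c` to `t ∈ Q`
which meets `Q` only in `t`. By `no_return` it does not meet `avoid`. `avoid` does not meet `Q`
(`hsep`). Take `PA' = PA ++ PC.tail` (`IsP.append`; a common vertex of `PA` and `PC` is in `avoid`
or equal to `c`), `a' = t`, and `PB0`. Checks: `y ∈ PA' ∩ Q`: from `PC`, `y = t`; from `PA`,
`y = c` (not in `avoid`), and `c ∈ PC` so `c = t`. `PB0 ∩ Q = ∅`. `PA' ∩ PB0 = ∅`: `PB0 ⊆ PB` is
disjoint from `PA`, and `PB0 ⊆ avoid` is disjoint from `PC`. -/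
theorem park_of_linked (G : V → V → Prop) (R M : Finset V) (hRM : Disjoint R M) (a b c w : V)
    (hc : c ∈ R) (hb : b ∈ R) (hw : w ∈ M)
    (hsep : ∀ Q, IsTerm G R Q → ∀ q ∈ Q, q ∉ Rch G (↑R \ {c}) {a, b}) (PA PB : List V)
    (hPA : IsP G (↑(insert c (avoid G R a b c)) : Set V) a c PA)
    (hPB : IsP G (↑(insert w (avoid G R a b c)) : Set V) b w PB)
    (hdis : List.Disjoint PA PB) : Park G R M a b := by
  classical
  have hav : ∀ y ∈ avoid G R a b c, y ∈ R := fun y hy => (mem_avoid.1 hy).1
  have hwR : w ∉ R := fun h => Finset.disjoint_left.1 hRM h hw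
  obtain ⟨hch, hnd, hmem, hhead, hlast⟩ := hPB
  obtain ⟨PB0, rfl⟩ := List.getLast?_eq_some_iff.1 hlast
  have hne : PB0 ≠ [] := by
    rintro rfl
    simp at hhead
    exact hwR (hhead ▸ hb)
  obtain ⟨PB1, b', rfl⟩ : ∃ PB1 b', PB0 = PB1 ++ [b'] :=
    ⟨PB0.dropLast, PB0.getLast hne, (List.dropLast_append_getLast hne).symm⟩
  have hGw : G b' w := by
    rw [List.isChain_append] at hch
    exact hch.2.2 b' (by simp) w (by simp)
  have hch0 : List.IsChain G (PB1 ++ [b']) := (List.isChain_append.1 hch).1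
  have hnd0 : (PB1 ++ [b']).Nodup := (List.nodup_append.1 hnd).1
  have hw0 : w ∉ PB1 ++ [b'] := by
    intro h
    exact (List.nodup_append.1 hnd).2.2 w h w (by simp) rfl
  have hmem0 : ∀ y ∈ PB1 ++ [b'], y ∈ avoid G R a b c := by
    intro y hy
    have h1 := hmem y (List.mem_append_left _ hy)
    rcases Finset.mem_insert.1 (Finset.mem_coe.1 h1) with h2 | h2
    · exact absurd (h2 ▸ hy) hw0
    · exact h2
  have hhead0 : (PB1 ++ [b']).head? = some b := by
    rw [List.head?_append] at hhead
    cases hh : (PB1 ++ [b']).head? with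
    | none => simp at hh
    | some x => rw [hh] at hhead; simpa using hhead
  obtain ⟨Q, hQ, q, hqQ, hq⟩ := exists_term_from G R c hc
  obtain ⟨u, hu, L, hL⟩ := hq
  rw [Set.mem_singleton_iff] at hu
  subst hu
  obtain ⟨t, htQ, PC, hPC, -, hPCQ⟩ := hL.first_hit (↑Q) hqQ
  have hret := no_return G R a b u t PC hPC (hsep Q hQ t htQ)
  have havQ : ∀ y ∈ avoid G R a b u, y ∉ Q := fun y hy hyQ => hsep Q hQ y hyQ (mem_avoid.1 hy).2
  have hPA2 : IsP G (↑R) a u PA := hPA.of_mem (by
    intro y hy
    rcases Finset.mem_insert.1 (Finset.mem_coe.1 (hPA.2.2.1 y hy)) with h | h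
    · rw [h]; exact hc
    · exact hav y h)
  have happ := hPA2.append hPC (by
    intro y h1 h2
    rcases Finset.mem_insert.1 (Finset.mem_coe.1 (hPA.2.2.1 y h1)) with h | h
    · exact h
    · exact absurd h (hret y h2))
  refine ⟨Q, t, b', PA ++ PC.tail, PB1 ++ [b'], hQ, happ, ⟨hch0, hnd0, fun y hy => hav y (hmem0 y hy),
    hhead0, by simp⟩, htQ, ?_, fun y hy => havQ y (hmem0 y hy), ?_, w, hw, hGw⟩
  · intro y hy hyQ
    rcases List.mem_append.1 hy with h | h
    · rcases Finset.mem_insert.1 (Finset.mem_coe.1 (hPA.2.2.1 y h)) with h' | h'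
      · subst h'
        exact hPCQ y hPC.head_mem hyQ
      · exact absurd hyQ (havQ y h')
    · exact hPCQ y (List.mem_of_mem_tail h) hyQ
  · intro y hy hyB
    rcases List.mem_append.1 hy with h | h
    · exact hdis h (List.mem_append_left _ hyB)
    · exact hret y (List.mem_of_mem_tail h) (hmem0 y hyB)

end MP_ad30dc_co
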