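import Pool.Agent.Lib.MP_ad30dc_co.L3
import Pool.Agent.Lib.MP_ad30dc_co.U5

namespace MP_ad30dc_co

variable {V : Type*} [DecidableEq V]

/-- ROW U6a (ends in two different components). `b'` is in a terminal component `Qb ≠ Qa`.
`Qa`, `Qb` are disjoint (`term_unique`). `hsee` for `A = Qb`, `c = b'` gives `y ∈ Qb` and `w ∈ M`
with `G y w`. Let `P'` be a path from `b'` to `y` inside `Qb` (strongly connected). `PB' =
PB ++ P'.tail` (`IsP.append`; a common vertex of `PB` and `P' ⊆ Qb` is `b'` by `hB`). Checks: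
`PB' ∩ Qa = ∅`: `y' ∈ PB ∩ Qa` gives `y' = b' ∈ Qb`, contradiction; `P' ⊆ Qb`. `PA ∩ PB' = ∅`:
`y' ∈ PA ∩ P'` is in `Qb`, so `y' = a' ∈ Qa` by `hA`, contradiction. -/
theorem park_of_two (G : V → V → Prop) (R M : Finset V) (a b a' b' : V) (Qa Qb : Finset V)
    (hQa : IsTerm G R Qa) (hQb : IsTerm G R Qb) (hne : Qa ≠ Qb)
    (hsee : ∀ (A : Finset V) (c : V), A ⊆ R → A.Nonempty →
      (∀ v ∈ A, ∀ w ∈ R, G v w → w ∈ A ∨ w = c) → ∃ v ∈ A, ∃ w ∈ M, G v w)
    (PA PB : List V) (hPA : IsP G (↑R) a a' PA) (hPB : IsP G (↑R) b b' PB)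
    (ha' : a' ∈ Qa) (hb' : b' ∈ Qb) (hA : ∀ y ∈ PA, (y ∈ Qa ∨ y ∈ Qb) → y = a')
    (hB : ∀ y ∈ PB, (y ∈ Qa ∨ y ∈ Qb) → y = b') (hdis : List.Disjoint PA PB) :
    Park G R M a b := by
  have hQdis : ∀ v, v ∈ Qa → v ∈ Qb → False := fun v h1 h2 => hne (term_unique G R Qa Qb hQa hQb v h1 h2)
  obtain ⟨y, hy, w, hw, hyw⟩ := hsee Qb b' hQb.2.1 hQb.1
    (fun v hv w hw hG => Or.inl (hQb.2.2.1 v hv w hw hG))
  obtain ⟨u, hu, P', hP'⟩ := hQb.2.2.2 b' hb' y hy
  have hu' : u = b' := hu
  rw [hu'] at hP'
  have hP'R : IsP G (↑R) b' y P' := hP'.mono (by exact_mod_cast hQb.2.1)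
  have hP'Q : ∀ z ∈ P', z ∈ Qb := fun z hz => by
    have := hP'.2.2.1 z hz
    exact_mod_cast this
  have happ := hPB.append hP'R (fun z hz hz' => hB z hz (Or.inr (hP'Q z hz')))
  refine ⟨Qa, a', y, PA, PB ++ P'.tail, hQa, hPA, happ, ha', fun z hz hzQ => hA z hz (Or.inl hzQ), ?_, ?_, w, hw, hyw⟩
  · intro z hz hzQ
    rcases List.mem_append.1 hz with h | h
    · have := hB z h (Or.inl hzQ)
      rw [this] at hzQ
      exact hQdis b' hzQ hb'
    · exact hQdis z hzQ (hP'Q z (List.mem_of_mem_tail h))
  · intro z hz hz'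
    rcases List.mem_append.1 hz' with h | h
    · exact hdis hz h
    · have h1 := hP'Q z (List.mem_of_mem_tail h)
      have h2 := hA z hz (Or.inr h1)
      rw [h2] at h1
      exact hQdis a' ha' h1

/-- ROW U6b (the separator). `c0` separates `{a, b}` from all terminal components of `R`. Among all
`c ∈ R` with this property choose one such that `A := avoid G R a b c` has minimal cardinality.
(1) `A` is nonempty (`a ≠ c` or `b ≠ c`, `Rch_base`), and closed in `R` up to `c`: `hsee` gives
`y0 ∈ A`, `w ∈ M`, `G y0 w`. (2) Let `R' = insert w (insert c A)`; `a, b ∈ R'`. Apply `two_linked`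
to `R'`, `a`, `b`, `{c, w}` (`c ≠ w` since `w ∉ R`). (3) If it gives paths `PA`, `PB` to
`a', b' ∈ {c, w}`: `a' ≠ b'` as they are disjoint. If `a' = c`, `b' = w`: `PA` does not contain `w`,
`PB` does not contain `c` (they meet `{c, w}` only in the last vertices), so `park_of_linked`
applies: `Park G R M a b`. If `a' = w`, `b' = c`: `park_of_linked` with `a`, `b` exchanged
(`{b, a} = {a, b}` and `avoid G R b a c = avoid G R a b c`): `Park G R M b a`.
(4) Otherwise it gives `x ∈ R'` with `c, w ∉ Rch G (R' \ {x}) {a, b}`. (4a) `x ≠ w`: by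
`exists_term_from` for `a` there is a path from `a` to a terminal component inside `R`; it contains
`c` (otherwise `Rch_avoid` contradicts the choice of `c`), `to_c` gives a path from `a` to `c`
inside `insert c A`, so `c ∈ Rch G (R' \ {w}) {a, b}`. (4b) `x ≠ c`: `y0` is reached by a path
inside `A` (`Rch_exists_path` and `Rch_path`: the vertices of the path are in
`Rch G (R \ {c}) {a, b}` and in `R`), then `w` by the arc (`Rch_step`), avoiding `c`. So `x ∈ A`.
(4c) `x` separates `{a, b}` from all terminal components: let `L` be a path inside `R \ {x}` from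
`a` or `b` to `q ∈ Q`. It contains `c` (otherwise `c` would not be a separator), `to_c` gives a
path to `c` inside `insert c A` whose vertices are in `L`, so it avoids `x`:
`c ∈ Rch G (R' \ {x}) {a, b}`, contradiction. (4d) `avoid G R a b x ⊂ A`: let `y` be reached by a
path `L` inside `R \ {x}`; if `c ∈ L` then again `c ∈ Rch G (R' \ {x}) {a, b}`, contradiction; so
`y ∈ A`; and `x ∈ A`, `x ∉ avoid G R a b x`. This contradicts the minimality. -/
theorem park_of_sep (G : V → V → Prop) (R M : Finset V) (hRM : Disjoint R M) (a b : V)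
    (ha : a ∈ R) (hb : b ∈ R) (hab : a ≠ b)
    (hsee : ∀ (A : Finset V) (c : V), A ⊆ R → A.Nonempty →
      (∀ v ∈ A, ∀ w ∈ R, G v w → w ∈ A ∨ w = c) → ∃ v ∈ A, ∃ w ∈ M, G v w)
    (c0 : V) (hc0 : c0 ∈ R)
    (hsep : ∀ Q, IsTerm G R Q → ∀ q ∈ Q, q ∉ Rch G (↑R \ {c0}) {a, b}) :
    Park G R M a b ∨ Park G R M b a := by
  classical
  -- a separator with a minimal set `avoid`
  obtain ⟨c, hcmem, hmin⟩ := Finset.exists_min_image
    (R.filter fun c => ∀ Q, IsTerm G R Q → ∀ q ∈ Q, q ∉ Rch G (↑R \ {c}) {a, b})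
    (fun c => (avoid G R a b c).card) ⟨c0, Finset.mem_filter.2 ⟨hc0, hsep⟩⟩
  obtain ⟨hcR, hcsep⟩ := Finset.mem_filter.1 hcmem
  have hAR : avoid G R a b c ⊆ R := fun v hv => (mem_avoid.1 hv).1
  have hcA : c ∉ avoid G R a b c := fun h => (Rch_subset (mem_avoid.1 h).2).2 rfl
  have haA : a ≠ c → a ∈ avoid G R a b c := fun h =>
    mem_avoid.2 ⟨ha, Rch_base (Or.inl rfl) ⟨by exact_mod_cast ha, h⟩⟩
  have hbA : b ≠ c → b ∈ avoid G R a b c := fun h =>
    mem_avoid.2 ⟨hb, Rch_base (Or.inr rfl) ⟨by exact_mod_cast hb, h⟩⟩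
  have hne : (avoid G R a b c).Nonempty := by
    by_cases h : a = c
    · exact ⟨b, hbA fun h' => hab (h.trans h'.symm)⟩
    · exact ⟨a, haA h⟩
  obtain ⟨y0, hy0, w, hwM, hyw⟩ := hsee (avoid G R a b c) c hAR hne (by
    intro v hv w hw hG
    by_cases h : w = c
    · exact Or.inr h
    · exact Or.inl (mem_avoid.2 ⟨hw, Rch_step (mem_avoid.1 hv).2 hG ⟨by exact_mod_cast hw, h⟩⟩))
  have hwR : w ∉ R := fun h => (Finset.disjoint_left.1 hRM h) hwM
  have hcw : c ≠ w := fun h => hwR (h ▸ hcR)
  have hwA : w ∉ avoid G R a b c := fun h => hwR (hAR h)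
  have haR' : a ∈ insert w (insert c (avoid G R a b c)) := by
    by_cases h : a = c
    · rw [h]; simp
    · exact Finset.mem_insert_of_mem (Finset.mem_insert_of_mem (haA h))
  have hbR' : b ∈ insert w (insert c (avoid G R a b c)) := by
    by_cases h : b = c
    · rw [h]; simp
    · exact Finset.mem_insert_of_mem (Finset.mem_insert_of_mem (hbA h))
  have hQR' : ({c, w} : Finset V) ⊆ insert w (insert c (avoid G R a b c)) := by
    intro v hv
    rcases Finset.mem_insert.1 hv with h | h
    · rw [h]; simp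
    · rw [Finset.mem_singleton.1 h]; simp
  rcases two_linked G (insert w (insert c (avoid G R a b c))) a b haR' hbR' hab {c, w} hQR' with
    ⟨a', b', PA, PB, hPA, hPB, ha', hb', hA, hB, hdis⟩ | ⟨x, hx, hxs⟩
  · have hne' : a' ≠ b' := fun h => hdis hPA.last_mem (h ▸ hPB.last_mem)
    -- the paths are inside `avoid` up to the last vertices
    have key : ∀ (u t : V) (P : List V), IsP G (↑(insert w (insert c (avoid G R a b c))) : Set V) u t P →
        (∀ y ∈ P, (y ∈ ({c, w} : Finset V) ∨ y ∈ ({c, w} : Finset V)) → y = t) →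
        (t = c → IsP G (↑(insert c (avoid G R a b c)) : Set V) u t P) ∧
        (t = w → IsP G (↑(insert w (avoid G R a b c)) : Set V) u t P) := by
      intro u t P hP hPt
      constructor
      · intro ht
        refine hP.of_mem fun y hy => ?_
        have h1 : y ∈ insert w (insert c (avoid G R a b c)) := by
          have := hP.2.2.1 y hy
          exact_mod_cast this
        rcases Finset.mem_insert.1 h1 with h | h
        · exfalso
          have h2 := hPt y hy (Or.inl (by rw [h]; simp))
          exact hcw (by rw [← ht, ← h2, h])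
        · exact_mod_cast h
      · intro ht
        refine hP.of_mem fun y hy => ?_
        have h1 : y ∈ insert w (insert c (avoid G R a b c)) := by
          have := hP.2.2.1 y hy
          exact_mod_cast this
        have h3 : y ∈ insert w (avoid G R a b c) := by
          rcases Finset.mem_insert.1 h1 with h | h
          · rw [h]; simp
          · rcases Finset.mem_insert.1 h with h | h
            · exfalso
              have h2 := hPt y hy (Or.inl (by rw [h]; simp))
              exact hcw (by rw [← ht, ← h2, h])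
            · exact Finset.mem_insert_of_mem h
        exact_mod_cast h3
    have ha'' : a' = c ∨ a' = w := by simpa using ha'
    have hb'' : b' = c ∨ b' = w := by simpa using hb'
    rcases ha'' with h | h
    · have h' : b' = w := by
        rcases hb'' with h1 | h1
        · exact absurd (h.trans h1.symm) hne'
        · exact h1
      have hPA' := (key a a' PA hPA hA).1 h
      have hPB' := (key b b' PB hPB hB).2 h'
      rw [h] at hPA'
      rw [h'] at hPB'
      exact Or.inl (park_of_linked G R M hRM a b c w hcR hb hwM hcsep PA PB hPA' hPB' hdis)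
    · have h' : b' = c := by
        rcases hb'' with h1 | h1
        · exact h1
        · exact absurd (h.trans h1.symm) hne'
      have hPA' := (key a a' PA hPA hA).2 h
      have hPB' := (key b b' PB hPB hB).1 h'
      rw [h] at hPA'
      rw [h'] at hPB'
      have hpair : ({b, a} : Set V) = {a, b} := Set.pair_comm b a
      have hav : avoid G R b a c = avoid G R a b c := by
        ext v
        rw [mem_avoid, mem_avoid, hpair]
      rw [← hav] at hPA' hPB'
      exact Or.inr (park_of_linked G R M hRM b a c w hcR ha hwM (by rw [hpair]; exact hcsep) PB PA hPB' hPA' hdis.symm)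
  · exfalso
    have hxc' : c ∉ Rch G (↑(insert w (insert c (avoid G R a b c))) \ {x}) {a, b} := hxs c (by simp)
    have hxw' : w ∉ Rch G (↑(insert w (insert c (avoid G R a b c))) \ {x}) {a, b} := hxs w (by simp)
    -- a path to `c` inside `insert c avoid` which misses `x`
    have hno : ∀ u L1, u ∈ ({a, b} : Set V) → IsP G (↑(insert c (avoid G R a b c)) : Set V) u c L1 → x ∉ L1 → False := by
      intro u L1 hu hL1 hxL
      refine hxc' ⟨u, hu, L1, hL1.of_mem fun y hy => ⟨?_, ?_⟩⟩
      · have h1 : y ∈ insert c (avoid G R a b c) := by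
          have := hL1.2.2.1 y hy
          exact_mod_cast this
        have h2 : y ∈ insert w (insert c (avoid G R a b c)) := Finset.mem_insert_of_mem h1
        exact_mod_cast h2
      · intro h
        have h' : y = x := h
        exact hxL (h' ▸ hy)
    have hinsR : ∀ y, y ∈ insert c (avoid G R a b c) → y ∈ R := by
      intro y hy
      rcases Finset.mem_insert.1 hy with h | h
      · rw [h]; exact hcR
      · exact hAR h
    -- `x ≠ w`
    have hxw : x ≠ w := by
      intro hxw
      obtain ⟨Q, hQ, q, hq, u, hu, L, hL⟩ := exists_term_from G R a ha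
      have hu' : u = a := hu
      rw [hu'] at hL
      have hcL : c ∈ L := by
        by_contra hcL
        exact hcsep Q hQ q hq (Rch_avoid (Or.inl rfl) hL hcL)
      obtain ⟨L1, hL1, _⟩ := to_c G R a b c a q L hL (Or.inl rfl) hcL
      refine hno a L1 (Or.inl rfl) hL1 ?_
      rw [hxw]
      intro hwL
      have h1 : w ∈ insert c (avoid G R a b c) := by
        have := hL1.2.2.1 w hwL
        exact_mod_cast this
      exact hwR (hinsR w h1)
    -- `x ≠ c`
    have hxc : x ≠ c := by
      intro hxc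
      obtain ⟨u, hu, L, hL⟩ := Rch_exists_path (mem_avoid.1 hy0).2
      apply hxw'
      rw [hxc]
      refine Rch_step (v := y0) ⟨u, hu, L, hL.of_mem fun y hy => ?_⟩ hyw ⟨?_, fun h => hcw h.symm⟩
      · have h1 := hL.2.2.1 y hy
        have h2 := Rch_subset h1
        have h3 : y ∈ avoid G R a b c := mem_avoid.2 ⟨by exact_mod_cast h2.1, h1⟩
        have h4 : y ∈ insert w (insert c (avoid G R a b c)) :=
          Finset.mem_insert_of_mem (Finset.mem_insert_of_mem h3)
        exact ⟨by exact_mod_cast h4, h2.2⟩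
      · have h5 : w ∈ insert w (insert c (avoid G R a b c)) := Finset.mem_insert_self _ _
        exact_mod_cast h5
    have hxA : x ∈ avoid G R a b c := by
      rcases Finset.mem_insert.1 hx with h | h
      · exact absurd h hxw
      · rcases Finset.mem_insert.1 h with h | h
        · exact absurd h hxc
        · exact h
    have hS : ∀ u z L, u ∈ ({a, b} : Set V) → IsP G (↑R \ {x}) u z L → c ∉ L := by
      intro u z L hu hL hcL
      have hLR : IsP G (↑R) u z L := hL.mono Set.sdiff_subset
      obtain ⟨L1, hL1, hsub⟩ := to_c G R a b c u z L hLR hu hcL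
      refine hno u L1 hu hL1 fun hxL => ?_
      exact (hL.2.2.1 x (hsub x hxL)).2 rfl
    have hRch : ∀ y, y ∈ Rch G (↑R \ {x}) {a, b} → y ∈ Rch G (↑R \ {c}) {a, b} := by
      rintro y ⟨u, hu, L, hL⟩
      exact Rch_avoid hu (hL.mono Set.sdiff_subset) (hS u y L hu hL)
    have hxsep : x ∈ R.filter fun c => ∀ Q, IsTerm G R Q → ∀ q ∈ Q, q ∉ Rch G (↑R \ {c}) {a, b} := by
      refine Finset.mem_filter.2 ⟨hAR hxA, fun Q hQ q hq hq' => ?_⟩
      exact hcsep Q hQ q hq (hRch q hq')
    have hlt : (avoid G R a b x).card < (avoid G R a b c).card := by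
      apply Finset.card_lt_card
      refine ⟨fun y hy => mem_avoid.2 ⟨(mem_avoid.1 hy).1, hRch y (mem_avoid.1 hy).2⟩, fun h => ?_⟩
      exact (Rch_subset (mem_avoid.1 (h hxA)).2).2 rfl
    exact absurd (hmin x hxsep) (by omega)

/-- ROW U6c. Let `U` be the finset of all vertices of `R` which lie in some terminal component.
`two_linked` for `U`. If it gives paths: `a'`, `b'` lie in terminal components `Qa`, `Qb ⊆ U`; if
`Qa = Qb` the first alternative holds with `Q = Qa` (restrict the conditions from `U` to `Q`),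
otherwise `park_of_two`. If it gives `s`: `park_of_sep`. -/
theorem park_cases (G : V → V → Prop) (R M : Finset V) (hRM : Disjoint R M) (a b : V)
    (ha : a ∈ R) (hb : b ∈ R) (hab : a ≠ b)
    (hsee : ∀ (A : Finset V) (c : V), A ⊆ R → A.Nonempty →
      (∀ v ∈ A, ∀ w ∈ R, G v w → w ∈ A ∨ w = c) → ∃ v ∈ A, ∃ w ∈ M, G v w) :
    (∃ (Q : Finset V) (a' b' : V) (PA PB : List V), IsTerm G R Q ∧
      Linked G R Q Q a b a' b' PA PB) ∨ Park G R M a b ∨ Park G R M b a := by
  classical
  have hU : ∀ Q, IsTerm G R Q → ∀ q ∈ Q, q ∈ R.filter (fun v => ∃ Q, IsTerm G R Q ∧ v ∈ Q) :=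
    fun Q hQ q hq => Finset.mem_filter.2 ⟨hQ.2.1 hq, Q, hQ, hq⟩
  rcases two_linked G R a b ha hb hab (R.filter (fun v => ∃ Q, IsTerm G R Q ∧ v ∈ Q))
      (Finset.filter_subset _ _) with ⟨a', b', PA, PB, hPA, hPB, ha', hb', hA, hB, hdis⟩ | ⟨s, hs, hsq⟩
  · obtain ⟨_, Qa, hQa, haQ⟩ := Finset.mem_filter.1 ha'
    obtain ⟨_, Qb, hQb, hbQ⟩ := Finset.mem_filter.1 hb'
    by_cases h : Qa = Qb
    · left
      refine ⟨Qa, a', b', PA, PB, hQa, hPA, hPB, haQ, h ▸ hbQ, ?_, ?_, hdis⟩
      · intro y hy hyQ
        exact hA y hy (Or.inl (hU Qa hQa y (hyQ.elim id id)))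
      · intro y hy hyQ
        exact hB y hy (Or.inl (hU Qa hQa y (hyQ.elim id id)))
    · right; left
      refine park_of_two G R M a b a' b' Qa Qb hQa hQb h hsee PA PB hPA hPB haQ hbQ ?_ ?_ hdis
      · intro y hy hyQ
        refine hA y hy (Or.inl ?_)
        rcases hyQ with hyQ | hyQ
        · exact hU Qa hQa y hyQ
        · exact hU Qb hQb y hyQ
      · intro y hy hyQ
        refine hB y hy (Or.inl ?_)
        rcases hyQ with hyQ | hyQ
        · exact hU Qa hQa y hyQ
        · exact hU Qb hQb y hyQ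
  · right
    exact park_of_sep G R M hRM a b ha hb hab hsee s hs
      (fun Q hQ q hq => hsq q (hU Q hQ q hq))

end MP_ad30dc_co
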