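import Pool.Agent.Lib.MP_ad30dc_co.K1
import Pool.Agent.Lib.MP_ad30dc_co.U2
import Pool.Agent.Lib.MP_ad30dc_co.U6

namespace MP_ad30dc_co

variable {V : Type*} [Fintype V] [DecidableEq V]

/-- ROW U7a (move both ends along disjoint paths inside the region). The new list is
`W' = PB.tail.reverse ++ W ++ PA.tail`; it is a chain by `Chn.append_both` (`PA`, `PB` are chains
which start in the last and in the first vertex of `W`). No repetition: `W` meets `R` only in `a`
and `b`, `PA` and `PB` are inside `R`, disjoint and without repetitions, and start in `a` and `b`.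
`W'` is in `T` and outside `S` (`R ⊆ T`, `Disjoint R S`). First vertex `b'`, last vertex `a'`
(if `PA = [a]` then `a' = a`). `a' ≠ b'` since the paths are disjoint. An element of `W'` in `R` is
on `PA` or on `PB` (elements of `W` in `R` are `a` or `b`). -/
theorem ch_move (G : V → V → Prop) (T S X R : Finset V) (lam : ℕ → ℕ) (j k : ℕ) (hk : 1 ≤ k)
    (a b : V) (W : List V) (hst : StI G T S X R lam j k a b W) (a' b' : V) (PA PB : List V)
    (hPA : IsP G (↑R) a a' PA) (hPB : IsP G (↑R) b b' PB) (hdis : List.Disjoint PA PB) :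
    ∃ W' : List V, IsCh G T S lam j k a' b' W' ∧ a' ≠ b' ∧
      ∀ v ∈ W', v ∈ R → v ∈ PA ∨ v ∈ PB := by
  obtain ⟨⟨hC, hWn, hWb, hWa, hWT⟩, hRT, hdRS, hE, haR, hbR, hab, hWR⟩ := hst
  obtain ⟨cA, nA, mA, hA, lA⟩ := hPA
  obtain ⟨cB, nB, mB, hB, lB⟩ := hPB
  have haA : a ∈ PA := List.mem_of_mem_head? (by rw [hA]; rfl)
  have hbB : b ∈ PB := List.mem_of_mem_head? (by rw [hB]; rfl)
  have ha'A : a' ∈ PA := List.mem_of_mem_getLast? (by rw [lA]; rfl)
  have hb'B : b' ∈ PB := List.mem_of_mem_getLast? (by rw [lB]; rfl)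
  obtain ⟨PA0, hPA0⟩ := List.head?_eq_some_iff.1 hA
  obtain ⟨PB0, hPB0⟩ := List.head?_eq_some_iff.1 hB
  have haA0 : a ∉ PA0 := by
    rw [hPA0] at nA
    exact (List.nodup_cons.1 nA).1
  have hbB0 : b ∉ PB0 := by
    rw [hPB0] at nB
    exact (List.nodup_cons.1 nB).1
  have htA : ∀ y ∈ PA.tail, y ∈ PA := fun y hy => List.mem_of_mem_tail hy
  have htB : ∀ y ∈ PB.tail, y ∈ PB := fun y hy => List.mem_of_mem_tail hy
  have hWA : ∀ y ∈ W, y ∈ PA.tail → False := by
    intro y hy hyA
    rcases hWR y hy (mA y (htA y hyA)) with h | h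
    · subst h
      rw [hPA0] at hyA
      exact haA0 hyA
    · subst h
      exact hdis (htA _ hyA) hbB
  have hWB : ∀ y ∈ W, y ∈ PB.tail → False := by
    intro y hy hyB
    rcases hWR y hy (mB y (htB y hyB)) with h | h
    · subst h
      exact hdis haA (htB _ hyB)
    · subst h
      rw [hPB0] at hyB
      exact hbB0 hyB
  refine ⟨PB.tail.reverse ++ W ++ PA.tail, ⟨?_, ?_, ?_, ?_, ?_⟩, ?_, ?_⟩
  · exact Chn.append_both (by simp) (by omega) hC hWa hWb PA PB cA hA cB hB
  · rw [List.nodup_append, List.nodup_append]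
    refine ⟨⟨List.nodup_reverse.2 nB.tail, hWn, ?_⟩, nA.tail, ?_⟩
    · intro u hu v hv huv
      subst huv
      exact hWB u hv (List.mem_reverse.1 hu)
    · intro u hu v hv huv
      subst huv
      rcases List.mem_append.1 hu with h | h
      · exact hdis (htA _ hv) (htB _ (List.mem_reverse.1 h))
      · exact hWA u h hv
  · rw [List.append_assoc, List.head?_append, List.head?_reverse, List.head?_append, hWb]
    rw [hPB0] at lB ⊢
    rw [List.tail_cons]
    cases hh : PB0 with
    | nil =>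
      rw [hh] at lB
      simp at lB
      simp [lB]
    | cons x L =>
      rw [hh] at lB
      rw [List.getLast?_cons_cons] at lB
      rw [lB]
      rfl
  · rw [List.getLast?_append, List.getLast?_append, hWa]
    rw [hPA0] at lA ⊢
    rw [List.tail_cons]
    cases hh : PA0 with
    | nil =>
      rw [hh] at lA
      simp at lA
      simp [lA]
    | cons x L =>
      rw [hh] at lA
      rw [List.getLast?_cons_cons] at lA
      rw [lA]
      rfl
  · intro v hv
    have hR : ∀ y ∈ R, y ∈ T ∧ y ∉ S := fun y hy => ⟨hRT hy, Finset.disjoint_left.1 hdRS hy⟩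
    rcases List.mem_append.1 hv with h | h
    · rcases List.mem_append.1 h with h | h
      · exact hR v (mB v (htB v (List.mem_reverse.1 h)))
      · exact hWT v h
    · exact hR v (mA v (htA v h))
  · intro h
    exact hdis ha'A (h ▸ hb'B)
  · intro v hv hvR
    rcases List.mem_append.1 hv with h | h
    · rcases List.mem_append.1 h with h | h
      · exact Or.inr (htB v (List.mem_reverse.1 h))
      · rcases hWR v h hvR with h' | h'
        · exact Or.inl (h' ▸ haA)
        · exact Or.inr (h' ▸ hbB)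
    · exact Or.inl (htA v h)

/-- ROW U7b (LINK). Hypothesis `hsee` of `park_cases` for `R` and `M = bdry G T`: let `A ⊆ R` be
nonempty and closed in `R` up to `c`; by `Exits G R X (bdry G T)` its exits are in
`insert c X ∪ bdry G T`, and `(insert c X).card ≤ X.card + 1 ≤ f`, so `good_sees` applies
(`A ⊆ R ⊆ T`). Apply `park_cases`.
(1) `Q` and linked paths: `ch_move` gives `W'`; first alternative with the region `Q`:
`Q ⊆ R ⊆ T`; `Exits G Q X S`: an out-neighbour of `v ∈ Q` is in `R` (then in `Q`, as `Q` is closed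
in `R`), `X` or `S`; `W' ∩ Q ⊆ {a', b'}`.
(2) `Park G R M a b`: second alternative with the region `Q`: `W' ∩ Q = {a'}` (`PB ∩ Q = ∅`), and
`b'` sees `w ∈ M`.
(3) `Park G R M b a`: its data are `Q`, the end `q` of the path from `b` in `Q`, the end `p` of the
path from `a`, `p` sees a vertex of `M`. Third alternative with `a' = p`, `b' = q`. -/
theorem link (G : V → V → Prop) (T : Finset V) (f : ℕ) (ω : V) (hgood : Good G T f ω)
    (X R : Finset V) (lam : ℕ → ℕ) (j k : ℕ) (hk : 1 ≤ k) (a b : V) (W : List V)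
    (hst : StI G T (bdry G T) X R lam j k a b W) (hX : X.card + 1 ≤ f) :
    (∃ (Q : Finset V) (a' b' : V) (W' : List V),
      StI G T (bdry G T) X Q lam j k a' b' W' ∧ ∀ u ∈ Q, ∀ v ∈ Q, v ∈ Rch G (↑Q) {u}) ∨
    (∃ (Q : Finset V) (a' b' : V) (W' : List V), StP G T (bdry G T) X Q lam j k a' b' W') ∨
    (∃ (Q : Finset V) (a' b' : V) (W' : List V), StQ G T (bdry G T) X Q lam j k a' b' W') := by
  obtain ⟨hch, hRT, hRS, hE, haR, hbR, hab, hWR⟩ := hst
  have hst : StI G T (bdry G T) X R lam j k a b W := ⟨hch, hRT, hRS, hE, haR, hbR, hab, hWR⟩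
  have hsee : ∀ (A : Finset V) (c : V), A ⊆ R → A.Nonempty →
      (∀ v ∈ A, ∀ w ∈ R, G v w → w ∈ A ∨ w = c) → ∃ v ∈ A, ∃ w ∈ bdry G T, G v w := by
    intro A c hAR hA hcl
    refine good_sees G T f ω hgood A (insert c X) (hAR.trans hRT) hA ?_
      ((Finset.card_insert_le _ _).trans hX)
    intro v hv w hG
    rcases hE v (hAR hv) w hG with h | h | h
    · rcases hcl v hv w h hG with h' | h'
      · exact Or.inl h'
      · exact Or.inr (Or.inl (by rw [h']; exact Finset.mem_insert_self _ _))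
    · exact Or.inr (Or.inl (Finset.mem_insert_of_mem h))
    · exact Or.inr (Or.inr h)
  have hEQ : ∀ Q, IsTerm G R Q → Exits G Q X (bdry G T) := by
    intro Q hQ v hv w hG
    rcases hE v (hQ.2.1 hv) w hG with h | h | h
    · exact Or.inl (hQ.2.2.1 v hv w h hG)
    · exact Or.inr (Or.inl h)
    · exact Or.inr (Or.inr h)
  rcases park_cases G R (bdry G T) hRS a b haR hbR hab hsee with
    ⟨Q, a', b', PA, PB, hQ, hL⟩ |
    ⟨Q, a', b', PA, PB, hQ, hPA, hPB, haQ, hAQ, hBQ, hdis, w, hw, hG⟩ |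
    ⟨Q, q, p, PB, PA, hQ, hPB, hPA, hqQ, hBQ, hAQ, hdis, w, hw, hG⟩
  · left
    obtain ⟨hPA, hPB, haQ, hbQ, hA, hB, hdis⟩ := hL
    obtain ⟨W', hW', hne, hW'R⟩ := ch_move G T (bdry G T) X R lam j k hk a b W hst a' b' PA PB
      hPA hPB hdis
    refine ⟨Q, a', b', W', ⟨hW', hQ.2.1.trans hRT, Finset.disjoint_of_subset_left hQ.2.1 hRS,
      hEQ Q hQ, haQ, hbQ, hne, ?_⟩, hQ.2.2.2⟩
    intro v hv hvQ
    rcases hW'R v hv (hQ.2.1 hvQ) with h | h
    · exact Or.inl (hA v h (Or.inl hvQ))
    · exact Or.inr (hB v h (Or.inl hvQ))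
  · right
    left
    obtain ⟨W', hW', hne, hW'R⟩ := ch_move G T (bdry G T) X R lam j k hk a b W hst a' b' PA PB
      hPA hPB hdis
    refine ⟨Q, a', b', W', hW', hQ.2.1.trans hRT, Finset.disjoint_of_subset_left hQ.2.1 hRS,
      hEQ Q hQ, haQ, hne, ?_, w, hw, hG⟩
    intro v hv hvQ
    rcases hW'R v hv (hQ.2.1 hvQ) with h | h
    · exact hAQ v h hvQ
    · exact absurd hvQ (hBQ v h)
  · right
    right
    obtain ⟨W', hW', hne, hW'R⟩ := ch_move G T (bdry G T) X R lam j k hk a b W hst p q PA PB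
      hPA hPB hdis.symm
    refine ⟨Q, p, q, W', hW', hQ.2.1.trans hRT, Finset.disjoint_of_subset_left hQ.2.1 hRS,
      hEQ Q hQ, hqQ, hne, ?_, w, hw, hG⟩
    intro v hv hvQ
    rcases hW'R v hv (hQ.2.1 hvQ) with h | h
    · exact absurd hvQ (hAQ v h)
    · exact hBQ v h hvQ

end MP_ad30dc_co
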