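import Pool.Agent.Lib.MP_ad30dc_co.L8
import Pool.Agent.Lib.MP_ad30dc_co.U0

namespace MP_ad30dc_co

variable {V : Type*} [Fintype V] [DecidableEq V]

/-- ROW U9a (extend the first block by a directed path which starts in the first vertex `b`):
`Chn.append_both` with `PA = [a]`. -/
theorem Chn.prepend_path {G : V → V → Prop} {f : ℕ → ℕ} {W : List V} {a b : V} {N : ℕ}
    (hN : Even N) (hN0 : 0 < N) (h : Chn G f N W)
    (ha : W.getLast? = some a) (hb : W.head? = some b) (PB : List V)
    (hPB : List.IsChain G PB) (hB : PB.head? = some b) : Chn G f N (PB.tail.reverse ++ W) := by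
  have h1 := h.append_both hN hN0 ha hb [a] PB (List.isChain_singleton a) (by simp) hPB hB
  simpa using h1

/-- ROW U9b (Step in State Q: extension at the left end `b`; the mirror image of `step_II` of L8,
look at its finished proof `ol_L8.lean` in the team store). Let `R1` be the set of vertices
reachable from `b` inside `R` and `Q` a terminal component of `R1`; `Q` is closed in `R`, so
`Exits G Q X S`, and the out-degrees in `Q` are at least `α + β + 1` with `β = lam (2 j - 1)`,
`α = lam (2 j - 2)` (`deg_region`, `hd`). Let `PB` be a path inside `R` from `b` to the first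
vertex `t` of `Q` (`first_hit`). `in_path_leg` with `Z = {t}` gives `x`, `Y`, `P` (`z = t`,
`Y.length = β`, `P.length = α`). Let `b'` be the last vertex of `P`. New list:
`W' = P.reverse ++ Y ++ (PB.tail.reverse ++ W)` (`Chn.prepend_path` for `f i = lam (2 j + i)`,
`N = 2 k`, then `Chn.prepend_step` with `f i = lam (2 (j - 1) + i)`: `f (i + 2) = lam (2 j + i)`,
`f 1 = lam (2 j - 1)`, `f 0 = lam (2 j - 2)`; `Chn.congr` for the arithmetic of the indices,
`1 ≤ j`). New region `R' = Q \ (insert t (Y ++ P.dropLast))`, `X' = X ∪ {t} ∪ Y ∪ P.dropLast`: at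
most `1 + β + (α - 1) = α + β` new exits. `a` is unchanged and still sees a vertex of `S`. The
remaining checks are as in Step II. -/
theorem step_Q (G : V → V → Prop) (hG : ∀ v, ¬ G v v) (T S X R : Finset V)
    (lam : ℕ → ℕ) (hlam : ∀ i, 1 ≤ lam i) (j k d : ℕ) (hk : 1 ≤ k) (hj : 1 ≤ j) (a b : V)
    (W : List V) (hdeg : ∀ v, d ≤ (out G Finset.univ v).card)
    (hst : StQ G T S X R lam j k a b W)
    (hd : S.card + X.card + lam (2 * j - 1) + lam (2 * j - 2) + 1 ≤ d) :
    ∃ (X' R' : Finset V) (b' : V) (W' : List V),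
      X'.card ≤ X.card + lam (2 * j - 1) + lam (2 * j - 2) ∧
      StQ G T S X' R' lam (j - 1) (k + 1) a b' W' := by
  classical
  obtain ⟨⟨hchn, hWn, hWb, hWa, hWT⟩, hRaT, hRaS, hEa, hbR, hab, hWRa, haS⟩ := hst
  -- the terminal component
  let R' : Finset V := R.filter (fun v => v ∈ Rch G (↑R) {b})
  have hR'Ra : R' ⊆ R := Finset.filter_subset _ _
  have hbR' : b ∈ R' := Finset.mem_filter.2 ⟨hbR, Rch_base rfl (by simpa using hbR)⟩
  obtain ⟨Q, hQne, hQR', hQcl, hQconn⟩ := exists_term G R' ⟨b, hbR'⟩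
  have hQRa : Q ⊆ R := hQR'.trans hR'Ra
  have hQcl' : ∀ v ∈ Q, ∀ w ∈ R, G v w → w ∈ Q := by
    intro v hv w hw hvw
    refine hQcl v hv w (Finset.mem_filter.2 ⟨hw, ?_⟩) hvw
    exact Rch_step (Finset.mem_filter.1 (hQR' hv)).2 hvw (by simpa using hw)
  have hEQ : Exits G Q X S := by
    intro v hv w hvw
    rcases hEa v (hQRa hv) w hvw with h | h | h
    · exact Or.inl (hQcl' v hv w h hvw)
    · exact Or.inr (Or.inl h)
    · exact Or.inr (Or.inr h)
  have hdQ : ∀ v ∈ Q, lam (2 * j - 2) + lam (2 * j - 1) + 1 ≤ (out G Q v).card := by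
    intro v hv
    have := deg_region G Q X S d hEQ hdeg v hv
    omega
  -- the path to the component
  obtain ⟨q0, hq0⟩ := hQne
  obtain ⟨u, hu, L, hL⟩ := (Finset.mem_filter.1 (hQR' hq0)).2
  have hua : u = b := hu
  subst hua
  obtain ⟨t, htQ, PA, hPA, -, hPAQ⟩ := hL.first_hit (↑Q : Set V) (by simpa using hq0)
  have htQ' : t ∈ Q := by simpa using htQ
  have hPAQ' : ∀ y ∈ PA, y ∈ Q → y = t := fun y hy hyQ => hPAQ y hy (by simpa using hyQ)
  -- the in-path and the leg
  obtain ⟨z, hz, x, Y, P, hYl, hYx, hPl, hYc, hPc, hYPn, hYPm⟩ := in_path_leg G hG Q {t}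
    (Finset.singleton_nonempty t) (by simp) (by simpa using htQ') hQconn
    (lam (2 * j - 2)) (lam (2 * j - 1)) (hlam _) hdQ (hlam _)
  have hzt : z = t := Finset.mem_singleton.1 hz
  subst hzt
  have hYPQ : ∀ y ∈ Y ++ P, y ∈ Q := fun y hy => (hYPm y hy).1
  have hYPz : ∀ y ∈ Y ++ P, y ≠ z := fun y hy => by
    have := (hYPm y hy).2
    simpa using this
  obtain ⟨hPAc, hPAn, hPAm, hPAh, hPAl⟩ := hPA
  obtain ⟨PT, hPT⟩ : ∃ PT, PA = u :: PT := by
    cases PA with
    | nil => simp at hPAh
    | cons c PT =>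
      simp only [List.head?_cons, Option.some.injEq] at hPAh
      exact ⟨PT, by rw [hPAh]⟩
  have huPT : u ∉ PT := by
    rw [hPT] at hPAn
    exact (List.nodup_cons.1 hPAn).1
  have hPTn : PT.Nodup := by
    rw [hPT] at hPAn
    exact (List.nodup_cons.1 hPAn).2
  have hPTPA : ∀ y ∈ PT, y ∈ PA := fun y hy => by
    rw [hPT]
    exact List.mem_cons_of_mem _ hy
  have huPA : u ∈ PA := by
    rw [hPT]
    exact List.mem_cons_self
  have hPARa : ∀ y ∈ PA, y ∈ R := fun y hy => by simpa using hPAm y hy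
  -- the last vertex of the leg
  have hPne : P ≠ [] := by
    intro h
    have := hlam (2 * j - 2)
    rw [h] at hPl
    simp only [List.length_nil] at hPl
    omega
  have hPsplit : P.dropLast ++ [P.getLast hPne] = P := List.dropLast_append_getLast hPne
  have hPn : P.Nodup := (List.nodup_append.1 hYPn).2.1
  have hYn : Y.Nodup := (List.nodup_append.1 hYPn).1
  have hYPd : ∀ y ∈ Y, y ∉ P := fun y hy hy' => (List.nodup_append.1 hYPn).2.2 y hy y hy' rfl
  have ha'P : P.getLast hPne ∈ P := List.getLast_mem _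
  have ha'D : P.getLast hPne ∉ P.dropLast := by
    intro h
    rw [← hPsplit] at hPn
    exact (List.nodup_append.1 hPn).2.2 _ h _ (by simp) rfl
  have ha'Q : P.getLast hPne ∈ Q := hYPQ _ (List.mem_append_right _ ha'P)
  have hDP : ∀ y ∈ P.dropLast, y ∈ P := fun y hy => List.mem_of_mem_dropLast hy
  let U : Finset V := insert z (Y ++ P.dropLast).toFinset
  have hUcard : U.card ≤ lam (2 * j - 1) + lam (2 * j - 2) := by
    have h1 : U.card ≤ (Y ++ P.dropLast).toFinset.card + 1 := Finset.card_insert_le _ _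
    have h2 : (Y ++ P.dropLast).toFinset.card ≤ (Y ++ P.dropLast).length :=
      List.toFinset_card_le _
    have h3 := hlam (2 * j - 2)
    rw [List.length_append, List.length_dropLast, hYl, hPl] at h2
    omega
  have hzU : z ∈ U := Finset.mem_insert_self _ _
  have hYU : ∀ y ∈ Y, y ∈ U := fun y hy =>
    Finset.mem_insert_of_mem (List.mem_toFinset.2 (List.mem_append_left _ hy))
  have hDU : ∀ y ∈ P.dropLast, y ∈ U := fun y hy =>
    Finset.mem_insert_of_mem (List.mem_toFinset.2 (List.mem_append_right _ hy))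
  have ha'U : P.getLast hPne ∉ U := by
    intro h
    rcases Finset.mem_insert.1 h with h | h
    · exact hYPz _ (List.mem_append_right _ ha'P) h
    · rcases List.mem_append.1 (List.mem_toFinset.1 h) with h | h
      · exact hYPd _ h ha'P
      · exact ha'D h
  -- `W` and the component
  have hWQ : ∀ y ∈ W, y ∈ Q → y = z := by
    intro y hy hyQ
    have h1 := hWRa y hy (hQRa hyQ)
    rw [h1] at hyQ ⊢
    exact hPAQ' u huPA hyQ
  have hWYP : ∀ y ∈ W, y ∉ Y ++ P := by
    intro y hy hyYP
    exact hYPz y hyYP (hWQ y hy (hYPQ y hyYP))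
  have hPTYP : ∀ y ∈ PT, y ∉ Y ++ P := by
    intro y hy hyYP
    exact hYPz y hyYP (hPAQ' y (hPTPA y hy) (hYPQ y hyYP))
  have hWPT : ∀ y ∈ W, y ∉ PT := by
    intro y hy hyPT
    have h1 := hWRa y hy (hPARa y (hPTPA y hyPT))
    rw [h1] at hyPT
    exact huPT hyPT
  have hmem : ∀ y, y ∈ P.reverse ++ Y ++ (PT.reverse ++ W) → y ∈ W ∨ y ∈ PT ∨ y ∈ Y ++ P := by
    intro y hy
    simp only [List.mem_append, List.mem_reverse] at hy ⊢
    tauto
  -- the new chain
  have hhead : (PT.reverse ++ W).head? = some z := by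
    rw [hPT] at hPAl
    cases PT with
    | nil =>
      simp only [List.getLast?_singleton, Option.some.injEq] at hPAl
      rw [List.reverse_nil, List.nil_append, hWb, hPAl]
    | cons c PT' =>
      rw [List.head?_append_of_ne_nil _ (by simp)]
      rw [List.getLast?_cons_cons] at hPAl
      rw [List.head?_reverse]
      exact hPAl
  have hchn1 : Chn G (fun i => lam (2 * j + i)) (2 * k) (PT.reverse ++ W) := by
    have h1 := hchn.prepend_path (even_two_mul k) (by omega) hWa hWb PA hPAc hPAh
    rw [hPT] at h1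
    exact h1
  have hchn1' : Chn G (fun i => lam (2 * (j - 1) + (i + 2))) (2 * k) (PT.reverse ++ W) := by
    refine hchn1.congr ?_
    intro i _
    have h1 : 2 * j + i = 2 * (j - 1) + (i + 2) := by omega
    rw [h1]
  have hchn2 : Chn G (fun i => lam (2 * (j - 1) + i)) (2 * k + 2) (P.reverse ++ Y ++ (PT.reverse ++ W)) := by
    refine Chn.prepend_step (f := fun i => lam (2 * (j - 1) + i)) (even_two_mul k) hchn1' hhead Y P hYc hYx hPc ?_ ?_
    · have h1 : 2 * (j - 1) + 1 = 2 * j - 1 := by omega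
      simp only [h1]
      exact hYl.ge
    · have h1 : 2 * (j - 1) + 0 = 2 * j - 2 := by omega
      simp only [h1]
      exact hPl.ge
  have hnodup : (P.reverse ++ Y ++ (PT.reverse ++ W)).Nodup := by
    refine List.nodup_append.2 ⟨List.nodup_append.2 ⟨List.nodup_reverse.2 hPn, hYn, ?_⟩,
      List.nodup_append.2 ⟨List.nodup_reverse.2 hPTn, hWn, ?_⟩, ?_⟩
    · intro y hy y' hy' he
      subst he
      exact hYPd y hy' (List.mem_reverse.1 hy)
    · intro y hy y' hy' he
      subst he
      exact hWPT y hy' (List.mem_reverse.1 hy)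
    · intro y hy y' hy' he
      subst he
      have h1 : y ∈ Y ++ P := by
        simp only [List.mem_append, List.mem_reverse] at hy ⊢
        tauto
      rcases List.mem_append.1 hy' with h | h
      · exact hPTYP y (List.mem_reverse.1 h) h1
      · exact hWYP y h h1
  have haW : a ∈ W := List.mem_of_mem_getLast? hWa
  have hWne : W ≠ [] := List.ne_nil_of_mem haW
  have ha'b : a ≠ P.getLast hPne := by
    intro h
    have h1 : a ∈ R := by
      rw [h]
      exact hQRa ha'Q
    exact hab (hWRa a haW h1)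
  refine ⟨X ∪ U, Q \ U, P.getLast hPne, P.reverse ++ Y ++ (PT.reverse ++ W), ?_,
    ⟨hchn2, hnodup, ?_, ?_, ?_⟩, ?_, ?_, ?_, ?_, ha'b, ?_, haS⟩
  · have := Finset.card_union_le X U
    omega
  · -- head
    rw [List.append_assoc, List.head?_append_of_ne_nil _ (by simpa using hPne), List.head?_reverse,
      List.getLast?_eq_getLast_of_ne_nil hPne]
  · -- last
    rw [← List.append_assoc, List.getLast?_append_of_ne_nil _ hWne, hWa]
  · intro v hv
    have key : v ∈ R → v ∈ T ∧ v ∉ S := fun h =>
      ⟨hRaT h, fun hS => (Finset.disjoint_left.1 hRaS h) hS⟩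
    rcases hmem v hv with h | h | h
    · exact hWT v h
    · exact key (hPARa v (hPTPA v h))
    · exact key (hQRa (hYPQ v h))
  · exact (Finset.sdiff_subset.trans hQRa).trans hRaT
  · exact Finset.disjoint_of_subset_left (Finset.sdiff_subset.trans hQRa) hRaS
  · intro v hv w hvw
    rcases hEQ v (Finset.mem_sdiff.1 hv).1 w hvw with h | h | h
    · by_cases hwU : w ∈ U
      · exact Or.inr (Or.inl (Finset.mem_union_right _ hwU))
      · exact Or.inl (Finset.mem_sdiff.2 ⟨h, hwU⟩)
    · exact Or.inr (Or.inl (Finset.mem_union_left _ h))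
    · exact Or.inr (Or.inr h)
  · exact Finset.mem_sdiff.2 ⟨ha'Q, ha'U⟩
  · intro v hv hvQ
    obtain ⟨hvQ, hvU⟩ := Finset.mem_sdiff.1 hvQ
    rcases hmem v hv with h | h | h
    · exact absurd (hWQ v h hvQ ▸ hzU) hvU
    · exact absurd (hPAQ' v (hPTPA v h) hvQ ▸ hzU) hvU
    · rcases List.mem_append.1 h with h | h
      · exact absurd (hYU v h) hvU
      · rw [← hPsplit] at h
        rcases List.mem_append.1 h with h | h
        · exact absurd (hDU v h) hvU
        · simpa using h

end MP_ad30dc_co
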