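import Pool.Agent.Lib.MP_ad30dc_co.L10
import Pool.Agent.Lib.MP_ad30dc_co.U1
import Pool.Agent.Lib.MP_ad30dc_co.U3
import Pool.Agent.Lib.MP_ad30dc_co.U7
import Pool.Agent.Lib.MP_ad30dc_co.U8
import Pool.Agent.Lib.MP_ad30dc_co.U9

namespace MP_ad30dc_co

variable {V : Type*} [Fintype V] [DecidableEq V]

private theorem U10_succ (lam : ℕ → ℕ) (j k : ℕ) :
    ∑ i ∈ Finset.range (2 * (k + 1)), lam (2 * j + i) =
      ∑ i ∈ Finset.range (2 * k), lam (2 * j + i) + lam (2 * j + 2 * k) +
        lam (2 * j + 2 * k + 1) := by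
  rw [show 2 * (k + 1) = 2 * k + 1 + 1 by ring, Finset.sum_range_succ, Finset.sum_range_succ]
  congr 2

private theorem U10_pred (lam : ℕ → ℕ) (j k : ℕ) (hj : 1 ≤ j) :
    ∑ i ∈ Finset.range (2 * (k + 1)), lam (2 * (j - 1) + i) =
      ∑ i ∈ Finset.range (2 * k), lam (2 * j + i) + lam (2 * j - 1) + lam (2 * j - 2) := by
  obtain ⟨l, rfl⟩ : ∃ l, j = l + 1 := ⟨j - 1, by omega⟩
  rw [show 2 * (k + 1) = 2 * k + 1 + 1 by ring, Finset.sum_range_succ', Finset.sum_range_succ']
  have e1 : 2 * (l + 1) - 1 = 2 * l + 1 := by omega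
  have e2 : 2 * (l + 1) - 2 = 2 * l := by omega
  rw [e1, e2]
  have e3 : ∀ i, 2 * (l + 1 - 1) + (i + 1 + 1) = 2 * (l + 1) + i := by intro i; omega
  simp only [e3]
  have e4 : 2 * (l + 1 - 1) + (0 + 1) = 2 * l + 1 := by omega
  have e5 : 2 * (l + 1 - 1) + 0 = 2 * l := by omega
  rw [e4, e5]

private theorem U10_mono (lam : ℕ → ℕ) (j k r : ℕ) (hk : k ≤ r) :
    ∑ i ∈ Finset.range (2 * k), lam (2 * j + i) ≤ ∑ i ∈ Finset.range (2 * r), lam (2 * j + i) :=
  Finset.sum_le_sum_of_subset (Finset.range_mono (by omega))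

/-- ROW U10 (the whole construction; compare `core_linear` of L10, finished proof `ol_L10.lean`).
`f = n - 1 ≥ 1`, `T`, `ω` from `exists_good`, `S = bdry G T`, `S.card ≤ n - 1`.
Let `σ j k = ∑ i ∈ range (2 k), lam (2 j + i)`; by `hn` `σ j r ≤ n` for all `j`, and for `k < r`
`σ j k + 2 ≤ σ j r ≤ n` (`hlam`). Claim, by induction on `k`, `1 ≤ k ≤ r`: there is `j ≤ r` with
`r + 1 ≤ j + k` and `X, R, a, b, W` with `X.card + 1 ≤ σ j k` and one of
(I) `StI G T S X R lam j k a b W`, (P) `StP G T S X R lam j k a b W`,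
(Q) `StQ G T S X R lam j k a b W`.
`k = 1`: `start_I` with `m = n - 1` (`m + lam (2 r) + lam (2 r + 1) ≤ (n - 1) + n ≤ d`), `j = r`.
Step from `k` to `k + 1 ≤ r`; note `j ≥ 2`. In case (I) apply `link` (`X.card + 1 ≤ σ j k ≤ n - 2`).
First outcome: `extend_I` (`hd1`: `|S| + |X| + lam + lam + 1 ≤ (n - 1) + σ j (k + 1) ≤ 2 n - 1`,
`hd2` in the same way with `σ (j - 1) (k + 1) = lam (2 j - 2) + lam (2 j - 1) + σ j k`). Second and
third outcome: we are in case (P) or (Q) for the same `k`. Case (P): `step_P`. Case (Q): `step_Q`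
(`j - 1`).
Finally `k = r`: `X.card ≤ σ j r - 1 ≤ n - 1 = f`: `close_S`, `close_P` or `close_Q`. -/
theorem core_full [Nonempty V] (G : V → V → Prop) (hG : ∀ v, ¬ G v v) (lam : ℕ → ℕ)
    (hlam : ∀ i, 1 ≤ lam i) (r n d : ℕ) (hr : 1 ≤ r) (hn2 : 2 ≤ n)
    (hn : ∀ j, ∑ i ∈ Finset.range (2 * r), lam (2 * j + i) ≤ n) (hd : 2 * n - 1 ≤ d)
    (hdeg : ∀ v, d ≤ (out G Finset.univ v).card) :
    ∃ j, Clo G (fun i => lam (2 * j + i)) (2 * r) := by
  classical
  obtain ⟨T, ω, hgood⟩ := exists_good G hG (n - 1) (by omega)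
    (fun v => le_trans (by omega : 1 ≤ d) (hdeg v))
  have hT : T.Nonempty := hgood.1
  have hTm : (bdry G T).card ≤ n - 1 := hgood.2.2.1
  have hσ : ∀ j k, k ≤ r → ∑ i ∈ Finset.range (2 * k), lam (2 * j + i) ≤ n := fun j k hk =>
    (U10_mono lam j k r hk).trans (hn j)
  -- the claim
  have key : ∀ k, 1 ≤ k → k ≤ r →
      ∃ j, j ≤ r ∧ r + 1 ≤ j + k ∧ ∃ (X R : Finset V) (a b : V) (W : List V),
        X.card + 1 ≤ ∑ i ∈ Finset.range (2 * k), lam (2 * j + i) ∧
        (StI G T (bdry G T) X R lam j k a b W ∨ StP G T (bdry G T) X R lam j k a b W ∨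
          StQ G T (bdry G T) X R lam j k a b W) := by
    intro k hk
    induction k, hk using Nat.le_induction with
    | base =>
      intro _
      have h1 : ∑ i ∈ Finset.range (2 * 1), lam (2 * r + i) = lam (2 * r) + lam (2 * r + 1) := by
        simp [Finset.sum_range_succ]
      have h2 := hσ r 1 hr
      obtain ⟨X, R, a, b, W, h3, h4⟩ := start_I G hG T hT (n - 1) hTm lam hlam r d
        (by omega) hdeg
      exact ⟨r, le_rfl, le_rfl, X, R, a, b, W, by omega, Or.inl h4⟩
    | succ k hk1 ih =>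
      intro hkr
      obtain ⟨j, hj, hjk, X, R, a, b, W, hX, hst⟩ := ih (by omega)
      have hj1 : 1 ≤ j := by omega
      have h4 := U10_succ lam j k
      have h5 := hσ j (k + 1) hkr
      have h6 := U10_pred lam j k hj1
      have h7 := hσ (j - 1) (k + 1) hkr
      have h8 := hlam (2 * j + 2 * k)
      have h9 := hlam (2 * j + 2 * k + 1)
      have goP : ∀ (R : Finset V) (a b : V) (W : List V),
          StP G T (bdry G T) X R lam j k a b W →
          ∃ j, j ≤ r ∧ r + 1 ≤ j + (k + 1) ∧ ∃ (X R : Finset V) (a b : V) (W : List V),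
            X.card + 1 ≤ ∑ i ∈ Finset.range (2 * (k + 1)), lam (2 * j + i) ∧
            (StI G T (bdry G T) X R lam j (k + 1) a b W ∨
              StP G T (bdry G T) X R lam j (k + 1) a b W ∨
              StQ G T (bdry G T) X R lam j (k + 1) a b W) := by
        intro R a b W hst
        obtain ⟨X', R', a', W', h10, h11⟩ := step_P G hG T (bdry G T) X R lam hlam j k d hk1 a b W
          hdeg hst (by omega)
        exact ⟨j, hj, by omega, X', R', a', b, W', by omega, Or.inr (Or.inl h11)⟩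
      have goQ : ∀ (R : Finset V) (a b : V) (W : List V),
          StQ G T (bdry G T) X R lam j k a b W →
          ∃ j, j ≤ r ∧ r + 1 ≤ j + (k + 1) ∧ ∃ (X R : Finset V) (a b : V) (W : List V),
            X.card + 1 ≤ ∑ i ∈ Finset.range (2 * (k + 1)), lam (2 * j + i) ∧
            (StI G T (bdry G T) X R lam j (k + 1) a b W ∨
              StP G T (bdry G T) X R lam j (k + 1) a b W ∨
              StQ G T (bdry G T) X R lam j (k + 1) a b W) := by
        intro R a b W hst
        obtain ⟨X', R', b', W', h10, h11⟩ := step_Q G hG T (bdry G T) X R lam hlam j k d hk1 hj1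
          a b W hdeg hst (by omega)
        exact ⟨j - 1, by omega, by omega, X', R', a, b', W', by omega, Or.inr (Or.inr h11)⟩
      rcases hst with hst | hst | hst
      · rcases link G T (n - 1) ω hgood X R lam j k hk1 a b W hst (by omega) with
          ⟨Q, a', b', W', h10, h11⟩ | ⟨Q, a', b', W', h10⟩ | ⟨Q, a', b', W', h10⟩
        · rcases extend_I G hG T (bdry G T) X Q lam hlam j k d hk1 hj1 a' b' W' hdeg h10 h11
            (by omega) (by omega) with ⟨X', R', a'', W'', h12, h13⟩ | ⟨X', R', b'', W'', h12, h13⟩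
          · exact ⟨j, hj, by omega, X', R', a'', b', W'', by omega, Or.inl h13⟩
          · exact ⟨j - 1, by omega, by omega, X', R', a', b'', W'', by omega, Or.inl h13⟩
        · exact goP Q a' b' W' h10
        · exact goQ Q a' b' W' h10
      · exact goP R a b W hst
      · exact goQ R a b W hst
  obtain ⟨j, hj, hjk, X, R, a, b, W, hX, hst⟩ := key r hr le_rfl
  have h1 := hn j
  refine ⟨j, ?_⟩
  rcases hst with hst | hst | hst
  · exact close_S G T (n - 1) ω hgood X R lam j r hr a b W hst (by omega)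
  · exact close_P G T (n - 1) ω hgood X R lam j r hr a b W hst (by omega)
  · exact close_Q G T (n - 1) ω hgood X R lam j r hr a b W hst (by omega)

end MP_ad30dc_co
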