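import Pool.Agent.Lib.MP_ad30dc_co.U10
import Pool.Agent.Lib.MP_ad30dc_co.N1
import Pool.Agent.Lib.MP_ad30dc_co.N2
import Pool.Agent.Lib.MP_ad30dc_co.H1

namespace MP_ad30dc_co

/-- ROW U11 (the final theorem; compare `main_linear` of N3, finished proof `ol_N3.lean`).
`{w | D.Adj v w}.ncard = (out D.Adj univ v).card`. If `o` is constant: `directed_case`
(`n - 1 ≤ 2 n - 1`). Otherwise take `r, s, B` from `exists_blocks`; `lam i = B (i + 1) - B i`
(`≥ 1`), `∑ i ∈ range (2 r), lam (2 j + i) = B (2 j + 2 r) - B (2 j) = n` (telescoping);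
`core_full` with `d = 2 n - 1`, then `subdivision_of_clo`. -/
theorem main_full {V : Type*} [Finite V] [Nonempty V] (n : ℕ) (hn : 3 ≤ n) (o : ZMod n → Bool)
    (D : Digraph V) (hD : ∀ v, ¬ D.Adj v v)
    (hdeg : ∀ v, 2 * n - 1 ≤ {w | D.Adj v w}.ncard) :
    ContainsSubdivision (orientedCycle n o) D := by
  classical
  have : Fintype V := Fintype.ofFinite V
  have hout : ∀ v, {w | D.Adj v w}.ncard = (out D.Adj Finset.univ v).card := by
    intro v
    rw [← Set.ncard_coe_finset]
    congr 1
    ext w
    simp
  have hdeg' : ∀ v, 2 * n - 1 ≤ (out D.Adj Finset.univ v).card := by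
    intro v
    rw [← hout v]
    exact hdeg v
  by_cases hc : ∃ b, ∀ i, o i = b
  · obtain ⟨b, hb⟩ := hc
    obtain rfl : o = fun _ => b := funext hb
    exact directed_case D hD n hn b (fun v => le_trans (by omega) (hdeg' v))
  · push Not at hc
    obtain ⟨b, hb⟩ := hc true
    obtain ⟨a, ha⟩ := hc false
    have hb' : o b = false := by
      cases h : o b
      · rfl
      · exact absurd h hb
    have ha' : o a = true := by
      cases h : o a
      · exact absurd h ha
      · rfl
    obtain ⟨r, s, B, hr, hnum, -, hBlt, hBn, hB⟩ := exists_blocks n hn o a b ha' hb'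
    have hmono : StrictMono B := strictMono_nat_of_lt_succ hBlt
    obtain ⟨j, hj⟩ := core_full D.Adj hD (fun i => B (i + 1) - B i)
      (fun i => by have := hBlt i; show 1 ≤ B (i + 1) - B i; omega) r n (2 * n - 1) hr
      (by omega)
      (fun j => by
        have h1 := Finset.sum_range_tsub (f := fun i => B (2 * j + i))
          (fun x y hxy => hmono.monotone (by omega)) (2 * r)
        have h2 := hBn (2 * j)
        refine le_of_eq ?_
        refine Eq.trans h1 ?_
        show B (2 * j + 2 * r) - B (2 * j + 0) = n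
        rw [h2]
        simp) le_rfl hdeg'
    exact subdivision_of_clo n hn o D r hr s B hBlt hBn hB j hj

end MP_ad30dc_co
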