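import Pool.Agent.Lib.MP_ad30dc_co.L2
import Pool.Agent.Lib.MP_ad30dc_co.U0

namespace MP_ad30dc_co

variable {V : Type*} [DecidableEq V]

open Classical in
/-- The vertices of `R` which can be reached from `a` or `b` inside `R` without the vertex `c`. -/
noncomputable def avoid (G : V → V → Prop) (R : Finset V) (a b c : V) : Finset V :=
  R.filter (fun v => v ∈ Rch G (↑R \ {c}) {a, b})

theorem mem_avoid {G : V → V → Prop} {R : Finset V} {a b c v : V} :
    v ∈ avoid G R a b c ↔ v ∈ R ∧ v ∈ Rch G (↑R \ {c}) {a, b} := by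
  classical
  simp [avoid]

theorem U4_sub (G : V → V → Prop) (R Q Q' : Finset V) (hQ : IsTerm G R Q)
    (hQ' : IsTerm G R Q') (v : V) (hv : v ∈ Q) (hv' : v ∈ Q') : Q ⊆ Q' := by
  intro u hu
  have h1 : u ∈ Rch G (↑Q) {v} := hQ.2.2.2 v hv u hu
  have h2 : Rch G (↑Q) {v} ⊆ (↑Q' : Set V) := by
    apply Rch_ind
    · intro x hx _
      have : x = v := hx
      rw [this]
      exact hv'
    · intro x hx w hw hG
      exact hQ'.2.2.1 x hx w (hQ.2.1 hw) hG
  exact h2 h1

/-- ROW U4a (two terminal components with a common vertex are equal). For `u ∈ Q`,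
`u ∈ Rch G Q {v} ⊆ Rch G R {v}`, and `Q'` is closed in `R` and contains `v`, so it contains `u`
(`Rch_ind`); and symmetrically. -/
theorem term_unique (G : V → V → Prop) (R Q Q' : Finset V) (hQ : IsTerm G R Q)
    (hQ' : IsTerm G R Q') (v : V) (hv : v ∈ Q) (hv' : v ∈ Q') : Q = Q' :=
  Finset.Subset.antisymm (U4_sub G R Q Q' hQ hQ' v hv hv') (U4_sub G R Q' Q hQ' hQ v hv' hv)

/-- ROW U4b. Apply `exists_term` to `R0 = {u ∈ R | u ∈ Rch G R {v}}` (it contains `v`). `R0` is
closed in `R` (`Rch_step`), so `Q` is closed in `R`. -/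
theorem exists_term_from (G : V → V → Prop) (R : Finset V) (v : V) (hv : v ∈ R) :
    ∃ Q, IsTerm G R Q ∧ ∃ q ∈ Q, q ∈ Rch G (↑R) {v} := by
  classical
  have hne : (R.filter (fun u => u ∈ Rch G (↑R) {v})).Nonempty :=
    ⟨v, Finset.mem_filter.2 ⟨hv, Rch_base (Set.mem_singleton v) hv⟩⟩
  obtain ⟨Q, hQ⟩ := exists_term G (R.filter (fun u => u ∈ Rch G (↑R) {v})) hne
  have hsub : ∀ q ∈ Q, q ∈ R ∧ q ∈ Rch G (↑R) {v} := fun q hq =>
    Finset.mem_filter.1 (hQ.2.1 hq)
  refine ⟨Q, ⟨hQ.1, fun q hq => (hsub q hq).1, ?_, hQ.2.2.2⟩, ?_⟩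
  · intro x hx w hw hG
    exact hQ.2.2.1 x hx w (Finset.mem_filter.2 ⟨hw, Rch_step (hsub x hx).2 hG hw⟩) hG
  · obtain ⟨q, hq⟩ := hQ.1
    exact ⟨q, hq, (hsub q hq).2⟩

/-- ROW U4c (initial segment up to `c`). `first_hit` (or `split_left`) gives the initial segment
`L1` of `L` from `u` to `c`. `L1 = L0 ++ [c]` and `c ∉ L0` (no repetition). If `L0 = []` then
`u = c` and `L1 = [c]`. Otherwise `L0` is a path from `u` inside `R \ {c}`, so all its elements are
in `Rch G (R \ {c}) {a, b}` (`Rch_path`, `Rch_base`), that is, in `avoid G R a b c`. -/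
theorem to_c (G : V → V → Prop) (R : Finset V) (a b c u q : V) (L : List V)
    (hL : IsP G (↑R) u q L) (hu : u = a ∨ u = b) (hc : c ∈ L) :
    ∃ L1, IsP G (↑(insert c (avoid G R a b c)) : Set V) u c L1 ∧ ∀ y ∈ L1, y ∈ L := by
  obtain ⟨L1, hL1, hsub⟩ := IsP.split_left hL hc
  refine ⟨L1, IsP.of_mem hL1 ?_, hsub⟩
  obtain ⟨hch, hnd, hmem, hhead, hlast⟩ := hL1
  obtain ⟨L0, rfl⟩ := List.getLast?_eq_some_iff.1 hlast
  have hcn : c ∉ L0 := by
    intro h
    exact (List.nodup_append.1 hnd).2.2 c h c (by simp) rfl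
  have hnd0 : L0.Nodup := (List.nodup_append.1 hnd).1
  intro y hy
  rcases List.mem_append.1 hy with hy | hy
  · rcases L0 with _ | ⟨d, L0⟩
    · simp at hy
    · have hdu : d = u := by simpa using hhead
      subst hdu
      have hlast0 : (d :: L0).getLast? = some ((d :: L0).getLast (by simp)) :=
        List.getLast?_eq_some_getLast (by simp)
      have hP : IsP G (↑R \ {c}) d ((d :: L0).getLast (by simp)) (d :: L0) := by
        refine ⟨(List.isChain_append.1 hch).1, hnd0, ?_, rfl, hlast0⟩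
        intro x hx
        refine ⟨hmem x (List.mem_append_left _ hx), ?_⟩
        intro hxc
        have hxc' : x = c := hxc
        exact hcn (hxc' ▸ hx)
      have hbase : d ∈ Rch G (↑R \ {c}) {a, b} := by
        refine Rch_base ?_ (IsP.left_mem hP)
        rcases hu with h | h
        · left; exact h
        · right; exact h
      have hyr := Rch_path hbase hP y hy
      have hyR : y ∈ R := (Rch_subset hyr).1
      rw [Finset.coe_insert]
      exact Set.mem_insert_of_mem _ (Finset.mem_coe.2 (mem_avoid.2 ⟨hyR, hyr⟩))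
  · have : y = c := by simpa using hy
    rw [this, Finset.coe_insert]
    exact Set.mem_insert _ _

/-- ROW U4d (no return). `PC` is a path inside `R` that starts in `c` and ends in a terminal
component `Q`, and `c` separates `{a, b}` from `Q`. Then `PC` does not meet `avoid G R a b c`:
`PC = c :: P'`, and for `y ∈ PC ∩ avoid`, `y ≠ c` (as `y ∈ R \ {c}`), so `y ∈ P'` and the final
segment of `P'` from `y` (`split_right` for the path `P'`, inside `R \ {c}` since `c ∉ P'`) shows
that its end `t` is in `Rch G (R \ {c}) {a, b}` (`Rch_trans`). -/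
theorem no_return (G : V → V → Prop) (R : Finset V) (a b c t : V) (PC : List V)
    (hPC : IsP G (↑R) c t PC) (ht : t ∉ Rch G (↑R \ {c}) {a, b}) :
    ∀ y ∈ PC, y ∉ avoid G R a b c := by
  intro y hy hya
  have hyr := (mem_avoid.1 hya).2
  have hyc : y ≠ c := by
    intro h
    exact (Rch_subset hyr).2 h
  obtain ⟨P, rfl⟩ := IsP.eq_cons hPC
  obtain ⟨hch, hnd, hmem, hhead, hlast⟩ := hPC
  have hyP : y ∈ P := by
    rcases List.mem_cons.1 hy with h | h
    · exact absurd h hyc
    · exact h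
  rcases P with _ | ⟨d, P⟩
  · simp at hyP
  · have hcn : c ∉ d :: P := (List.nodup_cons.1 hnd).1
    have hP : IsP G (↑R \ {c}) d t (d :: P) := by
      refine ⟨hch.tail, (List.nodup_cons.1 hnd).2, ?_, rfl, ?_⟩
      · intro x hx
        refine ⟨hmem x (List.mem_cons_of_mem _ hx), ?_⟩
        intro hxc
        have hxc' : x = c := hxc
        exact hcn (hxc' ▸ hx)
      · rw [← hlast]
        simp [List.getLast?_cons_cons]
    obtain ⟨L1, hL1, _⟩ := IsP.split_right hP hyP
    exact ht (Rch_trans hyr ⟨y, Set.mem_singleton y, L1, hL1⟩)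

end MP_ad30dc_co
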